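import Pool.Agent.Lib.EcW.Plane
import Pool.Agent.Lib.ECG.Geo

/-!
# EcW.GeoJ: the growth lemma with one common set of visible directions

Variant of `ECG.geo`: every vertex of the polygon is visible in a direction outside of BOTH gaps. Then the
points whose arcs are inside a gap can be added at the beginning, and only `κ` is lost.
-/

set_option autoImplicit false

namespace Pool.Agent.Lib.ECG

open Pool.Agent.Lib.Pec6744 Real Filter Topology

theorem weight_lt' {P D : Finset E2} {n : ℕ} {κ : ℝ} (hκ : 0 < κ) {w : E2 → ℝ} (hw : ∀ p ∈ P, w p * n ≤ κ)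
    (hD : D ⊆ P) (hn : D.card < n) : ∑ p ∈ D, w p < κ := by
  have hn0 : (0 : ℝ) < n := by
    have : 0 < n := by omega
    exact_mod_cast this
  have h1 : (∑ p ∈ D, w p) * n ≤ D.card * κ := by
    rw [Finset.sum_mul]
    calc ∑ p ∈ D, w p * n ≤ ∑ p ∈ D, κ := Finset.sum_le_sum fun p hp => hw p (hD hp)
      _ = D.card * κ := by rw [Finset.sum_const, nsmul_eq_mul]
  have h2 : (D.card : ℝ) < n := by exact_mod_cast hn
  by_contra hcon
  have hcon := not_lt.1 hcon
  have h3 : κ * n ≤ D.card * κ := (mul_le_mul_of_nonneg_right hcon hn0.le).trans h1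
  have h4 : (D.card : ℝ) * κ < n * κ := mul_lt_mul_of_pos_right h2 hκ
  linarith

/-- three points with the same height are on a line -/
theorem orient_of_tie {a b c : E2} {t : ℝ} (h1 : hh b t = hh a t) (h2 : hh c t = hh a t) :
    orient a b c = 0 := by
  unfold hh at h1 h2
  unfold orient
  have e := sin_sq_add_cos_sq t
  have k1 : (b 0 - a 0) * cos t + (b 1 - a 1) * sin t = 0 := by linarith
  have k2 : (c 0 - a 0) * cos t + (c 1 - a 1) * sin t = 0 := by linarith
  have f1 : ((b 0 - a 0) * (c 1 - a 1) - (b 1 - a 1) * (c 0 - a 0)) * sin t = 0 := by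
    linear_combination (-(c 0 - a 0)) * k1 + (b 0 - a 0) * k2
  have f2 : ((b 0 - a 0) * (c 1 - a 1) - (b 1 - a 1) * (c 0 - a 0)) * cos t = 0 := by
    linear_combination (c 1 - a 1) * k1 - (b 1 - a 1) * k2
  linear_combination (-((b 0 - a 0) * (c 1 - a 1) - (b 1 - a 1) * (c 0 - a 0))) * e +
    sin t * f1 + cos t * f2

/-- a weak maximum in some direction is a hull vertex, in general position -/
theorem ext_of_weak {N : Finset E2} (hN : GenPos N) {a : E2} (ha : a ∈ N) {t : ℝ}
    (h : ∀ p ∈ N, hh p t ≤ hh a t) : a ∈ extPts N := by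
  classical
  by_cases htie : ∃ p ∈ N, p ≠ a ∧ hh p t = hh a t
  swap
  · push Not at htie
    exact ext_of_dir ha (s := t) fun p hp hpa => lt_of_le_of_ne (h p hp) (htie p hp hpa)
  obtain ⟨p, hp, hpa, hpt⟩ := htie
  have hother : ∀ q ∈ N, q ≠ a → q ≠ p → hh q t < hh a t := by
    intro q hq hqa hqp
    refine lt_of_le_of_ne (h q hq) fun hqt => ?_
    exact hN a ha p hp q hq (Ne.symm hpa) (Ne.symm hqa) (Ne.symm hqp) (orient_of_tie hpt hqt)
  have hev : ∀ᶠ s in 𝓝 t, ∀ q ∈ N, q ≠ a → q ≠ p → hh q s < hh a s := by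
    rw [Finset.eventually_all]
    intro q hq
    by_cases hqa : q = a
    · exact Filter.Eventually.of_forall fun s h1 => absurd hqa h1
    by_cases hqp : q = p
    · exact Filter.Eventually.of_forall fun s _ h1 => absurd hqp h1
    · have : ∀ᶠ s in 𝓝 t, hh q s < hh a s :=
        (hh_continuous q).continuousAt.eventually_lt (hh_continuous a).continuousAt
          (hother q hq hqa hqp)
      filter_upwards [this] with s hs _ _ using hs
  obtain ⟨δ, hδ, hball⟩ := Metric.eventually_nhds_iff.1 hev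
  set d : ℝ := min (δ / 2) 1 with hd
  have hd0 : 0 < d := lt_min (by linarith) one_pos
  have hdδ : d < δ := lt_of_le_of_lt (min_le_left _ _) (by linarith)
  have hd1 : d ≤ 1 := min_le_right _ _
  have hpi := pi_gt_three
  have hR : ∀ q ∈ N, q ≠ a → q ≠ p → hh q (t + d) < hh a (t + d) := by
    apply hball
    rw [Real.dist_eq, add_sub_cancel_left, abs_of_pos hd0]
    exact hdδ
  have hL : ∀ q ∈ N, q ≠ a → q ≠ p → hh q (t - d) < hh a (t - d) := by
    apply hball
    rw [Real.dist_eq, sub_sub_cancel_left, abs_neg, abs_of_pos hd0]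
    exact hdδ
  have k1 := hh_three p (t - d) t (t + d)
  have k2 := hh_three a (t - d) t (t + d)
  have e1 : t + d - (t - d) = 2 * d := by ring
  have e2 : t + d - t = d := by ring
  have e3 : t - (t - d) = d := by ring
  rw [e1, e2, e3] at k1 k2
  have hs : 0 < sin d := sin_pos_of_pos_of_lt_pi hd0 (by linarith)
  have hne : hh p (t + d) ≠ hh a (t + d) := fun he =>
    hpa (eq_of_two hpt he (by linarith) (by linarith))
  have hsum : (hh a (t - d) - hh p (t - d)) + (hh a (t + d) - hh p (t + d)) = 0 := by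
    have : ((hh a (t - d) - hh p (t - d)) + (hh a (t + d) - hh p (t + d))) * sin d = 0 := by
      rw [hpt] at k1
      linarith
    exact (mul_eq_zero.1 this).resolve_right hs.ne'
  rcases lt_or_gt_of_ne hne with h1 | h1
  · refine ext_of_dir ha (s := t + d) fun q hq hqa => ?_
    by_cases hqp : q = p
    · rw [hqp]; exact h1
    · exact hR q hq hqa hqp
  · refine ext_of_dir ha (s := t - d) fun q hq hqa => ?_
    by_cases hqp : q = p
    · rw [hqp]; linarith
    · exact hL q hq hqa hqp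

open Classical in
/-- **Growth lemma**, common visible directions. -/
theorem geoJ {P : Finset E2} (hP : GenPos P) {n k : ℕ} (hk : 3 ≤ k) (hkn : k ≤ n) (w : E2 → ℝ)
    (hw0 : ∀ p ∈ P, 0 ≤ w p) {κ : ℝ} (hκ : 0 < κ) (hw : ∀ p ∈ P, w p * n ≤ κ)
    {T0 : Finset E2} (hT0 : T0 ⊆ P) (hkT : k ≤ T0.card) (α β : Fin 2 → ℝ)
    {c : ℝ} (hc : 0 ≤ c)
    (ha : ∀ t, (∀ i, ¬ inG (α i) (β i) t) → ∑ p ∈ P.filter (fun p => Op T0 p t), w p ≤ c)
    (hb : ∀ a ∈ T0, ∃ t, (∀ i, ¬ inG (α i) (β i) t) ∧ ∀ b ∈ T0, b ≠ a → hh b t < hh a t)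
    (hd : ∀ i j, ¬ inG (α j) (β j) (α i) ∧ ¬ inG (α j) (β j) (β i))
    (hS : k * c / 3 + 4 * c + κ ≤ ∑ p ∈ P, w p) :
    ∃ T : Finset E2, T ⊆ P ∧ T.card = n ∧ k ≤ (extPts T).ncard := by
  classical
  have hTne : T0.Nonempty := Finset.card_pos.1 (by omega)
  have gp : ∀ N : Finset E2, N ⊆ P → GenPos N := fun N hN a ha b hb c hc =>
    hP a (hN ha) b (hN hb) c (hN hc)
  by_contra hcon
  push Not at hcon
  -- points whose arcs are inside one gap
  set D : Fin 2 → Finset E2 := fun i =>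
    P.filter (fun p => ∀ t, Op T0 p t → inG (α i) (β i) t) with hD
  have hDP : ∀ i, D i ⊆ P := fun i => Finset.filter_subset _ _
  set T1 : Finset E2 := D 0 ∪ D 1 with hT1
  have hT1P : T1 ⊆ P := Finset.union_subset (hDP 0) (hDP 1)
  have hT01 : T0 ⊆ T1 := by
    intro a haT
    refine Finset.mem_union_left _ (Finset.mem_filter.2 ⟨hT0 haT, fun t h => ?_⟩)
    exact absurd (h a haT) (lt_irrefl _)
  -- the edges of `T1`
  have hE0 : k ≤ (Ed T1).card := by
    have hc01 := Finset.card_le_card hT01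
    rw [Ed_card (gp T1 hT1P) (by omega)]
    have hsub : (T0 : Set E2) ⊆ extPts T1 := by
      intro a haT
      obtain ⟨t, h1, h2⟩ := hb a haT
      refine ext_of_weak (gp T1 hT1P) (hT01 haT) (t := t) fun p hp => ?_
      have hno : ¬ Op T0 p t := by
        intro hO
        rcases Finset.mem_union.1 hp with h3 | h3
        · exact h1 0 ((Finset.mem_filter.1 h3).2 t hO)
        · exact h1 1 ((Finset.mem_filter.1 h3).2 t hO)
      unfold Op at hno
      push Not at hno
      obtain ⟨b, hb1, hb2⟩ := hno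
      refine hb2.trans ?_
      by_cases hba : b = a
      · rw [hba]
      · exact (h2 b hb1 hba).le
    have := Set.ncard_le_ncard hsub (extPts_finite T1)
    rw [Set.ncard_coe_finset] at this
    omega
  -- a largest set with at least `k` edges
  set F := P.powerset.filter (fun T => T1 ⊆ T ∧ k ≤ (Ed T).card) with hF
  have hFne : F.Nonempty :=
    ⟨T1, Finset.mem_filter.2 ⟨Finset.mem_powerset.2 hT1P, Finset.Subset.refl _, hE0⟩⟩
  obtain ⟨T, hTF, hmax⟩ := F.exists_max_image Finset.card hFne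
  obtain ⟨hTP, hT1T, hET⟩ := Finset.mem_filter.1 hTF
  rw [Finset.mem_powerset] at hTP
  have hT0T : T0 ⊆ T := hT01.trans hT1T
  have hTcard : T.card < n := by
    by_contra hge
    obtain ⟨N, h1, h2, h3⟩ := shrink (gp T hTP) hkn (by omega) hET (not_lt.1 hge)
    have := hcon N (h1.trans hTP) h2
    omega
  set K := (Ed T).card with hK
  -- visible edges
  set vis : E2 → Finset (E2 × E2) := fun p => (Ed T).filter (fun e => orient e.1 e.2 p < 0)
    with hvis
  have hT1c : 1 ≤ T.card := by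
    have := Finset.card_le_card hT0T
    omega
  have hmany : ∀ p ∈ P \ T, K + 3 ≤ (vis p).card + k := by
    intro p hp
    obtain ⟨hpP, hpT⟩ := Finset.mem_sdiff.1 hp
    have hins : insert p T ⊆ P := Finset.insert_subset hpP hTP
    have hlt : (Ed (insert p T)).card < k := by
      by_contra hge
      have hge := not_lt.1 hge
      have := hmax (insert p T) (Finset.mem_filter.2 ⟨Finset.mem_powerset.2 hins,
        hT1T.trans (Finset.subset_insert _ _), hge⟩)
      rw [Finset.card_insert_of_notMem hpT] at this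
      omega
    have hext : p ∈ extPts (insert p T) := by
      by_contra hne
      have := Finset.card_le_card (Ed_insert_in (gp _ hins) hpT hne)
      omega
    have h9 : (Ed (insert p T)).card + (vis p).card = K + 2 :=
      Ed_insert (gp _ hins) hpT hT1c hext
    omega
  -- normals
  have hnorm : ∀ e : E2 × E2, ∃ t r : ℝ, e.1 ≠ e.2 → 0 < r ∧
      ∀ c, orient e.1 e.2 c = -r * (hh c t - hh e.1 t) := by
    intro e
    by_cases h : e.1 = e.2
    · exact ⟨0, 0, fun h' => absurd h h'⟩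
    · obtain ⟨t, r, h1, h2⟩ := exists_normal h
      exact ⟨t, r, fun _ => ⟨h1, h2⟩⟩
  choose tn rn htn using hnorm
  have hOvis : ∀ p, ∀ e ∈ vis p, Op T0 p (tn e) := by
    intro p e he a haT
    obtain ⟨he1, he2⟩ := Finset.mem_filter.1 he
    obtain ⟨h1, h2, h3, h4⟩ := mem_Ed.1 (show (e.1, e.2) ∈ Ed T from he1)
    obtain ⟨hr, hf⟩ := htn e h3
    have hp := hf p
    have haT' := hT0T haT
    have h5 : 0 ≤ orient e.1 e.2 a := by
      by_cases h6 : a = e.1
      · rw [h6, orient_self_left]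
      by_cases h7 : a = e.2
      · rw [h7, orient_self_right]
      · exact (h4 a haT' h6 h7).le
    rw [hf a] at h5
    rw [hp] at he2
    have h8 : hh a (tn e) - hh e.1 (tn e) ≤ 0 := by
      by_contra hc2
      have := mul_pos hr (not_le.1 hc2)
      linarith
    have h9 : 0 < hh p (tn e) - hh e.1 (tn e) := by
      by_contra hc2
      have := mul_nonneg hr.le (neg_nonneg.2 (not_lt.1 hc2))
      linarith
    linarith
  -- bad points
  set Bad : Fin 2 → Finset E2 := fun i =>
    (P \ T).filter (fun p => ∃ e ∈ vis p, inG (α i) (β i) (tn e)) with hBad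
  have hBadw : ∀ i, ∑ p ∈ Bad i, w p ≤ 2 * c := by
    intro i
    set Oa := P.filter (fun p => Op T0 p (α i)) with hOa
    set Ob := P.filter (fun p => Op T0 p (β i)) with hOb
    have hsub : Bad i ⊆ Oa ∪ Ob := by
      intro p hp
      obtain ⟨h1, e, he, hG⟩ := Finset.mem_filter.1 hp
      obtain ⟨hpP, hpT⟩ := Finset.mem_sdiff.1 h1
      by_cases h2 : Op T0 p (α i)
      · exact Finset.mem_union_left _ (Finset.mem_filter.2 ⟨hpP, h2⟩)
      by_cases h3 : Op T0 p (β i)
      · exact Finset.mem_union_right _ (Finset.mem_filter.2 ⟨hpP, h3⟩)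
      · exfalso
        apply hpT
        apply hT1T
        have hDi : p ∈ D i := Finset.mem_filter.2 ⟨hpP, arc hTne (hOvis p e he) hG h2 h3⟩
        rw [hT1, Finset.mem_union]
        fin_cases i
        · exact Or.inl hDi
        · exact Or.inr hDi
    have h1 : ∑ p ∈ Bad i, w p ≤ ∑ p ∈ Oa ∪ Ob, w p := by
      apply Finset.sum_le_sum_of_subset_of_nonneg hsub
      intro p hp _
      apply hw0
      rcases Finset.mem_union.1 hp with h | h
      · exact (Finset.mem_filter.1 h).1
      · exact (Finset.mem_filter.1 h).1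
    have h2 : ∑ p ∈ Oa ∪ Ob, w p ≤ ∑ p ∈ Oa, w p + ∑ p ∈ Ob, w p := by
      have e2 := Finset.sum_union_inter (s₁ := Oa) (s₂ := Ob) (f := w)
      have p2 : 0 ≤ ∑ p ∈ Oa ∩ Ob, w p :=
        Finset.sum_nonneg fun p hp => hw0 p (Finset.mem_filter.1 (Finset.mem_inter.1 hp).1).1
      linarith
    have h4 := ha (α i) (fun j => (hd i j).1)
    have h5 := ha (β i) (fun j => (hd i j).2)
    linarith
  -- the remaining points
  set R := (P \ T) \ (Bad 0 ∪ Bad 1) with hR
  have hRw : (∑ p ∈ R, w p) * ((K : ℝ) + 3 - k) ≤ K * c := by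
    have h1 : (∑ p ∈ R, w p) * ((K : ℝ) + 3 - k) ≤ ∑ p ∈ R, w p * ((vis p).card : ℝ) := by
      rw [Finset.sum_mul]
      apply Finset.sum_le_sum
      intro p hp
      have hpPT := (Finset.mem_sdiff.1 hp).1
      have h2 := hmany p hpPT
      have h3 : (K : ℝ) + 3 ≤ (vis p).card + k := by exact_mod_cast h2
      exact mul_le_mul_of_nonneg_left (by linarith) (hw0 p (Finset.mem_sdiff.1 hpPT).1)
    have h2 : ∑ p ∈ R, w p * ((vis p).card : ℝ) =
        ∑ e ∈ Ed T, ∑ p ∈ R.filter (fun p => orient e.1 e.2 p < 0), w p := by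
      have : ∀ p ∈ R, w p * ((vis p).card : ℝ) =
          ∑ e ∈ Ed T, if orient e.1 e.2 p < 0 then w p else 0 := by
        intro p _
        rw [hvis, ← Finset.sum_filter, Finset.sum_const, nsmul_eq_mul, mul_comm]
      rw [Finset.sum_congr rfl this, Finset.sum_comm]
      apply Finset.sum_congr rfl
      intro e _
      rw [Finset.sum_filter]
    have h3 : ∀ e ∈ Ed T, ∑ p ∈ R.filter (fun p => orient e.1 e.2 p < 0), w p ≤ c := by
      intro e he
      rcases (R.filter (fun p => orient e.1 e.2 p < 0)).eq_empty_or_nonempty with h0 | ⟨q, hq⟩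
      · rw [h0, Finset.sum_empty]; exact hc
      · have hnG : ∀ i, ¬ inG (α i) (β i) (tn e) := by
          intro i hG
          obtain ⟨hqR, hqv⟩ := Finset.mem_filter.1 hq
          obtain ⟨hqPT, hqB⟩ := Finset.mem_sdiff.1 hqR
          apply hqB
          have hmem : q ∈ Bad i :=
            Finset.mem_filter.2 ⟨hqPT, e, Finset.mem_filter.2 ⟨he, hqv⟩, hG⟩
          rw [Finset.mem_union]
          fin_cases i
          · exact Or.inl hmem
          · exact Or.inr hmem
        refine le_trans ?_ (ha (tn e) hnG)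
        apply Finset.sum_le_sum_of_subset_of_nonneg
        · intro p hp
          obtain ⟨hpR, hpv⟩ := Finset.mem_filter.1 hp
          have hpP := (Finset.mem_sdiff.1 (Finset.mem_sdiff.1 hpR).1).1
          exact Finset.mem_filter.2 ⟨hpP, hOvis p e (Finset.mem_filter.2 ⟨he, hpv⟩)⟩
        · intro p hp _
          exact hw0 p (Finset.mem_filter.1 hp).1
    have h4 : ∑ e ∈ Ed T, ∑ p ∈ R.filter (fun p => orient e.1 e.2 p < 0), w p ≤ K * c := by
      calc _ ≤ ∑ e ∈ Ed T, c := Finset.sum_le_sum h3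
        _ = K * c := by rw [Finset.sum_const, nsmul_eq_mul]
    linarith
  -- total weight
  have hsplit : ∑ p ∈ P, w p ≤ ∑ p ∈ T, w p + (∑ p ∈ Bad 0, w p + ∑ p ∈ Bad 1, w p +
      ∑ p ∈ R, w p) := by
    have e1 := Finset.sum_sdiff (f := w) hTP
    have hB : Bad 0 ∪ Bad 1 ⊆ P \ T :=
      Finset.union_subset (Finset.filter_subset _ _) (Finset.filter_subset _ _)
    have e2 := Finset.sum_sdiff (f := w) hB
    have e3 := Finset.sum_union_inter (s₁ := Bad 0) (s₂ := Bad 1) (f := w)
    have p1 : 0 ≤ ∑ p ∈ Bad 0 ∩ Bad 1, w p := Finset.sum_nonneg fun p hp =>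
      hw0 p (Finset.mem_sdiff.1 (Finset.mem_filter.1 (Finset.mem_inter.1 hp).1).1).1
    rw [← hR] at e2
    linarith
  have hTw := weight_lt' hκ hw hTP hTcard
  have hRle : ∑ p ∈ R, w p ≤ k * c / 3 := by
    have hk3 : (3 : ℝ) ≤ k := by exact_mod_cast hk
    have hKk : (k : ℝ) ≤ K := by exact_mod_cast hET
    have hpos : (0 : ℝ) < (K : ℝ) + 3 - k := by linarith
    by_contra hgt
    have hgt := not_le.1 hgt
    have h1 : k * c / 3 * ((K : ℝ) + 3 - k) < K * c :=
      lt_of_lt_of_le (mul_lt_mul_of_pos_right hgt hpos) hRw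
    have h2 : (K : ℝ) * c ≤ k * c / 3 * ((K : ℝ) + 3 - k) := by
      have : 0 ≤ c * (((k : ℝ) - 3) * ((K : ℝ) - k)) :=
        mul_nonneg hc (mul_nonneg (by linarith) (by linarith))
      nlinarith
    linarith
  have hb0 := hBadw 0
  have hb1 := hBadw 1
  linarith

end Pool.Agent.Lib.ECG

namespace Pool.Agent.Lib.EcW

open Finset Classical Pool.Agent.Lib.Pec6744 Pool.Agent.Lib.EcR

/-- the growth lemma with the definitions of `EcW.Plane` -/
theorem geoJ {P : Finset E2} (hP : GenPos P) {n k : ℕ} (hk : 3 ≤ k) (hkn : k ≤ n) (w : E2 → ℝ)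
    (hw0 : ∀ p ∈ P, 0 ≤ w p) {κ : ℝ} (hκ : 0 < κ) (hw : ∀ p ∈ P, w p * n ≤ κ)
    {T0 : Finset E2} (hT0 : T0 ⊆ P) (hkT : k ≤ T0.card) (α β : Fin 2 → ℝ)
    {c : ℝ} (hc : 0 ≤ c)
    (ha : ∀ t, (∀ i, ¬ inG (α i) (β i) t) →
      ∑ p ∈ P.filter (fun p => ∀ a ∈ T0, hh a t < hh p t), w p ≤ c)
    (hb : ∀ a ∈ T0, ∃ t, (∀ i, ¬ inG (α i) (β i) t) ∧ ∀ b ∈ T0, b ≠ a → hh b t < hh a t)
    (hd : ∀ i j, ¬ inG (α j) (β j) (α i) ∧ ¬ inG (α j) (β j) (β i))
    (hS : k * c / 3 + 4 * c + κ ≤ ∑ p ∈ P, w p) :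
    ∃ T : Finset E2, T ⊆ P ∧ T.card = n ∧ k ≤ (extPts T).ncard := by
  refine ECG.geoJ hP hk hkn w hw0 hκ hw hT0 hkT α β hc ?_ hb hd hS
  intro t ht
  have h1 := ha t ht
  have h2 : P.filter (fun p => ECG.Op T0 p t) =
      P.filter (fun p => ∀ a ∈ T0, hh a t < hh p t) := by
    ext p
    rw [Finset.mem_filter, Finset.mem_filter]
    exact Iff.rfl
  rw [h2]
  exact h1

end Pool.Agent.Lib.EcW
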