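import Pool.Agent.Lib.Pec6744.Bound

/-!
# EcW.Limit: from the two bounds to the limit of `g(k,n)/n`
-/

set_option autoImplicit false

namespace Pool.Agent.Lib.EcW

open Pool.Agent.Lib.Pec6744

/-- `N` has the property of the problem for `k` and `n`: every planar set of `N` points, no three
on a line, has an `n`-element subset whose convex hull has at least `k` vertices. -/
def GoodN (k n N : ℕ) : Prop :=
  ∀ S : Finset (EuclideanSpace ℝ (Fin 2)), S.card = N →
    (∀ a ∈ S, ∀ b ∈ S, ∀ c ∈ S, a ≠ b → a ≠ c → b ≠ c →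
      ¬ Collinear ℝ ({a, b, c} : Set (EuclideanSpace ℝ (Fin 2)))) →
    ∃ T : Finset (EuclideanSpace ℝ (Fin 2)), T ⊆ S ∧ T.card = n ∧
      k ≤ ({p : EuclideanSpace ℝ (Fin 2) | p ∈ T ∧
            p ∉ convexHull ℝ ((T : Set (EuclideanSpace ℝ (Fin 2))) \ {p})}).ncard

/-- the upper bound for a fixed `k` -/
def FinalStmt (k : ℕ) : Prop := ∀ ε : ℝ, 0 < ε → ∃ n0 : ℕ, ∀ n : ℕ, n0 ≤ n →
  ∀ P : Finset E2, GenPos P → (((k : ℝ) - 1) / 2 + ε) * n ≤ P.card → ¬ NoBig P n k

/-- the lower bound for a fixed `k` -/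
def LowerStmt (k : ℕ) : Prop := ∀ n : ℕ, 1 ≤ n → ∃ S : Finset E2, GenPos S ∧
  S.card = (k - 1) * ((n - 1) / 2) ∧ ∀ T : Finset E2, T ⊆ S → T.card = n → (extPts T).ncard < k

namespace LimitAux

lemma collinear_of_orient {a b c : E2} (hab : a ≠ b) (h : orient a b c = 0) :
    Collinear ℝ ({a, b, c} : Set E2) := by
  rw [collinear_iff_of_mem (p₀ := a) (by simp)]
  refine ⟨b - a, ?_⟩
  intro p hp
  rcases hp with rfl | rfl | hp
  · exact ⟨0, by simp⟩
  · exact ⟨1, by simp⟩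
  · rw [Set.mem_singleton_iff] at hp
    subst hp
    unfold orient at h
    by_cases h0 : b 0 - a 0 = 0
    · have h1 : b 1 - a 1 ≠ 0 := by
        intro h1
        apply hab
        ext i
        fin_cases i
        · show a 0 = b 0
          linarith
        · show a 1 = b 1
          linarith
      have h2 : p 0 - a 0 = 0 := by
        rw [h0] at h
        have : (b 1 - a 1) * (p 0 - a 0) = 0 := by linarith
        exact (mul_eq_zero.1 this).resolve_left h1
      refine ⟨(p 1 - a 1) / (b 1 - a 1), ?_⟩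
      ext i
      fin_cases i
      · show p 0 = (p 1 - a 1) / (b 1 - a 1) * (b 0 - a 0) + a 0
        rw [h0]; linarith
      · show p 1 = (p 1 - a 1) / (b 1 - a 1) * (b 1 - a 1) + a 1
        field_simp
        ring
    · refine ⟨(p 0 - a 0) / (b 0 - a 0), ?_⟩
      ext i
      fin_cases i
      · show p 0 = (p 0 - a 0) / (b 0 - a 0) * (b 0 - a 0) + a 0
        field_simp
        ring
      · show p 1 = (p 0 - a 0) / (b 0 - a 0) * (b 1 - a 1) + a 1
        field_simp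
        linarith

lemma orient_of_collinear {a b c : E2} (h : Collinear ℝ ({a, b, c} : Set E2)) :
    orient a b c = 0 := by
  rw [collinear_iff_of_mem (p₀ := a) (by simp)] at h
  obtain ⟨v, hv⟩ := h
  obtain ⟨r, hr⟩ := hv b (by simp)
  obtain ⟨s, hs⟩ := hv c (by simp)
  have hb : ∀ i, b i = r * v i + a i := by
    intro i
    rw [hr]
    rfl
  have hc : ∀ i, c i = s * v i + a i := by
    intro i
    rw [hs]
    rfl
  unfold orient
  rw [hb 0, hb 1, hc 0, hc 1]
  ring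

lemma genPos_of {S : Finset E2} (h : ∀ a ∈ S, ∀ b ∈ S, ∀ c ∈ S, a ≠ b → a ≠ c → b ≠ c →
    ¬ Collinear ℝ ({a, b, c} : Set E2)) : GenPos S :=
  fun a ha b hb c hc hab hac hbc h0 => h a ha b hb c hc hab hac hbc (collinear_of_orient hab h0)

lemma of_genPos {S : Finset E2} (h : GenPos S) : ∀ a ∈ S, ∀ b ∈ S, ∀ c ∈ S, a ≠ b → a ≠ c →
    b ≠ c → ¬ Collinear ℝ ({a, b, c} : Set E2) :=
  fun a ha b hb c hc hab hac hbc h0 => h a ha b hb c hc hab hac hbc (orient_of_collinear h0)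

lemma goodN_of_final {k : ℕ} (hF : FinalStmt k) (ε : ℝ) (hε : 0 < ε) :
    ∃ n0 : ℕ, ∀ n : ℕ, n0 ≤ n → ∀ N : ℕ, (((k : ℝ) - 1) / 2 + ε) * n ≤ N → GoodN k n N := by
  obtain ⟨n0, h⟩ := hF ε hε
  refine ⟨n0, fun n hn N hN S hS hgp => ?_⟩
  have h1 := h n hn S (genPos_of hgp) (by rw [hS]; exact hN)
  unfold NoBig at h1
  push Not at h1
  exact h1

/-- below the size of the construction nothing is good -/
lemma lt_of_goodN {k n N : ℕ} (hL : LowerStmt k) (hn : 1 ≤ n) (hN : GoodN k n N) :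
    (k - 1) * ((n - 1) / 2) < N := by
  by_contra hcon
  obtain ⟨S, hS1, hS2, hS3⟩ := hL n hn
  have hle : N ≤ S.card := by rw [hS2]; exact not_lt.mp hcon
  obtain ⟨S', hS', hcard⟩ := Finset.exists_subset_card_eq hle
  have hgp : GenPos S' := fun a ha b hb c hc hab hac hbc =>
    hS1 a (hS' ha) b (hS' hb) c (hS' hc) hab hac hbc
  obtain ⟨T, hT1, hT2, hT3⟩ := hN S' hcard (of_genPos hgp)
  exact absurd hT3 (not_le.mpr (hS3 T (hT1.trans hS') hT2))

end LimitAux

open LimitAux in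
/-- the limit of `g(k,n)/n` from the two bounds -/
theorem tendsto_of_bounds (k : ℕ) (hk : 1 ≤ k) (hF : FinalStmt k) (hL : LowerStmt k) :
    Filter.Tendsto (fun n : ℕ => ((sInf {N : ℕ | GoodN k n N} : ℕ) : ℝ) / (n : ℝ))
      Filter.atTop (nhds (((k : ℝ) - 1) / 2)) := by
  rw [Metric.tendsto_atTop]
  intro ε hε
  have hk1 : (1 : ℝ) ≤ k := by exact_mod_cast hk
  set c : ℝ := ((k : ℝ) - 1) / 2 with hc
  have hc0 : 0 ≤ c := by rw [hc]; linarith
  obtain ⟨n1, h1⟩ := goodN_of_final hF (ε / 2) (by positivity)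
  obtain ⟨n2, h2⟩ := exists_nat_gt (2 / ε)
  obtain ⟨n3, h3⟩ := exists_nat_gt (2 * c / ε)
  refine ⟨max 1 (max n1 (max n2 n3)), fun n hn => ?_⟩
  have hn0 : 1 ≤ n := (le_max_left _ _).trans hn
  have hn1 : n1 ≤ n := ((le_max_left _ _).trans (le_max_right _ _)).trans hn
  have hn2 : n2 ≤ n :=
    (((le_max_left _ _).trans (le_max_right _ _)).trans (le_max_right _ _)).trans hn
  have hn3 : n3 ≤ n :=
    (((le_max_right _ _).trans (le_max_right _ _)).trans (le_max_right _ _)).trans hn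
  have hnpos : (0 : ℝ) < n := by exact_mod_cast hn0
  have hx2 : 2 / ε < n := lt_of_lt_of_le h2 (by exact_mod_cast hn2)
  have hx3 : 2 * c / ε < n := lt_of_lt_of_le h3 (by exact_mod_cast hn3)
  rw [div_lt_iff₀ hε] at hx2 hx3
  -- upper bound
  have hgood := h1 n hn1 _ (Nat.le_ceil _)
  set g : ℕ := sInf {N : ℕ | GoodN k n N} with hg
  have h4 : g ≤ ⌈(c + ε / 2) * n⌉₊ := Nat.sInf_le hgood
  have h5 : (g : ℝ) ≤ (⌈(c + ε / 2) * n⌉₊ : ℝ) := by exact_mod_cast h4
  have h6 : (⌈(c + ε / 2) * n⌉₊ : ℝ) < (c + ε / 2) * n + 1 :=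
    Nat.ceil_lt_add_one (by positivity)
  -- lower bound
  have hmem : GoodN k n g := Nat.sInf_mem (s := {N : ℕ | GoodN k n N}) ⟨_, hgood⟩
  have h7 := lt_of_goodN hL hn0 hmem
  have h8 : ((k - 1 : ℕ) : ℝ) = (k : ℝ) - 1 := by
    rw [Nat.cast_sub hk, Nat.cast_one]
  have h9 : ((n : ℝ) - 2) / 2 ≤ (((n - 1) / 2 : ℕ) : ℝ) := by
    have h10 : n ≤ 2 * ((n - 1) / 2) + 2 := by omega
    have h11 : (n : ℝ) ≤ 2 * (((n - 1) / 2 : ℕ) : ℝ) + 2 := by exact_mod_cast h10
    linarith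
  have h12 : ((k : ℝ) - 1) * (((n : ℝ) - 2) / 2) < g := by
    have h13 : (((k - 1) * ((n - 1) / 2) : ℕ) : ℝ) < g := by exact_mod_cast h7
    rw [Nat.cast_mul, h8] at h13
    refine lt_of_le_of_lt ?_ h13
    exact mul_le_mul_of_nonneg_left h9 (by linarith)
  have h14 : c * ((n : ℝ) - 2) < g := by
    have : ((k : ℝ) - 1) * (((n : ℝ) - 2) / 2) = c * ((n : ℝ) - 2) := by rw [hc]; ring
    rw [← this]
    exact h12
  rw [Real.dist_eq, abs_lt]
  constructor
  · have h15 : c - ε < (g : ℝ) / n := by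
      rw [lt_div_iff₀ hnpos]
      have e1 : (c - ε) * n = c * (n - 2) + (2 * c - n * ε) := by ring
      rw [e1]
      linarith
    linarith
  · have h16 : (g : ℝ) / n < c + ε := by
      rw [div_lt_iff₀ hnpos]
      have e1 : (c + ε) * n = (c + ε / 2) * n + (n * ε) / 2 := by ring
      rw [e1]
      linarith
    linarith

end Pool.Agent.Lib.EcW
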