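import Pool.Agent.Lib.EcW.Plane

/-!
# EcW.CritEx: critical and sample angles exist
-/

set_option autoImplicit false

namespace Pool.Agent.Lib.EcW

open Finset Classical Pool.Agent.Lib.Pec6744

/-- two different points tie at one angle at most in a half turn -/
theorem tie_unique {p q : E2} (hpq : p ≠ q) {a b : ℝ} (ha : 0 ≤ a) (hab : a < b)
    (hb : b < Real.pi) (h1 : hh p a = hh q a) (h2 : hh p b = hh q b) : False := by
  have hs : 0 < Real.sin (b - a) := Real.sin_pos_of_pos_of_lt_pi (by linarith) (by linarith)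
  have key : ∀ c, hh p c = hh q c := by
    intro c
    have e1 := hh_three p a c b
    have e2 := hh_three q a c b
    rw [h1, h2, e2] at e1
    exact (mul_right_cancel₀ hs.ne' e1).symm
  apply hpq
  ext i
  fin_cases i
  · have := key 0
    unfold hh at this
    simpa using this
  · have := key (Real.pi / 2)
    unfold hh at this
    simpa using this

theorem hh_add_int_pi (p : E2) (a : ℝ) (n : ℤ) :
    hh p (a + n * Real.pi) = (-1) ^ n * hh p a := by
  unfold hh
  rw [Real.cos_add_int_mul_pi, Real.sin_add_int_mul_pi]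
  ring

theorem ties_finite {ι : Type} [Fintype ι] {x : ι → E2} (hx : Function.Injective x) :
    {a : ℝ | 0 ≤ a ∧ a < Real.pi ∧ ∃ i j, i ≠ j ∧ hh (x i) a = hh (x j) a}.Finite := by
  have h : {a : ℝ | 0 ≤ a ∧ a < Real.pi ∧ ∃ i j, i ≠ j ∧ hh (x i) a = hh (x j) a} ⊆
      ⋃ q : ι × ι, {a : ℝ | 0 ≤ a ∧ a < Real.pi ∧ q.1 ≠ q.2 ∧ hh (x q.1) a = hh (x q.2) a} := by
    rintro a ⟨h1, h2, i, j, h3, h4⟩
    rw [Set.mem_iUnion]
    exact ⟨(i, j), h1, h2, h3, h4⟩
  refine Set.Finite.subset (Set.finite_iUnion fun q => ?_) h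
  apply Set.Subsingleton.finite
  rintro a ⟨h1, h2, h3, h4⟩ b ⟨g1, g2, g3, g4⟩
  have hne : x q.1 ≠ x q.2 := fun h => h3 (hx h)
  rcases lt_trichotomy a b with h | h | h
  · exact (tie_unique hne h1 h g2 h4 g4).elim
  · exact h
  · exact (tie_unique hne g1 h h2 g4 h4).elim

/-- periodic continuation of a finite set of angles -/
theorem exists_kap (A : Finset ℝ) (hA : ∀ a ∈ A, 0 ≤ a ∧ a < Real.pi) (H : ℕ) (hH : A.card = H)
    (hpos : 0 < H) : ∃ kap : ℤ → ℝ, StrictMono kap ∧ (∀ t, kap (t + H) = kap t + Real.pi) ∧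
      ∀ a ∈ A, ∀ n : ℤ, ∃ t, kap t = a + n * Real.pi := by
  have hp : (0 : ℤ) < H := by exact_mod_cast hpos
  have hlt : ∀ t : ℤ, (t % (H : ℤ)).toNat < H := by
    intro t
    have h1 := Int.emod_nonneg t hp.ne'
    have h2 := Int.emod_lt_of_pos t hp
    omega
  set f := A.orderEmbOfFin hH with hf
  have hfA : ∀ r, f r ∈ A := fun r => Finset.orderEmbOfFin_mem A hH r
  set kap : ℤ → ℝ := fun t => f ⟨(t % (H : ℤ)).toNat, hlt t⟩ + ((t / (H : ℤ) : ℤ) : ℝ) * Real.pi
    with hkap
  have hval : ∀ (t q : ℤ) (r : ℕ) (hr : r < H), t = q * H + r →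
      kap t = f ⟨r, hr⟩ + (q : ℝ) * Real.pi := by
    intro t q r hr ht
    have h := (Int.ediv_emod_unique (a := t) (b := (H : ℤ)) (r := (r : ℤ)) (q := q) hp).2
      ⟨by rw [ht]; ring, by omega, by exact_mod_cast hr⟩
    have h1 : kap t = f ⟨(t % (H : ℤ)).toNat, hlt t⟩ + ((t / (H : ℤ) : ℤ) : ℝ) * Real.pi := rfl
    rw [h1, h.1]
    congr 2
    apply Fin.ext
    simp only
    rw [h.2]
    exact Int.toNat_natCast r
  have hdec : ∀ t : ℤ, ∃ (q : ℤ) (r : ℕ), r < H ∧ t = q * H + r := by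
    intro t
    refine ⟨t / H, (t % (H : ℤ)).toNat, hlt t, ?_⟩
    have h1 := Int.emod_nonneg t hp.ne'
    rw [Int.toNat_of_nonneg h1]
    have := Int.emod_add_mul_ediv t (H : ℤ)
    linarith
  refine ⟨kap, strictMono_int_of_lt_succ fun t => ?_, fun t => ?_, fun a ha n => ?_⟩
  · obtain ⟨q, r, hr, ht⟩ := hdec t
    rw [hval t q r hr ht]
    by_cases h : r + 1 < H
    · rw [hval (t + 1) q (r + 1) h (by rw [ht]; push_cast; ring)]
      have : f ⟨r, hr⟩ < f ⟨r + 1, h⟩ := by
        apply f.strictMono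
        rw [Fin.lt_def]
        simp
      linarith
    · have hr1 : r + 1 = H := by omega
      rw [hval (t + 1) (q + 1) 0 hpos (by rw [ht, ← hr1]; push_cast; ring)]
      have h1 := (hA _ (hfA ⟨r, hr⟩)).2
      have h2 := (hA _ (hfA ⟨0, hpos⟩)).1
      push_cast
      linarith
  · obtain ⟨q, r, hr, ht⟩ := hdec t
    rw [hval t q r hr ht, hval (t + H) (q + 1) r hr (by rw [ht]; ring)]
    push_cast
    ring
  · have h1 : a ∈ Set.range f := by
      rw [hf, Finset.range_orderEmbOfFin]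
      exact ha
    obtain ⟨r, hr⟩ := h1
    refine ⟨n * H + (r : ℕ), ?_⟩
    rw [hval _ n r r.isLt rfl, hr]

theorem exists_dummy (n : ℕ) (hn : 0 < n) :
    ∃ B : Finset ℝ, B.card = n ∧ ∀ a ∈ B, 0 ≤ a ∧ a < Real.pi := by
  have hπ := Real.pi_pos
  have hn' : (0 : ℝ) < n := by exact_mod_cast hn
  refine ⟨(Finset.range n).image (fun j : ℕ => (j : ℝ) * Real.pi / n), ?_, ?_⟩
  · rw [Finset.card_image_of_injective, Finset.card_range]
    intro i j hij
    simp only at hij
    have h1 : (i : ℝ) * Real.pi = j * Real.pi := by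
      field_simp at hij
      rw [hij]
    exact_mod_cast mul_right_cancel₀ hπ.ne' h1
  · intro a ha
    rw [Finset.mem_image] at ha
    obtain ⟨j, hj, rfl⟩ := ha
    rw [Finset.mem_range] at hj
    have h1 : (j : ℝ) < n := by exact_mod_cast hj
    constructor
    · positivity
    · rw [div_lt_iff₀ hn', mul_comm]
      exact mul_lt_mul_of_pos_left h1 hπ

/-- **critical and sample angles exist** -/
theorem exists_crit {ι : Type} [Fintype ι] (x : ι → E2) (hx : Function.Injective x) :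
    ∃ H : ℕ, 100 ≤ H ∧ Nonempty (Crit x H) := by
  have hπ := Real.pi_pos
  obtain ⟨B, hBc, hB⟩ := exists_dummy 100 (by norm_num)
  set A : Finset ℝ := (ties_finite hx).toFinset ∪ B with hA
  have hAle : 100 ≤ A.card := by
    have h1 : B.card ≤ A.card := Finset.card_le_card Finset.subset_union_right
    omega
  have hA' : ∀ a ∈ A, 0 ≤ a ∧ a < Real.pi := by
    intro a ha
    rw [hA, Finset.mem_union, Set.Finite.mem_toFinset] at ha
    rcases ha with ha | ha
    · exact ⟨ha.1, ha.2.1⟩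
    · exact hB a ha
  obtain ⟨kap, hmono, hper, hall⟩ := exists_kap A hA' A.card rfl (by omega)
  refine ⟨A.card, hAle, ⟨{
    kap := kap
    th := fun t => (kap (t - 1) + kap t) / 2
    lt1 := fun t => ?_
    lt2 := fun t => ?_
    per := fun t => ?_
    perk := hper
    crit := fun i j hij ψ h => ?_ }⟩⟩
  · have := hmono (show t - 1 < t by omega)
    linarith
  · have := hmono (show t < t + 1 by omega)
    rw [add_sub_cancel_right]
    linarith
  · have h1 := hper (t - 1)
    have h2 := hper t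
    have e : t + (A.card : ℤ) - 1 = t - 1 + A.card := by ring
    rw [e, h1, h2]
    ring
  · set n : ℤ := ⌊ψ / Real.pi⌋ with hn
    have h1 : (n : ℝ) ≤ ψ / Real.pi := Int.floor_le _
    have h2 : ψ / Real.pi < n + 1 := Int.lt_floor_add_one _
    rw [le_div_iff₀ hπ] at h1
    rw [div_lt_iff₀ hπ] at h2
    have h3 : hh (x i) (ψ - n * Real.pi) = hh (x j) (ψ - n * Real.pi) := by
      have e : ψ = (ψ - n * Real.pi) + n * Real.pi := by ring
      rw [e, hh_add_int_pi, hh_add_int_pi] at h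
      have hne : ((-1 : ℝ) ^ n) ≠ 0 := zpow_ne_zero _ (by norm_num)
      exact mul_left_cancel₀ hne h
    have h4 : ψ - n * Real.pi ∈ A := by
      rw [hA, Finset.mem_union]
      left
      rw [Set.Finite.mem_toFinset]
      exact ⟨by linarith, by linarith, i, j, hij, h3⟩
    obtain ⟨t, ht⟩ := hall _ h4 n
    exact ⟨t, by rw [ht]; ring⟩

end Pool.Agent.Lib.EcW
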