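import Pool.Agent.Lib.EcW.Defs
import Pool.Agent.Lib.EcR.Defs

/-!
# EcW.Plane: support functions, critical angles, planar realisations of wheels
-/

set_option autoImplicit false

namespace Pool.Agent.Lib.EcW

open Finset Classical Pool.Agent.Lib.Pec6744 Pool.Agent.Lib.EcR

/-- height of the point `p` in the direction of the angle `t` -/
noncomputable def hh (p : E2) (t : ℝ) : ℝ := p 0 * Real.cos t + p 1 * Real.sin t

/-- the angle `t` lies in the open interval `(a, b)` modulo `2π` -/
def inG (a b t : ℝ) : Prop := ∃ m : ℤ, a < t + 2 * Real.pi * m ∧ t + 2 * Real.pi * m < b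

/-- critical angles `kap` (all ties of two of the points are at critical angles) and sample angles `th` -/
structure Crit {ι : Type} (x : ι → E2) (H : ℕ) where
  th : ℤ → ℝ
  kap : ℤ → ℝ
  lt1 : ∀ t, th t < kap t
  lt2 : ∀ t, kap t < th (t + 1)
  per : ∀ t, th (t + H) = th t + Real.pi
  perk : ∀ t, kap (t + H) = kap t + Real.pi
  crit : ∀ i j, i ≠ j → ∀ ψ, hh (x i) ψ = hh (x j) ψ → ∃ t, ψ = kap t

/-- planar realisation of a wheel by flags `x i → y i`; `v i` = number of the clones of `i`, divided by `p` -/
structure Plan {ι : Type} [Fintype ι] {C : Type} [Fintype C] {Λ : ℚ} (D : WData C Λ) (x y : ι → E2)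
    (v : ι → ℝ) where
  K : Crit x D.H
  pt : C → ι
  ix : C → ℕ
  ab : ∀ t c d, D.ab t c d ↔ (hh (x (pt d)) (K.th t) < hh (x (pt c)) (K.th t) ∨ (pt c = pt d ∧ ix c < ix d))
  ψ : ι → ℝ
  hψ : ∀ i, hh (x i) (ψ i) = hh (y i) (ψ i)
  hm1 : ∀ c, K.kap (D.m c - 1) ≤ ψ (pt c)
  hm2 : ∀ c, ψ (pt c) ≤ K.kap (D.m c)
  card : ∀ i, ((univ.filter (fun c => pt c = i)).card : ℝ) = D.p * v i

/-- `a` is strictly the highest point of `T` in the direction `t` -/
def Top (T : Finset E2) (a : E2) (t : ℝ) : Prop := ∀ b ∈ T, b ≠ a → hh b t < hh a t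

theorem hh_add_pi (p : E2) (t : ℝ) : hh p (t + Real.pi) = - hh p t := by
  unfold hh
  rw [Real.cos_add_pi, Real.sin_add_pi]
  ring

theorem hh_add_int (p : E2) (t : ℝ) (n : ℤ) : hh p (t + 2 * Real.pi * n) = hh p t := by
  unfold hh
  have h1 : t + 2 * Real.pi * n = t + n * (2 * Real.pi) := by ring
  rw [h1, Real.cos_add_int_mul_two_pi, Real.sin_add_int_mul_two_pi]

theorem hh_three (p : E2) (a b c : ℝ) :
    hh p a * Real.sin (c - b) + hh p c * Real.sin (b - a) = hh p b * Real.sin (c - a) := by
  unfold hh
  rw [Real.sin_sub, Real.sin_sub, Real.sin_sub]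
  ring

/-- a point which is above another one in two directions is above it between them -/
theorem between {p q : E2} {a b c : ℝ} (hab : a < b) (hbc : b < c) (hac : c < a + Real.pi)
    (h1 : hh q a ≤ hh p a) (h2 : hh q c ≤ hh p c) (h3 : hh q a < hh p a ∨ hh q c < hh p c) :
    hh q b < hh p b := by
  have s1 : 0 < Real.sin (c - b) := Real.sin_pos_of_pos_of_lt_pi (by linarith) (by linarith)
  have s2 : 0 < Real.sin (b - a) := Real.sin_pos_of_pos_of_lt_pi (by linarith) (by linarith)
  have s3 : 0 < Real.sin (c - a) := Real.sin_pos_of_pos_of_lt_pi (by linarith) (by linarith)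
  have e1 := hh_three p a b c
  have e2 := hh_three q a b c
  have h4 : 0 < (hh p b - hh q b) * Real.sin (c - a) := by
    have : (hh p b - hh q b) * Real.sin (c - a) =
        (hh p a - hh q a) * Real.sin (c - b) + (hh p c - hh q c) * Real.sin (b - a) := by
      linear_combination e2 - e1
    rw [this]
    rcases h3 with h3 | h3
    · have := mul_pos (sub_pos.2 h3) s1
      have := mul_nonneg (sub_nonneg.2 h2) s2.le
      linarith
    · have := mul_pos (sub_pos.2 h3) s2
      have := mul_nonneg (sub_nonneg.2 h1) s1.le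
      linarith
  have := (mul_pos_iff_of_pos_right s3).1 h4
  linarith

theorem orient_tie {a r : E2} {c : ℝ} (h : hh a c = hh r c) (q : E2) :
    orient a r q = ((r 0 - a 0) * Real.sin c - (r 1 - a 1) * Real.cos c) * (hh q c - hh a c) := by
  unfold hh at h ⊢
  unfold orient
  have e := Real.sin_sq_add_cos_sq c
  linear_combination ((q 0 - a 0) * Real.sin c - (q 1 - a 1) * Real.cos c) * h +
    (-(r 0 - a 0) * (q 1 - a 1) + (r 1 - a 1) * (q 0 - a 0)) * e

/-- two points on the same side of a line are on the same side in the normal direction -/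
theorem below_of_sameSide {a r p q : E2} {c : ℝ} (h : hh a c = hh r c) (hs : SameSide a r p q)
    (hp : hh p c < hh a c) : hh q c < hh a c := by
  have e1 := orient_tie h p
  have e2 := orient_tie h q
  set ρ := (r 0 - a 0) * Real.sin c - (r 1 - a 1) * Real.cos c with hρ
  by_contra hcon
  have hq : 0 ≤ hh q c - hh a c := by linarith
  have hp' : hh p c - hh a c < 0 := by linarith
  rcases hs with ⟨h1, h2⟩ | ⟨h1, h2⟩
  · rw [e1] at h1
    rw [e2] at h2
    have : ρ < 0 := by
      by_contra hc
      have := mul_nonpos_of_nonneg_of_nonpos (not_lt.1 hc) hp'.le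
      linarith
    have := mul_nonpos_of_nonpos_of_nonneg this.le hq
    linarith
  · rw [e1] at h1
    rw [e2] at h2
    have : 0 < ρ := by
      by_contra hc
      have := mul_nonneg_of_nonpos_of_nonpos (not_lt.1 hc) hp'.le
      linarith
    have := mul_nonneg this.le hq
    linarith

/-- three points which tie at one angle are collinear -/
theorem orient_eq_zero {a r q : E2} {c : ℝ} (h : hh a c = hh r c) (h' : hh a c = hh q c) :
    orient a r q = 0 := by
  rw [orient_tie h q, h', sub_self, mul_zero]

theorem continuous_hh (p : E2) : Continuous (hh p) := by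
  unfold hh
  fun_prop

end Pool.Agent.Lib.EcW
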