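import Pool.Agent.Lib.EcW.Lam
import Pool.Agent.Lib.EcW.Plane

/-!
# EcW.Data: the wheel of a weighted family of flags
-/

set_option autoImplicit false

namespace Pool.Agent.Lib.EcW

open Finset Classical Pool.Agent.Lib.Pec6744 Pool.Agent.Lib.EcR

namespace Crit

variable {ι : Type} {x : ι → E2} {H : ℕ} (K : Crit x H)

theorem th_mono : StrictMono K.th :=
  strictMono_int_of_lt_succ fun t => (K.lt1 t).trans (K.lt2 t)

theorem kap_mono : StrictMono K.kap :=
  strictMono_int_of_lt_succ fun t => (K.lt2 t).trans (K.lt1 (t + 1))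

theorem kap_lt_th (t : ℤ) : K.kap (t - 1) < K.th t := by
  have h := K.lt2 (t - 1)
  rwa [sub_add_cancel] at h

theorem no_crit {i j : ι} (hij : i ≠ j) {t : ℤ} {ψ : ℝ} (h1 : K.kap (t - 1) < ψ)
    (h2 : ψ < K.kap t) : hh (x i) ψ ≠ hh (x j) ψ := by
  intro h
  obtain ⟨s, rfl⟩ := K.crit i j hij ψ h
  have h3 := K.kap_mono.lt_iff_lt.1 h1
  have h4 := K.kap_mono.lt_iff_lt.1 h2
  omega

theorem th_ne {i j : ι} (hij : i ≠ j) (t : ℤ) : hh (x i) (K.th t) ≠ hh (x j) (K.th t) :=
  K.no_crit hij (K.kap_lt_th t) (K.lt1 t)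

theorem transfer {i j : ι} {t : ℤ} {ψ : ℝ} (h1 : K.kap (t - 1) ≤ ψ) (h2 : ψ ≤ K.kap t)
    (h : hh (x i) ψ < hh (x j) ψ) : hh (x i) (K.th t) < hh (x j) (K.th t) := by
  have hij : i ≠ j := by
    rintro rfl
    exact lt_irrefl _ h
  by_contra hcon
  have hlt : hh (x j) (K.th t) < hh (x i) (K.th t) :=
    lt_of_le_of_ne (not_lt.1 hcon) (K.th_ne hij t).symm
  have hc : Continuous fun c => hh (x j) c - hh (x i) c :=
    (continuous_hh _).sub (continuous_hh _)
  have h3 := intermediate_value_uIcc (a := ψ) (b := K.th t)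
    (f := fun c => hh (x j) c - hh (x i) c) hc.continuousOn
  have h4 : (0 : ℝ) ∈ Set.uIcc (hh (x j) ψ - hh (x i) ψ)
      (hh (x j) (K.th t) - hh (x i) (K.th t)) := by
    rw [Set.mem_uIcc]
    right
    constructor <;> linarith
  obtain ⟨c, hc1, hc2⟩ := h3 h4
  have hc3 : hh (x i) c = hh (x j) c := by
    simp only at hc2
    linarith
  have hcψ : c ≠ ψ := by
    rintro rfl
    exact h.ne hc3
  have hct : c ≠ K.th t := by
    rintro rfl
    exact K.th_ne hij t hc3
  have ha := K.kap_lt_th t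
  have hb := K.lt1 t
  rw [Set.mem_uIcc] at hc1
  refine K.no_crit hij (t := t) (ψ := c) ?_ ?_ hc3
  · rcases hc1 with ⟨h5, h6⟩ | ⟨h5, h6⟩
    · exact lt_of_le_of_lt h1 (lt_of_le_of_ne h5 hcψ.symm)
    · exact lt_of_lt_of_le ha h5
  · rcases hc1 with ⟨h5, h6⟩ | ⟨h5, h6⟩
    · exact lt_of_le_of_lt h6 hb
    · exact lt_of_lt_of_le (lt_of_le_of_ne h6 hcψ) h2

/-- every angle lies between two consecutive critical angles -/
theorem exists_time (ψ : ℝ) : ∃ t : ℤ, K.kap (t - 1) ≤ ψ ∧ ψ ≤ K.kap t := by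
  have hper : ∀ n : ℕ, K.kap (0 + (n : ℤ) * H) = K.kap 0 + n * Real.pi := by
    intro n
    induction n with
    | zero => simp
    | succ n ih =>
      have : (0 : ℤ) + ((n + 1 : ℕ) : ℤ) * H = (0 + (n : ℤ) * H) + H := by push_cast; ring
      rw [this, K.perk, ih]
      push_cast
      ring
  have hper' : ∀ n : ℕ, K.kap (0 - (n : ℤ) * H) = K.kap 0 - n * Real.pi := by
    intro n
    induction n with
    | zero => simp
    | succ n ih =>
      have h1 := K.perk (0 - ((n + 1 : ℕ) : ℤ) * H)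
      have : (0 : ℤ) - ((n + 1 : ℕ) : ℤ) * H + H = 0 - (n : ℤ) * H := by push_cast; ring
      rw [this, ih] at h1
      push_cast
      push_cast at h1
      linarith
  have hup : ∃ b : ℤ, ψ ≤ K.kap b := by
    obtain ⟨n, hn⟩ := exists_nat_gt ((ψ - K.kap 0) / Real.pi)
    rw [div_lt_iff₀ Real.pi_pos] at hn
    exact ⟨0 + (n : ℤ) * H, by rw [hper]; linarith⟩
  have hlow : ∃ b : ℤ, ∀ z, ψ ≤ K.kap z → b ≤ z := by
    obtain ⟨n, hn⟩ := exists_nat_gt ((K.kap 0 - ψ) / Real.pi)
    rw [div_lt_iff₀ Real.pi_pos] at hn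
    refine ⟨0 - (n : ℤ) * H, fun z hz => ?_⟩
    by_contra hcon
    have h1 := K.kap_mono (not_le.1 hcon)
    rw [hper'] at h1
    linarith
  obtain ⟨t, ht, hmin⟩ := Int.exists_least_of_bdd (P := fun z => ψ ≤ K.kap z) hlow hup
  refine ⟨t, ?_, ht⟩
  by_contra hcon
  have := hmin (t - 1) (not_le.1 hcon).le
  omega

/-- the wheel of clones of points -/
def wheel {C : Type} (pt : C → ι) (ix : C → ℕ) (hix : ∀ c d, pt c = pt d → ix c = ix d → c = d) :
    Wheel C where
  H := H
  ab t c d := hh (x (pt d)) (K.th t) < hh (x (pt c)) (K.th t) ∨ (pt c = pt d ∧ ix c < ix d)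
  irr t c h := by
    rcases h with h | h
    · exact lt_irrefl _ h
    · exact lt_irrefl _ h.2
  trans t a b c h1 h2 := by
    rcases h1 with h1 | ⟨h1, h1'⟩
    · rcases h2 with h2 | ⟨h2, h2'⟩
      · exact Or.inl (h2.trans h1)
      · rw [h2] at h1
        exact Or.inl h1
    · rcases h2 with h2 | ⟨h2, h2'⟩
      · rw [← h1] at h2
        exact Or.inl h2
      · exact Or.inr ⟨h1.trans h2, h1'.trans h2'⟩
  tot t a b hab := by
    by_cases h : pt a = pt b
    · rcases lt_trichotomy (ix a) (ix b) with h1 | h1 | h1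
      · exact Or.inl (Or.inr ⟨h, h1⟩)
      · exact absurd (hix a b h h1) hab
      · exact Or.inr (Or.inr ⟨h.symm, h1⟩)
    · rcases lt_or_gt_of_ne (K.th_ne h t) with h1 | h1
      · exact Or.inr (Or.inl h1)
      · exact Or.inl (Or.inl h1)
  per t a b := by
    have h1 : K.th (t + 2 * H) = K.th t + 2 * Real.pi * (1 : ℤ) := by
      have : t + 2 * (H : ℤ) = t + H + H := by ring
      rw [this, K.per, K.per]
      push_cast
      ring
    rw [h1, hh_add_int, hh_add_int]
  pl a b t₁ t₂ t₃ h12 h23 h31 h1 h2 h3 := by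
    by_cases h : pt a = pt b
    · rw [h] at h1 h2 h3
      rcases h1 with h1 | ⟨_, h1⟩
      · exact lt_irrefl _ h1
      · rcases h2 with h2 | ⟨_, h2⟩
        · exact lt_irrefl _ h2
        · exact lt_asymm h1 h2
    · have g1 := h1.resolve_right (fun h' => h h'.1)
      have g2 := h2.resolve_right (fun h' => h h'.1.symm)
      have g3 := h3.resolve_right (fun h' => h h'.1)
      have e12 := K.th_mono h12
      have e23 := K.th_mono h23
      have e31 : K.th t₃ ≤ K.th t₁ + Real.pi := by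
        rw [← K.per]
        exact K.th_mono.monotone h31
      have s1 : 0 < Real.sin (K.th t₃ - K.th t₂) :=
        Real.sin_pos_of_pos_of_lt_pi (by linarith) (by linarith)
      have s2 : 0 < Real.sin (K.th t₂ - K.th t₁) :=
        Real.sin_pos_of_pos_of_lt_pi (by linarith) (by linarith)
      have s3 : 0 ≤ Real.sin (K.th t₃ - K.th t₁) :=
        Real.sin_nonneg_of_nonneg_of_le_pi (by linarith) (by linarith)
      have q1 := hh_three (x (pt a)) (K.th t₁) (K.th t₂) (K.th t₃)
      have q2 := hh_three (x (pt b)) (K.th t₁) (K.th t₂) (K.th t₃)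
      have m1 := mul_pos (sub_pos.2 g1) s1
      have m2 := mul_pos (sub_pos.2 g3) s2
      have m3 := mul_nonneg (sub_pos.2 g2).le s3
      nlinarith

theorem wheel_anti {C : Type} (pt : C → ι) (ix : C → ℕ)
    (hix : ∀ c d, pt c = pt d → ix c = ix d → c = d) (t : ℤ) (c d : C) (h : pt c ≠ pt d) :
    ((K.wheel pt ix hix).ab (t + H) c d ↔ (K.wheel pt ix hix).ab t d c) := by
  change (hh (x (pt d)) (K.th (t + H)) < hh (x (pt c)) (K.th (t + H)) ∨
    (pt c = pt d ∧ ix c < ix d)) ↔
    (hh (x (pt c)) (K.th t) < hh (x (pt d)) (K.th t) ∨ (pt d = pt c ∧ ix d < ix c))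
  rw [K.per, hh_add_pi, hh_add_pi, neg_lt_neg_iff]
  constructor
  · rintro (h1 | h1)
    · exact Or.inl h1
    · exact absurd h1.1 h
  · rintro (h1 | h1)
    · exact Or.inl h1
    · exact absurd h1.1.symm h

end Crit

/-- the direction of the left normal of a flag -/
theorem exists_dir (a r : E2) (h : a ≠ r) : ∃ (ψ ρ : ℝ), 0 < ρ ∧ hh a ψ = hh r ψ ∧
    ∀ q, orient a r q = ρ * (hh q ψ - hh a ψ) := by
  set u : ℝ := r 0 - a 0 with hu
  set w : ℝ := r 1 - a 1 with hw
  have hne : u ≠ 0 ∨ w ≠ 0 := by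
    by_contra hcon
    push Not at hcon
    apply h
    ext i
    fin_cases i
    · have := hcon.1
      simp only [hu] at this
      simp
      linarith
    · have := hcon.2
      simp only [hw] at this
      simp
      linarith
  set z : ℂ := ⟨-w, u⟩ with hz
  have hz0 : z ≠ 0 := by
    intro h0
    have h1 := congrArg Complex.re h0
    have h2 := congrArg Complex.im h0
    simp [hz] at h1 h2
    rcases hne with h3 | h3
    · exact h3 h2
    · exact h3 h1
  have hpos : 0 < ‖z‖ := norm_pos_iff.2 hz0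
  have hre : ‖z‖ * Real.cos (Complex.arg z) = -w := by
    rw [Complex.norm_mul_cos_arg]
  have him : ‖z‖ * Real.sin (Complex.arg z) = u := by
    rw [Complex.norm_mul_sin_arg]
  refine ⟨Complex.arg z, ‖z‖, hpos, ?_, ?_⟩
  · have : ‖z‖ * (hh r (Complex.arg z) - hh a (Complex.arg z)) = 0 := by
      unfold hh
      have : ‖z‖ * (r 0 * Real.cos (Complex.arg z) + r 1 * Real.sin (Complex.arg z) -
          (a 0 * Real.cos (Complex.arg z) + a 1 * Real.sin (Complex.arg z))) =
          (r 0 - a 0) * (‖z‖ * Real.cos (Complex.arg z)) +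
          (r 1 - a 1) * (‖z‖ * Real.sin (Complex.arg z)) := by ring
      rw [this, hre, him]
      ring
    have := (mul_eq_zero.1 this).resolve_left hpos.ne'
    linarith
  · intro q
    unfold hh orient
    have : ‖z‖ * (q 0 * Real.cos (Complex.arg z) + q 1 * Real.sin (Complex.arg z) -
          (a 0 * Real.cos (Complex.arg z) + a 1 * Real.sin (Complex.arg z))) =
          (q 0 - a 0) * (‖z‖ * Real.cos (Complex.arg z)) +
          (q 1 - a 1) * (‖z‖ * Real.sin (Complex.arg z)) := by ring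
    rw [this, hre, him, hu, hw]
    ring

/-- common denominator -/
theorem exists_mult {ι : Type} [Fintype ι] (w : ι → ℚ) (hw : ∀ i, 0 ≤ w i) :
    ∃ (p : ℕ) (k : ι → ℕ), 0 < p ∧ ∀ i, (k i : ℚ) = p * w i := by
  refine ⟨∏ i, (w i).den, fun i => (∏ j ∈ univ.erase i, (w j).den) * (w i).num.toNat,
    Finset.prod_pos fun i _ => (w i).den_pos, fun i => ?_⟩
  have h1 : (∏ j, (w j).den) = (w i).den * ∏ j ∈ univ.erase i, (w j).den :=
    (Finset.mul_prod_erase univ (fun j => (w j).den) (mem_univ i)).symm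
  have h2 : ((w i).num.toNat : ℚ) = (w i).num := by
    have h3 : (((w i).num.toNat : ℤ) : ℚ) = ((w i).num : ℚ) := by
      rw [Int.toNat_of_nonneg (Rat.num_nonneg.2 (hw i))]
    exact_mod_cast h3
  have h3 : w i * (w i).den = (w i).num := Rat.mul_den_eq_num _
  rw [h1]
  push_cast
  rw [h2, ← h3]
  ring

theorem card_fib {ι : Type} [Fintype ι] (k : ι → ℕ) (S : Finset ι) :
    (univ.filter (fun c : Σ i, Fin (k i) => c.1 ∈ S)).card = ∑ j ∈ S, k j := by
  have : univ.filter (fun c : Σ i, Fin (k i) => c.1 ∈ S) = S.sigma (fun j => univ) := by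
    ext c
    simp
  rw [this, Finset.card_sigma]
  simp

/-- **the wheel of a weighted family of flags** -/
theorem exists_wdata {ι : Type} [Fintype ι] (x y : ι → E2) (hne : ∀ i, x i ≠ y i)
    {H : ℕ} (hH : 100 ≤ H) (K : Crit x H)
    (w la : ι → ℚ) (Λ : ℚ) (hw : ∀ i, 0 ≤ w i)
    (hD : ∀ i, ∑ j ∈ univ.filter (fun j => 0 ≤ orient (x i) (y i) (x j)), w j ≤ 1)
    (h4 : 4 ≤ ∑ i, w i) (hla : ∀ i, 0 ≤ la i) (hΛ : Λ ≤ ∑ i, la i)
    (ht : ∀ i, 0 < la i → ∑ j ∈ univ.filter (fun j => 0 ≤ orient (x i) (y i) (x j)), w j = 1)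
    (hle : ∀ j, 0 < w j →
      ∑ i ∈ univ.filter (fun i => 0 ≤ orient (x i) (y i) (x j)), la i ≤ 1) :
    ∃ (C : Type) (_ : Fintype C) (D : WData C Λ), (Fintype.card C : ℚ) = D.p * ∑ i, w i ∧
      Nonempty (Plan D x y (fun i => (w i : ℝ))) := by
  obtain ⟨p, k, hp, hk⟩ := exists_mult w hw
  have hp' : (0 : ℚ) < p := by exact_mod_cast hp
  choose ψ ρ hρ hψ hor using fun i => exists_dir (x i) (y i) (hne i)
  choose τ hτ1 hτ2 using fun i => K.exists_time (ψ i)
  set DD : ι → Finset ι := fun i => univ.filter (fun j => 0 ≤ orient (x i) (y i) (x j)) with hDD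
  have hmemD : ∀ i j, j ∈ DD i ↔ 0 ≤ orient (x i) (y i) (x j) := by
    intro i j
    simp [hDD]
  have hself : ∀ i, i ∈ DD i := by
    intro i
    rw [hmemD]
    apply le_of_eq
    unfold orient
    ring
  -- separation at the marked times
  have hsep : ∀ i j l, j ∈ DD i → l ∉ DD i → hh (x l) (K.th (τ i)) < hh (x j) (K.th (τ i)) := by
    intro i j l hj hl
    rw [hmemD] at hj hl
    apply K.transfer (hτ1 i) (hτ2 i)
    rw [hor] at hj hl
    have h1 : 0 ≤ hh (x j) (ψ i) - hh (x i) (ψ i) := by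
      by_contra hcon
      have := mul_neg_of_pos_of_neg (hρ i) (not_le.1 hcon)
      linarith
    have h2 : hh (x l) (ψ i) - hh (x i) (ψ i) < 0 := by
      by_contra hcon
      exact hl (mul_nonneg (hρ i).le (not_lt.1 hcon))
    linarith
  have hix : ∀ c d : (Σ i, Fin (k i)), c.1 = d.1 → (c.2 : ℕ) = d.2 → c = d := by
    rintro ⟨i, a⟩ ⟨j, b⟩ h1 h2
    simp only at h1
    subst h1
    simp only at h2
    rw [Fin.ext h2]
  set W : Wheel (Σ i, Fin (k i)) := K.wheel (fun c => c.1) (fun c => (c.2 : ℕ)) hix with hW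
  have hWH : W.H = H := rfl
  have hab : ∀ t c d, W.ab t c d ↔ (hh (x d.1) (K.th t) < hh (x c.1) (K.th t) ∨
      (c.1 = d.1 ∧ (c.2 : ℕ) < d.2)) := fun t c d => Iff.rfl
  set U : ι → Finset (Σ i, Fin (k i)) := fun i => univ.filter (fun c => c.1 ∈ DD i) with hU
  have hmemU : ∀ i c, c ∈ U i ↔ c.1 ∈ DD i := by
    intro i c
    simp [hU]
  have hcardU : ∀ i, ((U i).card : ℚ) = p * ∑ j ∈ DD i, w j := by
    intro i
    have h1 : (U i).card = ∑ j ∈ DD i, k j := card_fib k (DD i)
    rw [h1, Nat.cast_sum, Finset.mul_sum]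
    exact Finset.sum_congr rfl fun j _ => hk j
  have hcardC : (Fintype.card (Σ i, Fin (k i)) : ℚ) = p * ∑ i, w i := by
    rw [Fintype.card_sigma, Nat.cast_sum, Finset.mul_sum]
    refine Finset.sum_congr rfl fun j _ => ?_
    rw [Fintype.card_fin]
    exact hk j
  have hUle : ∀ i, (U i).card ≤ p := by
    intro i
    have h1 := hcardU i
    have h2 := mul_le_mul_of_nonneg_left (hD i) hp'.le
    rw [mul_one, ← h1] at h2
    exact_mod_cast h2
  have hupper : ∀ i, ∀ c ∈ U i, ∀ d, d ∉ U i → W.ab (τ i) c d := by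
    intro i c hc d hd
    rw [hmemU] at hc hd
    exact Or.inl (hsep i c.1 d.1 hc hd)
  have hC4 : 4 * p ≤ Fintype.card (Σ i, Fin (k i)) := by
    have h1 := mul_le_mul_of_nonneg_left h4 hp'.le
    rw [← hcardC] at h1
    have h2 : ((4 * p : ℕ) : ℚ) ≤ (Fintype.card (Σ i, Fin (k i)) : ℚ) := by
      push_cast
      linarith
    exact_mod_cast h2
  have hfib : ∀ i, (univ.filter (fun c : (Σ i, Fin (k i)) => c.1 = i)).card = k i := by
    intro i
    have h1 := card_fib k {i}
    rw [Finset.sum_singleton] at h1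
    rw [← h1]
    congr 1
    ext c
    simp
  have hkp : ∀ i, k i ≤ p := by
    intro i
    have h1 : w i ≤ ∑ j ∈ DD i, w j :=
      Finset.single_le_sum (fun j _ => hw j) (hself i)
    have h2 : (k i : ℚ) ≤ p := by
      rw [hk i]
      have := mul_le_mul_of_nonneg_left (h1.trans (hD i)) hp'.le
      linarith
    exact_mod_cast h2
  have hhalf := half_of W p (fun c d => c.1 = d.1)
    (fun t c d h => K.wheel_anti (fun c => c.1) (fun c => (c.2 : ℕ)) hix t c d h)
    (fun c => rfl)
    (fun c => by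
      have h1 := hfib c.1
      have h2 : (univ.filter (fun d : (Σ i, Fin (k i)) => c.1 = d.1)) =
          univ.filter (fun d : (Σ i, Fin (k i)) => d.1 = c.1) := by
        ext d
        simp [eq_comm]
      rw [h2, h1]
      exact hkp _)
    (fun c d h => h.symm) hC4 hp
  let D : WData (Σ i, Fin (k i)) Λ :=
    { toWheel := W
      p := p
      p_pos := hp
      p_le := by omega
      hH := hH
      m := fun c => τ c.1
      m_mem := fun c => by
        refine mem_zone_of_upper W p (τ c.1) (U c.1) c ((hmemU _ _).2 (hself _)) ?_ (hUle _)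
        intro d hd
        by_contra hdU
        exact W.asymm hd (hupper c.1 c ((hmemU _ _).2 (hself _)) d hdU)
      half := hhalf
      lam := lamOf W la τ
      lam_nonneg := lamOf_nonneg W la τ hla
      lam_per := lamOf_per W la τ
      lam_le := by
        refine lamOf_le W (by omega) p la hla τ U ?_ ?_
        · intro i hi
          refine zone_eq_of_upper W p (τ i) (U i) (hupper i) ?_
          have h1 := hcardU i
          rw [ht i hi, mul_one] at h1
          exact_mod_cast h1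
        · intro c
          have hc : 0 < w c.1 := by
            have h1 : 0 < k c.1 := by
              have := c.2.isLt
              omega
            have h2 : (0 : ℚ) < p * w c.1 := by
              rw [← hk]
              exact_mod_cast h1
            by_contra hcon
            have h3 := mul_nonpos_of_nonneg_of_nonpos hp'.le (not_lt.1 hcon)
            linarith
          have h1 := hle c.1 hc
          refine le_trans (le_of_eq ?_) h1
          refine Finset.sum_congr ?_ fun _ _ => rfl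
          ext i
          simp only [Finset.mem_filter, Finset.mem_univ, true_and]
          rw [hmemU, hmemD]
      lam_total := by
        rw [sum_lamOf_total W (by omega) la τ]
        exact hΛ }
  refine ⟨Σ i, Fin (k i), inferInstance, D, hcardC, ⟨{
    K := K
    pt := fun c => c.1
    ix := fun c => (c.2 : ℕ)
    ab := hab
    ψ := ψ
    hψ := hψ
    hm1 := fun c => hτ1 c.1
    hm2 := fun c => hτ2 c.1
    card := fun i => ?_ }⟩⟩
  have h1 := hk i
  have h2 : ((k i : ℕ) : ℝ) = (p : ℝ) * ((w i : ℚ) : ℝ) := by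
    exact_mod_cast congrArg (fun q : ℚ => (q : ℝ)) h1
  rw [← h2, ← hfib i]

end Pool.Agent.Lib.EcW
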