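import Pool.Agent.Lib.EcW.PL2

/-!
# EcW.PL2J: from the polygon of the wheel to the data of the growth lemma, common visible directions

Variant of `pl2` (EcW.PL2): every vertex is visible in a direction outside of both gaps.
-/

set_option autoImplicit false

namespace Pool.Agent.Lib.EcW

open Finset Classical Pool.Agent.Lib.Pec6744 Pool.Agent.Lib.EcR

variable {P : Finset E2} {ι : Type} [Fintype ι] {x y : ι → E2} {C : Type} [Fintype C] {Λ : ℚ}
  {D : WData C Λ} {v : ι → ℝ}

/-- **PL2**: the doubled polygon and the gaps satisfy the hypotheses of the growth lemma `geoJ` -/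
theorem pl2J (F : Flg P x y) (R : Plan D x y v) {N : ℤ} (G : PolyOut D N) (hv : ∀ i, 0 ≤ v i)
    (W : E2 → ℝ) (hW : ∀ p ∈ P, 0 ≤ W p) (η : ℝ)
    (htr : ∀ (i : ι) (ψ : ℝ), ∑ p ∈ P.filter (fun p => hh (x i) ψ < hh p ψ), W p ≤
      ∑ j ∈ univ.filter (fun j => hh (x i) ψ < hh (x j) ψ), v j + η) :
    ∃ T0 ⊆ P, N ≤ (T0.card : ℤ) ∧ T0.card ≤ 2 * Fintype.card ι ∧ ∃ al be : Fin 2 → ℝ,
      (∀ i, be i < al i + 2 * Real.pi) ∧
      (∀ t, (∀ i, ¬ inG (al i) (be i) t) →
        ∑ p ∈ P.filter (fun p => ∀ a ∈ T0, hh a t < hh p t), W p ≤ 1 + η) ∧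
      (∀ a ∈ T0, ∃ t, (∀ i, ¬ inG (al i) (be i) t) ∧ ∀ b ∈ T0, b ≠ a → hh b t < hh a t) ∧
      (∀ i j, ¬ inG (al j) (be j) (al i) ∧ ¬ inG (al j) (be j) (be i)) := by
  set K := R.K with hK
  set Sc : Finset C := G.Y.filter (fun c => (∀ i, ¬ D.In (G.u i) (G.v i) (D.m c)) ∧
    ∀ d ∈ G.Y, d ≠ c → D.ab (D.m c) c d) with hSc
  set Y : Finset ι := G.Y.image R.pt with hY
  set Sg : Finset ι := Sc.image R.pt with hSg
  have hSY : Sg ⊆ Y := image_subset_image (filter_subset _ _)
  -- distinct clones of the polygon have distinct points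
  have hinj : ∀ c ∈ G.Y, ∀ d ∈ G.Y, R.pt c = R.pt d → c = d := by
    intro c hc d hd he
    by_contra hne
    obtain ⟨t, -, ht⟩ := G.top c hc
    obtain ⟨t', -, ht'⟩ := G.top d hd
    have a1 := (R.ab _ _ _).1 (ht d hd (Ne.symm hne))
    have a2 := (R.ab _ _ _).1 (ht' c hc hne)
    rcases a1 with a1 | a1
    · rw [he] at a1
      exact lt_irrefl _ a1
    · rcases a2 with a2 | a2
      · rw [he] at a2
        exact lt_irrefl _ a2
      · omega
  have hnept : ∀ c ∈ G.Y, ∀ d ∈ G.Y, d ≠ c → R.pt c ≠ R.pt d := fun c hc d hd hne he => hne (hinj c hc d hd he).symm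
  have hcardY : Y.card = G.Y.card := card_image_of_injOn (fun c hc d hd h => hinj c hc d hd h)
  have hcardS : Sg.card = Sc.card := card_image_of_injOn
    (fun c hc d hd h => hinj c (mem_filter.1 hc).1 d (mem_filter.1 hd).1 h)
  -- tops at sample times
  have htop : ∀ c ∈ G.Y, ∀ t, (∀ d ∈ G.Y, d ≠ c → D.ab t c d) → ∀ j ∈ Y, j ≠ R.pt c →
      hh (x j) (K.th t) < hh (x (R.pt c)) (K.th t) := by
    intro c hc t ht j hj hjc
    obtain ⟨d, hd, rfl⟩ := mem_image.1 hj
    have hdc : d ≠ c := fun he => hjc (by rw [he])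
    exact R.above (ht d hd hdc) (Ne.symm hjc)
  -- marks
  have hmark : ∀ c ∈ Sc, ∀ j ∈ Y, j ≠ R.pt c → hh (x j) (R.ψ (R.pt c)) < hh (x (R.pt c)) (R.ψ (R.pt c)) := by
    intro c hc j hj hjc
    have hc' := mem_filter.1 hc
    have h1 := htop c hc'.1 (D.m c) hc'.2.2 j hj hjc
    have h2 : ¬ hh (x (R.pt c)) (R.ψ (R.pt c)) < hh (x j) (R.ψ (R.pt c)) := by
      intro h3
      have := K.cell (Ne.symm hjc) (R.hm1 c) (R.hm2 c) h3
      linarith
    refine lt_of_le_of_ne (not_lt.1 h2) ?_
    intro h3
    exact F.ne3 (Ne.symm hjc) (orient_eq_zero h3.symm (R.hψ _))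
  set T0 := dbl x y Y Sg with hT0
  set al : Fin 2 → ℝ := fun i => K.kap (G.u i) with hal
  set be : Fin 2 → ℝ := fun i => K.kap (G.v i - 1) with hbe
  have hbeal : ∀ i, be i < al i + 2 * Real.pi := by
    intro i
    have h1 := K.kap_int (G.u i) 1
    rw [show al i + 2 * Real.pi = K.kap (G.u i + 1 * (2 * (D.H : ℤ))) by rw [h1]; push_cast; ring]
    apply K.kap_mono
    have := (G.uv i).2
    omega
  have hcl : ∀ i m φ, ¬ D.In (G.u i) (G.v i) m → K.kap (m - 1) ≤ φ → φ ≤ K.kap m → ¬ inG (al i) (be i) φ :=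
    fun i m φ h h1 h2 => K.clean h h1 h2
  have hd1 : ∀ i j, ¬ inG (al j) (be j) (al i) := fun i j =>
    hcl j (G.u i) _ (G.sep j i).1 (K.kap_mono.monotone (by omega)) le_rfl
  have hd2 : ∀ i j, ¬ inG (al j) (be j) (be i) := fun i j =>
    hcl j (G.v i) _ (G.sep j i).2 le_rfl (K.kap_mono.monotone (by omega))
  refine ⟨T0, dbl_subset F Y Sg, ?_, ?_, al, be, hbeal, ?_, ?_, fun i j => ⟨hd1 i j, hd2 i j⟩⟩
  · rw [hT0, card_dbl F, hcardY, hcardS]
    push_cast
    exact G.val
  · rw [hT0, card_dbl F]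
    have h1 := card_le_univ Y
    have h2 := card_le_univ Sg
    omega
  · -- hitting
    intro φ hφ
    obtain ⟨s, hs1, hs2, hs3⟩ : ∃ s, K.kap (s - 1) ≤ φ ∧ φ ≤ K.kap s ∧ ∀ i, ¬ D.In (G.u i) (G.v i) s := by
      obtain ⟨s, h1, h2⟩ := K.exists_cell φ
      by_cases hcl2 : ∀ i, ¬ D.In (G.u i) (G.v i) s
      · exact ⟨s, h1, h2.le, hcl2⟩
      push Not at hcl2
      obtain ⟨i, n, hn1, hn2⟩ := hcl2
      -- the angle is the left end of the gap
      have h3 : K.kap (G.u i) ≤ φ + 2 * Real.pi * n := by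
        have : K.kap (G.u i) ≤ K.kap (s - 1 + n * (2 * D.H)) := K.kap_mono.monotone (by omega)
        rw [K.kap_int] at this
        linarith
      have h4 : φ + 2 * Real.pi * n < K.kap (G.v i - 1) := by
        have : K.kap (s + n * (2 * D.H)) ≤ K.kap (G.v i - 1) := K.kap_mono.monotone (by omega)
        rw [K.kap_int] at this
        linarith
      have h5 : K.kap (G.u i) = φ + 2 * Real.pi * n := by
        by_contra hne
        exact hφ i ⟨n, lt_of_le_of_ne h3 hne, h4⟩
      have h6 : s - 1 + n * (2 * D.H) = G.u i := by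
        have h7 : K.kap (s - 1 + n * (2 * D.H)) ≤ K.kap (G.u i) := by
          rw [K.kap_int, h5]
          linarith
        have h8 := K.kap_mono.le_iff_le.1 h7
        omega
      refine ⟨s - 1, ?_, ?_, ?_⟩
      · exact (K.kap_mono.monotone (by omega)).trans h1
      · have : K.kap (s - 1) = φ := by
          have h9 := K.kap_int (s - 1) n
          rw [h6, h5] at h9
          linarith
        exact this.ge
      · intro j hj
        obtain ⟨n', hn'1, hn'2⟩ := hj
        refine (G.sep j i).1 ⟨n' - n, ?_, ?_⟩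
        · rw [← h6]
          have : s - 1 + n * (2 * (D.H : ℤ)) + (n' - n) * (2 * D.H) = s - 1 + n' * (2 * D.H) := by ring
          rw [this]
          exact hn'1
        · rw [← h6]
          have : s - 1 + n * (2 * (D.H : ℤ)) + (n' - n) * (2 * D.H) = s - 1 + n' * (2 * D.H) := by ring
          rw [this]
          exact hn'2
    obtain ⟨c, hc, hcZ⟩ := G.hit s hs3
    set i := R.pt c with hi
    have hxi : x i ∈ T0 := mem_dbl.2 (Or.inl ⟨i, mem_image_of_mem _ hc, rfl⟩)
    have hsum1 : ∑ p ∈ P.filter (fun p => ∀ a ∈ T0, hh a φ < hh p φ), W p ≤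
        ∑ p ∈ P.filter (fun p => hh (x i) φ < hh p φ), W p := by
      apply sum_le_sum_of_subset_of_nonneg
      · intro p hp
        rw [mem_filter] at hp ⊢
        exact ⟨hp.1, hp.2 _ hxi⟩
      · intro p hp _
        exact hW p (mem_filter.1 hp).1
    set A : Finset ι := univ.filter (fun j => hh (x i) (K.th s) < hh (x j) (K.th s)) with hA
    have hsum2 : ∑ j ∈ univ.filter (fun j => hh (x i) φ < hh (x j) φ), v j ≤ ∑ j ∈ A, v j := by
      apply sum_le_sum_of_subset_of_nonneg
      · intro j hj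
        rw [mem_filter] at hj
        rw [hA, mem_filter]
        refine ⟨mem_univ _, ?_⟩
        have hij : i ≠ j := by
          intro he
          rw [he] at hj
          exact lt_irrefl _ hj.2
        exact K.cell hij hs1 hs2 hj.2
      · intro j _ _
        exact hv j
    have hsum3 : ∑ j ∈ A, v j ≤ 1 := by
      have hZ := mem_zone.1 hcZ
      have hp : (0 : ℝ) < D.p := by exact_mod_cast D.p_pos
      have h1 : (D.p : ℝ) * ∑ j ∈ A, v j = ((univ.filter (fun d => R.pt d ∈ A)).card : ℝ) := by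
        rw [mul_sum]
        have h2 : (univ.filter (fun d => R.pt d ∈ A)) = A.biUnion (fun j => univ.filter (fun d => R.pt d = j)) := by
          ext d
          simp
        rw [h2, card_biUnion]
        · push_cast
          exact sum_congr rfl (fun j _ => (R.card j).symm)
        · intro j _ l _ hjl
          rw [Function.onFun, disjoint_left]
          intro d hd1 hd2
          rw [mem_filter] at hd1 hd2
          exact hjl (hd1.2.symm.trans hd2.2)
      have h3 : (univ.filter (fun d => R.pt d ∈ A)).card ≤ (univ.filter (fun d => D.ab s d c)).card := by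
        apply card_le_card
        intro d hd
        rw [mem_filter, hA, mem_filter] at hd
        rw [mem_filter]
        exact ⟨mem_univ _, (R.ab s d c).2 (Or.inl hd.2.2)⟩
      have h4 : (D.p : ℝ) * ∑ j ∈ A, v j ≤ D.p * 1 := by
        rw [h1, mul_one]
        exact_mod_cast (h3.trans hZ.le)
      exact le_of_mul_le_mul_left h4 hp
    have := htr i φ
    linarith
  · -- every vertex is visible outside of the gaps
    intro a ha
    -- trivial gaps
    have htriv : ∀ i, G.v i = G.u i + 1 → ∀ t, ¬ inG (al i) (be i) t := by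
      rintro i hi t ⟨n, h1, h2⟩
      have : be i = al i := by
        simp only [hal, hbe]
        rw [hi, add_sub_cancel_right]
      linarith
    -- doubled vertices are not at the closed gaps
    have hclosed : ∀ i, G.v i ≠ G.u i + 1 → ∀ c ∈ Sc, ∀ n : ℤ, ¬ (al i ≤ R.ψ (R.pt c) + 2 * Real.pi * n ∧
        R.ψ (R.pt c) + 2 * Real.pi * n ≤ be i) := by
      rintro i hnt c hc n ⟨h1, h2⟩
      obtain ⟨ca, hca, cb, hcb, ga1, ga2, gb1, gb2, gab, gba, gta, gtb, gall⟩ :=
        (G.gap i).resolve_left hnt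
      obtain ⟨r, hr1, hr2⟩ := exists_over ga1 ga2
      obtain ⟨hrne, hrtie⟩ := R.swap hr1 hr2
      obtain ⟨s, hs1, hs2⟩ := exists_over gb1 gb2
      obtain ⟨hsne, hstie⟩ := R.swap (t := G.v i - 1) hs2 (by rw [sub_add_cancel]; exact hs1)
      have hc' := mem_filter.1 hc
      have hopen : ¬ inG (al i) (be i) (R.ψ (R.pt c)) := hcl i _ _ (hc'.2.1 i) (R.hm1 c) (R.hm2 c)
      have hcase : al i = R.ψ (R.pt c) + 2 * Real.pi * n ∨ R.ψ (R.pt c) + 2 * Real.pi * n = be i := by
        by_contra hcon
        push Not at hcon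
        exact hopen ⟨n, lt_of_le_of_ne h1 hcon.1, lt_of_le_of_ne h2 hcon.2⟩
      have hm : ∀ j ∈ Y, j ≠ R.pt c → hh (x j) (R.ψ (R.pt c) + 2 * Real.pi * n) <
          hh (x (R.pt c)) (R.ψ (R.pt c) + 2 * Real.pi * n) := by
        intro j hj hjc
        rw [hh_add_int, hh_add_int]
        exact hmark c hc j hj hjc
      have hpp : hh (x (R.pt c)) (R.ψ (R.pt c) + 2 * Real.pi * n) =
          hh (y (R.pt c)) (R.ψ (R.pt c) + 2 * Real.pi * n) := by
        rw [hh_add_int, hh_add_int]
        exact R.hψ _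
      rcases hcase with he | he
      · rw [← he] at hm hpp
        have hcc : ca = c := by
          by_contra hne
          have h3 := hm (R.pt ca) (mem_image_of_mem _ hca) (hnept ca hca c hc'.1 (Ne.symm hne))
          have h4 := K.cell (hnept ca hca c hc'.1 (Ne.symm hne)) (s := G.u i)
            (K.kap_mono.monotone (by omega)) le_rfl h3
          have h5 := htop ca hca (G.u i) gta (R.pt c) (mem_image_of_mem _ hc'.1)
            (Ne.symm (hnept ca hca c hc'.1 (Ne.symm hne)))
          linarith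
        subst hcc
        exact F.ne3 hrne (orient_eq_zero hrtie hpp)
      · rw [he] at hm hpp
        have hcc : cb = c := by
          by_contra hne
          have h3 := hm (R.pt cb) (mem_image_of_mem _ hcb) (hnept cb hcb c hc'.1 (Ne.symm hne))
          have h4 := K.cell (hnept cb hcb c hc'.1 (Ne.symm hne)) (s := G.v i)
            le_rfl (K.kap_mono.monotone (by omega)) h3
          have h5 := htop cb hcb (G.v i) gtb (R.pt c) (mem_image_of_mem _ hc'.1)
            (Ne.symm (hnept cb hcb c hc'.1 (Ne.symm hne)))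
          linarith
        subst hcc
        exact F.ne3 hsne.symm (orient_eq_zero hstie.symm hpp)
    have hev : ∀ c ∈ Sc, ∀ᶠ t in nhds (R.ψ (R.pt c)), ∀ i, ¬ inG (al i) (be i) t := by
      intro c hc
      rw [Filter.eventually_all]
      intro i
      by_cases h : G.v i = G.u i + 1
      · exact Filter.Eventually.of_forall (htriv i h)
      · exact eventually_not_inG (hclosed i h c hc)
    rcases mem_dbl.1 ha with ⟨j, hj, rfl⟩ | ⟨j, hj, rfl⟩
    · by_cases hjS : j ∈ Sg
      · obtain ⟨c, hc, rfl⟩ := mem_image.1 hjS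
        exact near_top (T := T0) (F.xy _ _) (R.hψ (R.pt c))
          (F.pair hSY (R.hψ _) (hmark c hc)) (fun t => ∀ i, ¬ inG (al i) (be i) t) (hev c hc)
      · obtain ⟨c, hc, rfl⟩ := mem_image.1 hj
        obtain ⟨t, -, ht⟩ := G.top c hc
        obtain ⟨t', ht'⟩ := F.single hSY hjS (htop c hc t ht)
        by_cases hin : ∀ i, ¬ inG (al i) (be i) t'
        · exact ⟨t', hin, ht'⟩
        push Not at hin
        obtain ⟨i, n, hn1, hn2⟩ := hin
        have hnt : G.v i ≠ G.u i + 1 := fun h => htriv i h t' ⟨n, hn1, hn2⟩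
        obtain ⟨ca, hca, cb, hcb, ga1, ga2, gb1, gb2, gab, gba, gta, gtb, gall⟩ :=
          (G.gap i).resolve_left hnt
        obtain ⟨r, hr1, hr2⟩ := exists_over ga1 ga2
        obtain ⟨hrne, hrtie⟩ := R.swap hr1 hr2
        obtain ⟨s, hs1, hs2⟩ := exists_over gb1 gb2
        obtain ⟨hsne, hstie⟩ := R.swap (t := G.v i - 1) hs2 (by rw [sub_add_cancel]; exact hs1)
        set φ := t' + 2 * Real.pi * n with hφ
        have htopφ : ∀ j ∈ Y, j ≠ R.pt c → hh (x j) φ < hh (x (R.pt c)) φ := by
          intro j hj hjc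
          rw [hφ, hh_add_int, hh_add_int]
          refine ht' (x j) (mem_dbl.2 (Or.inl ⟨j, hj, rfl⟩)) ?_
          exact F.xx _ _ hjc
        have hab : c = ca ∨ c = cb := by
          by_contra hcon
          push Not at hcon
          obtain ⟨s', hs'1, hs'2⟩ := K.exists_cell φ
          have b1 : G.u i < s' := K.kap_mono.lt_iff_lt.1 (hn1.trans hs'2)
          have b2 : s' - 1 < G.v i - 1 := K.kap_mono.lt_iff_lt.1 (hs'1.trans_lt hn2)
          rcases gall s' (by omega) (by omega) c hc hcon.1 hcon.2 with h1 | h1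
          · have h2 := R.above h1 (hnept ca hca c hc hcon.1)
            have h3 := K.cell (hnept ca hca c hc hcon.1) hs'1 hs'2.le
              (htopφ (R.pt ca) (mem_image_of_mem _ hca) (hnept ca hca c hc hcon.1))
            linarith
          · have h2 := R.above h1 (hnept cb hcb c hc hcon.2)
            have h3 := K.cell (hnept cb hcb c hc hcon.2) hs'1 hs'2.le
              (htopφ (R.pt cb) (mem_image_of_mem _ hcb) (hnept cb hcb c hc hcon.2))
            linarith
        have hpi : K.th (G.v i) ≤ K.th (G.u i) + Real.pi := by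
          rw [← K.per]
          apply K.th_mono.monotone
          have := (G.uv i).2
          have := (G.uv i).1
          omega
        have q1 : K.th (G.u i) < K.kap (G.u i) := K.lt1 _
        have q2 : K.kap (G.v i - 1) < K.th (G.v i) := K.kap_lt_th _
        rcases hab with rfl | rfl
        · refine ⟨al i, hd1 i, ?_⟩
          refine F.tie hSY hjS hrne.symm hrtie ?_
          intro j hj hjc
          exact between q1 hn1 (by linarith) (htop c hc (G.u i) gta j hj hjc).le (htopφ j hj hjc).le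
            (Or.inr (htopφ j hj hjc))
        · refine ⟨be i, hd2 i, ?_⟩
          refine F.tie hSY hjS hsne hstie.symm ?_
          intro j hj hjc
          exact between hn2 q2 (by linarith) (htopφ j hj hjc).le (htop c hc (G.v i) gtb j hj hjc).le
            (Or.inl (htopφ j hj hjc))
    · obtain ⟨c, hc, rfl⟩ := mem_image.1 hj
      exact near_top (T := T0) (F.xy _ _).symm (R.hψ (R.pt c)).symm
        (fun b hb h1 h2 => by rw [← R.hψ]; exact F.pair hSY (R.hψ _) (hmark c hc) b hb h2 h1)
        (fun t => ∀ i, ¬ inG (al i) (be i) t) (hev c hc)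

end Pool.Agent.Lib.EcW
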