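import Pool.Agent.Lib.EcW.GeoJ
import Pool.Agent.Lib.EcW.PL2J
import Pool.Agent.Lib.EcW.Data
import Pool.Agent.Lib.EcW.CritEx
import Pool.Agent.Lib.EcR.Trans

/-!
# EcW.AsmB: Case B of the upper bound, from the reduction, the peeling lemma and the core theorem
-/

set_option autoImplicit false

namespace Pool.Agent.Lib.EcW

open Finset Classical Pool.Agent.Lib.Pec6744 Pool.Agent.Lib.EcR

variable {P : Finset E2} {n N m : ℕ} {w0 : ℚ} {η : ℝ} {x y : Fin N → E2} {Co : Fin N → Finset E2}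

/-- the base points of the flags are distinct -/
theorem red_inj (h : Red P n N m w0 η x y Co) : Function.Injective x := by
  intro i j hij
  by_contra hne
  have h1 := h.disj i j hne
  rw [Finset.disjoint_left] at h1
  exact h1 (h.hx i) (hij ▸ h.hx j)

/-- the wheel of the flags and its polygon -/
theorem exists_plan (h : Red P n N m w0 η x y Co) {Λ : ℚ} (hcore : CoreStmt Λ)
    (w la : Fin N → ℚ) (hw : ∀ i, 0 ≤ w i)
    (hD : ∀ i, ∑ j ∈ univ.filter (fun j => 0 ≤ orient (x i) (y i) (x j)), w j ≤ 1)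
    (h4 : 4 ≤ ∑ i, w i) (hla : ∀ i, 0 ≤ la i) (hΛ : Λ ≤ ∑ i, la i)
    (ht : ∀ i, 0 < la i → ∑ j ∈ univ.filter (fun j => 0 ≤ orient (x i) (y i) (x j)), w j = 1)
    (hle : ∀ j, 0 < w j →
      ∑ i ∈ univ.filter (fun i => 0 ≤ orient (x i) (y i) (x j)), la i ≤ 1) :
    ∃ (C : Type) (_ : Fintype C) (D : WData C Λ) (M : ℤ),
      Nonempty (Plan D x y (fun i => (w i : ℝ))) ∧ Nonempty (PolyOut D M) ∧
        2 * ∑ i, w i ≤ (M : ℚ) := by
  obtain ⟨H, hH, ⟨K⟩⟩ := exists_crit x (red_inj h)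
  obtain ⟨C, hC, D, hcard, hplan⟩ := exists_wdata x y h.ne hH K w la Λ hw hD h4 hla hΛ ht hle
  obtain ⟨M, hM, hpoly⟩ := hcore C Λ D le_rfl
  refine ⟨C, hC, D, M, hplan, hpoly, ?_⟩
  have hp : (0 : ℚ) < D.p := by exact_mod_cast D.p_pos
  have h1 : 2 * (Fintype.card C : ℚ) ≤ D.p * (M : ℚ) := by exact_mod_cast hM
  rw [hcard] at h1
  have h2 : (D.p : ℚ) * (2 * ∑ i, w i) ≤ D.p * M := by linarith
  exact le_of_mul_le_mul_left h2 hp

/-- transfer for the half planes above a base point -/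
theorem trans_hh (h : Red P n N m w0 η x y Co) (v : Fin N → ℝ) (hv0 : ∀ i, 0 ≤ v i)
    (hv : ∀ i, v i ≤ (w0 : ℝ)) {a : ℝ} (ha : 0 ≤ a) (i : Fin N) (ψ : ℝ) :
    ∑ p ∈ P.filter (fun p => hh (x i) ψ < hh p ψ), a * vh Co m v p ≤
      ∑ j ∈ univ.filter (fun j => hh (x i) ψ < hh (x j) ψ), a * v j + a * η := by
  have hab : Real.cos ψ ≠ 0 ∨ Real.sin ψ ≠ 0 := by
    by_contra hcon
    push Not at hcon
    have := Real.sin_sq_add_cos_sq ψ
    rw [hcon.1, hcon.2] at this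
    norm_num at this
  have h1 := h.transH v hv0 hv (Real.cos ψ) (Real.sin ψ) (hh (x i) ψ) hab
  have e : ∀ p : E2, hh (x i) ψ < hh p ψ ↔
      hh (x i) ψ < Real.cos ψ * p 0 + Real.sin ψ * p 1 := by
    intro p
    have : hh p ψ = Real.cos ψ * p 0 + Real.sin ψ * p 1 := by
      unfold hh
      ring
    rw [this]
  have e1 : P.filter (fun p => hh (x i) ψ < hh p ψ) =
      P.filter (fun p => hh (x i) ψ < Real.cos ψ * p 0 + Real.sin ψ * p 1) := by
    ext p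
    rw [mem_filter, mem_filter, e p]
  have e2 : univ.filter (fun j => hh (x i) ψ < hh (x j) ψ) =
      univ.filter (fun j => hh (x i) ψ < Real.cos ψ * x j 0 + Real.sin ψ * x j 1) := by
    ext j
    rw [mem_filter, mem_filter, e (x j)]
  rw [e1, e2, ← Finset.mul_sum, ← Finset.mul_sum]
  have h2 := (abs_le.1 h1).2
  have h3 := mul_le_mul_of_nonneg_left h2 ha
  linarith

/-- CASE B -/
theorem asmB {k : ℕ} (hk3 : 3 ≤ k) (hkn : k ≤ n) (hP : GenPos P) (hη : 0 ≤ η)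
    (h : Red P n N m w0 η x y Co) {Λ : ℚ} (hcore : CoreStmt Λ) (a : ℚ) (ha : 0 < a)
    (v la : Fin N → ℚ) (hv0 : ∀ i, 0 ≤ v i) (hv : ∀ i, v i ≤ w0)
    (hD : ∀ i, a * ∑ j ∈ univ.filter (fun j => 0 ≤ orient (x i) (y i) (x j)), v j ≤ 1)
    (h4 : 4 ≤ a * ∑ i, v i) (hla : ∀ i, 0 ≤ la i) (hΛ : Λ ≤ ∑ i, la i)
    (ht : ∀ i, 0 < la i →
      a * ∑ j ∈ univ.filter (fun j => 0 ≤ orient (x i) (y i) (x j)), v j = 1)
    (hle : ∀ j, 0 < v j →
      ∑ i ∈ univ.filter (fun i => 0 ≤ orient (x i) (y i) (x j)), la i ≤ 1)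
    (hkv : (k : ℚ) - 1 < 2 * (a * ∑ i, v i))
    (hS : (k : ℝ) * (1 + (a : ℝ) * η) / 3 + 4 * (1 + (a : ℝ) * η) + (a : ℝ) ≤
      ((a * ∑ i, v i : ℚ) : ℝ)) : ¬ NoBig P n k := by
  have haR : (0 : ℝ) < a := by exact_mod_cast ha
  obtain ⟨C, hC, D, M, ⟨R⟩, ⟨G⟩, hM⟩ := exists_plan h hcore (fun i => a * v i) la
    (fun i => mul_nonneg ha.le (hv0 i)) (fun i => by rw [← Finset.mul_sum]; exact hD i)
    (by rw [← Finset.mul_sum]; exact h4) hla hΛ
    (fun i hi => by rw [← Finset.mul_sum]; exact ht i hi)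
    (fun j hj => hle j ((mul_pos_iff_of_pos_left ha).1 hj))
  rw [← Finset.mul_sum] at hM
  have hvR0 : ∀ i, (0 : ℝ) ≤ (v i : ℝ) := fun i => by exact_mod_cast hv0 i
  have hvR : ∀ i, ((v i : ℝ)) ≤ (w0 : ℝ) := fun i => by exact_mod_cast hv i
  have hW : ∀ p ∈ P, 0 ≤ (a : ℝ) * vh Co m (fun i => (v i : ℝ)) p := fun p _ =>
    mul_nonneg haR.le (vh_nonneg Co m _ hvR0 p)
  obtain ⟨T0, hT0, hT0c, -, al, be, -, c1, c2, c3⟩ := pl2J (flg_of_red hP h) R G
    (fun i => by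
      have := mul_nonneg haR.le (hvR0 i)
      push_cast
      exact this)
    (fun p => (a : ℝ) * vh Co m (fun i => (v i : ℝ)) p) hW ((a : ℝ) * η)
    (fun i ψ => by
      have := trans_hh h (fun i => (v i : ℝ)) hvR0 hvR haR.le i ψ
      push_cast
      exact this)
  have hkT : k ≤ T0.card := by
    have h1 : (k : ℚ) - 1 < M := lt_of_lt_of_le hkv hM
    have h2 : ((k : ℤ) - 1) < M := by exact_mod_cast h1
    have h3 : (k : ℤ) ≤ T0.card := by omega
    exact_mod_cast h3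
  obtain ⟨T, hT1, hT2, hT3⟩ := geoJ hP hk3 hkn
    (fun p => (a : ℝ) * vh Co m (fun i => (v i : ℝ)) p) hW haR
    (fun p _ => by
      have h1 := h.vh_mul_le (fun i => (v i : ℝ)) hvR p
      have h2 := mul_le_mul_of_nonneg_left h1 haR.le
      have h3 : (a : ℝ) * vh Co m (fun i => (v i : ℝ)) p * n =
          (a : ℝ) * (vh Co m (fun i => (v i : ℝ)) p * n) := by ring
      rw [h3]
      linarith)
    hT0 hkT al be (c := 1 + (a : ℝ) * η) (by positivity) c1 c2 c3 (by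
      rw [← Finset.mul_sum, h.sum_vh]
      push_cast at hS
      exact hS)
  intro hno
  have := hno T hT1 hT2
  omega

end Pool.Agent.Lib.EcW
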