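import Pool.Agent.Lib.P28F.LPmax

/-!
# Module EcW.LP: linear programming for MP_ec6744_co (helper98)

`kkt`, `exists_kkt`: multipliers with complementary slackness at an optimal point of a finite
linear program over an ordered field.
`peel`: Lemma P (PART B) of `/team-store/EC_proof.md`.
-/

set_option autoImplicit false

namespace Pool.Agent.Lib.EcW

open Matrix

section

variable {K : Type} [Field K] [LinearOrder K] [IsStrictOrderedRing K]

/-- Multipliers with complementary slackness at an optimal point of a finite linear program. -/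
theorem kkt {κ ι : Type} [Fintype κ] [Fintype ι] (A : Matrix ι κ K) (b : ι → K) (d : κ → K)
    (z : κ → K) (hz : ∀ i, (A *ᵥ z) i ≤ b i)
    (hmax : ∀ w : κ → K, (∀ i, (A *ᵥ w) i ≤ b i) → d ⬝ᵥ w ≤ d ⬝ᵥ z) :
    ∃ y : ι → K, (∀ i, 0 ≤ y i) ∧ (∀ l, ∑ i, y i * A i l = d l) ∧
      ∀ i, 0 < y i → (A *ᵥ z) i = b i := by
  classical
  -- the system of the active constraints and `d ⬝ u ≥ 1`
  let B : Matrix (ι ⊕ Unit) κ K := Sum.elim (fun i => if (A *ᵥ z) i = b i then A i else 0)
    (fun _ => -d)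
  let c : (ι ⊕ Unit) → K := Sum.elim 0 (fun _ => -1)
  have hno : ¬ ∃ u : κ → K, B *ᵥ u ≤ c := by
    rintro ⟨u, hu⟩
    have hd : 1 ≤ d ⬝ᵥ u := by
      have h1 := hu (Sum.inr ())
      have h2 : (B *ᵥ u) (Sum.inr ()) = - (d ⬝ᵥ u) := by
        change (-d) ⬝ᵥ u = _
        rw [neg_dotProduct]
      rw [h2] at h1
      change - (d ⬝ᵥ u) ≤ -1 at h1
      linarith
    have ha : ∀ i, (A *ᵥ z) i = b i → (A *ᵥ u) i ≤ 0 := by
      intro i hi
      have h1 := hu (Sum.inl i)
      have h2 : (B *ᵥ u) (Sum.inl i) = (A *ᵥ u) i := by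
        change (if (A *ᵥ z) i = b i then A i else 0) ⬝ᵥ u = _
        rw [if_pos hi]; rfl
      rw [h2] at h1
      exact h1
    -- a small step
    have hstep : ∃ e : K, 0 < e ∧ ∀ i, (A *ᵥ z) i + e * (A *ᵥ u) i ≤ b i := by
      have key : ∀ s : Finset ι, ∃ e : K, 0 < e ∧ ∀ i ∈ s, ∀ e' : K, 0 ≤ e' → e' ≤ e →
          (A *ᵥ z) i + e' * (A *ᵥ u) i ≤ b i := by
        intro s
        induction s using Finset.induction_on with
        | empty => exact ⟨1, one_pos, fun i hi => absurd hi (Finset.notMem_empty i)⟩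
        | insert a s has ih =>
          obtain ⟨e, he, h⟩ := ih
          obtain ⟨f, hf, h'⟩ : ∃ f : K, 0 < f ∧ ∀ e' : K, 0 ≤ e' → e' ≤ f →
              (A *ᵥ z) a + e' * (A *ᵥ u) a ≤ b a := by
            rcases eq_or_lt_of_le (hz a) with hq | hq
            · refine ⟨1, one_pos, fun e' h0 _ => ?_⟩
              have h1 := ha a hq
              have h2 : e' * (A *ᵥ u) a ≤ 0 := mul_nonpos_of_nonneg_of_nonpos h0 h1
              linarith [hq.le]
            · by_cases hp : (A *ᵥ u) a ≤ 0
              · refine ⟨1, one_pos, fun e' h0 _ => ?_⟩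
                have h2 : e' * (A *ᵥ u) a ≤ 0 := mul_nonpos_of_nonneg_of_nonpos h0 hp
                linarith
              · push Not at hp
                refine ⟨(b a - (A *ᵥ z) a) / (A *ᵥ u) a, div_pos (by linarith) hp,
                  fun e' h0 h1 => ?_⟩
                rw [le_div_iff₀ hp] at h1
                linarith
          refine ⟨min e f, lt_min he hf, fun i hi e' h0 h1 => ?_⟩
          rcases Finset.mem_insert.1 hi with rfl | hi
          · exact h' e' h0 (h1.trans (min_le_right _ _))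
          · exact h i hi e' h0 (h1.trans (min_le_left _ _))
      obtain ⟨e, he, h⟩ := key Finset.univ
      exact ⟨e, he, fun i => h i (Finset.mem_univ i) e he.le le_rfl⟩
    obtain ⟨e, he, h⟩ := hstep
    have h3 := hmax (z + e • u) (fun i => by
      rw [mulVec_add, mulVec_smul]
      simpa using h i)
    rw [dotProduct_add, dotProduct_smul, smul_eq_mul] at h3
    have h4 : 0 < e * (d ⬝ᵥ u) := mul_pos he (by linarith)
    linarith
  obtain ⟨y, hy0, hy1, hy2⟩ := P28F.LPmaxAux.farkas' B c hno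
  set τ : K := y (Sum.inr ()) with hτ
  have hτ0 : 0 < τ := by
    have h1 : y ⬝ᵥ c = -τ := by
      simp [dotProduct, c, Fintype.sum_sum_type, hτ]
    rw [h1] at hy2
    linarith
  refine ⟨fun i => if (A *ᵥ z) i = b i then y (Sum.inl i) / τ else 0, fun i => ?_, fun l => ?_,
    fun i hi => ?_⟩
  · by_cases hi : (A *ᵥ z) i = b i
    · simp only [hi, if_true]
      exact div_nonneg (hy0 _) hτ0.le
    · simp only [hi, if_false]
      exact le_rfl
  · have h1 := congrFun hy1 l
    have h2 : (y ᵥ* B) l = ∑ i, y (Sum.inl i) * (if (A *ᵥ z) i = b i then A i l else 0)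
        - τ * d l := by
      simp only [vecMul, dotProduct, Fintype.sum_sum_type, B]
      simp only [Sum.elim_inl, Sum.elim_inr, Finset.univ_unique, Finset.sum_singleton,
        Pi.neg_apply]
      rw [hτ, sub_eq_add_neg, mul_neg]
      congr 1
      refine Finset.sum_congr rfl fun i _ => ?_
      by_cases hi : (A *ᵥ z) i = b i <;> simp [hi]
    rw [h2] at h1
    simp only [Pi.zero_apply] at h1
    have h3 : ∑ i, y (Sum.inl i) * (if (A *ᵥ z) i = b i then A i l else 0) = τ * d l := by
      linarith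
    have h4 : ∑ i, (if (A *ᵥ z) i = b i then y (Sum.inl i) / τ else 0) * A i l
        = (∑ i, y (Sum.inl i) * (if (A *ᵥ z) i = b i then A i l else 0)) / τ := by
      rw [Finset.sum_div]
      refine Finset.sum_congr rfl fun i _ => ?_
      by_cases hi : (A *ᵥ z) i = b i
      · simp only [hi, if_true]; ring
      · simp [hi]
    rw [h4, h3]
    field_simp
  · by_contra hne
    simp only [hne, if_false] at hi
    exact lt_irrefl _ hi

/-- An optimal point with multipliers: the program `max d ⬝ z`, `A z ≤ b`, feasible and bounded. -/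
theorem exists_kkt {κ ι : Type} [Fintype κ] [Fintype ι] (A : Matrix ι κ K) (b : ι → K) (d : κ → K)
    (M : K) (hne : ∃ z : κ → K, ∀ i, (A *ᵥ z) i ≤ b i)
    (hM : ∀ z : κ → K, (∀ i, (A *ᵥ z) i ≤ b i) → d ⬝ᵥ z ≤ M) :
    ∃ z : κ → K, (∀ i, (A *ᵥ z) i ≤ b i) ∧
      (∀ w : κ → K, (∀ i, (A *ᵥ w) i ≤ b i) → d ⬝ᵥ w ≤ d ⬝ᵥ z) ∧
      ∃ y : ι → K, (∀ i, 0 ≤ y i) ∧ (∀ l, ∑ i, y i * A i l = d l) ∧
        ∀ i, 0 < y i → (A *ᵥ z) i = b i := by
  classical
  let e : κ ≃ Fin (Fintype.card κ) := Fintype.equivFin κ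
  have hA : ∀ z : Fin (Fintype.card κ) → K,
      (A.submatrix id e.symm) *ᵥ z = A *ᵥ (fun x => z (e x)) := by
    intro z
    funext i
    simp only [mulVec, dotProduct, submatrix_apply, id_eq]
    rw [← Equiv.sum_comp e]
    simp
  have hd : ∀ z : Fin (Fintype.card κ) → K,
      (fun l => d (e.symm l)) ⬝ᵥ z = d ⬝ᵥ (fun x => z (e x)) := by
    intro z
    simp only [dotProduct]
    rw [← Equiv.sum_comp e]
    simp
  obtain ⟨z, hz, hmax⟩ := P28F.exists_max (A.submatrix id e.symm) b (fun l => d (e.symm l)) M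
    (by
      obtain ⟨z, hz⟩ := hne
      refine ⟨fun l => z (e.symm l), ?_⟩
      rw [hA]
      intro i
      simpa using hz i)
    (by
      intro z hz
      rw [hd]
      rw [hA] at hz
      exact hM _ fun i => hz i)
  rw [hA] at hz
  refine ⟨fun x => z (e x), fun i => hz i, ?_, ?_⟩
  · intro w hw
    have h1 := hmax (fun l => w (e.symm l)) (by rw [hA]; intro i; simpa using hw i)
    rw [hd, hd] at h1
    simpa using h1
  · refine kkt A b d (fun x => z (e x)) (fun i => hz i) ?_
    intro w hw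
    have h1 := hmax (fun l => w (e.symm l)) (by rw [hA]; intro i; simpa using hw i)
    rw [hd, hd] at h1
    simpa using h1

/-- LEMMA P (peeling). -/
theorem peel {ι : Type} [Fintype ι] [DecidableEq ι] (D : ι → Finset ι) (w₀ : ι → K) (C T : K)
    (h0 : ∀ y, 0 ≤ w₀ y) (h1 : ∀ x, ∑ y ∈ D x, w₀ y ≤ 1) (hT0 : 0 ≤ T) (hT1 : T < 1) :
    ∃ (t : K) (v : ι → K), 0 ≤ t ∧ t ≤ T ∧ (∀ y, 0 ≤ v y) ∧ (∀ y, v y ≤ w₀ y) ∧
      (∀ x, ∑ y ∈ D x, v y ≤ 1 - t) ∧ ∑ y, w₀ y - C * t ≤ ∑ y, v y ∧
      (t = T ∨ ∃ la : ι → K, (∀ x, 0 ≤ la x) ∧ C ≤ ∑ x, la x ∧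
        (∀ x, 0 < la x → ∑ y ∈ D x, v y = 1 - t) ∧
        ∀ y, 0 < v y → ∑ x with y ∈ D x, la x ≤ 1) := by
  classical
  -- variables: `none` is `t`, `some y` is `v y`
  let A : Matrix (ι ⊕ (ι ⊕ (ι ⊕ (Unit ⊕ (Unit ⊕ Unit))))) (Option ι) K :=
    Sum.elim (fun x l => l.elim 1 (fun y => if y ∈ D x then 1 else 0))
      (Sum.elim (fun x l => l.elim 0 (fun y => if y = x then 1 else 0))
        (Sum.elim (fun x l => l.elim 0 (fun y => if y = x then -1 else 0))
          (Sum.elim (fun _ l => l.elim (-C) (fun _ => -1))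
            (Sum.elim (fun _ l => l.elim 1 (fun _ => 0))
              (fun _ l => l.elim (-1) (fun _ => 0))))))
  let b : (ι ⊕ (ι ⊕ (ι ⊕ (Unit ⊕ (Unit ⊕ Unit))))) → K :=
    Sum.elim (fun _ => 1) (Sum.elim w₀ (Sum.elim (fun _ => 0)
      (Sum.elim (fun _ => -∑ y, w₀ y) (Sum.elim (fun _ => T) (fun _ => 0)))))
  let d : Option ι → K := fun l => l.elim 1 (fun _ => 0)
  have e1 : ∀ (z : Option ι → K) x, (A *ᵥ z) (Sum.inl x) = z none + ∑ y ∈ D x, z (some y) := by
    intro z x
    simp [A, mulVec, dotProduct, Fintype.sum_option, Finset.sum_ite_mem]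
  have e2 : ∀ (z : Option ι → K) x, (A *ᵥ z) (Sum.inr (Sum.inl x)) = z (some x) := by
    intro z x
    simp [A, mulVec, dotProduct, Fintype.sum_option]
  have e3 : ∀ (z : Option ι → K) x, (A *ᵥ z) (Sum.inr (Sum.inr (Sum.inl x))) = - z (some x) := by
    intro z x
    simp [A, mulVec, dotProduct, Fintype.sum_option]
  have e4 : ∀ (z : Option ι → K) u, (A *ᵥ z) (Sum.inr (Sum.inr (Sum.inr (Sum.inl u))))
      = - (C * z none) - ∑ y, z (some y) := by
    intro z u
    simp [A, mulVec, dotProduct, Fintype.sum_option, sub_eq_add_neg]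
  have e5 : ∀ (z : Option ι → K) u, (A *ᵥ z) (Sum.inr (Sum.inr (Sum.inr (Sum.inr (Sum.inl u)))))
      = z none := by
    intro z u
    simp [A, mulVec, dotProduct, Fintype.sum_option]
  have e6 : ∀ (z : Option ι → K) u, (A *ᵥ z) (Sum.inr (Sum.inr (Sum.inr (Sum.inr (Sum.inr u)))))
      = - z none := by
    intro z u
    simp [A, mulVec, dotProduct, Fintype.sum_option]
  have ed : ∀ z : Option ι → K, d ⬝ᵥ z = z none := by
    intro z
    simp [d, dotProduct, Fintype.sum_option]
  obtain ⟨z, hz, hmax, y, hy0, hy1, hy2⟩ := exists_kkt A b d T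
    ⟨fun l => l.elim 0 w₀, by
      rintro (x | x | x | x | x | x)
      · rw [e1]; simpa [b] using h1 x
      · rw [e2]; simp [b]
      · rw [e3]; simpa [b] using h0 x
      · rw [e4]; simp [b]
      · rw [e5]; simpa [b] using hT0
      · rw [e6]; simp [b]⟩
    (by
      intro z hz
      rw [ed]
      have := hz (Sum.inr (Sum.inr (Sum.inr (Sum.inr (Sum.inl ())))))
      rw [e5] at this
      exact this)
  set t : K := z none with ht
  have c1 : ∀ x, t + ∑ y ∈ D x, z (some y) ≤ 1 := fun x => by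
    have := hz (Sum.inl x); rw [e1] at this; exact this
  have c2 : ∀ x, z (some x) ≤ w₀ x := fun x => by
    have := hz (Sum.inr (Sum.inl x)); rw [e2] at this; exact this
  have c3 : ∀ x, 0 ≤ z (some x) := fun x => by
    have := hz (Sum.inr (Sum.inr (Sum.inl x))); rw [e3] at this
    change - z (some x) ≤ 0 at this
    linarith
  have c4 : - (C * t) - ∑ y, z (some y) ≤ - ∑ y, w₀ y := by
    have := hz (Sum.inr (Sum.inr (Sum.inr (Sum.inl ())))); rw [e4] at this; exact this
  have c5 : t ≤ T := by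
    have := hz (Sum.inr (Sum.inr (Sum.inr (Sum.inr (Sum.inl ()))))); rw [e5] at this; exact this
  have c6 : 0 ≤ t := by
    have := hz (Sum.inr (Sum.inr (Sum.inr (Sum.inr (Sum.inr ()))))); rw [e6] at this
    change - t ≤ 0 at this
    linarith
  refine ⟨t, fun y => z (some y), c6, c5, c3, c2, fun x => by have := c1 x; linarith,
    by linarith, ?_⟩
  by_cases htT : t = T
  · exact Or.inl htT
  right
  -- multipliers
  set p : ι → K := fun x => y (Sum.inl x) with hp
  set ga : ι → K := fun x => y (Sum.inr (Sum.inl x)) with hga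
  set de : ι → K := fun x => y (Sum.inr (Sum.inr (Sum.inl x))) with hde
  set be : K := y (Sum.inr (Sum.inr (Sum.inr (Sum.inl ())))) with hbe
  set et : K := y (Sum.inr (Sum.inr (Sum.inr (Sum.inr (Sum.inl ()))))) with het
  set th : K := y (Sum.inr (Sum.inr (Sum.inr (Sum.inr (Sum.inr ()))))) with hth
  have m0 : ∑ x, p x - be * C + et - th = 1 := by
    have h := hy1 none
    simp only [Fintype.sum_sum_type, A, d, Sum.elim_inl, Sum.elim_inr, Option.elim_none,
      Finset.univ_unique, Finset.sum_singleton, mul_one, mul_zero, Finset.sum_const_zero,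
      mul_neg] at h
    simp only [hp, hbe, het, hth]
    linarith
  have m1 : ∀ u, ∑ x with u ∈ D x, p x + ga u - de u - be = 0 := by
    intro u
    have h := hy1 (some u)
    simp only [Fintype.sum_sum_type, A, d, Sum.elim_inl, Sum.elim_inr, Option.elim_some,
      Finset.univ_unique, Finset.sum_singleton, mul_one, mul_zero, mul_ite, mul_neg,
      Finset.sum_ite_eq, Finset.mem_univ, if_true, ← Finset.sum_filter] at h
    simp only [hp, hga, hde, hbe]
    linarith
  have het0 : et = 0 := by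
    by_contra hne
    have hpos : 0 < et := lt_of_le_of_ne (hy0 _) (Ne.symm hne)
    have h := hy2 _ hpos
    rw [e5] at h
    exact htT h
  have hth0 : 0 ≤ th := hy0 _
  have hde0 : ∀ u, 0 < z (some u) → de u = 0 := by
    intro u hu
    by_contra hne
    have hpos : 0 < de u := lt_of_le_of_ne (hy0 _) (Ne.symm hne)
    have h := hy2 _ hpos
    rw [e3] at h
    change - z (some u) = 0 at h
    linarith
  have hp0 : ∀ x, 0 ≤ p x := fun x => hy0 _
  have hga0 : ∀ x, 0 ≤ ga x := fun x => hy0 _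
  have hact : ∀ x, 0 < p x → t + ∑ y ∈ D x, z (some y) = 1 := by
    intro x hx
    have h := hy2 _ hx
    rw [e1] at h
    exact h
  have hbe0 : 0 ≤ be := hy0 _
  have hbepos : 0 < be := by
    by_contra hcon
    have hb : be = 0 := le_antisymm (not_lt.1 hcon) hbe0
    have hs : 1 ≤ ∑ x, p x := by rw [hb, het0] at m0; linarith
    obtain ⟨x, -, hx⟩ : ∃ x ∈ (Finset.univ : Finset ι), 0 < p x := by
      by_contra hall
      push Not at hall
      have : ∑ x, p x ≤ 0 := Finset.sum_nonpos fun x hx => hall x hx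
      linarith
    have h2 := hact x hx
    have h3 : 0 < ∑ y ∈ D x, z (some y) := by linarith
    obtain ⟨u, hu, hu0⟩ : ∃ u ∈ D x, 0 < z (some u) := by
      by_contra hall
      push Not at hall
      have : ∑ y ∈ D x, z (some y) ≤ 0 := Finset.sum_nonpos fun x hx => hall x hx
      linarith
    have h4 := m1 u
    rw [hde0 u hu0, hb] at h4
    have h5 : p x ≤ ∑ x with u ∈ D x, p x :=
      Finset.single_le_sum (fun i _ => hp0 i) (by simpa using hu)
    have h6 := hga0 u
    linarith
  refine ⟨fun x => p x / be, fun x => div_nonneg (hp0 x) hbe0, ?_, ?_, ?_⟩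
  · rw [← Finset.sum_div, le_div_iff₀ hbepos]
    rw [het0] at m0
    nlinarith
  · intro x hx
    have : 0 < p x := by
      by_contra hcon
      have h0 : p x = 0 := le_antisymm (not_lt.1 hcon) (hp0 x)
      simp [h0] at hx
    have := hact x this
    linarith
  · intro u hu
    rw [← Finset.sum_div, div_le_one hbepos]
    have h4 := m1 u
    rw [hde0 u hu] at h4
    have h6 := hga0 u
    linarith

end

end Pool.Agent.Lib.EcW
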