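import Pool.Agent.Lib.EcW.AsmA
import Pool.Agent.Lib.EcW.AsmB
import Pool.Agent.Lib.EcW.LP
import Pool.Agent.Lib.EcW.Limit
import Pool.Agent.Lib.EcR.Main

/-!
# EcW.Asm: the upper bound for `g(k,n)/n` from the core theorem
-/

set_option autoImplicit false

namespace Pool.Agent.Lib.EcW

open Finset Classical Pool.Agent.Lib.Pec6744 Pool.Agent.Lib.EcR

theorem noBig_mono {P P' : Finset E2} (h : P' ⊆ P) {n k : ℕ} (hP : NoBig P n k) : NoBig P' n k :=
  fun T hT hc => hP T (hT.trans h) hc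

theorem genPos_mono {P P' : Finset E2} (h : P' ⊆ P) (hP : GenPos P) : GenPos P' :=
  fun a ha b hb c hc => hP a (h ha) b (h hb) c (h hc)

/-- the upper bound from the core theorem with constant `Λ`: it holds for all `k ≥ max 33 (2Λ + 3)` -/
theorem upper {Λ : ℚ} (hΛ0 : 0 ≤ Λ) (hcore : CoreStmt Λ) (k : ℕ) (hk33 : 33 ≤ k)
    (hk : 2 * Λ + 3 ≤ k) : FinalStmt k := by
  intro ε0 hε0
  set ε : ℝ := min ε0 1 with hε
  have hεp : 0 < ε := lt_min hε0 one_pos
  have hε1 : ε ≤ 1 := min_le_right _ _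
  have hε2 : ε ≤ ε0 := min_le_left _ _
  have hkR : (33 : ℝ) ≤ k := by exact_mod_cast hk33
  have hΛR0 : (0 : ℝ) ≤ Λ := by exact_mod_cast hΛ0
  have hkΛ : 2 * (Λ : ℝ) + 3 ≤ k := by exact_mod_cast hk
  obtain ⟨κ, hκ⟩ := exists_nat_gt (2 * ((k : ℝ) + 1) / ε)
  have hκ1 : 2 * ((k : ℝ) + 1) < κ * ε := by
    rw [div_lt_iff₀ hεp] at hκ
    exact hκ
  have hκpos : (0 : ℝ) < κ := by
    by_contra hcon
    have : (κ : ℝ) = 0 := le_antisymm (not_lt.1 hcon) (Nat.cast_nonneg _)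
    rw [this] at hκ1
    linarith
  have hκk : 2 * ((k : ℝ) + 1) < κ := by
    have : (κ : ℝ) * ε ≤ κ * 1 := mul_le_mul_of_nonneg_left hε1 hκpos.le
    linarith
  have hκ1' : (1 : ℚ) < κ := by
    have : (1 : ℝ) < κ := by linarith
    exact_mod_cast this
  have hκQ : (0 : ℚ) < κ := by linarith
  set η : ℝ := ε / (2 * κ * (k + 4)) with hη
  have hηp : 0 < η := by positivity
  have hη1 : κ * η ≤ 1 / 2 := by
    have : (κ : ℝ) * η = ε / (2 * (k + 4)) := by
      rw [hη]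
      field_simp
    rw [this, div_le_div_iff₀ (by positivity) (by norm_num)]
    linarith
  have hη2 : ((k : ℝ) / 3 + 4) * η ≤ ε / 2 := by
    have h1 : ((k : ℝ) / 3 + 4) * η ≤ (k + 4) * η :=
      mul_le_mul_of_nonneg_right (by linarith) hηp.le
    have h2 : ((k : ℝ) + 4) * η = ε / (2 * κ) := by
      rw [hη]
      field_simp
    have h3 : ε / (2 * κ) ≤ ε / 2 := by
      apply div_le_div_of_nonneg_left hεp.le (by norm_num)
      linarith
    linarith
  obtain ⟨n1, hn1⟩ := red2 k (by omega) ε η hεp hηp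
  refine ⟨max n1 (max (4 * κ) (k + 1)), fun n hn P hP hcard hNo => ?_⟩
  have hnn1 : n1 ≤ n := (le_max_left _ _).trans hn
  have hn4 : 4 * κ ≤ n := ((le_max_left _ _).trans (le_max_right _ _)).trans hn
  have hnk : k + 1 ≤ n := ((le_max_right _ _).trans (le_max_right _ _)).trans hn
  have hnR : (1 : ℝ) ≤ n := by
    have : 1 ≤ n := by omega
    exact_mod_cast this
  have hn4R : 4 * (κ : ℝ) ≤ n := by exact_mod_cast hn4
  -- a subset of the right size
  set M : ℕ := ⌈(((k : ℝ) - 1) / 2 + ε) * n⌉₊ with hM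
  have hMle : M ≤ P.card := by
    apply Nat.ceil_le.2
    refine le_trans ?_ hcard
    exact mul_le_mul_of_nonneg_right (by linarith) (by linarith)
  obtain ⟨P', hP'P, hP'c⟩ := Finset.exists_subset_card_eq hMle
  have hGP := genPos_mono hP'P hP
  have hNB := noBig_mono hP'P hNo
  have hM1 : (((k : ℝ) - 1) / 2 + ε) * n ≤ P'.card := by
    rw [hP'c]
    exact Nat.le_ceil _
  have hM2 : (P'.card : ℝ) ≤ k * n := by
    rw [hP'c]
    have h1 : (M : ℝ) < (((k : ℝ) - 1) / 2 + ε) * n + 1 := by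
      apply Nat.ceil_lt_add_one
      apply mul_nonneg _ (by linarith)
      linarith
    have h2 : (((k : ℝ) - 1) / 2 + ε) * n + 1 ≤ (((k : ℝ) - 1) / 2 + 1) * n + n := by
      have := mul_le_mul_of_nonneg_right hε1 (show (0 : ℝ) ≤ n by linarith)
      nlinarith
    have h3 : (((k : ℝ) - 1) / 2 + 1) * n + n ≤ k * n := by
      have : (((k : ℝ) - 1) / 2 + 1) * n + n = (((k : ℝ) - 1) / 2 + 2) * n := by ring
      rw [this]
      exact mul_le_mul_of_nonneg_right (by linarith) (by linarith)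
    linarith
  obtain ⟨N, m, w0, x, y, Co, hR, hs⟩ := hn1 n hnn1 P' hGP hNB hM1 hM2
  -- peeling
  set T : ℚ := 1 - 1 / κ with hT
  have hinv : (1 : ℚ) / κ < 1 := by
    rw [div_lt_one hκQ]
    exact hκ1'
  have hinv0 : (0 : ℚ) < 1 / κ := by positivity
  obtain ⟨t, v, ht0, htT, hv0, hv1, hvD, hvs, hcase⟩ := peel
    (fun i => univ.filter (fun j => 0 ≤ orient (x i) (y i) (x j))) (fun _ => w0) Λ T
    (fun _ => hR.hw0.le) (fun i => by
      rw [Finset.sum_const, nsmul_eq_mul]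
      exact hR.light i) (by linarith) (by linarith)
  have hvR0 : ∀ i, (0 : ℝ) ≤ (v i : ℝ) := fun i => by exact_mod_cast hv0 i
  have hvR1 : ∀ i, (v i : ℝ) ≤ (w0 : ℝ) := fun i => by exact_mod_cast hv1 i
  rw [Finset.sum_const, Finset.card_univ, Fintype.card_fin, nsmul_eq_mul] at hvs
  have hvsR : (N : ℝ) * w0 - Λ * t ≤ ((∑ i, v i : ℚ) : ℝ) := by exact_mod_cast hvs
  have hsΛ : 1 + ε / 2 ≤ (N : ℝ) * w0 - Λ := by linarith
  rcases hcase with hcase | ⟨la, hla0, hlaΛ, hlat, hlav⟩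
  · -- case A
    refine asmA (by omega) hnk hGP hR (κ : ℝ) hκpos (fun i => (v i : ℝ)) hvR0 hvR1 ?_ ?_ ?_ hNB
    · intro i
      have h1 := hvD i
      rw [hcase, hT, sub_sub_cancel] at h1
      have h2 : ((∑ j ∈ univ.filter (fun j => 0 ≤ orient (x i) (y i) (x j)), v j : ℚ) : ℝ) ≤
          ((1 / κ : ℚ) : ℝ) := by exact_mod_cast h1
      push_cast at h2
      calc (κ : ℝ) * ∑ j ∈ univ.filter (fun j => 0 ≤ orient (x i) (y i) (x j)), (v j : ℝ) ≤
          κ * (1 / κ) := mul_le_mul_of_nonneg_left h2 hκpos.le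
        _ = 1 := by field_simp
    all_goals
      have hTR : ((T : ℚ) : ℝ) = 1 - 1 / κ := by
        rw [hT]
        push_cast
        rfl
      rw [hcase, hTR] at hvsR
      push_cast at hvsR
      have h1 := mul_le_mul_of_nonneg_left hvsR hκpos.le
      have h2 : (κ : ℝ) * ((N : ℝ) * w0 - Λ * (1 - 1 / κ)) = κ * ((N : ℝ) * w0 - Λ) + Λ := by
        field_simp
        ring
      rw [h2] at h1
      have h3 := mul_le_mul_of_nonneg_left hsΛ hκpos.le
      have h4 : (κ : ℝ) * (1 + ε / 2) = κ + κ * ε / 2 := by ring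
      rw [h4] at h3
    · linarith
    · have h5 : 2 * (κ : ℝ) / n ≤ 1 / 2 := by
        rw [div_le_div_iff₀ (by linarith) (by norm_num)]
        linarith
      have h6 : (1 + κ * η + 2 * (κ : ℝ) / n) * (((k : ℝ) + 1) / 2) ≤ 2 * (((k : ℝ) + 1) / 2) :=
        mul_le_mul_of_nonneg_right (by linarith) (by linarith)
      linarith
  · -- case B
    have ht1 : (0 : ℚ) < 1 - t := by linarith
    set a : ℚ := 1 / (1 - t) with ha
    have hap : 0 < a := by positivity
    have ha1 : a * (1 - t) = 1 := by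
      rw [ha]
      field_simp
    have haone : 1 ≤ a := by
      rw [ha, le_div_iff₀ ht1]
      linarith
    have haκ : a ≤ κ := by
      rw [ha, div_le_iff₀ ht1]
      have h1 : (κ : ℚ) * (1 / κ) = 1 := by field_simp
      have h2 : 1 / (κ : ℚ) ≤ 1 - t := by linarith
      have h3 := mul_le_mul_of_nonneg_left h2 hκQ.le
      linarith
    have haR : (1 : ℝ) ≤ a := by exact_mod_cast haone
    have haRκ : (a : ℝ) ≤ κ := by exact_mod_cast haκ
    have ha1R : (a : ℝ) * (1 - t) = 1 := by exact_mod_cast ha1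
    -- the total weight
    have hA : (a : ℝ) * ((N : ℝ) * w0 - Λ) + Λ ≤ ((a * ∑ i, v i : ℚ) : ℝ) := by
      have h1 := mul_le_mul_of_nonneg_left hvsR (show (0 : ℝ) ≤ a by linarith)
      have h2 : (a : ℝ) * ((N : ℝ) * w0 - Λ * t) = a * ((N : ℝ) * w0 - Λ) + Λ * (a * (1 - t)) := by
        ring
      rw [h2, ha1R, mul_one] at h1
      rw [Rat.cast_mul]
      exact h1
    have hr : 0 ≤ ((k : ℝ) - 1) / 2 - Λ - 1 := by linarith
    have hB : (a : ℝ) + a * (ε / 2) + (((k : ℝ) - 1) / 2 - 1) ≤ ((a * ∑ i, v i : ℚ) : ℝ) := by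
      refine le_trans ?_ hA
      have h1 : 1 + ε / 2 + (((k : ℝ) - 1) / 2 - Λ - 1) ≤ (N : ℝ) * w0 - Λ := by linarith
      have h2 := mul_le_mul_of_nonneg_left h1 (show (0 : ℝ) ≤ a by linarith)
      have h3 : (1 : ℝ) * (((k : ℝ) - 1) / 2 - Λ - 1) ≤ a * (((k : ℝ) - 1) / 2 - Λ - 1) :=
        mul_le_mul_of_nonneg_right haR hr
      linarith
    have hC : (0 : ℝ) < a * (ε / 2) := by positivity
    have hlav' : ∀ j, 0 < v j →
        ∑ i ∈ univ.filter (fun i => 0 ≤ orient (x i) (y i) (x j)), la i ≤ 1 := by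
      intro j hj
      refine le_trans (le_of_eq ?_) (hlav j hj)
      refine Finset.sum_congr ?_ fun _ _ => rfl
      ext i
      simp
    refine asmB (by omega) (by omega) hGP hηp.le hR hcore a hap v la hv0 hv1 ?_ ?_ hla0 hlaΛ ?_
      hlav' ?_ ?_ hNB
    · intro i
      have h1 := mul_le_mul_of_nonneg_left (hvD i) hap.le
      rw [ha1] at h1
      exact h1
    · have h1 : (4 : ℝ) ≤ ((a * ∑ i, v i : ℚ) : ℝ) := by linarith
      exact_mod_cast h1
    · intro i hi
      rw [hlat i hi]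
      exact ha1
    · have h1 : (k : ℝ) - 1 < 2 * ((a * ∑ i, v i : ℚ) : ℝ) := by linarith
      exact_mod_cast h1
    · refine le_trans ?_ hB
      have h1 := mul_le_mul_of_nonneg_left hη2 (show (0 : ℝ) ≤ a by linarith)
      have h2 : (k : ℝ) * (1 + (a : ℝ) * η) / 3 + 4 * (1 + (a : ℝ) * η) + (a : ℝ) =
          (k : ℝ) / 3 + 4 + a * (((k : ℝ) / 3 + 4) * η) + a := by ring
      rw [h2]
      linarith

end Pool.Agent.Lib.EcW
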