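import Pool.Agent.Lib.EcW.CaseA
import Pool.Agent.Lib.EcR.Trans

/-!
# EcW.AsmA: Case A of the upper bound, from the reduction and the peeling lemma
-/

set_option autoImplicit false

namespace Pool.Agent.Lib.EcW

open Finset Classical Pool.Agent.Lib.Pec6744 Pool.Agent.Lib.EcR

/-- weight of a closed half plane bounded by a flag -/
theorem closed_le {P : Finset E2} {n N m : ℕ} {w0 : ℚ} {η : ℝ} {x y : Fin N → E2}
    {Co : Fin N → Finset E2} (h : Red P n N m w0 η x y Co) (hP : GenPos P) (hn : 1 ≤ n)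
    (v : Fin N → ℝ) (hv0 : ∀ i, 0 ≤ v i) (hv : ∀ i, v i ≤ (w0 : ℝ)) (i : Fin N) :
    ∑ p ∈ P with 0 ≤ orient (x i) (y i) p, vh Co m v p ≤
      ∑ j with 0 ≤ orient (x i) (y i) (x j), v j + η + 2 / n := by
  have hxP : x i ∈ P := h.sub i (h.hx i)
  have hyP : y i ∈ P := h.sub i (h.hy i)
  have hnR : (0 : ℝ) < n := by exact_mod_cast hn
  have hvh0 : ∀ p, 0 ≤ vh Co m v p := fun p => vh_nonneg Co m v hv0 p
  have hvh1 : ∀ p, vh Co m v p ≤ 1 / n := by
    intro p
    rw [le_div_iff₀ hnR]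
    exact h.vh_mul_le v hv p
  have hsub : P.filter (fun p => 0 ≤ orient (x i) (y i) p) ⊆
      P.filter (fun p => 0 < orient (x i) (y i) p) ∪ {x i, y i} := by
    intro p hp
    rw [mem_filter] at hp
    rw [mem_union, mem_filter]
    rcases hp.2.lt_or_eq with h1 | h1
    · exact Or.inl ⟨hp.1, h1⟩
    · right
      rw [mem_insert, mem_singleton]
      by_contra hcon
      rw [not_or] at hcon
      exact hP (x i) hxP (y i) hyP p hp.1 (h.ne i) (fun e => hcon.1 e.symm)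
        (fun e => hcon.2 e.symm) h1.symm
  have h1 : ∑ p ∈ P with 0 ≤ orient (x i) (y i) p, vh Co m v p ≤
      ∑ p ∈ P with 0 < orient (x i) (y i) p, vh Co m v p + ∑ p ∈ {x i, y i}, vh Co m v p := by
    refine (Finset.sum_le_sum_of_subset_of_nonneg hsub fun p _ _ => hvh0 p).trans ?_
    have := Finset.sum_union_inter (s₁ := P.filter (fun p => 0 < orient (x i) (y i) p))
      (s₂ := {x i, y i}) (f := vh Co m v)
    have h2 : 0 ≤ ∑ p ∈ P.filter (fun p => 0 < orient (x i) (y i) p) ∩ {x i, y i}, vh Co m v p :=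
      Finset.sum_nonneg fun p _ => hvh0 p
    linarith
  have h2 : ∑ p ∈ ({x i, y i} : Finset E2), vh Co m v p ≤ 2 / n := by
    rw [Finset.sum_pair (h.ne i)]
    have := hvh1 (x i)
    have := hvh1 (y i)
    have e : (2 : ℝ) / n = 1 / n + 1 / n := by ring
    linarith
  have h3 := (abs_le.1 (h.trans v hv0 hv (x i) (y i) (h.ne i))).2
  have h4 : ∑ j with 0 < orient (x i) (y i) (x j), v j ≤
      ∑ j with 0 ≤ orient (x i) (y i) (x j), v j := by
    refine Finset.sum_le_sum_of_subset_of_nonneg ?_ fun j _ _ => hv0 j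
    intro j hj
    rw [mem_filter] at hj ⊢
    exact ⟨hj.1, hj.2.le⟩
  linarith

/-- CASE A -/
theorem asmA {P : Finset E2} {n k : ℕ} (hk1 : 1 ≤ k) (hkn : k + 1 ≤ n) (hP : GenPos P) {N m : ℕ}
    {w0 : ℚ} {η : ℝ} {x y : Fin N → E2} {Co : Fin N → Finset E2} (h : Red P n N m w0 η x y Co)
    (κ : ℝ) (hκ : 0 < κ) (v : Fin N → ℝ) (hv0 : ∀ i, 0 ≤ v i) (hv : ∀ i, v i ≤ (w0 : ℝ))
    (hvD : ∀ i, κ * ∑ j with 0 ≤ orient (x i) (y i) (x j), v j ≤ 1)
    (hk : (k : ℝ) - 1 < κ * ∑ i, v i)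
    (htot : κ + (1 + κ * η + 2 * κ / n) * (((k : ℝ) + 1) / 2) ≤ κ * ∑ i, v i) :
    ¬ NoBig P n k := by
  refine caseA hk1 hkn x y (fun i => h.sub i (h.hx i)) (fun i => h.sub i (h.hy i)) h.ne ?_
    (fun i => κ * v i) (fun i => mul_nonneg hκ.le (hv0 i)) ?_ ?_ (fun p => κ * vh Co m v p) κ hκ
    (fun p _ => mul_nonneg hκ.le (vh_nonneg Co m v hv0 p)) ?_ (1 + κ * η + 2 * κ / n) ?_ ?_
  · intro i l hil h1
    rcases h.side2 i l hil with h2 | h2
    · exact absurd h2.1 (not_lt.2 h1.le)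
    · exact h2.2
  · intro i
    rw [← Finset.mul_sum]
    exact hvD i
  · rw [← Finset.mul_sum]
    exact hk
  · intro p _
    have := h.vh_mul_le v hv p
    have := mul_le_mul_of_nonneg_left this hκ.le
    linarith
  · intro i
    rw [← Finset.mul_sum]
    have h1 := closed_le h hP (by omega) v hv0 hv i
    have h2 := mul_le_mul_of_nonneg_left h1 hκ.le
    have h3 := hvD i
    have e : κ * (∑ j with 0 ≤ orient (x i) (y i) (x j), v j + η + 2 / n) =
        κ * ∑ j with 0 ≤ orient (x i) (y i) (x j), v j + κ * η + 2 * κ / n := by ring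
    linarith
  · rw [← Finset.mul_sum, h.sum_vh]
    exact htot

end Pool.Agent.Lib.EcW
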