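import Pool.Agent.Lib.EcW.Defs

/-!
# EcW.CBasic : basic facts on wheels, zones and sheets (core, part 2)
-/

set_option autoImplicit false

namespace Pool.Agent.Lib.EcW

/-- `d` overtakes `c` between the times `t` and `t + 1` -/
def Wheel.Ov {C : Type} (W : Wheel C) (t : ℤ) (c d : C) : Prop := W.ab t c d ∧ W.ab (t + 1) d c

namespace Wheel

variable {C : Type} (W : Wheel C)

theorem asymm {t : ℤ} {c d : C} (h : W.ab t c d) : ¬ W.ab t d c :=
  fun h' => W.irr t c (W.trans t c d c h h')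

theorem ab_ne {t : ℤ} {c d : C} (h : W.ab t c d) : c ≠ d := by
  rintro rfl; exact W.irr t c h

variable {W}

theorem Ov.after {t : ℤ} {c d : C} (h : W.Ov t c d) {τ : ℤ} (h1 : t < τ) (h2 : τ ≤ t + W.H) :
    W.ab τ d c := by
  rcases W.tot τ d c (W.ab_ne h.2) with h3 | h3
  · exact h3
  · exfalso
    rcases eq_or_lt_of_le (show t + 1 ≤ τ by omega) with h4 | h4
    · subst h4; exact W.asymm h.2 h3
    · exact W.pl c d t (t + 1) τ (by omega) h4 h2 h.1 h.2 h3

theorem Ov.before {t : ℤ} {c d : C} (h : W.Ov t c d) {τ : ℤ} (h1 : t - W.H < τ) (h2 : τ ≤ t) :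
    W.ab τ c d := by
  rcases W.tot τ c d (W.ab_ne h.1) with h3 | h3
  · exact h3
  · exfalso
    rcases eq_or_lt_of_le h2 with h4 | h4
    · subst h4; exact W.asymm h.1 h3
    · exact W.pl d c τ t (t + 1) h4 (by omega) (by omega) h3 h.1 h.2

theorem exists_ov {s t : ℤ} {c d : C} (hst : s ≤ t) (h1 : W.ab s c d) (h2 : W.ab t d c) :
    ∃ τ : ℤ, s ≤ τ ∧ τ < t ∧ W.Ov τ c d := by
  obtain ⟨n, rfl⟩ : ∃ n : ℕ, t = s + n := ⟨(t - s).toNat, by omega⟩
  induction n with
  | zero => exfalso; simp at h2; exact W.asymm h1 h2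
  | succ n ih =>
    rcases W.tot (s + n) c d (W.ab_ne h1) with h3 | h3
    · refine ⟨s + n, by omega, by push_cast; omega, h3, ?_⟩
      have : s + (n : ℤ) + 1 = s + ((n + 1 : ℕ) : ℤ) := by push_cast; ring
      rw [this]; exact h2
    · obtain ⟨τ, a, b, c⟩ := ih (by omega) h3
      exact ⟨τ, a, by push_cast; omega, c⟩

theorem Ov.shift {t : ℤ} {c d : C} (h : W.Ov t c d) : W.Ov (t + 2 * W.H) c d := by
  refine ⟨(W.per t c d).2 h.1, ?_⟩
  have := (W.per (t + 1) d c).2 h.2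
  have e : t + 2 * (W.H : ℤ) + 1 = t + 1 + 2 * (W.H : ℤ) := by ring
  rw [e]; exact this

variable [Fintype C]

theorem mem_zone {p : ℕ} {t : ℤ} {c : C} :
    c ∈ W.zone p t ↔ (by classical exact (Finset.univ.filter (fun d => W.ab t d c)).card < p) := by
  classical
  simp [zone]

theorem zone_up {p : ℕ} {t : ℤ} {c d : C} (hd : d ∈ W.zone p t) (h : W.ab t c d) :
    c ∈ W.zone p t := by
  classical
  rw [mem_zone] at hd ⊢
  refine lt_of_le_of_lt (Finset.card_le_card ?_) hd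
  intro e he
  rw [Finset.mem_filter] at he ⊢
  exact ⟨he.1, W.trans t e c d he.2 h⟩

theorem ab_of_zone {p : ℕ} {t : ℤ} {c d : C} (hc : c ∈ W.zone p t) (hd : d ∉ W.zone p t) :
    W.ab t c d := by
  rcases W.tot t c d (fun h => hd (h ▸ hc)) with h | h
  · exact h
  · exact absurd (zone_up hc h) hd

theorem zone_per {p : ℕ} (t : ℤ) : W.zone p (t + 2 * W.H) = W.zone p t := by
  classical
  ext c
  rw [mem_zone, mem_zone]
  have : (Finset.univ.filter (fun d => W.ab (t + 2 * W.H) d c)) =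
      (Finset.univ.filter (fun d => W.ab t d c)) := by
    ext d; simp [W.per]
  rw [this]

end Wheel

namespace Strands

variable {C : Type} [Fintype C] {Λ : ℚ} {D : WData C Λ} (S : Strands D)

theorem leave {a : Fin D.p} {t : ℤ} (h : S.brk a t) : S.L t a ∉ D.Z (t + 1) :=
  fun h' => h (S.step t a h').symm

theorem enter {a : Fin D.p} {t : ℤ} (h : S.brk a t) : S.L (t + 1) a ∉ D.Z t := by
  intro h'
  obtain ⟨b, hb⟩ := S.surj t _ h'
  have h1 : S.L t b ∈ D.Z (t + 1) := by rw [hb]; exact S.mem (t + 1) a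
  have h2 := S.step t b h1
  rw [hb] at h2
  have := S.inj (t + 1) h2
  subst this
  exact h hb

theorem ov {a : Fin D.p} {t : ℤ} (h : S.brk a t) : D.toWheel.Ov t (S.L t a) (S.L (t + 1) a) :=
  ⟨Wheel.ab_of_zone (S.mem t a) (S.enter h), Wheel.ab_of_zone (S.mem (t + 1) a) (S.leave h)⟩

/-- no break in `[s, t)`: the clone is constant on `[s, t]` -/
theorem const {a : Fin D.p} {s t : ℤ} (h : ∀ r, s ≤ r → r < t → ¬ S.brk a r) {r : ℤ} (h1 : s ≤ r)
    (h2 : r ≤ t) : S.L r a = S.L s a := by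
  obtain ⟨n, rfl⟩ : ∃ n : ℕ, r = s + n := ⟨(r - s).toNat, by omega⟩
  induction n with
  | zero => simp
  | succ n ih =>
    have h3 := h (s + n) (by omega) (by push_cast at h2; omega)
    unfold brk at h3
    push Not at h3
    have e : s + ((n + 1 : ℕ) : ℤ) = s + n + 1 := by push_cast; ring
    rw [e, ← h3]
    exact ih (by omega) (by push_cast at h2; omega)

theorem brk_shift {a : Fin D.p} {t : ℤ} : S.brk a (t + 2 * D.H) ↔ S.brk (S.ρ a) t := by
  unfold brk
  have e : t + 2 * (D.H : ℤ) + 1 = t + 1 + 2 * (D.H : ℤ) := by ring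
  rw [e, S.per, S.per]

theorem mark_shift (D : WData C Λ) (c : C) (t : ℤ) : D.mark c (t + 2 * D.H) = D.mark c t := by
  unfold WData.mark
  have e : t + 2 * (D.H : ℤ) - D.m c = (t - D.m c) + 2 * (D.H : ℤ) := by ring
  rw [e]
  simp

theorem nb_nonneg (a : Fin D.p) (s t : ℤ) : 0 ≤ S.nb a s t := by unfold nb; positivity

theorem mark_nonneg (D : WData C Λ) (c : C) (t : ℤ) : 0 ≤ D.mark c t := by
  unfold WData.mark; split_ifs <;> norm_num

theorem nm_nonneg (a : Fin D.p) (s t : ℤ) : 0 ≤ S.nm a s t :=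
  Finset.sum_nonneg (fun _ _ => mark_nonneg D _ _)

theorem ev_nonneg (a : Fin D.p) (s t : ℤ) : 0 ≤ S.ev a s t :=
  add_nonneg (S.nb_nonneg a s t) (S.nm_nonneg a s t)

theorem nb_add (a : Fin D.p) {s t u : ℤ} (h1 : s ≤ t) (h2 : t ≤ u) :
    S.nb a s t + S.nb a t u = S.nb a s u := by
  classical
  unfold nb
  rw [← Nat.cast_add, ← Finset.card_union_of_disjoint, ← Finset.filter_union,
    Finset.Ico_union_Ico_eq_Ico h1 h2]
  exact Finset.disjoint_filter_filter (Finset.Ico_disjoint_Ico_consecutive s t u)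

theorem nm_add (a : Fin D.p) {s t u : ℤ} (h1 : s ≤ t) (h2 : t ≤ u) :
    S.nm a s t + S.nm a t u = S.nm a s u := by
  unfold nm
  rw [← Finset.sum_union, Finset.Ioc_union_Ioc_eq_Ioc h1 h2]
  exact Finset.Ioc_disjoint_Ioc_of_le le_rfl

theorem ev_add (a : Fin D.p) {s t u : ℤ} (h1 : s ≤ t) (h2 : t ≤ u) :
    S.ev a s t + S.ev a t u = S.ev a s u := by
  unfold ev
  rw [← S.nb_add a h1 h2, ← S.nm_add a h1 h2]; ring

theorem nb_shift (a : Fin D.p) (s t : ℤ) :
    S.nb a (s + 2 * D.H) (t + 2 * D.H) = S.nb (S.ρ a) s t := by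
  classical
  unfold nb
  congr 1
  refine Finset.card_bij (fun τ _ => τ - 2 * D.H) ?_ ?_ ?_
  · intro τ hτ
    simp only [Finset.mem_filter, Finset.mem_Ico] at hτ ⊢
    refine ⟨by omega, ?_⟩
    rw [← S.brk_shift]
    simpa using hτ.2
  · intro a _ b _ h; omega
  · intro τ hτ
    simp only [Finset.mem_filter, Finset.mem_Ico] at hτ
    refine ⟨τ + 2 * D.H, ?_, by ring⟩
    simp only [Finset.mem_filter, Finset.mem_Ico]
    exact ⟨by omega, S.brk_shift.2 hτ.2⟩

theorem nm_shift (a : Fin D.p) (s t : ℤ) :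
    S.nm a (s + 2 * D.H) (t + 2 * D.H) = S.nm (S.ρ a) s t := by
  unfold nm
  refine Finset.sum_bij (fun τ _ => τ - 2 * D.H) ?_ ?_ ?_ ?_
  · intro τ hτ
    simp only [Finset.mem_Ioc] at hτ ⊢
    omega
  · intro a _ b _ h; omega
  · intro τ hτ
    simp only [Finset.mem_Ioc] at hτ
    exact ⟨τ + 2 * D.H, by simp only [Finset.mem_Ioc]; omega, by ring⟩
  · intro τ hτ
    have h1 := S.per (τ - 2 * D.H) a
    have h2 := mark_shift D (S.L (τ - 2 * D.H) (S.ρ a)) (τ - 2 * D.H)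
    have e : τ - 2 * (D.H : ℤ) + 2 * (D.H : ℤ) = τ := by ring
    rw [e] at h1 h2
    rw [h1, h2]

theorem ev_shift (a : Fin D.p) (s t : ℤ) :
    S.ev a (s + 2 * D.H) (t + 2 * D.H) = S.ev (S.ρ a) s t := by
  unfold ev; rw [S.nb_shift, S.nm_shift]

end Strands

end Pool.Agent.Lib.EcW
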