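import Pool.Agent.Lib.Pec6744.Main

/-!
# Module EcW.CaseA: Case A (C13) of `/team-store/EC_proof.md` (MP_ec6744_co) (helper98)

`exists_indep_w`: weighted greedy independent set in a digraph whose out-neighbourhoods have
weight at most `1`.
`of_indep_large`: independent edges and a large common outer side.
`caseA`: if the weights `w` on `S` are large (more than `k - 1`), then `P` has an `n`-subset with
at least `k` hull vertices.
-/

set_option autoImplicit false

namespace Pool.Agent.Lib.EcW

open Finset Classical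
open Pool.Agent.Lib.Pec6744

/-- Weighted greedy independent set. -/
theorem exists_indep_w {ι : Type} {K : Type} [Field K] [LinearOrder K] [IsStrictOrderedRing K]
    (R : ι → ι → Prop) (hR : ∀ x, R x x) (w : ι → K) :
    ∀ (m : ℕ) (S : Finset ι), (∀ x ∈ S, 0 ≤ w x) →
      (∀ x ∈ S, ∑ y ∈ S with R x y, w y ≤ 1) → 2 * (m : K) < ∑ x ∈ S, w x →
      ∃ J ⊆ S, J.card = m + 1 ∧ ∀ x ∈ J, ∀ y ∈ J, x ≠ y → ¬ R x y := by
  intro m
  induction m with
  | zero =>
    intro S hw _ hS
    obtain ⟨x, hx⟩ : S.Nonempty := by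
      by_contra hcon
      rw [Finset.not_nonempty_iff_eq_empty] at hcon
      subst hcon
      simp at hS
    refine ⟨{x}, by simpa using hx, by simp, ?_⟩
    intro a ha b hb hab
    rw [Finset.mem_singleton] at ha hb
    exact absurd (ha.trans hb.symm) hab
  | succ m ih =>
    intro S hw hD hS
    -- a vertex with small in-weight
    have htot : 0 < ∑ x ∈ S, w x := lt_of_le_of_lt (by positivity) hS
    obtain ⟨x, hx, hx0, hxin⟩ : ∃ x ∈ S, 0 < w x ∧ ∑ y ∈ S with R y x, w y ≤ 1 := by
      by_contra hcon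
      push Not at hcon
      have h1 : ∑ x ∈ S, w x < ∑ x ∈ S, w x * ∑ y ∈ S with R y x, w y := by
        obtain ⟨z, hz, hz0⟩ : ∃ z ∈ S, 0 < w z := by
          by_contra hall
          push Not at hall
          have : ∑ x ∈ S, w x ≤ 0 := Finset.sum_nonpos hall
          linarith
        apply Finset.sum_lt_sum
        · intro i hi
          rcases (hw i hi).eq_or_lt with h | h
          · rw [← h, zero_mul]
          · have := hcon i hi h
            nlinarith
        · refine ⟨z, hz, ?_⟩
          have := hcon z hz hz0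
          nlinarith
      have h2 : ∑ x ∈ S, w x * ∑ y ∈ S with R y x, w y
          = ∑ y ∈ S, w y * ∑ x ∈ S with R y x, w x := by
        simp only [Finset.mul_sum, Finset.sum_filter]
        rw [Finset.sum_comm]
        refine Finset.sum_congr rfl fun y _ => Finset.sum_congr rfl fun x _ => ?_
        by_cases h : R y x <;> simp [h, mul_comm]
      have h3 : ∑ y ∈ S, w y * ∑ x ∈ S with R y x, w x ≤ ∑ y ∈ S, w y := by
        refine Finset.sum_le_sum fun y hy => ?_
        have := hD y hy
        have h0 := hw y hy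
        nlinarith
      linarith
    set S' : Finset ι := S.filter (fun y => ¬ R x y ∧ ¬ R y x) with hS'
    have hsub : S' ⊆ S := Finset.filter_subset _ _
    have hle : ∑ y ∈ S, w y ≤ ∑ y ∈ S', w y + (∑ y ∈ S with R x y, w y)
        + ∑ y ∈ S with R y x, w y := by
      rw [hS', Finset.sum_filter, Finset.sum_filter, Finset.sum_filter, ← Finset.sum_add_distrib,
        ← Finset.sum_add_distrib]
      refine Finset.sum_le_sum fun y hy => ?_
      have h0 := hw y hy
      by_cases h1 : R x y <;> by_cases h2 : R y x <;> simp [h1, h2, h0]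
    have h1 := hD x hx
    obtain ⟨J, hJ, hJc, hJi⟩ := ih S' (fun y hy => hw y (hsub hy))
      (fun y hy => by
        refine le_trans (Finset.sum_le_sum_of_subset_of_nonneg ?_ ?_) (hD y (hsub hy))
        · exact Finset.filter_subset_filter _ hsub
        · intro i hi _
          exact hw i (Finset.mem_filter.1 hi).1)
      (by push_cast at hS; linarith)
    have hxJ : x ∉ J := fun h => (Finset.mem_filter.1 (hJ h)).2.1 (hR x)
    refine ⟨insert x J, ?_, ?_, ?_⟩
    · intro y hy
      rcases Finset.mem_insert.1 hy with rfl | hy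
      · exact hx
      · exact hsub (hJ hy)
    · rw [Finset.card_insert_of_notMem hxJ, hJc]
    · intro a ha b hb hab
      rcases Finset.mem_insert.1 ha with ha' | ha'
      · rcases Finset.mem_insert.1 hb with hb' | hb'
        · exact absurd (ha'.trans hb'.symm) hab
        · rw [ha']
          exact (Finset.mem_filter.1 (hJ hb')).2.1
      · rcases Finset.mem_insert.1 hb with hb' | hb'
        · rw [hb']
          exact (Finset.mem_filter.1 (hJ ha')).2.2
        · exact hJi a ha' b hb' hab

/-- Independent edges with many points on all their outer sides. -/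
theorem of_indep_large {P : Finset E2} {n : ℕ} (C : Finset (E2 × E2))
    (hCP : ∀ e ∈ C, e.1 ∈ P ∧ e.2 ∈ P ∧ e.1 ≠ e.2)
    (hCi : ∀ e ∈ C, ∀ f ∈ C, e ≠ f → Indep e f) (hn : 2 * C.card ≤ n)
    (hN : n ≤ (P.filter (fun p => ∀ e ∈ C, orient e.1 e.2 p < 0)).card) :
    ∃ T : Finset E2, T ⊆ P ∧ T.card = n ∧ 2 * C.card ≤ (extPts T).ncard := by
  set U : Finset E2 := C.image Prod.fst ∪ C.image Prod.snd with hU
  -- negativity
  have hneg : ∀ e ∈ C, ∀ f ∈ C, e ≠ f → orient e.1 e.2 f.1 < 0 ∧ orient e.1 e.2 f.2 < 0 := by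
    intro e he f hf hef
    have := (hCi e he f hf hef).2
    unfold Meets at this
    push Not at this
    exact this
  have hUcard : U.card = 2 * C.card := by
    rw [hU, Finset.card_union_of_disjoint, Finset.card_image_of_injOn, Finset.card_image_of_injOn]
    · ring
    · intro e he f hf hef
      by_contra hne
      have := (hneg e he f hf hne).2
      rw [← hef, orient_self_right] at this
      exact lt_irrefl _ this
    · intro e he f hf hef
      by_contra hne
      have := (hneg e he f hf hne).1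
      rw [← hef, orient_self_left] at this
      exact lt_irrefl _ this
    · rw [Finset.disjoint_left]
      intro p hp hp'
      obtain ⟨e, he, rfl⟩ := Finset.mem_image.1 hp
      obtain ⟨f, hf, hef⟩ := Finset.mem_image.1 hp'
      by_cases h : e = f
      · subst h
        exact (hCP e he).2.2 hef.symm
      · have := (hneg e he f hf h).2
        rw [hef, orient_self_left] at this
        exact lt_irrefl _ this
  have hUmem : ∀ p ∈ U, ∃ e ∈ C, p = e.1 ∨ p = e.2 := by
    intro p hp
    rcases Finset.mem_union.1 hp with h | h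
    · obtain ⟨e, he, rfl⟩ := Finset.mem_image.1 h; exact ⟨e, he, Or.inl rfl⟩
    · obtain ⟨e, he, rfl⟩ := Finset.mem_image.1 h; exact ⟨e, he, Or.inr rfl⟩
  set W : Finset E2 := P.filter (fun p => ∀ e ∈ C, orient e.1 e.2 p < 0) with hW
  obtain ⟨T, hVT, hTW, hTn⟩ := Finset.exists_subsuperset_card_eq
    (Finset.subset_union_right (s₁ := W) (s₂ := U)) (by omega)
    (show n ≤ (W ∪ U).card by
      have := Finset.card_le_card (Finset.subset_union_left (s₁ := W) (s₂ := U))
      omega)
  have hUP : U ⊆ P := by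
    intro p hp
    obtain ⟨e, he, h1⟩ := hUmem p hp
    rcases h1 with rfl | rfl
    · exact (hCP e he).1
    · exact (hCP e he).2.1
  have hTP : T ⊆ P := hTW.trans (Finset.union_subset (Finset.filter_subset _ _) hUP)
  refine ⟨T, hTP, hTn, ?_⟩
  have hedge : ∀ e ∈ C, ∀ p ∈ T, p ≠ e.2 → p ≠ e.1 → 0 < orient e.2 e.1 p := by
    intro e he p hp h2 h1
    rw [orient_swap]
    have : orient e.1 e.2 p < 0 := by
      rcases Finset.mem_union.1 (hTW hp) with h | h
      · exact (Finset.mem_filter.1 h).2 e he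
      · obtain ⟨f, hf, h3⟩ := hUmem p h
        have hne : e ≠ f := by
          rintro rfl
          rcases h3 with h3 | h3
          · exact h1 h3
          · exact h2 h3
        rcases h3 with rfl | rfl
        · exact (hneg e he f hf hne).1
        · exact (hneg e he f hf hne).2
    linarith
  have hUext : (U : Set E2) ⊆ extPts T := by
    intro p hp
    obtain ⟨e, he, h1⟩ := hUmem p hp
    have hne := (hCP e he).2.2
    rcases h1 with rfl | rfl
    · exact ext_of_edge' (hVT hp) hne.symm (hedge e he)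
    · exact ext_of_edge (hVT hp) hne.symm (hedge e he)
  have := Set.ncard_le_ncard hUext (extPts_finite T)
  rw [Set.ncard_coe_finset, hUcard] at this
  exact this

/-- **Case A** (C13): large weights `w` on the flags `(x i, y i)` give a big polygon directly. -/
theorem caseA {P : Finset E2} {n k : ℕ} (hk1 : 1 ≤ k) (hkn : k + 1 ≤ n) {ι : Type} [Fintype ι]
    (x y : ι → E2) (hx : ∀ i, x i ∈ P) (hy : ∀ i, y i ∈ P) (hne : ∀ i, x i ≠ y i)
    (hsame : ∀ i l, i ≠ l → orient (x i) (y i) (x l) < 0 → orient (x i) (y i) (y l) < 0)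
    (w : ι → ℝ) (hw0 : ∀ i, 0 ≤ w i)
    (hwD : ∀ i, ∑ j with 0 ≤ orient (x i) (y i) (x j), w j ≤ 1)
    (hk : (k : ℝ) - 1 < ∑ i, w i)
    (W : E2 → ℝ) (κ : ℝ) (hκ : 0 < κ) (hW0 : ∀ p ∈ P, 0 ≤ W p) (hW : ∀ p ∈ P, W p * n ≤ κ)
    (c : ℝ) (hc : ∀ i, ∑ p ∈ P with 0 ≤ orient (x i) (y i) p, W p ≤ c)
    (htot : κ + c * (((k : ℝ) + 1) / 2) ≤ ∑ p ∈ P, W p) : ¬ NoBig P n k := by
  -- the number of edges
  set m : ℕ := (k + 1) / 2 - 1 with hm
  have hm1 : m + 1 = (k + 1) / 2 := by omega
  have hm2 : 2 * m ≤ k - 1 := by omega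
  have hm3 : k ≤ 2 * (m + 1) := by omega
  have hm4 : 2 * (m + 1) ≤ k + 1 := by omega
  have hm2' : 2 * (m : ℝ) ≤ (k : ℝ) - 1 := by
    have : ((2 * m : ℕ) : ℝ) ≤ ((k - 1 : ℕ) : ℝ) := by exact_mod_cast hm2
    rw [Nat.cast_sub hk1] at this
    push_cast at this
    linarith
  obtain ⟨J, -, hJc, hJi⟩ := exists_indep_w (K := ℝ) (fun i j => 0 ≤ orient (x i) (y i) (x j))
    (fun i => by rw [orient_self_left]) w m Finset.univ (fun i _ => hw0 i) (fun i _ => hwD i)
    (by linarith)
  have hnegJ : ∀ i ∈ J, ∀ j ∈ J, i ≠ j →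
      orient (x i) (y i) (x j) < 0 ∧ orient (x i) (y i) (y j) < 0 := by
    intro i hi j hj hij
    have h1 := hJi i hi j hj hij
    rw [not_le] at h1
    exact ⟨h1, hsame i j hij h1⟩
  set C : Finset (E2 × E2) := J.image (fun i => (x i, y i)) with hC
  have hinj : Set.InjOn (fun i => (x i, y i)) (J : Set ι) := by
    intro i hi j hj hij
    by_contra hne'
    have h1 := (hnegJ i hi j hj hne').1
    have h2 : x i = x j := (Prod.mk.inj hij).1
    rw [← h2, orient_self_left] at h1
    exact lt_irrefl _ h1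
  have hCc : C.card = m + 1 := by rw [hC, Finset.card_image_of_injOn hinj, hJc]
  have hc0 : 0 ≤ c := by
    obtain ⟨i, hi⟩ : J.Nonempty := by rw [← Finset.card_pos]; omega
    refine le_trans (Finset.sum_nonneg ?_) (hc i)
    intro p hp
    exact hW0 p (Finset.mem_filter.1 hp).1
  -- the common outer side
  set O : Finset E2 := P.filter (fun p => ∀ e ∈ C, orient e.1 e.2 p < 0) with hO
  have hOw : ∑ p ∈ P, W p
      ≤ ∑ p ∈ O, W p + ∑ i ∈ J, ∑ p ∈ P with 0 ≤ orient (x i) (y i) p, W p := by
    have e1 : ∑ p ∈ O, W p = ∑ p ∈ P, if (∀ e ∈ C, orient e.1 e.2 p < 0) then W p else 0 := by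
      rw [hO, Finset.sum_filter]
    have e2 : ∑ i ∈ J, ∑ p ∈ P with 0 ≤ orient (x i) (y i) p, W p
        = ∑ p ∈ P, ∑ i ∈ J, if 0 ≤ orient (x i) (y i) p then W p else 0 := by
      rw [Finset.sum_comm]
      refine Finset.sum_congr rfl fun i _ => ?_
      rw [Finset.sum_filter]
    rw [e1, e2, ← Finset.sum_add_distrib]
    refine Finset.sum_le_sum fun p hp => ?_
    have hWp := hW0 p hp
    have hnn : 0 ≤ ∑ i ∈ J, (if 0 ≤ orient (x i) (y i) p then W p else 0) :=
      Finset.sum_nonneg fun i _ => by split_ifs <;> [exact hWp; exact le_rfl]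
    by_cases h : ∀ e ∈ C, orient e.1 e.2 p < 0
    · rw [if_pos h]; linarith
    · rw [if_neg h]
      push Not at h
      obtain ⟨e, he, he'⟩ := h
      obtain ⟨i, hi, rfl⟩ := Finset.mem_image.1 he
      have h2 : (if 0 ≤ orient (x i) (y i) p then W p else 0)
          ≤ ∑ i ∈ J, (if 0 ≤ orient (x i) (y i) p then W p else 0) := by
        refine Finset.single_le_sum (f := fun i => if 0 ≤ orient (x i) (y i) p then W p else 0)
          (fun y _ => ?_) hi
        split_ifs <;> [exact hWp; exact le_rfl]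
      rw [if_pos he'] at h2
      linarith
  have hJw : ∑ i ∈ J, ∑ p ∈ P with 0 ≤ orient (x i) (y i) p, W p ≤ c * (((k : ℝ) + 1) / 2) := by
    have h1 : ∑ i ∈ J, ∑ p ∈ P with 0 ≤ orient (x i) (y i) p, W p ≤ ∑ _i ∈ J, c :=
      Finset.sum_le_sum fun i _ => hc i
    rw [Finset.sum_const, hJc, nsmul_eq_mul] at h1
    have h2 : ((m + 1 : ℕ) : ℝ) ≤ ((k : ℝ) + 1) / 2 := by
      have : ((2 * (m + 1) : ℕ) : ℝ) ≤ ((k + 1 : ℕ) : ℝ) := by exact_mod_cast hm4
      push_cast at this ⊢
      linarith
    nlinarith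
  have hO4 : κ ≤ ∑ p ∈ O, W p := by linarith
  have hOn : n ≤ O.card := by
    have h1 : (∑ p ∈ O, W p) * n ≤ κ * O.card := by
      rw [Finset.sum_mul]
      have : ∑ p ∈ O, W p * n ≤ ∑ _p ∈ O, κ :=
        Finset.sum_le_sum fun p hp => hW p (Finset.mem_filter.1 hp).1
      rw [Finset.sum_const, nsmul_eq_mul] at this
      linarith
    have h2 : (n : ℝ) ≤ O.card := by
      have : κ * (n : ℝ) ≤ (∑ p ∈ O, W p) * n :=
        mul_le_mul_of_nonneg_right hO4 (Nat.cast_nonneg n)
      exact le_of_mul_le_mul_left (this.trans h1) hκ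
    exact_mod_cast h2
  obtain ⟨T, hTP, hTn, hText⟩ := of_indep_large (P := P) (n := n) C
    (by
      intro e he
      obtain ⟨i, hi, rfl⟩ := Finset.mem_image.1 he
      exact ⟨hx i, hy i, hne i⟩)
    (by
      intro e he f hf hef
      obtain ⟨i, hi, rfl⟩ := Finset.mem_image.1 he
      obtain ⟨j, hj, rfl⟩ := Finset.mem_image.1 hf
      have hij : i ≠ j := fun h => hef (by rw [h])
      have h1 := hnegJ i hi j hj hij
      have h2 := hnegJ j hj i hi hij.symm
      constructor
      · unfold Meets
        push Not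
        exact h2
      · unfold Meets
        push Not
        exact h1)
    (by rw [hCc]; omega) hOn
  intro hno
  have h1 := hno T hTP hTn
  rw [hCc] at hText
  omega

end Pool.Agent.Lib.EcW
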