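import Pool.Agent.Lib.EcW.Defs

/-!
# EcW.Core: the core theorem from the interface statements (averaging over all pairs of sheets)
-/

set_option autoImplicit false

namespace Pool.Agent.Lib.EcW

namespace CoreAux

variable {C : Type} [Fintype C] {Λ : ℚ} {D : WData C Λ}

lemma df_nonneg (S : Strands D) (a : Fin D.p) (s t : ℤ) : 0 ≤ S.df a s t := by
  unfold Strands.df; positivity

/-- a choice of junctions in one window -/
lemma choice (hP : PairStmt) (S : Strands D) (z x y : ℤ) (hz : z ≤ x) (hH : 2 * (y - x) ≤ D.H)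
    (hl : 3 < ∑ t ∈ Finset.Icc x y, D.lam t) :
    ∃ f g : Fin D.p → Fin D.p → ℤ, (∀ a b, x ≤ f a b) ∧ (∀ a b, g a b ≤ y) ∧
      (∀ a b, S.Jn a b (f a b) (g a b)) ∧ (∀ a b, S.Good a b (f a b) (g a b)) ∧
      -(D.p * ∑ a, S.df a x y) ≤ ∑ a, ∑ b, S.J z a b (f a b) (g a b) := by
  classical
  obtain ⟨h1, h2⟩ := hP C Λ D S z x y hz hH hl
  choose u v u' v' h3 h4 h5 h6 h7 h8 h9 h10 h11 using h1
  choose w w' h12 h13 h14 h15 h16 using h2
  set f : Fin D.p → Fin D.p → ℤ := fun a b => if h : a < b then u a b h.ne else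
    if h' : b < a then u' b a h'.ne else w a with hf
  set g : Fin D.p → Fin D.p → ℤ := fun a b => if h : a < b then v a b h.ne else
    if h' : b < a then v' b a h'.ne else w' a with hg
  have key : ∀ (Q : Fin D.p → Fin D.p → ℤ → ℤ → Prop),
      (∀ a b (h : a < b), Q a b (u a b h.ne) (v a b h.ne)) →
      (∀ a b (h : b < a), Q a b (u' b a h.ne) (v' b a h.ne)) →
      (∀ a, Q a a (w a) (w' a)) → ∀ a b, Q a b (f a b) (g a b) := by
    intro Q q1 q2 q3 a b
    rcases lt_trichotomy a b with h | h | h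
    · simp only [hf, hg, h, dif_pos]; exact q1 a b h
    · subst h; simp only [hf, hg, lt_irrefl, dif_neg, not_false_eq_true]; exact q3 a
    · simp only [hf, hg, not_lt_of_gt h, h, dif_pos, dif_neg, not_false_eq_true]; exact q2 a b h
  refine ⟨f, g, ?_, ?_, ?_, ?_, ?_⟩
  · exact key (fun _ _ s _ => x ≤ s) (fun a b h => h3 a b h.ne) (fun a b h => h5 b a h.ne) h12
  · exact key (fun _ _ _ s => s ≤ y) (fun a b h => h4 a b h.ne) (fun a b h => h6 b a h.ne) h13
  · exact key (fun a b s t => S.Jn a b s t) (fun a b h => h7 a b h.ne) (fun a b h => h9 b a h.ne) h14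
  · exact key (fun a b s t => S.Good a b s t) (fun a b h => h8 a b h.ne) (fun a b h => h10 b a h.ne) h15
  · have hpair : ∀ a b, -(S.df a x y + S.df b x y) ≤
        S.J z a b (f a b) (g a b) + S.J z b a (f b a) (g b a) := by
      intro a b
      rcases lt_trichotomy a b with h | h | h
      · have := h11 a b h.ne
        simp only [hf, hg, h, dif_pos, not_lt_of_gt h, dif_neg, not_false_eq_true]
        exact this
      · subst h
        have e1 := h16 a
        have e2 := df_nonneg S a x y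
        simp only [hf, hg, lt_irrefl, dif_neg, not_false_eq_true, e1]
        linarith
      · have := h11 b a h.ne
        simp only [hf, hg, h, dif_pos, not_lt_of_gt h, dif_neg, not_false_eq_true]
        linarith
    have h20 : ∑ a, ∑ b, (-(S.df a x y + S.df b x y)) ≤
        ∑ a, ∑ b, (S.J z a b (f a b) (g a b) + S.J z b a (f b a) (g b a)) :=
      Finset.sum_le_sum fun a _ => Finset.sum_le_sum fun b _ => hpair a b
    have h21 : ∑ a, ∑ b, (S.J z a b (f a b) (g a b) + S.J z b a (f b a) (g b a)) =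
        2 * ∑ a, ∑ b, S.J z a b (f a b) (g a b) := by
      simp only [Finset.sum_add_distrib]
      rw [Finset.sum_comm (f := fun a b => S.J z b a (f b a) (g b a))]
      ring
    have h22 : ∑ a : Fin D.p, ∑ b : Fin D.p, (-(S.df a x y + S.df b x y)) =
        -(2 * (D.p * ∑ a, S.df a x y)) := by
      simp only [Finset.sum_neg_distrib, Finset.sum_add_distrib, Finset.sum_const, Finset.card_univ,
        Fintype.card_fin, nsmul_eq_mul, ← Finset.mul_sum]
      ring
    rw [h21, h22] at h20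
    linarith

end CoreAux

open CoreAux

theorem core (Λ₀ : ℚ) (hS : StrandsStmt) (hPoly : PolyStmt) (hP : PairStmt) (hW : WindowStmt Λ₀) :
    CoreStmt Λ₀ := by
  intro C _ Λ D hΛ
  obtain ⟨S⟩ := hS C Λ D
  obtain ⟨x, y₂, x₁, y₁, h1, h2, h3, h4, h5, h6, h7, h8, h9⟩ := hW C Λ D S hΛ
  obtain ⟨f₂, g₂, a1, a2, a3, a4, a5⟩ := choice hP S x x y₂ le_rfl h5 h7
  obtain ⟨f₁, g₁, b1, b2, b3, b4, b5⟩ := choice hP S x x₁ y₁ (by omega) h6 h8
  set E : ℤ := ∑ a, S.ev a x (x + 2 * D.H) with hE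
  set val : Fin D.p → Fin D.p → ℤ := fun i j => S.ev j x (x + 2 * D.H) + S.J x i j (f₁ i j) (g₁ i j) +
    S.J x (S.ρ j) i (f₂ (S.ρ j) i) (g₂ (S.ρ j) i) with hval
  have hp : (0 : ℤ) < D.p := by exact_mod_cast D.p_pos
  have hsum : D.p * (2 * (Fintype.card C : ℤ)) ≤ ∑ i, ∑ j, val i j := by
    have e1 : ∑ i : Fin D.p, ∑ j, S.ev j x (x + 2 * D.H) = D.p * E := by
      rw [Finset.sum_const, Finset.card_univ, Fintype.card_fin, nsmul_eq_mul]
    have e2 : ∑ i, ∑ j, S.J x (S.ρ j) i (f₂ (S.ρ j) i) (g₂ (S.ρ j) i) =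
        ∑ a, ∑ b, S.J x a b (f₂ a b) (g₂ a b) := by
      rw [Finset.sum_comm]
      exact Equiv.sum_comp S.ρ (fun a => ∑ b, S.J x a b (f₂ a b) (g₂ a b))
    have e3 : ∑ i, ∑ j, val i j = D.p * E + ∑ i, ∑ j, S.J x i j (f₁ i j) (g₁ i j) +
        ∑ a, ∑ b, S.J x a b (f₂ a b) (g₂ a b) := by
      simp only [hval, Finset.sum_add_distrib]
      rw [e1, e2]
    rw [e3]
    have e4 : D.p * (∑ a, S.df a x y₂ + ∑ a, S.df a x₁ y₁) ≤ D.p * (E - 2 * Fintype.card C) :=
      mul_le_mul_of_nonneg_left h9 hp.le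
    rw [mul_sub, mul_add] at e4
    linarith
  have hex : ∃ i j, 2 * (Fintype.card C : ℤ) ≤ D.p * val i j := by
    by_contra hcon
    push Not at hcon
    have e5 : ∑ i, ∑ j, D.p * val i j < ∑ i : Fin D.p, ∑ j : Fin D.p, 2 * (Fintype.card C : ℤ) := by
      have hne : (Finset.univ : Finset (Fin D.p)).Nonempty := ⟨⟨0, D.p_pos⟩, Finset.mem_univ _⟩
      exact Finset.sum_lt_sum_of_nonempty hne fun i _ =>
        Finset.sum_lt_sum_of_nonempty hne fun j _ => hcon i j
    simp only [← Finset.mul_sum, Finset.sum_const, Finset.card_univ, Fintype.card_fin,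
      nsmul_eq_mul] at e5
    have e6 := mul_le_mul_of_nonneg_left hsum hp.le
    linarith
  obtain ⟨i, j, hij⟩ := hex
  refine ⟨val i j, hij, ?_⟩
  have c1 := a1 (S.ρ j) i
  have c2 := a2 (S.ρ j) i
  have c3 := b1 i j
  have c4 := b2 i j
  have c5 := (a3 (S.ρ j) i).1
  have c6 := (b3 i j).1
  exact hPoly C Λ D S i j x (f₂ (S.ρ j) i) (g₂ (S.ρ j) i) (f₁ i j) (g₁ i j) c1 (by omega) (by omega)
    (by omega) (by omega) (b3 i j) (a3 (S.ρ j) i) (b4 i j) (a4 (S.ρ j) i)

end Pool.Agent.Lib.EcW
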