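import Pool.Agent.Lib.EcW.Strand

/-!
# EcW.Count: counting events and defects over a period (A3)

Let `q` be the number of clones and `N` the number of breaks of all sheets in a period. For every
clone there is a break (of a sheet, in the period) at which the clone enters after an absence of half
a turn (not defective), one at which it leaves for half a turn (not defective), and one which ends an
arc containing its mark. So each of the three kinds of defects occurs at most `N - q` times. The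
number of marks is at least `q`.
-/

set_option autoImplicit false

namespace Pool.Agent.Lib.EcW

namespace CountAux

open StrandAux

/-- shifting a time into a given period -/
lemma shift (M : ℤ) (hM : 0 < M) (x τ : ℤ) : ∃ k : ℤ, x ≤ τ + k * M ∧ τ + k * M < x + M := by
  refine ⟨-((τ - x) / M), ?_⟩
  have h1 := Int.emod_nonneg (τ - x) (ne_of_gt hM)
  have h2 := Int.emod_lt_of_pos (τ - x) hM
  have h3 := Int.mul_ediv_add_emod (τ - x) M
  have h4 : τ + -((τ - x) / M) * M = x + (τ - x) % M := by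
    have : (τ - x) / M * M = M * ((τ - x) / M) := mul_comm _ _
    rw [neg_mul, this]
    linarith
  rw [h4]
  constructor
  · linarith
  · linarith

/-- the first time with a property -/
lemma first_time (Q : ℤ → Prop) (t0 t1 : ℤ) (h01 : t0 ≤ t1) (h1 : Q t1) :
    ∃ t, t0 ≤ t ∧ t ≤ t1 ∧ Q t ∧ ∀ s, t0 ≤ s → s < t → ¬ Q s := by
  classical
  have hex : ∃ n : ℕ, Q (t0 + n) := by
    refine ⟨(t1 - t0).toNat, ?_⟩
    have h2 : t0 + ((t1 - t0).toNat : ℤ) = t1 := by omega
    rw [h2]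
    exact h1
  refine ⟨t0 + (Nat.find hex : ℤ), by omega, ?_, Nat.find_spec hex, ?_⟩
  · have h3 : Nat.find hex ≤ (t1 - t0).toNat := by
      refine Nat.find_min' hex ?_
      have h2 : t0 + ((t1 - t0).toNat : ℤ) = t1 := by omega
      rw [h2]
      exact h1
    omega
  · intro s hs hst hQ
    have h4 : (s - t0).toNat < Nat.find hex := by omega
    refine Nat.find_min hex h4 ?_
    have h5 : t0 + ((s - t0).toNat : ℤ) = s := by omega
    rw [h5]
    exact hQ

/-- the last time with a property -/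
lemma last_time (Q : ℤ → Prop) (t0 t1 : ℤ) (h01 : t1 ≤ t0) (h1 : Q t1) :
    ∃ t, t ≤ t0 ∧ t1 ≤ t ∧ Q t ∧ ∀ s, s ≤ t0 → t < s → ¬ Q s := by
  obtain ⟨t, h2, h3, h4, h5⟩ := first_time (fun s => Q (-s)) (-t0) (-t1) (by omega)
    (by simpa using h1)
  refine ⟨-t, by omega, by omega, h4, ?_⟩
  intro s hs hts hQ
  refine h5 (-s) (by omega) (by omega) ?_
  simpa using hQ

variable {C : Type} [Fintype C] {Λ : ℚ}

lemma Z_per_mul (D : WData C Λ) (t k : ℤ) : D.Z (t + k * (2 * D.H)) = D.Z t := by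
  refine int_ind (fun k => D.Z (t + k * (2 * D.H)) = D.Z t) ?_ ?_ k
  · simp
  · intro k
    have h1 : t + (k + 1) * (2 * (D.H : ℤ)) = (t + k * (2 * D.H)) + 2 * D.H := by ring
    change D.Z (t + k * (2 * D.H)) = D.Z t ↔ D.Z (t + (k + 1) * (2 * D.H)) = D.Z t
    rw [h1, Z_per D]

lemma Z_per_sub (D : WData C Λ) (t k : ℤ) : D.Z (t - k * (2 * D.H)) = D.Z t := by
  have h := Z_per_mul D t (-k)
  rw [neg_mul, ← sub_eq_add_neg] at h
  exact h

lemma M_pos (D : WData C Λ) : (0 : ℤ) < 2 * D.H := by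
  have := D.hH
  omega

lemma mem_mark (D : WData C Λ) (c : C) (k : ℤ) : c ∈ D.Z (D.m c + k * (2 * D.H)) := by
  rw [Z_per_mul]
  exact D.m_mem c

/-- the mark of a clone at one of its mark times -/
lemma mark_one (D : WData C Λ) (c : C) (k : ℤ) : D.mark c (D.m c + k * (2 * D.H)) = 1 := by
  unfold WData.mark
  rw [if_pos]
  exact ⟨k, by ring⟩

lemma mark_nonneg (D : WData C Λ) (c : C) (t : ℤ) : 0 ≤ D.mark c t := by
  unfold WData.mark
  split <;> norm_num

/-- an entering event after a long absence -/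
lemma ex_in {D : WData C Λ} (S : Strands D) (x : ℤ) (c : C) : ∃ (a : Fin D.p) (τ : ℤ),
    (x ≤ τ ∧ τ < x + 2 * D.H) ∧ S.brk a τ ∧ ¬ S.defIn a τ ∧ S.L (τ + 1) a = c := by
  obtain ⟨g, hg⟩ := D.half c
  obtain ⟨k, hk1, hk2⟩ := shift (2 * D.H) (M_pos D) (g + D.H) (D.m c)
  obtain ⟨t, ht1, ht2, ht3, ht4⟩ := first_time (fun t => c ∈ D.Z t) (g + D.H)
    (D.m c + k * (2 * D.H)) hk1 (mem_mark D c k)
  have habs : ∀ s, g ≤ s → s ≤ t - 1 → c ∉ D.Z s := by
    intro s hs1 hs2
    by_cases h : s < g + D.H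
    · exact hg s hs1 h
    · exact ht4 s (by omega) (by omega)
  obtain ⟨k', hk1', hk2'⟩ := shift (2 * D.H) (M_pos D) x (t - 1)
  have hmem : c ∈ D.Z (t - 1 + k' * (2 * D.H) + 1) := by
    have h1 : t - 1 + k' * (2 * (D.H : ℤ)) + 1 = t + k' * (2 * D.H) := by ring
    rw [h1, Z_per_mul]
    exact ht3
  obtain ⟨a, ha⟩ := S.surj _ c hmem
  have hH := D.hH
  refine ⟨a, t - 1 + k' * (2 * D.H), ⟨hk1', hk2'⟩, ?_, ?_, ha⟩
  · intro heq
    have h1 := S.mem (t - 1 + k' * (2 * D.H)) a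
    rw [heq, ha, Z_per_mul] at h1
    exact habs (t - 1) (by omega) (le_refl _) h1
  · rintro ⟨_, s, hs1, hs2, hs3⟩
    rw [ha] at hs3
    have h1 := Z_per_sub D s k'
    rw [← h1] at hs3
    refine habs (s - k' * (2 * D.H)) ?_ ?_ hs3
    · generalize k' * (2 * (D.H : ℤ)) = w at *
      omega
    · generalize k' * (2 * (D.H : ℤ)) = w at *
      omega

/-- a leaving event before a long absence -/
lemma ex_out {D : WData C Λ} (S : Strands D) (x : ℤ) (c : C) : ∃ (a : Fin D.p) (τ : ℤ),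
    (x ≤ τ ∧ τ < x + 2 * D.H) ∧ S.brk a τ ∧ ¬ S.defOut a τ ∧ S.L τ a = c := by
  obtain ⟨g, hg⟩ := D.half c
  obtain ⟨k, hk1, hk2⟩ := shift (2 * D.H) (M_pos D) (g - 2 * D.H) (D.m c)
  obtain ⟨t, ht1, ht2, ht3, ht4⟩ := last_time (fun t => c ∈ D.Z t) (g - 1)
    (D.m c + k * (2 * D.H)) (by generalize k * (2 * (D.H : ℤ)) = w at *; omega)
    (mem_mark D c k)
  have habs : ∀ s, t < s → s < g + D.H → c ∉ D.Z s := by
    intro s hs1 hs2
    by_cases h : g ≤ s
    · exact hg s h hs2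
    · exact ht4 s (by omega) hs1
  obtain ⟨k', hk1', hk2'⟩ := shift (2 * D.H) (M_pos D) x t
  have hmem : c ∈ D.Z (t + k' * (2 * D.H)) := by
    rw [Z_per_mul]
    exact ht3
  obtain ⟨a, ha⟩ := S.surj _ c hmem
  have hH := D.hH
  refine ⟨a, t + k' * (2 * D.H), ⟨hk1', hk2'⟩, ?_, ?_, ha⟩
  · intro heq
    have h1 := S.mem (t + k' * (2 * D.H) + 1) a
    have h2 : t + k' * (2 * (D.H : ℤ)) + 1 = (t + 1) + k' * (2 * D.H) := by ring
    rw [← heq, ha, h2, Z_per_mul] at h1
    exact habs (t + 1) (by omega) (by omega) h1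
  · rintro ⟨_, s, hs1, hs2, hs3⟩
    rw [ha] at hs3
    have h1 := Z_per_sub D s k'
    rw [← h1] at hs3
    refine habs (s - k' * (2 * D.H)) ?_ ?_ hs3
    · generalize k' * (2 * (D.H : ℤ)) = w at *
      omega
    · generalize k' * (2 * (D.H : ℤ)) = w at *
      omega

/-- the end of the arc containing the mark -/
lemma ex_mk {D : WData C Λ} (S : Strands D) (x : ℤ) (c : C) : ∃ (a : Fin D.p) (τ : ℤ),
    (x ≤ τ ∧ τ < x + 2 * D.H) ∧ S.brk a τ ∧ ¬ S.unm a τ ∧ S.L τ a = c := by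
  obtain ⟨g, hg⟩ := D.half c
  obtain ⟨k, hk1, hk2⟩ := shift (2 * D.H) (M_pos D) (D.m c) g
  have hH := D.hH
  obtain ⟨t, ht1, ht2, ht3, ht4⟩ := first_time (fun t => c ∉ D.Z t) (D.m c)
    (g + k * (2 * D.H)) hk1 (by
      rw [Z_per_mul]
      exact hg g (le_refl _) (by omega))
  have hm0 : c ∈ D.Z (D.m c) := D.m_mem c
  have hne : t ≠ D.m c := by
    intro h
    rw [h] at ht3
    exact ht3 hm0
  have hpres : ∀ s, D.m c ≤ s → s ≤ t - 1 → c ∈ D.Z s := by
    intro s hs1 hs2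
    by_contra hcon
    exact ht4 s hs1 (by omega) hcon
  obtain ⟨k', hk1', hk2'⟩ := shift (2 * D.H) (M_pos D) x (t - 1)
  have hmem : c ∈ D.Z (t - 1 + k' * (2 * D.H)) := by
    rw [Z_per_mul]
    exact hpres (t - 1) (by omega) (le_refl _)
  obtain ⟨a, ha⟩ := S.surj _ c hmem
  refine ⟨a, t - 1 + k' * (2 * D.H), ⟨hk1', hk2'⟩, ?_, ?_, ha⟩
  · intro heq
    have h1 := S.mem (t - 1 + k' * (2 * D.H) + 1) a
    have h2 : t - 1 + k' * (2 * (D.H : ℤ)) + 1 = t + k' * (2 * D.H) := by ring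
    rw [← heq, ha, h2, Z_per_mul] at h1
    exact ht3 h1
  · rintro ⟨_, hs⟩
    have h1 := hs (D.m c + k' * (2 * D.H)) (by
      generalize k' * (2 * (D.H : ℤ)) = w at *
      omega) (by
      intro r hr1 hr2
      rw [ha]
      have h2 := Z_per_sub D r k'
      rw [← h2]
      refine hpres _ ?_ ?_
      · generalize k' * (2 * (D.H : ℤ)) = w at *
        omega
      · generalize k' * (2 * (D.H : ℤ)) = w at *
        omega)
    rw [ha, mark_one] at h1
    exact one_ne_zero h1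

/-- a marked time of a sheet -/
lemma ex_mark {D : WData C Λ} (S : Strands D) (x : ℤ) (c : C) : ∃ (a : Fin D.p) (τ : ℤ),
    (x < τ ∧ τ ≤ x + 2 * D.H) ∧ D.mark (S.L τ a) τ = 1 ∧ S.L τ a = c := by
  obtain ⟨k, hk1, hk2⟩ := shift (2 * D.H) (M_pos D) (x + 1) (D.m c)
  obtain ⟨a, ha⟩ := S.surj _ c (mem_mark D c k)
  refine ⟨a, D.m c + k * (2 * D.H), ⟨?_, ?_⟩, ?_, ha⟩
  · generalize k * (2 * (D.H : ℤ)) = w at *
    omega
  · generalize k * (2 * (D.H : ℤ)) = w at *
    omega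
  · rw [ha]
    exact mark_one D c k

open Classical in
lemma sum_card_filter {p : ℕ} (I : Finset ℤ) (P : Fin p → ℤ → Prop) :
    ∑ a, (((I.filter (fun τ => P a τ)).card : ℕ) : ℤ) =
      ((((Finset.univ : Finset (Fin p)) ×ˢ I).filter (fun z => P z.1 z.2)).card : ℤ) := by
  rw [Finset.card_filter, Finset.sum_product]
  push_cast
  refine Finset.sum_congr rfl ?_
  intro a _
  rw [Finset.card_filter]
  push_cast
  rfl

open Classical in
/-- defects of one kind occur at most `N - q` times -/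
lemma count_kind {D : WData C Λ} (S : Strands D) (x : ℤ) (P : Fin D.p → ℤ → Prop)
    (hP : ∀ a τ, P a τ → S.brk a τ) (key : Fin D.p → ℤ → C)
    (hex : ∀ c, ∃ (a : Fin D.p) (τ : ℤ), (x ≤ τ ∧ τ < x + 2 * D.H) ∧ S.brk a τ ∧
      ¬ P a τ ∧ key a τ = c) :
    ∑ a, ((((Finset.Ico x (x + 2 * D.H)).filter (fun τ => P a τ)).card : ℕ) : ℤ)
      + (Fintype.card C : ℤ) ≤ ∑ a, S.nb a x (x + 2 * D.H) := by
  have h1 : ∑ a, S.nb a x (x + 2 * D.H) =
      ∑ a, ((((Finset.Ico x (x + 2 * D.H)).filter (fun τ => S.brk a τ)).card : ℕ) : ℤ) := rfl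
  rw [h1, sum_card_filter, sum_card_filter]
  set B : Finset (Fin D.p × ℤ) := ((Finset.univ : Finset (Fin D.p)) ×ˢ
    Finset.Ico x (x + 2 * (D.H : ℤ))).filter (fun z => S.brk z.1 z.2) with hB
  set BP : Finset (Fin D.p × ℤ) := ((Finset.univ : Finset (Fin D.p)) ×ˢ
    Finset.Ico x (x + 2 * (D.H : ℤ))).filter (fun z => P z.1 z.2) with hBP
  have hsub : BP ⊆ B := by
    intro z hz
    rw [hBP, Finset.mem_filter] at hz
    rw [hB, Finset.mem_filter]
    exact ⟨hz.1, hP _ _ hz.2⟩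
  have hq : Fintype.card C ≤ (B \ BP).card := by
    have h2 : (Finset.univ : Finset C) ⊆ (B \ BP).image (fun z => key z.1 z.2) := by
      intro c _
      obtain ⟨a, τ, hτ, hb, hn, hk⟩ := hex c
      rw [Finset.mem_image]
      refine ⟨(a, τ), ?_, hk⟩
      have h3 : (a, τ) ∈ (Finset.univ : Finset (Fin D.p)) ×ˢ
          Finset.Ico x (x + 2 * (D.H : ℤ)) := by
        rw [Finset.mem_product, Finset.mem_Ico]
        exact ⟨Finset.mem_univ _, hτ⟩
      rw [Finset.mem_sdiff, hB, hBP, Finset.mem_filter, Finset.mem_filter]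
      exact ⟨⟨h3, hb⟩, fun h4 => hn h4.2⟩
    calc Fintype.card C = (Finset.univ : Finset C).card := rfl
      _ ≤ ((B \ BP).image (fun z => key z.1 z.2)).card := Finset.card_le_card h2
      _ ≤ (B \ BP).card := Finset.card_image_le
  have h5 := Finset.card_sdiff_add_card_eq_card hsub
  have h6 : BP.card + Fintype.card C ≤ B.card := by omega
  exact_mod_cast h6

open Classical in
/-- there are at least `q` marks -/
lemma count_marks {D : WData C Λ} (S : Strands D) (x : ℤ) :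
    (Fintype.card C : ℤ) ≤ ∑ a, S.nm a x (x + 2 * D.H) := by
  set I : Finset ℤ := Finset.Ioc x (x + 2 * (D.H : ℤ)) with hI
  obtain ⟨Q, hQ⟩ : ∃ Q : Fin D.p → ℤ → Prop, ∀ a τ, Q a τ ↔ D.mark (S.L τ a) τ = 1 :=
    ⟨fun a τ => D.mark (S.L τ a) τ = 1, fun a τ => Iff.rfl⟩
  have h1 : ∀ a, (((I.filter (fun τ => Q a τ)).card : ℕ) : ℤ) ≤ S.nm a x (x + 2 * D.H) := by
    intro a
    unfold Strands.nm
    rw [Finset.card_filter]
    push_cast
    refine Finset.sum_le_sum ?_
    intro τ _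
    by_cases h : Q a τ
    · rw [if_pos h]
      exact le_of_eq (Eq.symm ((hQ a τ).mp h))
    · rw [if_neg h]
      exact mark_nonneg D _ _
  refine le_trans ?_ (Finset.sum_le_sum (fun a _ => h1 a))
  rw [sum_card_filter]
  have h2 : (Finset.univ : Finset C) ⊆
      ((((Finset.univ : Finset (Fin D.p)) ×ˢ I).filter (fun z => Q z.1 z.2))).image
        (fun z => S.L z.2 z.1) := by
    intro c _
    obtain ⟨a, τ, hτ, hm, hk⟩ := ex_mark S x c
    rw [Finset.mem_image]
    refine ⟨(a, τ), ?_, hk⟩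
    rw [Finset.mem_filter, Finset.mem_product, hI, Finset.mem_Ioc]
    exact ⟨⟨Finset.mem_univ _, hτ⟩, (hQ a τ).mpr hm⟩
  have h3 := le_trans (Finset.card_le_card h2) Finset.card_image_le
  have h4 : Fintype.card C = (Finset.univ : Finset C).card := rfl
  rw [h4]
  exact_mod_cast h3

end CountAux

open CountAux in
theorem count : CountStmt := by
  intro C _ Λ D S x
  have h1 := count_kind S x (fun a τ => S.defIn a τ) (fun a τ h => h.1)
    (fun a τ => S.L (τ + 1) a) (fun c => ex_in S x c)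
  have h2 := count_kind S x (fun a τ => S.defOut a τ) (fun a τ h => h.1)
    (fun a τ => S.L τ a) (fun c => ex_out S x c)
  have h3 := count_kind S x (fun a τ => S.unm a τ) (fun a τ h => h.1)
    (fun a τ => S.L τ a) (fun c => ex_mk S x c)
  have h4 := count_marks S x
  have h5 : ∑ a, S.ev a x (x + 2 * D.H) =
      ∑ a, S.nb a x (x + 2 * D.H) + ∑ a, S.nm a x (x + 2 * D.H) := by
    unfold Strands.ev
    rw [Finset.sum_add_distrib]
  unfold Strands.df
  rw [Finset.sum_add_distrib, Finset.sum_add_distrib, ← Finset.mul_sum, ← Finset.mul_sum, h5]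
  linarith

end Pool.Agent.Lib.EcW
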