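import Pool.Agent.Lib.EcW.CBasic

/-!
# EcW.Pair: the pair lemma (A9)
-/

set_option autoImplicit false

namespace Pool.Agent.Lib.EcW

namespace PairAux

variable {C : Type} [Fintype C] {Λ : ℚ} {D : WData C Λ} (S : Strands D)

/-! ### first and last times -/

theorem first {P : ℤ → Prop} {s t : ℤ} (h : ∃ r, s ≤ r ∧ r < t ∧ P r) :
    ∃ r, s ≤ r ∧ r < t ∧ P r ∧ ∀ r', s ≤ r' → r' < r → ¬ P r' := by
  classical
  obtain ⟨r0, h1, h2, h3⟩ := h
  have hne : ((Finset.Ico s t).filter P).Nonempty :=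
    ⟨r0, Finset.mem_filter.2 ⟨Finset.mem_Ico.2 ⟨h1, h2⟩, h3⟩⟩
  obtain ⟨r, hr, hmin⟩ := Finset.exists_min_image _ id hne
  rw [Finset.mem_filter, Finset.mem_Ico] at hr
  refine ⟨r, hr.1.1, hr.1.2, hr.2, fun r' h4 h5 h6 => ?_⟩
  have := hmin r' (Finset.mem_filter.2 ⟨Finset.mem_Ico.2 ⟨h4, by omega⟩, h6⟩)
  simp only [id] at this
  omega

theorem last {P : ℤ → Prop} {s t : ℤ} (h : ∃ r, s ≤ r ∧ r < t ∧ P r) :
    ∃ r, s ≤ r ∧ r < t ∧ P r ∧ ∀ r', r < r' → r' < t → ¬ P r' := by
  classical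
  obtain ⟨r0, h1, h2, h3⟩ := h
  have hne : ((Finset.Ico s t).filter P).Nonempty :=
    ⟨r0, Finset.mem_filter.2 ⟨Finset.mem_Ico.2 ⟨h1, h2⟩, h3⟩⟩
  obtain ⟨r, hr, hmax⟩ := Finset.exists_max_image _ id hne
  rw [Finset.mem_filter, Finset.mem_Ico] at hr
  refine ⟨r, hr.1.1, hr.1.2, hr.2, fun r' h4 h5 h6 => ?_⟩
  have := hmax r' (Finset.mem_filter.2 ⟨Finset.mem_Ico.2 ⟨by omega, h5⟩, h6⟩)
  simp only [id] at this
  omega

/-! ### counting breaks -/

/-- no break of `a` in `[s, t)` -/
def NB (a : Fin D.p) (s t : ℤ) : Prop := ∀ r, s ≤ r → r < t → ¬ S.brk a r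

variable {S}

theorem NB.mono {a : Fin D.p} {s t s' t' : ℤ} (h : NB S a s t) (h1 : s ≤ s') (h2 : t' ≤ t) :
    NB S a s' t' := fun r h3 h4 => h r (by omega) (by omega)

theorem NB.join {a : Fin D.p} {s t t' : ℤ} (h : NB S a s t) (h' : NB S a t t') : NB S a s t' := by
  intro r h3 h4
  rcases lt_or_ge r t with h5 | h5
  · exact h r h3 h5
  · exact h' r h5 h4

theorem nb_zero {a : Fin D.p} {s t : ℤ} (h : NB S a s t) : S.nb a s t = 0 := by
  classical
  unfold Strands.nb
  rw [Nat.cast_eq_zero, Finset.card_eq_zero, Finset.filter_eq_empty_iff]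
  intro r hr
  rw [Finset.mem_Ico] at hr
  exact h r hr.1 hr.2

theorem nb_one {a : Fin D.p} {t : ℤ} (h : S.brk a t) : S.nb a t (t + 1) = 1 := by
  classical
  unfold Strands.nb
  have e : (Finset.Ico t (t + 1)).filter (fun τ => S.brk a τ) = {t} := by
    ext r
    simp only [Finset.mem_filter, Finset.mem_Ico, Finset.mem_singleton]
    constructor
    · rintro ⟨h1, _⟩
      omega
    · rintro rfl
      exact ⟨by omega, h⟩
  rw [e]
  simp

theorem nb_single {a : Fin D.p} {s t r : ℤ} (h1 : s ≤ r) (h2 : r < t) (hr : S.brk a r)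
    (h3 : NB S a s r) (h4 : NB S a (r + 1) t) : S.nb a s t = 1 := by
  rw [← S.nb_add a (s := s) (t := r) (u := t) h1 (by omega),
    ← S.nb_add a (s := r) (t := r + 1) (u := t) (by omega) (by omega), nb_zero h3, nb_zero h4, nb_one hr]
  ring

/-! ### marks -/

theorem mark_le_one (c : C) (t : ℤ) : D.mark c t ≤ 1 := by
  unfold WData.mark
  split_ifs <;> norm_num

theorem nm_succ (a : Fin D.p) {s t : ℤ} (h : s ≤ t) :
    S.nm a s (t + 1) = S.nm a s t + D.mark (S.L (t + 1) a) (t + 1) := by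
  rw [← S.nm_add a (s := s) (t := t) (u := t + 1) h (by omega)]
  congr 1
  unfold Strands.nm
  have e : Finset.Ioc t (t + 1) = {t + 1} := by
    ext r
    simp only [Finset.mem_Ioc, Finset.mem_singleton]
    omega
  rw [e, Finset.sum_singleton]

theorem nm_self (a : Fin D.p) (s : ℤ) : S.nm a s s = 0 := by
  unfold Strands.nm
  simp

/-- an arc has at most one mark -/
theorem nm_arc {a : Fin D.p} {s t : ℤ} (h1 : NB S a (s + 1) t) (h2 : t - s ≤ 2 * D.H) :
    S.nm a s t ≤ 1 := by
  classical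
  rcases le_or_gt t s with hts | hts
  · unfold Strands.nm
    rw [Finset.Ioc_eq_empty (by omega)]
    simp
  · have hc : ∀ τ ∈ Finset.Ioc s t, D.mark (S.L τ a) τ = D.mark (S.L (s + 1) a) τ := by
      intro τ hτ
      rw [Finset.mem_Ioc] at hτ
      rw [S.const h1 (by omega) hτ.2]
    unfold Strands.nm
    rw [Finset.sum_congr rfl hc]
    unfold WData.mark
    rw [Finset.sum_boole]
    have : ((Finset.Ioc s t).filter (fun τ => (2 * (D.H : ℤ)) ∣ (τ - D.m (S.L (s + 1) a)))).card ≤ 1 := by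
      rw [Finset.card_le_one]
      intro τ hτ τ' hτ'
      rw [Finset.mem_filter, Finset.mem_Ioc] at hτ hτ'
      have hd : (2 * (D.H : ℤ)) ∣ (τ - τ') := by
        have := dvd_sub hτ.2 hτ'.2
        have e : τ - D.m (S.L (s + 1) a) - (τ' - D.m (S.L (s + 1) a)) = τ - τ' := by ring
        rwa [e] at this
      by_contra hne
      have h0 : τ - τ' ≠ 0 := by omega
      have h3 := Int.le_of_dvd (abs_pos.2 h0) ((dvd_abs _ _).2 hd)
      have h4 : |τ - τ'| < 2 * (D.H : ℤ) := by
        rw [abs_lt]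
        omega
      omega
    exact_mod_cast this

/-- the number of marks in `(s, t]` is at most `1` plus the number of breaks in `[s + 1, t)` -/
theorem nm_le (a : Fin D.p) : ∀ n : ℕ, ∀ s t : ℤ, t - s ≤ n → t - s ≤ 2 * D.H →
    S.nm a s t ≤ 1 + S.nb a (s + 1) t := by
  intro n
  induction n using Nat.strong_induction_on with
  | _ n ih =>
    intro s t hn hH
    by_cases hex : ∃ r, s + 1 ≤ r ∧ r < t ∧ S.brk a r
    · obtain ⟨r, h1, h2, h3, h4⟩ := last hex
      have h5 := ih (n - 1) (by omega) s r (by omega) (by omega)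
      have h6 : S.nm a r t ≤ 1 := nm_arc (fun r' h7 h8 => h4 r' (by omega) h8) (by omega)
      have h7 := S.nm_add a (s := s) (t := r) (u := t) (by omega) (by omega)
      have h8 := S.nb_add a (s := s + 1) (t := r) (u := t) (by omega) (by omega)
      have h9 : S.nb a r t = 1 := by
        rw [← S.nb_add a (s := r) (t := r + 1) (u := t) (by omega) (by omega), nb_one h3,
          nb_zero (fun r' h7 h8 => h4 r' (by omega) h8)]
        norm_num
      omega
    · have h1 : NB S a (s + 1) t := fun r h2 h3 h4 => hex ⟨r, h2, h3, h4⟩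
      have h2 := nm_arc h1 hH
      have h3 := S.nb_nonneg a (s + 1) t
      omega

theorem nm_le' (a : Fin D.p) {s t : ℤ} (h : t - s ≤ 2 * D.H) : S.nm a s t ≤ 1 + S.nb a (s + 1) t :=
  nm_le a (t - s).toNat s t (by omega) h

/-- a marked arc has a mark -/
theorem one_le_nm {a : Fin D.p} {r t : ℤ} (hrt : r < t) (hr : S.brk a r) (ht : S.brk a t)
    (h1 : NB S a (r + 1) t) (hu : ¬ S.unm a t) : 1 ≤ S.nm a r t := by
  classical
  unfold Strands.unm at hu
  push Not at hu
  obtain ⟨s, hs, hz, hm⟩ := hu ht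
  have hc : ∀ τ, r + 1 ≤ τ → τ ≤ t → S.L τ a = S.L (r + 1) a := fun τ h2 h3 => S.const h1 h2 h3
  have hsr : r < s := by
    by_contra hcon
    have h2 := hz r (by omega) (by omega)
    rw [hc t (by omega) le_rfl] at h2
    exact S.enter hr h2
  have hm1 : D.mark (S.L s a) s = 1 := by
    rw [hc s (by omega) hs, ← hc t (by omega) le_rfl]
    unfold WData.mark at hm ⊢
    by_contra hcon
    apply hm
    split_ifs at hcon ⊢ with h3
    · exact absurd rfl hcon
    · rfl
  have h2 : S.nm a r s + S.nm a s t = S.nm a r t := S.nm_add a (by omega) hs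
  have h3 : S.nm a r ((s - 1) + 1) = S.nm a r (s - 1) + D.mark (S.L ((s - 1) + 1) a) ((s - 1) + 1) :=
    nm_succ a (by omega)
  rw [sub_add_cancel, hm1] at h3
  have h4 := S.nm_nonneg a r (s - 1)
  have h5 := S.nm_nonneg a s t
  omega

open Classical in
/-- number of unmarked arcs -/
noncomputable def nu (S : Strands D) (a : Fin D.p) (s t : ℤ) : ℤ :=
  (((Finset.Ico s t).filter (fun τ => S.unm a τ)).card : ℤ)

open Classical in
/-- number of defective entering events -/
noncomputable def ni (S : Strands D) (a : Fin D.p) (s t : ℤ) : ℤ :=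
  (((Finset.Ico s t).filter (fun τ => S.defIn a τ)).card : ℤ)

open Classical in
/-- number of defective leaving events -/
noncomputable def no (S : Strands D) (a : Fin D.p) (s t : ℤ) : ℤ :=
  (((Finset.Ico s t).filter (fun τ => S.defOut a τ)).card : ℤ)

theorem df_eq (a : Fin D.p) (s t : ℤ) : S.df a s t = 2 * ni S a s t + 2 * no S a s t + nu S a s t := rfl

theorem card_filter_mono {P Q : ℤ → Prop} [DecidablePred P] [DecidablePred Q] {s t s' t' : ℤ}
    (h : ∀ τ, s ≤ τ → τ < t → P τ → s' ≤ τ ∧ τ < t' ∧ Q τ) :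
    (((Finset.Ico s t).filter P).card : ℤ) ≤ (((Finset.Ico s' t').filter Q).card : ℤ) := by
  norm_cast
  apply Finset.card_le_card
  intro τ hτ
  rw [Finset.mem_filter, Finset.mem_Ico] at hτ ⊢
  have := h τ hτ.1.1 hτ.1.2 hτ.2
  exact ⟨⟨this.1, this.2.1⟩, this.2.2⟩

theorem nu_add (a : Fin D.p) {s t r : ℤ} (h1 : s ≤ t) (h2 : t ≤ r) :
    nu S a s t + nu S a t r = nu S a s r := by
  classical
  unfold nu
  rw [← Nat.cast_add, ← Finset.card_union_of_disjoint, ← Finset.filter_union,
    Finset.Ico_union_Ico_eq_Ico h1 h2]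
  exact Finset.disjoint_filter_filter (Finset.Ico_disjoint_Ico_consecutive s t r)

theorem nu_nonneg (a : Fin D.p) (s t : ℤ) : 0 ≤ nu S a s t := by unfold nu; positivity
theorem ni_nonneg (a : Fin D.p) (s t : ℤ) : 0 ≤ ni S a s t := by unfold ni; positivity
theorem no_nonneg (a : Fin D.p) (s t : ℤ) : 0 ≤ no S a s t := by unfold no; positivity

theorem df_nonneg (a : Fin D.p) (s t : ℤ) : 0 ≤ S.df a s t := by
  rw [df_eq]
  have h1 := nu_nonneg (S := S) a s t
  have h2 := ni_nonneg (S := S) a s t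
  have h3 := no_nonneg (S := S) a s t
  omega

theorem nu_one {a : Fin D.p} {t : ℤ} (h : S.unm a t) : 1 ≤ nu S a t (t + 1) := by
  classical
  unfold nu
  have : 0 < ((Finset.Ico t (t + 1)).filter (fun τ => S.unm a τ)).card :=
    Finset.card_pos.2 ⟨t, Finset.mem_filter.2 ⟨Finset.mem_Ico.2 ⟨le_rfl, by omega⟩, h⟩⟩
  omega

/-- lower bound of the number of marks between two breaks -/
theorem le_nm (a : Fin D.p) {r : ℤ} (hr : S.brk a r) : ∀ n : ℕ, ∀ t : ℤ, t - r ≤ n → r < t → S.brk a t →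
    S.nb a (r + 1) (t + 1) - nu S a (r + 1) (t + 1) ≤ S.nm a r t := by
  intro n
  induction n with
  | zero =>
    intro t h1 h2
    omega
  | succ n ih =>
    intro t h1 h2 ht
    have hlast : ∃ q, r ≤ q ∧ q < t ∧ S.brk a q := ⟨r, le_rfl, h2, hr⟩
    obtain ⟨q, hq1, hq2, hq3, hq4⟩ := last hlast
    have hNB : NB S a (q + 1) t := fun r' h7 h8 => hq4 r' (by omega) h8
    have hone : 1 - nu S a t (t + 1) ≤ S.nm a q t := by
      by_cases hu : S.unm a t
      · have h3 := nu_one hu
        have h4 := S.nm_nonneg a q t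
        omega
      · have h3 := one_le_nm hq2 hq3 ht hNB hu
        have h4 := nu_nonneg (S := S) a t (t + 1)
        omega
    have e1 := S.nb_add a (s := q + 1) (t := t) (u := t + 1) (by omega) (by omega)
    rw [nb_zero hNB, nb_one ht] at e1
    have e2 := nu_add (S := S) a (s := q + 1) (t := t) (r := t + 1) (by omega) (by omega)
    have e3 := nu_nonneg (S := S) a (q + 1) t
    rcases eq_or_lt_of_le hq1 with h5 | h5
    · subst h5
      omega
    · have h6 := ih q (by omega) h5 hq3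
      have e4 := S.nm_add a (s := r) (t := q) (u := t) (by omega) (by omega)
      have e5 := S.nb_add a (s := r + 1) (t := q + 1) (u := t + 1) (by omega) (by omega)
      have e6 := nu_add (S := S) a (s := r + 1) (t := q + 1) (r := t + 1) (by omega) (by omega)
      omega

theorem le_nm' (a : Fin D.p) {r t : ℤ} (hr : S.brk a r) (ht : S.brk a t) (h : r < t) :
    S.nb a (r + 1) (t + 1) - nu S a (r + 1) (t + 1) ≤ S.nm a r t :=
  le_nm a hr (t - r).toNat t (by omega) h ht

/-! ### the measure of an arc -/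

theorem lam_per_int (D : WData C Λ) (n : ℤ) (t : ℤ) : D.lam (t + n * (2 * D.H)) = D.lam t :=
  (Function.Periodic.int_mul (f := D.lam) (c := 2 * (D.H : ℤ)) D.lam_per n) t

theorem zone_per_int (D : WData C Λ) (n : ℤ) (t : ℤ) : D.Z (t + n * (2 * D.H)) = D.Z t :=
  (Function.Periodic.int_mul (f := D.Z) (c := 2 * (D.H : ℤ)) (fun t => Wheel.zone_per t) n) t

theorem lam_clone (D : WData C Λ) (c : C) {s t : ℤ} (hH : t - s < 2 * D.H)
    (hc : ∀ τ, s ≤ τ → τ ≤ t → c ∈ D.Z τ) : ∑ τ ∈ Finset.Icc s t, D.lam τ ≤ 1 := by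
  classical
  refine le_trans ?_ (D.lam_le c)
  have hM : (0 : ℤ) < 2 * D.H := by
    have := D.hH
    omega
  have hemod : ∀ τ : ℤ, τ % (2 * (D.H : ℤ)) = τ + (-(τ / (2 * (D.H : ℤ)))) * (2 * (D.H : ℤ)) := by
    intro τ
    rw [Int.emod_def]
    ring
  have h1 : ∑ τ ∈ Finset.Icc s t, D.lam τ = ∑ τ ∈ (Finset.Icc s t).image (fun τ => τ % (2 * (D.H : ℤ))), D.lam τ := by
    rw [Finset.sum_image]
    · refine Finset.sum_congr rfl fun τ _ => ?_
      rw [hemod, lam_per_int]
    · intro τ hτ τ' hτ' h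
      rw [Finset.mem_coe, Finset.mem_Icc] at hτ hτ'
      have h2 : τ % (2 * (D.H : ℤ)) = τ' % (2 * (D.H : ℤ)) := h
      have h3 : (2 * (D.H : ℤ)) ∣ (τ - τ') := Int.ModEq.dvd (Int.ModEq.symm h2)
      by_contra hne
      have h0 : τ - τ' ≠ 0 := by omega
      have h4 := Int.le_of_dvd (abs_pos.2 h0) ((dvd_abs _ _).2 h3)
      have h5 : |τ - τ'| < 2 * (D.H : ℤ) := by
        rw [abs_lt]
        omega
      omega
  rw [h1]
  apply Finset.sum_le_sum_of_subset_of_nonneg
  · intro τ hτ
    rw [Finset.mem_image] at hτ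
    obtain ⟨σ, hσ, rfl⟩ := hτ
    rw [Finset.mem_Icc] at hσ
    rw [Finset.mem_filter, Finset.mem_Ico]
    refine ⟨⟨Int.emod_nonneg _ (by omega), Int.emod_lt_of_pos _ hM⟩, ?_⟩
    have h2 := hc σ hσ.1 hσ.2
    rw [hemod]
    have h3 := zone_per_int D (-(σ / (2 * (D.H : ℤ)))) σ
    unfold WData.Z at h2 h3
    rw [h3]
    exact h2
  · intro τ _ _
    exact D.lam_nonneg τ

theorem lam_arc {a : Fin D.p} {s t : ℤ} (h : NB S a s t) (hH : t - s < 2 * D.H) :
    ∑ τ ∈ Finset.Icc s t, D.lam τ ≤ 1 := by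
  apply lam_clone D (S.L s a) hH
  intro τ h1 h2
  rw [← S.const h h1 h2]
  exact S.mem τ a

/-- the measure of a time interval -/
noncomputable def ms (D : WData C Λ) (s t : ℤ) : ℚ := ∑ τ ∈ Finset.Icc s t, D.lam τ

theorem ms_cover (D : WData C Λ) {s t s' t' : ℤ} (h : s' ≤ t + 1) :
    ms D s t' ≤ ms D s t + ms D s' t' := by
  classical
  unfold ms
  calc ∑ τ ∈ Finset.Icc s t', D.lam τ ≤ ∑ τ ∈ Finset.Icc s t ∪ Finset.Icc s' t', D.lam τ := by
        apply Finset.sum_le_sum_of_subset_of_nonneg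
        · intro τ hτ
          rw [Finset.mem_Icc] at hτ
          rw [Finset.mem_union, Finset.mem_Icc, Finset.mem_Icc]
          omega
        · intro τ _ _
          exact D.lam_nonneg τ
    _ ≤ _ := by
        have h1 := Finset.sum_union_inter (s₁ := Finset.Icc s t) (s₂ := Finset.Icc s' t') (f := D.lam)
        have h2 : 0 ≤ ∑ τ ∈ Finset.Icc s t ∩ Finset.Icc s' t', D.lam τ :=
          Finset.sum_nonneg fun τ _ => D.lam_nonneg τ
        linarith

/-! ### junctions -/

theorem ovJ {a b : Fin D.p} {s t : ℤ} (hs : S.brk b s) (ht : S.brk a t) (h : s < t)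
    (h1 : NB S a s t) (h2 : NB S b (s + 1) (t + 1)) : S.Jn a b s (t + 1) ∧ S.Good a b s (t + 1) := by
  have e1 : S.L t a = S.L s a := S.const h1 h.le le_rfl
  have e2 : S.L (t + 1) b = S.L (s + 1) b := S.const h2 (by omega) le_rfl
  refine ⟨⟨by omega, ?_, ?_⟩, Or.inl ?_⟩
  · rw [e2]
    exact Wheel.ab_of_zone (S.mem s a) (S.enter hs)
  · rw [← e1]
    exact Wheel.ab_of_zone (S.mem (t + 1) b) (S.leave ht)
  · intro τ h3 h4
    rw [← S.const h1 (by omega) (by omega : τ ≤ t)]
    exact S.mem τ a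

theorem gapJ {a b : Fin D.p} {s t : ℤ} (hs : S.brk a s) (ht : S.brk b t) (h : s ≤ t) (hH : 2 * (t - s) ≤ D.H)
    (h1 : ¬ S.defOut a s) (h2 : ¬ S.defIn b t) : S.Jn a b s (t + 1) ∧ S.Good a b s (t + 1) := by
  unfold Strands.defOut at h1
  unfold Strands.defIn at h2
  push Not at h1 h2
  have e1 : S.L (t + 1) b ∉ D.Z s := h2 ht s (by omega) h
  have e2 : S.L s a ∉ D.Z (t + 1) := h1 hs (t + 1) (by omega) (by omega)
  refine ⟨⟨by omega, Wheel.ab_of_zone (S.mem s a) e1, Wheel.ab_of_zone (S.mem (t + 1) b) e2⟩, Or.inr ⟨S.leave hs, ?_⟩⟩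
  rw [add_sub_cancel_right]
  exact S.enter ht

theorem simJ {a b : Fin D.p} {t : ℤ} (ha : S.brk a t) (hb : S.brk b t) :
    S.Jn a b t (t + 1) ∧ S.Good a b t (t + 1) :=
  ⟨⟨by omega, Wheel.ab_of_zone (S.mem t a) (S.enter hb), Wheel.ab_of_zone (S.mem (t + 1) b) (S.leave ha)⟩,
    Or.inl fun τ h3 h4 => by omega⟩

/-- the part of sheet `a` in the value of two junctions -/
noncomputable def A (S : Strands D) (z : ℤ) (a : Fin D.p) (u w : ℤ) : ℤ :=
  S.ev a z u - S.ev a z (w + 1) + D.mark (S.L (w + 1) a) (w + 1)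

theorem J_sum (z : ℤ) (a b : Fin D.p) (u v u' v' : ℤ) :
    S.J z a b u (v + 1) + S.J z b a u' (v' + 1) = 2 + A S z a u v' + A S z b u' v := by
  unfold Strands.J A
  ring

theorem A_le {z : ℤ} (a : Fin D.p) {u w : ℤ} (h1 : z ≤ u) (h2 : u ≤ w) :
    A S z a u w = -(S.nb a u (w + 1) + S.nm a u w) := by
  unfold A
  have e1 := S.ev_add a (s := z) (t := u) (u := w + 1) h1 (by omega)
  have e2 : S.ev a u (w + 1) = S.nb a u (w + 1) + S.nm a u (w + 1) := rfl
  have e3 := nm_succ (S := S) a h2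
  omega

theorem A_ge {z : ℤ} (a : Fin D.p) {u w : ℤ} (h1 : z ≤ w) (h2 : w < u) :
    A S z a u w = S.nb a (w + 1) u + S.nm a w u := by
  unfold A
  have e1 := S.ev_add a (s := z) (t := w + 1) (u := u) (by omega) (by omega)
  have e2 : S.ev a (w + 1) u = S.nb a (w + 1) u + S.nm a (w + 1) u := rfl
  have e3 := S.nm_add a (s := w) (t := w + 1) (u := u) (by omega) (by omega)
  have e4 := nm_succ (S := S) a (s := w) (t := w) le_rfl
  rw [nm_self] at e4
  omega

theorem A_nonneg {z : ℤ} (a : Fin D.p) {u w : ℤ} (h1 : z ≤ w) (h2 : w < u) : 0 ≤ A S z a u w := by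
  rw [A_ge a h1 h2]
  have h3 := S.nb_nonneg a (w + 1) u
  have h4 := S.nm_nonneg a w u
  omega

theorem A_self {z : ℤ} (a : Fin D.p) {w : ℤ} (h1 : z ≤ w) (h2 : ¬ S.brk a w) : A S z a w w = 0 := by
  rw [A_le a h1 le_rfl, nm_self, nb_zero]
  · ring
  · intro r h3 h4
    have : r = w := by omega
    rw [this]
    exact h2

/-- the conclusion of the pair lemma -/
def Res (S : Strands D) (z x y : ℤ) (a b : Fin D.p) : Prop :=
  ∃ u v u' v' : ℤ, x ≤ u ∧ v ≤ y ∧ x ≤ u' ∧ v' ≤ y ∧ S.Jn a b u v ∧ S.Good a b u v ∧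
    S.Jn b a u' v' ∧ S.Good b a u' v' ∧
    -(S.df a x y + S.df b x y) ≤ S.J z a b u v + S.J z b a u' v'

theorem Res.symm {z x y : ℤ} {a b : Fin D.p} (h : Res S z x y a b) : Res S z x y b a := by
  obtain ⟨u, v, u', v', h1, h2, h3, h4, h5, h6, h7, h8, h9⟩ := h
  refine ⟨u', v', u, v, h3, h4, h1, h2, h7, h8, h5, h6, ?_⟩
  omega

theorem Res.mk' {z x y : ℤ} {a b : Fin D.p} {u v u' v' : ℤ} (h1 : x ≤ u) (h2 : v < y) (h3 : x ≤ u') (h4 : v' < y)
    (h5 : S.Jn a b u (v + 1) ∧ S.Good a b u (v + 1)) (h6 : S.Jn b a u' (v' + 1) ∧ S.Good b a u' (v' + 1))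
    (h7 : -(S.df a x y + S.df b x y) ≤ 2 + A S z a u v' + A S z b u' v) : Res S z x y a b :=
  ⟨u, v + 1, u', v' + 1, h1, by omega, h3, by omega, h5.1, h5.2, h6.1, h6.2, by rw [J_sum]; exact h7⟩

/-- (A6 i) alternating word: `b, a, b, a, b` at the times `y0 < x1 < y1 < x2 < y2` -/
theorem alt {z x y : ℤ} (hzx : z ≤ x) (hH : 2 * (y - x) ≤ D.H) {a b : Fin D.p} {y0 x1 y1 x2 y2 : ℤ}
    (g0 : x ≤ y0) (g1 : y0 < x1) (g2 : x1 < y1) (g3 : y1 < x2) (g4 : x2 < y2) (g5 : y2 < y)
    (b0 : S.brk b y0) (b1 : S.brk a x1) (b2 : S.brk b y1) (b3 : S.brk a x2) (b4 : S.brk b y2)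
    (n0 : NB S a y0 x1) (n1 : NB S a (x1 + 1) x2) (n2 : NB S a (x2 + 1) (y2 + 1))
    (n3 : NB S b (y0 + 1) y1) (n4 : NB S b (y1 + 1) y2) : Res S z x y a b := by
  have hHp := D.hH
  have hdf1 := df_nonneg (S := S) a x y
  have hdf2 := df_nonneg (S := S) b x y
  have hA1 : A S z a y0 y1 = -(1 + S.nm a y0 y1) := by
    rw [A_le a (by omega) (by omega), nb_single (by omega) (by omega) b1 n0 (n1.mono le_rfl (by omega))]
  have hA2 : A S z a y1 y2 = -(1 + S.nm a y1 y2) := by
    rw [A_le a (by omega) (by omega), nb_single (by omega) (by omega) b3 (n1.mono (by omega) le_rfl) n2]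
  have hsum : S.nm a y0 y1 + S.nm a y1 y2 ≤ 3 := by
    rw [S.nm_add a (by omega) (by omega)]
    have h1 := nm_le' (S := S) a (s := y0) (t := y2) (by omega)
    have h2 := S.nb_add a (s := y0 + 1) (t := x1 + 1) (u := y2) (by omega) (by omega)
    have h3 : S.nb a (y0 + 1) (x1 + 1) = 1 :=
      nb_single (by omega) (by omega) b1 (n0.mono (by omega) le_rfl) (fun r h h' => by omega)
    have h4 : S.nb a (x1 + 1) y2 = 1 := nb_single (by omega) (by omega) b3 n1 (n2.mono le_rfl (by omega))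
    omega
  by_cases hc : S.nm a y0 y1 ≤ 1
  · refine Res.mk' (u := y0) (v := x1) (u' := x1) (v' := y1) (by omega) (by omega) (by omega) (by omega)
      (ovJ b0 b1 g1 n0 (n3.mono le_rfl (by omega)))
      (ovJ b1 b2 g2 (n3.mono (by omega) le_rfl) (n1.mono le_rfl (by omega))) ?_
    rw [hA1, A_self b (by omega) (n3 x1 (by omega) (by omega))]
    omega
  · refine Res.mk' (u := y1) (v := x2) (u' := x2) (v' := y2) (by omega) (by omega) (by omega) (by omega)
      (ovJ b2 b3 g3 (n1.mono (by omega) le_rfl) (n4.mono le_rfl (by omega)))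
      (ovJ b3 b4 g4 (n4.mono (by omega) le_rfl) n2) ?_
    rw [hA2, A_self b (by omega) (n4 x2 (by omega) (by omega))]
    omega

/-- (A6 ii) run of `a` between two breaks of `b`: `y0 < x1 < xn < y1` -/
theorem run {z x y : ℤ} (hzx : z ≤ x) (hH : 2 * (y - x) ≤ D.H) {a b : Fin D.p} {y0 x1 xn y1 : ℤ}
    (g0 : x ≤ y0) (g1 : y0 < x1) (g2 : x1 < xn) (g3 : xn < y1) (g4 : y1 < y)
    (b0 : S.brk b y0) (b1 : S.brk a x1) (b2 : S.brk a xn) (b3 : S.brk b y1)
    (n0 : NB S b (y0 + 1) y1)
    (d0 : ∀ τ, x ≤ τ → τ < y → ¬ S.defOut a τ ∧ ¬ S.defIn a τ ∧ ¬ S.defOut b τ ∧ ¬ S.defIn b τ) :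
    Res S z x y a b := by
  classical
  have hHp := D.hH
  have hdf2 := df_nonneg (S := S) b x y
  have hA1 : A S z a xn x1 = S.nb a (x1 + 1) xn + S.nm a x1 xn := A_ge a (by omega) g2
  have hA2 : A S z b y0 y1 = -(2 + S.nm b y0 y1) := by
    rw [A_le b (by omega) (by omega)]
    have h1 := S.nb_add b (s := y0) (t := y0 + 1) (u := y1 + 1) (by omega) (by omega)
    have h2 := nb_single (S := S) (a := b) (s := y0 + 1) (t := y1 + 1) (r := y1) (by omega) (by omega) b3 n0
      (fun r h h' => by omega)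
    rw [nb_one b0, h2] at h1
    omega
  have h3 := nm_arc n0 (by omega)
  have h4 := le_nm' a b1 b2 g2
  have h5 := S.nb_add a (s := x1 + 1) (t := xn) (u := xn + 1) (by omega) (by omega)
  rw [nb_one b2] at h5
  have h6 := S.nb_nonneg a (x1 + 1) xn
  have h7 : nu S a (x1 + 1) (xn + 1) ≤ S.df a x y := by
    rw [df_eq]
    have h8 : nu S a (x1 + 1) (xn + 1) ≤ nu S a x y := by
      unfold nu
      exact card_filter_mono fun τ h1 h2 h3 => ⟨by omega, by omega, h3⟩
    have h9 := ni_nonneg (S := S) a x y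
    have h10 := no_nonneg (S := S) a x y
    omega
  refine Res.mk' (u := xn) (v := y1) (u' := y0) (v' := x1) (by omega) (by omega) (by omega) (by omega)
    (gapJ b2 b3 g3.le (by omega) (d0 xn (by omega) (by omega)).1 (d0 y1 (by omega) (by omega)).2.2.2)
    (gapJ b0 b1 g1.le (by omega) (d0 y0 (by omega) (by omega)).2.2.1 (d0 x1 (by omega) (by omega)).2.1) ?_
  rw [hA1, hA2]
  omega

/-- (A6 iii) crude bound: `y0 < x1 ≤ xr < y1 ≤ ys < x2`, runs of `a` and `b` complete -/
theorem crude {z x y : ℤ} (hzx : z ≤ x) (hH : 2 * (y - x) ≤ D.H) {a b : Fin D.p} {y0 x1 xr y1 ys x2 : ℤ}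
    (g0 : x ≤ y0) (g1 : y0 < x1) (g2 : x1 ≤ xr) (g3 : xr < y1) (g4 : y1 ≤ ys) (g5 : ys < x2) (g6 : x2 < y)
    (b0 : S.brk b y0) (b1 : S.brk a x1) (b2 : S.brk a xr) (b3 : S.brk b y1) (b4 : S.brk b ys) (b5 : S.brk a x2)
    (n0 : NB S a y0 x1) (n1 : NB S b (y0 + 1) y1) (n2 : NB S a (xr + 1) x2) (n3 : NB S b (ys + 1) (x2 + 1))
    (hd : 1 ≤ ni S a x y + no S a x y + ni S b x y + no S b x y) : Res S z x y a b := by
  classical
  have hHp := D.hH
  have hni := ni_nonneg (S := S) a x y
  have hno := no_nonneg (S := S) a x y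
  have hnu := nu_nonneg (S := S) a x y
  have hni' := ni_nonneg (S := S) b x y
  have hno' := no_nonneg (S := S) b x y
  have hnu' := nu_nonneg (S := S) b x y
  have hdfa := df_eq (S := S) a x y
  have hdfb := df_eq (S := S) b x y
  have jba : S.Jn b a xr (y1 + 1) ∧ S.Good b a xr (y1 + 1) :=
    ovJ b2 b3 g3 (n1.mono (by omega) le_rfl) (n2.mono le_rfl (by omega))
  by_cases hx : ∃ τ, x1 ≤ τ ∧ τ < xr + 1 ∧ (S.brk a τ ∧ ¬ S.defOut a τ)
  · obtain ⟨xs, p1, p2, ⟨p3, p4⟩, p5⟩ := last hx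
    by_cases hy : ∃ τ, y1 ≤ τ ∧ τ < ys + 1 ∧ (S.brk b τ ∧ ¬ S.defIn b τ)
    · obtain ⟨yt, q1, q2, ⟨q3, q4⟩, q5⟩ := first hy
      -- the part of `a`
      have e1 : S.nb a xs (y1 + 1) = 1 + S.nb a (xs + 1) y1 := by
        have h1 := S.nb_add a (s := xs) (t := xs + 1) (u := y1 + 1) (by omega) (by omega)
        have h2 := S.nb_add a (s := xs + 1) (t := y1) (u := y1 + 1) (by omega) (by omega)
        rw [nb_one p3] at h1
        rw [nb_zero (n2.mono (s' := y1) (t' := y1 + 1) (by omega) (by omega))] at h2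
        omega
      have e2 := nm_le' (S := S) a (s := xs) (t := y1) (by omega)
      have e3 : S.nb a (xs + 1) y1 ≤ no S a x y := by
        unfold Strands.nb no
        refine card_filter_mono fun τ h1 h2 h3 => ⟨by omega, by omega, ?_⟩
        by_contra hcon
        rcases lt_or_ge xr τ with h4 | h4
        · exact n2 τ (by omega) (by omega) h3
        · exact p5 τ (by omega) (by omega) ⟨h3, hcon⟩
      -- the part of `b`
      have e4 : S.nb b xr (yt + 1) = 1 + S.nb b (xr + 1) yt := by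
        have h1 := S.nb_add b (s := xr) (t := xr + 1) (u := yt + 1) (by omega) (by omega)
        have h2 := S.nb_add b (s := xr + 1) (t := yt) (u := yt + 1) (by omega) (by omega)
        rw [nb_one q3] at h2
        rw [nb_zero (n1.mono (s' := xr) (t' := xr + 1) (by omega) (by omega))] at h1
        omega
      have e5 := nm_le' (S := S) b (s := xr) (t := yt) (by omega)
      have e6 : S.nb b (xr + 1) yt ≤ ni S b x y := by
        unfold Strands.nb ni
        refine card_filter_mono fun τ h1 h2 h3 => ⟨by omega, by omega, ?_⟩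
        by_contra hcon
        rcases lt_or_ge τ y1 with h4 | h4
        · exact n1 τ (by omega) h4 h3
        · exact q5 τ h4 h2 ⟨h3, hcon⟩
      by_cases hz : no S b x y = 0 ∧ ni S a x y = 0
      · -- every defect is dropped: the adjacency `y0, x1` is clean
        have hno0 : ∀ τ, x ≤ τ → τ < y → ¬ S.defOut b τ := by
          intro τ k1 k2 k3
          have k4 : 0 < ((Finset.Ico x y).filter (fun τ => S.defOut b τ)).card :=
            Finset.card_pos.2 ⟨τ, Finset.mem_filter.2 ⟨Finset.mem_Ico.2 ⟨k1, k2⟩, k3⟩⟩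
          have k5 := hz.1
          unfold no at k5
          omega
        have hni0 : ∀ τ, x ≤ τ → τ < y → ¬ S.defIn a τ := by
          intro τ k1 k2 k3
          have k4 : 0 < ((Finset.Ico x y).filter (fun τ => S.defIn a τ)).card :=
            Finset.card_pos.2 ⟨τ, Finset.mem_filter.2 ⟨Finset.mem_Ico.2 ⟨k1, k2⟩, k3⟩⟩
          have k5 := hz.2
          unfold ni at k5
          omega
        refine Res.mk' (u := y0) (v := x1) (u' := y0) (v' := x1) (by omega) (by omega) (by omega) (by omega)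
          (ovJ b0 b1 g1 n0 (n1.mono le_rfl (by omega)))
          (gapJ b0 b1 g1.le (by omega) (hno0 y0 (by omega) (by omega)) (hni0 x1 (by omega) (by omega))) ?_
        rw [A_le a (by omega) (by omega), A_le b (by omega) (by omega)]
        have f1 : S.nb a y0 (x1 + 1) = 1 :=
          nb_single (by omega) (by omega) b1 n0 (fun r h h' => by omega)
        have f2 : S.nb b y0 (x1 + 1) = 1 :=
          nb_single (by omega) (by omega) b0 (fun r h h' => by omega) (n1.mono le_rfl (by omega))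
        have f3 : S.nm a y0 x1 ≤ 1 := nm_arc (n0.mono (by omega) le_rfl) (by omega)
        have f4 : S.nm b y0 x1 ≤ 1 := nm_arc (n1.mono le_rfl (by omega)) (by omega)
        omega
      · refine Res.mk' (u := xs) (v := yt) (u' := xr) (v' := y1) (by omega) (by omega) (by omega) (by omega)
          (gapJ p3 q3 (by omega) (by omega) p4 q4) jba ?_
        rw [A_le a (by omega) (by omega), A_le b (by omega) (by omega)]
        omega
    · -- all breaks of `b` are defective
      push Not at hy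
      refine Res.mk' (u := ys) (v := x2) (u' := xr) (v' := y1) (by omega) (by omega) (by omega) (by omega)
        (ovJ b4 b5 g5 (n2.mono (by omega) le_rfl) n3) jba ?_
      have hA : 0 ≤ A S z a ys y1 := by
        rcases eq_or_lt_of_le g4 with h1 | h1
        · rw [← h1, A_self a (by omega) (n2 y1 (by omega) (by omega))]
        · exact A_nonneg a (by omega) h1
      have e1 : S.nb b xr (x2 + 1) = S.nb b (xr + 1) x2 := by
        have h1 := S.nb_add b (s := xr) (t := xr + 1) (u := x2 + 1) (by omega) (by omega)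
        have h2 := S.nb_add b (s := xr + 1) (t := x2) (u := x2 + 1) (by omega) (by omega)
        rw [nb_zero (n1.mono (s' := xr) (t' := xr + 1) (by omega) (by omega))] at h1
        rw [nb_zero (n3.mono (s' := x2) (t' := x2 + 1) (by omega) (by omega))] at h2
        omega
      have e2 := nm_le' (S := S) b (s := xr) (t := x2) (by omega)
      have e3 : S.nb b (xr + 1) x2 ≤ ni S b x y := by
        unfold Strands.nb ni
        refine card_filter_mono fun τ h1 h2 h3 => ⟨by omega, by omega, ?_⟩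
        rcases lt_or_ge τ y1 with h4 | h4
        · exact absurd h3 (n1 τ (by omega) h4)
        · rcases lt_or_ge ys τ with h5 | h5
          · exact absurd h3 (n3 τ (by omega) (by omega))
          · exact hy τ h4 (by omega) h3
      have e4 : 1 ≤ S.nb b (xr + 1) x2 := by
        have h1 := S.nb_add b (s := xr + 1) (t := ys) (u := x2) (by omega) (by omega)
        have h2 := S.nb_add b (s := ys) (t := ys + 1) (u := x2) (by omega) (by omega)
        rw [nb_one b4] at h2
        have h3 := S.nb_nonneg b (xr + 1) ys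
        have h4 := S.nb_nonneg b (ys + 1) x2
        omega
      rw [A_le b (by omega) (by omega)]
      omega
  · -- all breaks of `a` are defective
    push Not at hx
    refine Res.mk' (u := y0) (v := x1) (u' := xr) (v' := y1) (by omega) (by omega) (by omega) (by omega)
      (ovJ b0 b1 g1 n0 (n1.mono le_rfl (by omega))) jba ?_
    have hA : 0 ≤ A S z b xr x1 := by
      rcases eq_or_lt_of_le g2 with h1 | h1
      · rw [← h1, A_self b (by omega) (n1 x1 (by omega) (by omega))]
      · exact A_nonneg b (by omega) h1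
    have e1 : S.nb a y0 (y1 + 1) = S.nb a (y0 + 1) y1 := by
      have h1 := S.nb_add a (s := y0) (t := y0 + 1) (u := y1 + 1) (by omega) (by omega)
      have h2 := S.nb_add a (s := y0 + 1) (t := y1) (u := y1 + 1) (by omega) (by omega)
      rw [nb_zero (n0.mono (s' := y0) (t' := y0 + 1) (by omega) (by omega))] at h1
      rw [nb_zero (n2.mono (s' := y1) (t' := y1 + 1) (by omega) (by omega))] at h2
      omega
    have e2 := nm_le' (S := S) a (s := y0) (t := y1) (by omega)
    have e3 : S.nb a (y0 + 1) y1 ≤ no S a x y := by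
      unfold Strands.nb no
      refine card_filter_mono fun τ h1 h2 h3 => ⟨by omega, by omega, ?_⟩
      rcases lt_or_ge τ x1 with h4 | h4
      · exact absurd h3 (n0 τ (by omega) h4)
      · rcases lt_or_ge xr τ with h5 | h5
        · exact absurd h3 (n2 τ (by omega) (by omega))
        · exact hx τ h4 (by omega) h3
    have e4 : 1 ≤ S.nb a (y0 + 1) y1 := by
      have h1 := S.nb_add a (s := y0 + 1) (t := x1) (u := y1) (by omega) (by omega)
      have h2 := S.nb_add a (s := x1) (t := x1 + 1) (u := y1) (by omega) (by omega)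
      rw [nb_one b1] at h2
      have h3 := S.nb_nonneg a (y0 + 1) x1
      have h4 := S.nb_nonneg a (x1 + 1) y1
      omega
    rw [A_le a (by omega) (by omega)]
    omega

/-- every sheet has a break in a window of measure more than `1` -/
theorem exists_brk {x y : ℤ} (hH : 2 * (y - x) ≤ D.H) (h : 1 < ms D x y) (a : Fin D.p) :
    ∃ r, x ≤ r ∧ r < y ∧ S.brk a r := by
  by_contra hcon
  push Not at hcon
  have hHp := D.hH
  have := lam_arc (S := S) (a := a) (s := x) (t := y) (fun r h1 h2 => hcon r h1 h2) (by omega)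
  unfold ms at h
  linarith

/-- some break of `a` or `b` in the window is defective -/
theorem df_ge {x y : ℤ} {a b : Fin D.p}
    (h : ¬ ∀ τ, x ≤ τ → τ < y → ¬ S.defOut a τ ∧ ¬ S.defIn a τ ∧ ¬ S.defOut b τ ∧ ¬ S.defIn b τ) :
    1 ≤ ni S a x y + no S a x y + ni S b x y + no S b x y := by
  classical
  have h1 := ni_nonneg (S := S) a x y
  have h2 := no_nonneg (S := S) a x y
  have h3 := nu_nonneg (S := S) a x y
  have h4 := ni_nonneg (S := S) b x y
  have h5 := no_nonneg (S := S) b x y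
  have h6 := nu_nonneg (S := S) b x y
  have key : ∀ P : ℤ → Prop, ∀ τ, x ≤ τ → τ < y → P τ → 1 ≤ (((Finset.Ico x y).filter P).card : ℤ) := by
    intro P τ k1 k2 k3
    have : 0 < ((Finset.Ico x y).filter P).card :=
      Finset.card_pos.2 ⟨τ, Finset.mem_filter.2 ⟨Finset.mem_Ico.2 ⟨k1, k2⟩, k3⟩⟩
    omega
  by_contra hcon
  apply h
  intro τ k1 k2
  refine ⟨fun k3 => ?_, fun k3 => ?_, fun k3 => ?_, fun k3 => ?_⟩
  · have : 1 ≤ no S a x y := key _ τ k1 k2 k3
    omega
  · have : 1 ≤ ni S a x y := key _ τ k1 k2 k3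
    omega
  · have : 1 ≤ no S b x y := key _ τ k1 k2 k3
    omega
  · have : 1 ≤ ni S b x y := key _ τ k1 k2 k3
    omega

/-- the pair lemma if the first break belongs to `a` -/
theorem main {z x y : ℤ} (hzx : z ≤ x) (hH : 2 * (y - x) ≤ D.H) (hm : 3 < ms D x y) {a b : Fin D.p}
    (hsim : ∀ τ, x ≤ τ → τ < y → S.brk a τ → ¬ S.brk b τ) {b1 : ℤ} (hb1 : x ≤ b1) (hb1' : b1 < y)
    (bb1 : S.brk b b1) (nb1 : NB S b x b1) (ha1 : ∃ r, x ≤ r ∧ r < b1 ∧ S.brk a r) : Res S z x y a b := by
  have hHp := D.hH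
  have arc : ∀ (c : Fin D.p) (s t : ℤ), x ≤ s → t ≤ y → NB S c s t → ms D s t ≤ 1 := by
    intro c s t h1 h2 h3
    exact lam_arc h3 (by omega)
  -- the last break of run 1
  obtain ⟨al, al1, al2, bal, nal⟩ := last ha1
  have nal' : NB S a (al + 1) (b1 + 1) := by
    intro r h1 h2 h3
    rcases lt_or_ge r b1 with h4 | h4
    · exact nal r (by omega) h4 h3
    · have : r = b1 := by omega
      rw [this] at h3
      exact hsim b1 hb1 hb1' h3 bb1
  -- the first break of run 3
  have hex2 : ∃ r, b1 + 1 ≤ r ∧ r < y ∧ S.brk a r := by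
    by_contra hcon
    push Not at hcon
    have h1 := arc b x b1 le_rfl hb1'.le nb1
    have h2 := arc a (al + 1) y (by omega) le_rfl (nal'.join (fun r k1 k2 => hcon r k1 k2))
    have h3 := ms_cover D (s := x) (t := b1) (s' := al + 1) (t' := y) (by omega)
    linarith
  obtain ⟨a2, a21, a22, ba2, na2⟩ := first hex2
  have na : NB S a (al + 1) a2 := nal'.join (fun r k1 k2 => na2 r k1 k2)
  -- the last break of run 2
  have hexe : ∃ r, b1 ≤ r ∧ r < a2 ∧ S.brk b r := ⟨b1, le_rfl, by omega, bb1⟩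
  obtain ⟨be, be1, be2, bbe, nbe⟩ := last hexe
  have nbe' : NB S b (be + 1) (a2 + 1) := by
    intro r h1 h2 h3
    rcases lt_or_ge r a2 with h4 | h4
    · exact nbe r (by omega) h4 h3
    · have : r = a2 := by omega
      rw [this] at h3
      exact hsim a2 (by omega) a22 ba2 h3
  -- the first break of run 4
  have hex3 : ∃ r, a2 + 1 ≤ r ∧ r < y ∧ S.brk b r := by
    by_contra hcon
    push Not at hcon
    have h1 := arc b x b1 le_rfl hb1'.le nb1
    have h2 := arc a (al + 1) a2 (by omega) a22.le na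
    have h3 := arc b (be + 1) y (by omega) le_rfl (nbe'.join (fun r k1 k2 => hcon r k1 k2))
    have h4 := ms_cover D (s := al + 1) (t := a2) (s' := be + 1) (t' := y) (by omega)
    have h5 := ms_cover D (s := x) (t := b1) (s' := al + 1) (t' := y) (by omega)
    linarith
  obtain ⟨b2, b21, b22, bb2, nb2⟩ := first hex3
  have nb : NB S b (be + 1) b2 := nbe'.join (fun r k1 k2 => nb2 r k1 k2)
  -- the last break of run 3
  have hexf : ∃ r, a2 ≤ r ∧ r < b2 ∧ S.brk a r := ⟨a2, le_rfl, by omega, ba2⟩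
  obtain ⟨am, am1, am2, bam, nam⟩ := last hexf
  have nam' : NB S a (am + 1) (b2 + 1) := by
    intro r h1 h2 h3
    rcases lt_or_ge r b2 with h4 | h4
    · exact nam r (by omega) h4 h3
    · have : r = b2 := by omega
      rw [this] at h3
      exact hsim b2 (by omega) b22 h3 bb2
  by_cases hdef : ∀ τ, x ≤ τ → τ < y → ¬ S.defOut a τ ∧ ¬ S.defIn a τ ∧ ¬ S.defOut b τ ∧ ¬ S.defIn b τ
  · have hdef' : ∀ τ, x ≤ τ → τ < y → ¬ S.defOut b τ ∧ ¬ S.defIn b τ ∧ ¬ S.defOut a τ ∧ ¬ S.defIn a τ := by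
      intro τ k1 k2
      obtain ⟨k3, k4, k5, k6⟩ := hdef τ k1 k2
      exact ⟨k5, k6, k3, k4⟩
    rcases lt_or_ge b1 be with c1 | c1
    · exact (run hzx hH al1 al2 c1 be2 a22 bal bb1 bbe ba2 na hdef').symm
    · have hbe : be = b1 := by omega
      rcases lt_or_ge a2 am with c2 | c2
      · exact run hzx hH (by omega) be2 c2 am2 b22 bbe ba2 bam bb2 nb hdef
      · have ham : am = a2 := by omega
        -- a fifth run
        have hex4 : ∃ r, b2 + 1 ≤ r ∧ r < y ∧ S.brk a r := by
          by_contra hcon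
          push Not at hcon
          have h1 := arc b x b1 le_rfl hb1'.le nb1
          have h2 := arc b (be + 1) b2 (by omega) b22.le nb
          have h3 := arc a (am + 1) y (by omega) le_rfl (nam'.join (fun r k1 k2 => hcon r k1 k2))
          have h4 := ms_cover D (s := be + 1) (t := b2) (s' := am + 1) (t' := y) (by omega)
          have h5 := ms_cover D (s := x) (t := b1) (s' := be + 1) (t' := y) (by omega)
          linarith
        obtain ⟨a3, a31, a32, ba3, na3⟩ := first hex4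
        have na' : NB S a (am + 1) a3 := nam'.join (fun r k1 k2 => na3 r k1 k2)
        have hexg : ∃ r, b2 ≤ r ∧ r < a3 ∧ S.brk b r := ⟨b2, le_rfl, by omega, bb2⟩
        obtain ⟨bf, bf1, bf2, bbf, nbf⟩ := last hexg
        rcases lt_or_ge b2 bf with c3 | c3
        · refine (run hzx hH (y0 := am) (by omega) am2 c3 bf2 a32 bam bb2 bbf ba3 na' hdef').symm
        · have hbf : bf = b2 := by omega
          subst hbe
          subst ham
          subst hbf
          have n5 : NB S b (bf + 1) (a3 + 1) := by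
            intro r h1 h2 h3
            rcases lt_or_ge r a3 with h4 | h4
            · exact nbf r (by omega) h4 h3
            · have : r = a3 := by omega
              rw [this] at h3
              exact hsim a3 (by omega) a32 ba3 h3
          exact (alt hzx hH (a := b) (b := a) al1 al2 be2 (by omega) bf2 a32 bal bb1 bam bb2 ba3
            (nb1.mono al1 le_rfl) nb n5 na na').symm
  · have hd := df_ge hdef
    exact (crude hzx hH (a := b) (b := a) al1 al2 be1 be2 am1 am2 b22 bal bb1 bbe ba2 bam bb2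
      (nb1.mono al1 le_rfl) na nb nam' (by omega)).symm

/-- the pair lemma -/
theorem pair : PairStmt := by
  intro C _ Λ D S z x y hzx hH hm
  have hHp := D.hH
  have hm' : 3 < ms D x y := hm
  refine ⟨fun a b hab => ?_, fun a => ?_⟩
  · show Res S z x y a b
    by_cases hsim : ∃ τ, x ≤ τ ∧ τ < y ∧ S.brk a τ ∧ S.brk b τ
    · obtain ⟨τ, h1, h2, h3, h4⟩ := hsim
      refine Res.mk' (u := τ) (v := τ) (u' := τ) (v' := τ) h1 h2 h1 h2 (simJ h3 h4) (simJ h4 h3) ?_
      have h5 := df_nonneg (S := S) a x y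
      have h6 := df_nonneg (S := S) b x y
      rw [A_le a (by omega) le_rfl, A_le b (by omega) le_rfl, nb_one h3, nb_one h4, nm_self, nm_self]
      omega
    · push Not at hsim
      obtain ⟨a1, a11, a12, ba1, na1⟩ := first (exists_brk (S := S) hH (by linarith : 1 < ms D x y) a)
      obtain ⟨b1, b11, b12, bb1, nb1⟩ := first (exists_brk (S := S) hH (by linarith : 1 < ms D x y) b)
      rcases lt_trichotomy a1 b1 with h | h | h
      · exact main hzx hH hm' (fun τ k1 k2 k3 => hsim τ k1 k2 k3) b11 b12 bb1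
          (fun r k1 k2 => nb1 r k1 k2) ⟨a1, a11, h, ba1⟩
      · exact absurd (h ▸ bb1) (hsim a1 a11 a12 ba1)
      · exact (main hzx hH hm' (fun τ k1 k2 k3 k4 => hsim τ k1 k2 k4 k3) a11 a12 ba1
          (fun r k1 k2 => na1 r k1 k2) ⟨b1, b11, h, bb1⟩).symm
  · obtain ⟨u, h1, h2, h3⟩ := exists_brk (S := S) hH (by linarith : 1 < ms D x y) a
    refine ⟨u, u + 1, h1, by omega, (simJ h3 h3).1, (simJ h3 h3).2, ?_⟩
    have h4 := J_sum (S := S) z a a u u u u
    rw [A_le a (by omega) le_rfl, nb_one h3, nm_self] at h4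
    omega

end PairAux

end Pool.Agent.Lib.EcW
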