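import Pool.Agent.Lib.EcW.PolyPath

/-!
# EcW.Poly : the polygon lemma (PolyStmt)
-/

set_option autoImplicit false

namespace Pool.Agent.Lib.EcW

namespace Strands

variable {C : Type} [Fintype C] {Λ : ℚ} {D : WData C Λ} (S : Strands D)

theorem Z_int (D : WData C Λ) (k t : ℤ) : D.Z (t + k * (2 * (D.H : ℤ))) = D.Z t := by
  rw [← Z_mod D (t + k * (2 * (D.H : ℤ))), ← Z_mod D t, Int.add_mul_emod_self_right]

/-- being in an open gap only depends on the time modulo the period -/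
theorem In_int (D : WData C Λ) (u v k t : ℤ) : D.In u v (t + k * (2 * (D.H : ℤ))) ↔ D.In u v t := by
  unfold WData.In
  constructor
  · rintro ⟨n, h1, h2⟩
    refine ⟨k + n, ?_, ?_⟩
    · have : t + (k + n) * (2 * (D.H : ℤ)) = t + k * (2 * (D.H : ℤ)) + n * (2 * (D.H : ℤ)) := by ring
      rw [this]; exact h1
    · have : t + (k + n) * (2 * (D.H : ℤ)) = t + k * (2 * (D.H : ℤ)) + n * (2 * (D.H : ℤ)) := by ring
      rw [this]; exact h2
  · rintro ⟨n, h1, h2⟩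
    refine ⟨n - k, ?_, ?_⟩
    · have : t + k * (2 * (D.H : ℤ)) + (n - k) * (2 * (D.H : ℤ)) = t + n * (2 * (D.H : ℤ)) := by ring
      rw [this]; exact h1
    · have : t + k * (2 * (D.H : ℤ)) + (n - k) * (2 * (D.H : ℤ)) = t + n * (2 * (D.H : ℤ)) := by ring
      rw [this]; exact h2

theorem not_In_trivial (D : WData C Λ) (u t : ℤ) : ¬ D.In u (u + 1) t := by
  rintro ⟨n, h1, h2⟩; omega

/-- a time of `[v, u + 2H]` (complement of the gap in one period) is not in the open gap `(u, v)` -/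
theorem not_In_of (D : WData C Λ) {u v t : ℤ} (h1 : v ≤ t) (h2 : t ≤ u + 2 * D.H) : ¬ D.In u v t := by
  rintro ⟨n, h3, h4⟩
  have hH : (0 : ℤ) < 2 * D.H := by have := D.hH; omega
  rcases lt_trichotomy n 0 with h | h | h
  · have : n * (2 * (D.H : ℤ)) ≤ -1 * (2 * (D.H : ℤ)) := by
      apply mul_le_mul_of_nonneg_right (by omega) hH.le
    omega
  · subst h; omega
  · have : 1 * (2 * (D.H : ℤ)) ≤ n * (2 * (D.H : ℤ)) := by
      apply mul_le_mul_of_nonneg_right (by omega) hH.le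
    omega

open Classical in
/-- the value of a closed movement -/
theorem value_le (π : ℤ → C) (hp : ∀ t, π (t + 2 * D.H) = π t)
    (hleg : ∀ a b, D.toWheel.Legal π a b) (s : ℤ) (Sw Mk : Finset ℤ)
    (hSw : ∀ τ ∈ Sw, s ≤ τ ∧ τ < s + 2 * D.H ∧ π (τ + 1) ≠ π τ)
    (hMk : ∀ τ ∈ Mk, s ≤ τ ∧ τ < s + 2 * D.H ∧ 2 * (D.H : ℤ) ∣ τ - D.m (π τ))
    (cl : ℤ → Prop) (hcl : ∀ k t, cl (t + k * (2 * (D.H : ℤ))) ↔ cl t) (hMc : ∀ τ ∈ Mk, cl τ)
    (Y : Finset C) (hY : ∀ c, c ∈ Y ↔ ∃ t, π t = c) :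
    (Sw.card : ℤ) + Mk.card ≤
      Y.card + (Y.filter (fun c => cl (D.m c) ∧ ∀ d ∈ Y, d ≠ c → D.ab (D.m c) c d)).card := by
  have hH : 0 < D.H := by have := D.hH; omega
  have h1 : Sw.card ≤ Y.card := by
    refine Finset.card_le_card_of_injOn (fun τ => π (τ + 1)) (fun τ _ => (hY _).2 ⟨τ + 1, rfl⟩) ?_
    intro τ hτ τ' hτ' heq
    rw [Finset.mem_coe] at hτ hτ'
    obtain ⟨a1, a2, a3⟩ := hSw τ hτ
    obtain ⟨b1, b2, b3⟩ := hSw τ' hτ'
    by_contra hne
    rcases lt_or_gt_of_ne hne with h | h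
    · exact Wheel.Legal.inj hH hleg hp h (by omega) a3 b3 heq
    · exact Wheel.Legal.inj hH hleg hp h (by omega) b3 a3 heq.symm
  have h2 : Mk.card ≤ (Y.filter (fun c => cl (D.m c) ∧ ∀ d ∈ Y, d ≠ c → D.ab (D.m c) c d)).card := by
    refine Finset.card_le_card_of_injOn (fun τ => π τ) ?_ ?_
    · intro τ hτ
      obtain ⟨a1, a2, k, hk⟩ := hMk τ hτ
      have e : D.m (π τ) = τ + (-k) * (2 * (D.H : ℤ)) := by linarith [mul_comm k (2 * (D.H : ℤ))]
      rw [Finset.mem_coe, Finset.mem_filter]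
      refine ⟨(hY _).2 ⟨τ, rfl⟩, ?_, ?_⟩
      · rw [e, hcl]; exact hMc τ hτ
      · intro d hd hne
        obtain ⟨t, rfl⟩ := (hY d).1 hd
        rw [e]
        refine (Wheel.ab_int D.toWheel (-k) τ _ _).2 ?_
        rcases Wheel.Legal.top hH hleg hp τ t with h | h
        · exact absurd h hne
        · exact h
    · intro τ hτ τ' hτ' heq
      obtain ⟨a1, a2, a3⟩ := hMk τ hτ
      obtain ⟨b1, b2, b3⟩ := hMk τ' hτ'
      simp only at heq
      rw [← heq] at b3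
      refine eq_of_dvd (H := (D.H : ℤ)) (s := s) (t := s + 2 * D.H - 1) (by omega) a1 (by omega) b1 (by omega) ?_
      have : τ - τ' = (τ - D.m (π τ)) - (τ' - D.m (π τ)) := by ring
      rw [this]; exact dvd_sub a3 b3
  exact_mod_cast Nat.add_le_add h1 h2

open Classical in
/-- the marks of a sheet as a number of times -/
theorem nm_card (a : Fin D.p) (s t : ℤ) :
    S.nm a s t = (((Finset.Ioc s t).filter (fun τ => 2 * (D.H : ℤ) ∣ τ - D.m (S.L τ a))).card : ℤ) := by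
  unfold nm WData.mark
  rw [Finset.sum_ite]
  simp

theorem ev_value (i j : Fin D.p) {x u₂ v₂ u₁ v₁ : ℤ} (hx : x ≤ u₂) (h22 : u₂ < v₂) (h21 : v₂ ≤ u₁)
    (h11 : u₁ < v₁) (h12 : v₁ ≤ u₂ + 2 * D.H) :
    S.ev j x (x + 2 * D.H) + S.J x i j u₁ v₁ + S.J x (S.ρ j) i u₂ v₂ =
      S.nb i v₂ u₁ + S.nb j v₁ (u₂ + 2 * D.H) + 2 + S.nm i (v₂ - 1) u₁ +
        S.nm j (v₁ - 1) (u₂ + 2 * D.H) := by
  have hH : 0 < D.H := by have := D.hH; omega
  unfold J
  have e1 := S.ev_add i (s := x) (t := v₂) (u := u₁) (by omega) h21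
  have e2 := S.ev_add j (s := x) (t := x + 2 * D.H) (u := u₂ + 2 * D.H) (by omega) (by omega)
  have e3 := S.ev_add j (s := x) (t := v₁) (u := u₂ + 2 * D.H) (by omega) h12
  have e4 := S.ev_shift j x u₂
  have e5 := S.nm_add i (s := v₂ - 1) (t := v₂) (u := u₁) (by omega) h21
  have e6 := S.nm_add j (s := v₁ - 1) (t := v₁) (u := u₂ + 2 * D.H) (by omega) h12
  have e7 := S.nm_one (a := i) (t := v₂ - 1)
  have e8 := S.nm_one (a := j) (t := v₁ - 1)
  have e9 : v₂ - 1 + 1 = v₂ := by ring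
  have e10 : v₁ - 1 + 1 = v₁ := by ring
  rw [e9] at e7
  rw [e10] at e8
  have e11 : S.ev i v₂ u₁ = S.nb i v₂ u₁ + S.nm i v₂ u₁ := rfl
  have e12 : S.ev j v₁ (u₂ + 2 * D.H) = S.nb j v₁ (u₂ + 2 * D.H) + S.nm j v₁ (u₂ + 2 * D.H) := rfl
  linarith

end Strands

open Classical in
theorem polyStmt : PolyStmt := by
  intro C _ Λ D S i j x u₂ v₂ u₁ v₁ hx h21 h12 hL1 hL2 J1 J2 G1 G2
  have hH : 0 < D.H := by have := D.hH; omega
  have hH100 := D.hH
  have h11 : u₁ < v₁ := J1.1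
  have h22 : u₂ < v₂ := J2.1
  obtain ⟨π, hp, hleg, q1, q2, q3, q4, ⟨τ₁, t1, t1', t1''⟩, ⟨τ₂, t2, t2', t2''⟩⟩ :=
    S.exists_path i j h21 h12 J1 J2
  have hpk : ∀ k t, π (t + k * (2 * (D.H : ℤ))) = π t := fun k t => Wheel.per_int hp k t
  have top : ∀ t t', π t' ≠ π t → D.ab t (π t) (π t') := fun t t' hne => by
    rcases Wheel.Legal.top hH hleg hp t t' with h | h
    · exact absurd h hne
    · exact h
  -- the vertex set
  set Y : Finset C := (Finset.Ico v₂ (v₂ + 2 * (D.H : ℤ))).image π with hYdef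
  have rep : ∀ t : ℤ, ∃ k : ℤ, v₂ ≤ t + k * (2 * (D.H : ℤ)) ∧ t + k * (2 * (D.H : ℤ)) < v₂ + 2 * D.H :=
    fun t => Wheel.exists_rep (W := D.toWheel) hH v₂ t
  have hY : ∀ c, c ∈ Y ↔ ∃ t, π t = c := by
    intro c
    rw [hYdef, Finset.mem_image]
    constructor
    · rintro ⟨t, _, h⟩; exact ⟨t, h⟩
    · rintro ⟨t, rfl⟩
      obtain ⟨k, k1, k2⟩ := rep t
      exact ⟨t + k * (2 * (D.H : ℤ)), Finset.mem_Ico.2 ⟨k1, k2⟩, hpk k t⟩
  have hYm : ∀ t, π t ∈ Y := fun t => (hY _).2 ⟨t, rfl⟩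
  have topY : ∀ t, ∀ d ∈ Y, d ≠ π t → D.ab t (π t) d := by
    intro t d hd hne
    obtain ⟨t', rfl⟩ := (hY d).1 hd
    exact top t t' hne
  -- the four special clones
  have eA : π u₁ = S.L u₁ i := q1 u₁ h21 le_rfl
  have eB : π v₁ = S.L v₁ j := q2 v₁ le_rfl h12
  have eA' : π u₂ = S.L u₂ (S.ρ j) := by
    rw [← hp u₂, q2 _ h12 le_rfl, S.per]
  have eB' : π v₂ = S.L v₂ i := q1 v₂ le_rfl h21
  have q4' : ∀ r, u₂ ≤ r → r ≤ v₂ → π r = S.L u₂ (S.ρ j) ∨ π r = S.L v₂ i := by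
    intro r h1 h2
    rw [← hp r]
    exact q4 _ (by omega) (by omega)
  -- the gaps
  set T1 : Prop := ∀ t, u₁ < t → t < v₁ → S.L u₁ i ∈ D.Z t with hT1
  set T2 : Prop := ∀ t, u₂ < t → t < v₂ → S.L u₂ (S.ρ j) ∈ D.Z t with hT2
  set w₁ : ℤ := if T1 then u₁ + 1 else v₁ with hw₁
  set w₂ : ℤ := if T2 then u₂ + 1 else v₂ with hw₂
  have w1a : u₁ < w₁ ∧ w₁ ≤ v₁ ∧ 2 * (w₁ - u₁) ≤ D.H := by
    rw [hw₁]; split_ifs <;> refine ⟨by omega, by omega, by omega⟩
  have w2a : u₂ < w₂ ∧ w₂ ≤ v₂ ∧ 2 * (w₂ - u₂) ≤ D.H := by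
    rw [hw₂]; split_ifs <;> refine ⟨by omega, by omega, by omega⟩
  -- clean times
  have cl_i : ∀ t, v₂ ≤ t → t ≤ u₁ → ¬ D.In u₁ w₁ t ∧ ¬ D.In u₂ w₂ t := by
    intro t h1 h2
    refine ⟨?_, Strands.not_In_of D (by omega) (by omega)⟩
    rw [← Strands.In_int D u₁ w₁ 1 t]
    exact Strands.not_In_of D (by omega) (by omega)
  have cl_j : ∀ t, v₁ ≤ t → t ≤ u₂ + 2 * D.H → ¬ D.In u₁ w₁ t ∧ ¬ D.In u₂ w₂ t := by
    intro t h1 h2
    exact ⟨Strands.not_In_of D (by omega) (by omega), Strands.not_In_of D (by omega) (by omega)⟩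
  have cl_per : ∀ k t, (¬ D.In u₁ w₁ (t + k * (2 * (D.H : ℤ))) ∧ ¬ D.In u₂ w₂ (t + k * (2 * (D.H : ℤ)))) ↔
      (¬ D.In u₁ w₁ t ∧ ¬ D.In u₂ w₂ t) := by
    intro k t
    rw [Strands.In_int, Strands.In_int]
  -- the counting
  have hval := Strands.value_le (D := D) π hp hleg v₂
    (((Finset.Ico v₂ u₁).filter (fun τ => S.brk i τ)) ∪ {τ₁} ∪
      ((Finset.Ico v₁ (u₂ + 2 * D.H)).filter (fun τ => S.brk j τ)) ∪ {τ₂})
    (((Finset.Ioc (v₂ - 1) u₁).filter (fun τ => 2 * (D.H : ℤ) ∣ τ - D.m (S.L τ i))) ∪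
      ((Finset.Ioc (v₁ - 1) (u₂ + 2 * D.H)).filter (fun τ => 2 * (D.H : ℤ) ∣ τ - D.m (S.L τ j))))
    (by
      intro τ hτ
      simp only [Finset.mem_union, Finset.mem_filter, Finset.mem_Ico, Finset.mem_singleton] at hτ
      rcases hτ with ((⟨⟨a1, a2⟩, a3⟩ | rfl) | ⟨⟨a1, a2⟩, a3⟩) | rfl
      · refine ⟨a1, by omega, ?_⟩
        rw [q1 τ a1 a2.le, q1 (τ + 1) (by omega) (by omega)]
        exact fun h => a3 h.symm
      · exact ⟨by omega, by omega, t1''⟩
      · refine ⟨by omega, by omega, ?_⟩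
        rw [q2 τ a1 a2.le, q2 (τ + 1) (by omega) (by omega)]
        exact fun h => a3 h.symm
      · exact ⟨by omega, by omega, t2''⟩)
    (by
      intro τ hτ
      simp only [Finset.mem_union, Finset.mem_filter, Finset.mem_Ioc] at hτ
      rcases hτ with ⟨⟨a1, a2⟩, a3⟩ | ⟨⟨a1, a2⟩, a3⟩
      · refine ⟨by omega, by omega, ?_⟩
        rw [q1 τ (by omega) a2]; exact a3
      · refine ⟨by omega, by omega, ?_⟩
        rw [q2 τ (by omega) a2]; exact a3)
    (fun t => ¬ D.In u₁ w₁ t ∧ ¬ D.In u₂ w₂ t) cl_per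
    (by
      intro τ hτ
      simp only [Finset.mem_union, Finset.mem_filter, Finset.mem_Ioc] at hτ
      rcases hτ with ⟨⟨a1, a2⟩, a3⟩ | ⟨⟨a1, a2⟩, a3⟩
      · exact cl_i τ (by omega) a2
      · exact cl_j τ (by omega) a2)
    Y hY
  have hcardS : ((((Finset.Ico v₂ u₁).filter (fun τ => S.brk i τ)) ∪ {τ₁} ∪
      ((Finset.Ico v₁ (u₂ + 2 * D.H)).filter (fun τ => S.brk j τ)) ∪ {τ₂} : Finset ℤ).card : ℤ) =
      S.nb i v₂ u₁ + S.nb j v₁ (u₂ + 2 * D.H) + 2 := by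
    rw [Finset.card_union_of_disjoint, Finset.card_union_of_disjoint, Finset.card_union_of_disjoint]
    · unfold Strands.nb
      simp only [Finset.card_singleton]
      push_cast; ring
    · rw [Finset.disjoint_singleton_right]
      simp only [Finset.mem_filter, Finset.mem_Ico]
      rintro ⟨⟨_, a⟩, _⟩; omega
    · rw [Finset.disjoint_union_left]
      constructor
      · rw [Finset.disjoint_left]
        intro r h1 h2
        simp only [Finset.mem_filter, Finset.mem_Ico] at h1 h2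
        omega
      · rw [Finset.disjoint_singleton_left]
        simp only [Finset.mem_filter, Finset.mem_Ico]
        rintro ⟨⟨a, _⟩, _⟩; omega
    · rw [Finset.disjoint_singleton_right]
      simp only [Finset.mem_union, Finset.mem_filter, Finset.mem_Ico, Finset.mem_singleton]
      rintro ((⟨⟨_, a⟩, _⟩ | a) | ⟨⟨_, a⟩, _⟩) <;> omega
  have hcardM : ((((Finset.Ioc (v₂ - 1) u₁).filter (fun τ => 2 * (D.H : ℤ) ∣ τ - D.m (S.L τ i))) ∪
      ((Finset.Ioc (v₁ - 1) (u₂ + 2 * D.H)).filter (fun τ => 2 * (D.H : ℤ) ∣ τ - D.m (S.L τ j))) :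
        Finset ℤ).card : ℤ) = S.nm i (v₂ - 1) u₁ + S.nm j (v₁ - 1) (u₂ + 2 * D.H) := by
    rw [Finset.card_union_of_disjoint, Strands.nm_card, Strands.nm_card]
    · push_cast; ring
    · rw [Finset.disjoint_left]
      intro r h1 h2
      simp only [Finset.mem_filter, Finset.mem_Ioc] at h1 h2
      omega
  rw [hcardS, hcardM] at hval
  have hev := S.ev_value i j hx h22 h21 h11 h12
  refine ⟨{ Y := Y
            u := ![u₁, u₂]
            v := ![w₁, w₂]
            uv := ?_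
            sep := ?_
            val := ?_
            top := ?_
            hit := ?_
            gap := ?_ }⟩
  · intro l
    fin_cases l
    · exact ⟨w1a.1, w1a.2.2⟩
    · exact ⟨w2a.1, w2a.2.2⟩
  · -- separation
    have n1 : ¬ D.In u₁ w₁ u₁ ∧ ¬ D.In u₁ w₁ w₁ := by
      constructor
      · exact (cl_i u₁ h21 le_rfl).1
      · exact Strands.not_In_of D le_rfl (by omega)
    have n2 : ¬ D.In u₂ w₂ u₂ ∧ ¬ D.In u₂ w₂ w₂ := by
      constructor
      · rw [← Strands.In_int D u₂ w₂ 1 u₂]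
        exact Strands.not_In_of D (by omega) (by omega)
      · exact Strands.not_In_of D le_rfl (by omega)
    have n3 : ¬ D.In u₁ w₁ u₂ ∧ ¬ D.In u₁ w₁ w₂ := by
      constructor
      · rw [← Strands.In_int D u₁ w₁ 1 u₂]
        exact Strands.not_In_of D (by omega) (by omega)
      · rw [← Strands.In_int D u₁ w₁ 1 w₂]
        exact Strands.not_In_of D (by omega) (by omega)
    have n4 : ¬ D.In u₂ w₂ u₁ ∧ ¬ D.In u₂ w₂ w₁ := by
      constructor
      · exact Strands.not_In_of D (by omega) (by omega)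
      · exact Strands.not_In_of D (by omega) (by omega)
    intro l l'
    fin_cases l <;> fin_cases l'
    · exact n1
    · exact n3
    · exact n4
    · exact n2
  · -- value
    rw [hev]
    refine le_trans (le_of_eq (by ring)) (le_trans hval ?_)
    have : (Y.filter (fun c => (¬ D.In u₁ w₁ (D.m c) ∧ ¬ D.In u₂ w₂ (D.m c)) ∧
        ∀ d ∈ Y, d ≠ c → D.ab (D.m c) c d)).card ≤
        (Y.filter (fun c => (∀ l : Fin 2, ¬ D.In ((![u₁, u₂] : Fin 2 → ℤ) l) ((![w₁, w₂] : Fin 2 → ℤ) l) (D.m c)) ∧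
          ∀ d ∈ Y, d ≠ c → D.ab (D.m c) c d)).card := by
      refine Finset.card_le_card ?_
      intro c hc
      rw [Finset.mem_filter] at hc ⊢
      refine ⟨hc.1, ?_, hc.2.2⟩
      intro l
      fin_cases l
      · exact hc.2.1.1
      · exact hc.2.1.2
    exact_mod_cast Nat.add_le_add_left this _
  · -- every vertex is top at a clean time
    have good : ∀ t, (¬ D.In u₁ w₁ t ∧ ¬ D.In u₂ w₂ t) → ∃ t', (∀ l : Fin 2, ¬ D.In ((![u₁, u₂] : Fin 2 → ℤ) l)
        ((![w₁, w₂] : Fin 2 → ℤ) l) t') ∧ ∀ d ∈ Y, d ≠ π t → D.ab t' (π t) d := by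
      intro t ht
      refine ⟨t, ?_, topY t⟩
      intro l
      fin_cases l
      · exact ht.1
      · exact ht.2
    intro c hc
    obtain ⟨t, rfl⟩ := (hY c).1 hc
    obtain ⟨k, k1, k2⟩ := rep t
    rw [← hpk k t]
    set r := t + k * (2 * (D.H : ℤ)) with hr
    rcases le_or_gt r u₁ with a | a
    · exact good r (cl_i r k1 a)
    · rcases lt_or_ge r v₁ with b | b
      · rcases q3 r a.le b.le with h | h
        · rw [h, ← eA]; exact good u₁ (cl_i u₁ h21 le_rfl)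
        · rw [h, ← eB]; exact good v₁ (cl_j v₁ le_rfl h12)
      · rcases le_or_gt r (u₂ + 2 * D.H) with e | e
        · exact good r (cl_j r b e)
        · rcases q4 r e.le k2.le with h | h
          · rw [h, ← eA', ← hp u₂]; exact good _ (cl_j _ h12 le_rfl)
          · rw [h, ← eB']; exact good v₂ (cl_i v₂ le_rfl h21)
  · -- hit
    intro t ht
    have ht1 : ¬ D.In u₁ w₁ t := ht 0
    have ht2 : ¬ D.In u₂ w₂ t := ht 1
    obtain ⟨k, k1, k2⟩ := rep t
    rw [← Strands.Z_int D k t]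
    rw [← Strands.In_int D u₁ w₁ k t] at ht1
    rw [← Strands.In_int D u₂ w₂ k t] at ht2
    set r := t + k * (2 * (D.H : ℤ)) with hr
    rcases le_or_gt r u₁ with a | a
    · exact ⟨π r, hYm r, by rw [q1 r k1 a]; exact S.mem r i⟩
    · rcases lt_or_ge r v₁ with b | b
      · by_cases hT : T1
        · exact ⟨S.L u₁ i, by rw [← eA]; exact hYm u₁, hT r a b⟩
        · exfalso
          apply ht1
          rw [hw₁, if_neg hT]
          exact ⟨0, by omega, by omega⟩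
      · rcases le_or_gt r (u₂ + 2 * D.H) with e | e
        · exact ⟨π r, hYm r, by rw [q2 r b e]; exact S.mem r j⟩
        · by_cases hT : T2
          · refine ⟨S.L u₂ (S.ρ j), by rw [← eA']; exact hYm u₂, ?_⟩
            have h1 := hT (r + (-1) * (2 * (D.H : ℤ))) (by omega) (by omega)
            rw [Strands.Z_int] at h1
            exact h1
          · exfalso
            apply ht2
            rw [hw₂, if_neg hT]
            exact ⟨-1, by omega, by omega⟩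
  · -- gap
    have gap1 : w₁ = u₁ + 1 ∨ ∃ a ∈ Y, ∃ b ∈ Y, a ∈ D.Z u₁ ∧ a ∉ D.Z (u₁ + 1) ∧
        b ∈ D.Z w₁ ∧ b ∉ D.Z (w₁ - 1) ∧ D.ab u₁ a b ∧ D.ab w₁ b a ∧
        (∀ d ∈ Y, d ≠ a → D.ab u₁ a d) ∧ (∀ d ∈ Y, d ≠ b → D.ab w₁ b d) ∧
        (∀ t, u₁ ≤ t → t ≤ w₁ → ∀ d ∈ Y, d ≠ a → d ≠ b → D.ab t a d ∨ D.ab t b d) := by
      by_cases hT : T1
      · left; rw [hw₁, if_pos hT]
      · right
        have e1 : w₁ = v₁ := by rw [hw₁, if_neg hT]
        rcases G1 with g | ⟨g1, g2⟩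
        · exact absurd g hT
        · rw [e1]
          refine ⟨S.L u₁ i, by rw [← eA]; exact hYm u₁, S.L v₁ j, by rw [← eB]; exact hYm v₁,
            S.mem u₁ i, g1, S.mem v₁ j, g2, J1.2.1, J1.2.2, ?_, ?_, ?_⟩
          · rw [← eA]; exact topY u₁
          · rw [← eB]; exact topY v₁
          · intro t h1 h2 d hd hda hdb
            rcases q3 t h1 h2 with h | h
            · left; rw [← h]; exact topY t d hd (by rw [h]; exact hda)
            · right; rw [← h]; exact topY t d hd (by rw [h]; exact hdb)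
    have gap2 : w₂ = u₂ + 1 ∨ ∃ a ∈ Y, ∃ b ∈ Y, a ∈ D.Z u₂ ∧ a ∉ D.Z (u₂ + 1) ∧
        b ∈ D.Z w₂ ∧ b ∉ D.Z (w₂ - 1) ∧ D.ab u₂ a b ∧ D.ab w₂ b a ∧
        (∀ d ∈ Y, d ≠ a → D.ab u₂ a d) ∧ (∀ d ∈ Y, d ≠ b → D.ab w₂ b d) ∧
        (∀ t, u₂ ≤ t → t ≤ w₂ → ∀ d ∈ Y, d ≠ a → d ≠ b → D.ab t a d ∨ D.ab t b d) := by
      by_cases hT : T2
      · left; rw [hw₂, if_pos hT]
      · right
        have e1 : w₂ = v₂ := by rw [hw₂, if_neg hT]
        rcases G2 with g | ⟨g1, g2⟩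
        · exact absurd g hT
        · rw [e1]
          refine ⟨S.L u₂ (S.ρ j), by rw [← eA']; exact hYm u₂, S.L v₂ i, by rw [← eB']; exact hYm v₂,
            S.mem u₂ _, g1, S.mem v₂ i, g2, J2.2.1, J2.2.2, ?_, ?_, ?_⟩
          · rw [← eA']; exact topY u₂
          · rw [← eB']; exact topY v₂
          · intro t h1 h2 d hd hda hdb
            rcases q4' t h1 h2 with h | h
            · left; rw [← h]; exact topY t d hd (by rw [h]; exact hda)
            · right; rw [← h]; exact topY t d hd (by rw [h]; exact hdb)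
    intro l
    fin_cases l
    · exact gap1
    · exact gap2

end Pool.Agent.Lib.EcW
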