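import Pool.Agent.Lib.EcW.Defs

/-!
# EcW.Window: two windows with few defects
-/

set_option autoImplicit false

namespace Pool.Agent.Lib.EcW

namespace WindowAux

/-- sums of a periodic function over a period -/
lemma sum_shift (g : ℤ → ℤ) (M : ℕ) (hg : ∀ t, g (t + M) = g t) (x : ℤ) :
    ∑ t ∈ Finset.Ico x (x + M), g t = ∑ t ∈ Finset.Ico (0 : ℤ) M, g t := by
  have step : ∀ x : ℤ, ∑ t ∈ Finset.Ico (x + 1) (x + 1 + M), g t = ∑ t ∈ Finset.Ico x (x + M), g t := by
    intro x
    rcases Nat.eq_zero_or_pos M with h0 | h0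
    · subst h0; simp
    · have e1 : Finset.Ico x (x + 1 + M) = insert x (Finset.Ico (x + 1) (x + 1 + M)) := by
        ext t; simp only [Finset.mem_Ico, Finset.mem_insert]; omega
      have e2 : Finset.Ico x (x + 1 + M) = insert (x + M) (Finset.Ico x (x + M)) := by
        ext t; simp only [Finset.mem_Ico, Finset.mem_insert]; omega
      have s1 : ∑ t ∈ Finset.Ico x (x + 1 + M), g t = g x + ∑ t ∈ Finset.Ico (x + 1) (x + 1 + M), g t := by
        rw [e1, Finset.sum_insert (by simp)]
      have s2 : ∑ t ∈ Finset.Ico x (x + 1 + M), g t = g (x + M) + ∑ t ∈ Finset.Ico x (x + M), g t := by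
        rw [e2, Finset.sum_insert (by simp)]
      have := hg x
      omega
  induction x using Int.induction_on with
  | zero => simp
  | succ n ih => rw [step, ih]
  | pred n ih =>
    have := step (-(n:ℤ) - 1)
    rw [show -(n:ℤ) - 1 + 1 = -n by ring] at this
    rw [← this, ih]

variable {C : Type} [Fintype C] {Λ : ℚ} {D : WData C Λ}

lemma mark_per (D : WData C Λ) (c : C) (t : ℤ) : D.mark c (t + 2 * D.H) = D.mark c t := by
  unfold WData.mark
  have : (2 * (D.H : ℤ)) ∣ (t + 2 * D.H - D.m c) ↔ (2 * (D.H : ℤ)) ∣ (t - D.m c) := by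
    rw [show t + 2 * (D.H:ℤ) - D.m c = (t - D.m c) + 2 * D.H by ring]
    exact (dvd_add_left (dvd_refl _))
  simp only [this]

lemma ev_total (S : Strands D) (x : ℤ) :
    ∑ a, S.ev a x (x + 2 * D.H) = ∑ a, S.ev a 0 (2 * D.H) := by
  classical
  set β : ℤ → ℤ := fun t => ∑ a, if S.brk a t then 1 else 0 with hβ
  set μ : ℤ → ℤ := fun t => ∑ a, D.mark (S.L (t + 1) a) (t + 1) with hμ
  have hsum : ∀ x : ℤ, ∑ a, S.ev a x (x + (2 * D.H : ℕ)) =
      ∑ t ∈ Finset.Ico x (x + (2 * D.H : ℕ)), (β t + μ t) := by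
    intro x
    rw [Finset.sum_add_distrib]
    simp only [Strands.ev, Finset.sum_add_distrib, hβ, hμ]
    congr 1
    · rw [Finset.sum_comm]
      refine Finset.sum_congr rfl fun a _ => ?_
      unfold Strands.nb
      rw [Finset.sum_ite, Finset.sum_const_zero, add_zero, Finset.sum_const, nsmul_eq_mul, mul_one]
    · rw [Finset.sum_comm]
      refine Finset.sum_congr rfl fun a _ => ?_
      unfold Strands.nm
      have : Finset.Ioc x (x + (2 * D.H : ℕ)) = (Finset.Ico x (x + (2 * D.H : ℕ))).image (fun t => t + 1) := by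
        ext t
        simp only [Finset.mem_Ioc, Finset.mem_image, Finset.mem_Ico]
        constructor
        · intro h; exact ⟨t - 1, by omega, by omega⟩
        · rintro ⟨s, h, rfl⟩; omega
      rw [this, Finset.sum_image (by intro a _ b _ h; exact add_right_cancel h)]
  have hper : ∀ t, (β (t + (2 * D.H : ℕ)) + μ (t + (2 * D.H : ℕ))) = β t + μ t := by
    intro t
    push_cast
    have hβ' : β (t + 2 * D.H) = β t := by
      simp only [hβ]
      rw [← Equiv.sum_comp S.ρ (fun a => if S.brk a t then (1:ℤ) else 0)]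
      refine Finset.sum_congr rfl fun a _ => ?_
      have : S.brk a (t + 2 * D.H) ↔ S.brk (S.ρ a) t := by
        unfold Strands.brk
        rw [S.per t a, show t + 2 * (D.H:ℤ) + 1 = (t + 1) + 2 * D.H by ring, S.per (t + 1) a]
      simp only [this]
    have hμ' : μ (t + 2 * D.H) = μ t := by
      simp only [hμ]
      rw [← Equiv.sum_comp S.ρ (fun a => D.mark (S.L (t + 1) a) (t + 1))]
      refine Finset.sum_congr rfl fun a _ => ?_
      rw [show t + 2 * (D.H:ℤ) + 1 = (t + 1) + 2 * D.H by ring, S.per (t + 1) a, mark_per]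
    rw [hβ', hμ']
  have h1 := hsum x
  have h2 := hsum 0
  rw [sum_shift _ _ hper x] at h1
  rw [zero_add] at h2
  have e : ((2 * D.H : ℕ) : ℤ) = 2 * D.H := by push_cast; ring
  rw [e] at h1 h2
  rw [h1, h2]

lemma df_add (S : Strands D) (a : Fin D.p) {s t r : ℤ} (h1 : s ≤ t) (h2 : t ≤ r) :
    S.df a s r = S.df a s t + S.df a t r := by
  classical
  have key : ∀ (Q : ℤ → Prop), (((Finset.Ico s r).filter Q).card : ℤ) =
      ((Finset.Ico s t).filter Q).card + ((Finset.Ico t r).filter Q).card := by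
    intro Q
    rw [← Finset.Ico_union_Ico_eq_Ico h1 h2, Finset.filter_union, Finset.card_union_of_disjoint]
    · push_cast; ring
    · exact Finset.disjoint_filter_filter (Finset.Ico_disjoint_Ico_consecutive s t r)
  unfold Strands.df
  rw [key, key, key]
  ring

lemma df_nonneg (S : Strands D) (a : Fin D.p) (s t : ℤ) : 0 ≤ S.df a s t := by
  unfold Strands.df; positivity

/-- one greedy step -/
lemma step (D : WData C Λ) (t : ℤ) : ∃ y : ℤ, t < y ∧ 2 * (y - t) ≤ D.H ∧ ∑ s ∈ Finset.Ico t y, D.lam s ≤ 3 ∧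
    (3 < ∑ s ∈ Finset.Icc t y, D.lam s ∨ (D.H : ℤ) ≤ 2 * (y - t) + 1) := by
  classical
  have hlam1 : ∀ s, D.lam s ≤ 1 := by
    intro s
    have hne : (D.Z s).Nonempty := by
      -- the top element is in the zone
      obtain ⟨c, -⟩ : ∃ c : C, True := by
        have : 0 < Fintype.card C := lt_of_lt_of_le D.p_pos D.p_le
        obtain ⟨c⟩ := Fintype.card_pos_iff.1 this
        exact ⟨c, trivial⟩
      have hwf : ∃ c : C, ∀ d, ¬ D.ab s d c := by
        by_contra hcon
        push Not at hcon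
        choose f hf using hcon
        -- iterate: contradiction with finiteness
        have hlt : ∀ n : ℕ, ∀ m : ℕ, D.ab s (f^[n + 1 + m] c) (f^[m] c) := by
          intro n
          induction n with
          | zero =>
            intro m
            rw [show 0 + 1 + m = m + 1 by ring, Function.iterate_succ', Function.comp]
            exact hf _
          | succ n ih =>
            intro m
            have h1 := ih m
            have h2 : D.ab s (f^[n + 1 + 1 + m] c) (f^[n + 1 + m] c) := by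
              rw [show n + 1 + 1 + m = (n + 1 + m) + 1 by ring, Function.iterate_succ', Function.comp]
              exact hf _
            exact D.trans s _ _ _ h2 h1
        obtain ⟨a, b, hab, heq⟩ := Finite.exists_ne_map_eq_of_infinite (fun n : ℕ => f^[n] c)
        rcases lt_or_gt_of_ne hab with h | h
        · have := hlt (b - a - 1) a
          rw [show b - a - 1 + 1 + a = b by omega] at this
          rw [heq] at this
          exact D.irr _ _ this
        · have := hlt (a - b - 1) b
          rw [show a - b - 1 + 1 + b = a by omega] at this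
          rw [heq] at this
          exact D.irr _ _ this
      obtain ⟨c, hc⟩ := hwf
      refine ⟨c, ?_⟩
      unfold WData.Z Wheel.zone
      rw [Finset.mem_filter]
      refine ⟨Finset.mem_univ _, ?_⟩
      have : (Finset.univ.filter (fun d => D.toWheel.ab s d c)) = ∅ := by
        apply Finset.filter_eq_empty_iff.2
        intro d _
        exact hc d
      rw [this]
      simpa using D.p_pos
    obtain ⟨c, hc⟩ := hne
    -- reduce to a time in the base period
    obtain ⟨r, n, hr1, hr2, hr3⟩ : ∃ r n : ℤ, 0 ≤ r ∧ r < 2 * D.H ∧ s = r + n * (2 * D.H) := by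
      have hH : (0:ℤ) < 2 * D.H := by have := D.hH; omega
      refine ⟨s % (2 * D.H), s / (2 * D.H), Int.emod_nonneg _ hH.ne', Int.emod_lt_of_pos _ hH, ?_⟩
      have := Int.emod_add_mul_ediv s (2 * D.H)
      linarith [mul_comm (2 * (D.H:ℤ)) (s / (2 * D.H))]
    have hlamper : ∀ (k : ℤ) (t : ℤ), D.lam (t + k * (2 * D.H)) = D.lam t := by
      intro k
      induction k using Int.induction_on with
      | zero => intro t; simp
      | succ k ih =>
        intro t
        rw [show t + ((k:ℤ) + 1) * (2 * D.H) = (t + k * (2 * D.H)) + 2 * D.H by ring, D.lam_per, ih]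
      | pred k ih =>
        intro t
        have h1 := D.lam_per (t + (-(k:ℤ) - 1) * (2 * D.H))
        rw [← h1, show t + (-(k:ℤ) - 1) * (2 * D.H) + 2 * D.H = t + -(k:ℤ) * (2 * D.H) by ring, ih]
    have hzper : ∀ (k : ℤ) (t : ℤ), D.Z (t + k * (2 * D.H)) = D.Z t := by
      have h0 : ∀ t, D.Z (t + 2 * D.H) = D.Z t := by
        intro t
        unfold WData.Z Wheel.zone
        simp only [D.per]
      intro k
      induction k using Int.induction_on with
      | zero => intro t; simp
      | succ k ih =>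
        intro t
        rw [show t + ((k:ℤ) + 1) * (2 * D.H) = (t + k * (2 * D.H)) + 2 * D.H by ring, h0, ih]
      | pred k ih =>
        intro t
        have h1 := h0 (t + (-(k:ℤ) - 1) * (2 * D.H))
        rw [← h1, show t + (-(k:ℤ) - 1) * (2 * D.H) + 2 * D.H = t + -(k:ℤ) * (2 * D.H) by ring, ih]
    rw [hr3, hlamper]
    have hcr : c ∈ D.Z r := by rw [← hzper n r, ← hr3]; exact hc
    have h1 := D.lam_le c
    have h2 : D.lam r ≤ ∑ t ∈ (Finset.Ico (0 : ℤ) (2 * D.H)).filter (fun t => c ∈ D.toWheel.zone D.p t), D.lam t :=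
      Finset.single_le_sum (f := D.lam) (fun t _ => D.lam_nonneg t)
        (Finset.mem_filter.2 ⟨Finset.mem_Ico.2 ⟨hr1, hr2⟩, hcr⟩)
    linarith
  have hH := D.hH
  by_cases hfull : 3 < ∑ s ∈ Finset.Icc t (t + (D.H : ℤ) / 2), D.lam s
  · -- least y
    have hex : ∃ n : ℕ, 3 < ∑ s ∈ Finset.Icc t (t + n), D.lam s := by
      refine ⟨((D.H : ℤ) / 2).toNat, ?_⟩
      rw [Int.toNat_of_nonneg (by positivity)]
      exact hfull
    set n := Nat.find hex with hn
    have hn1 := Nat.find_spec hex
    rw [← hn] at hn1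
    have hn2 : n ≤ ((D.H : ℤ) / 2).toNat := Nat.find_min' hex (by
      rw [Int.toNat_of_nonneg (by positivity)]
      exact hfull)
    have hn0 : n ≠ 0 := by
      intro h
      rw [h] at hn1
      simp at hn1
      have := hlam1 t
      linarith
    refine ⟨t + n, by omega, by omega, ?_, Or.inl hn1⟩
    have h3 : ¬ 3 < ∑ s ∈ Finset.Icc t (t + (n - 1 : ℕ)), D.lam s :=
      Nat.find_min hex (by omega)
    have h4 : Finset.Ico t (t + n) = Finset.Icc t (t + (n - 1 : ℕ)) := by
      ext s; simp only [Finset.mem_Ico, Finset.mem_Icc]; omega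
    rw [h4]
    exact not_lt.1 h3
  · refine ⟨t + (D.H : ℤ) / 2, by omega, by omega, ?_, Or.inr (by omega)⟩
    refine le_trans ?_ (not_lt.1 hfull)
    exact Finset.sum_le_sum_of_subset_of_nonneg Finset.Ico_subset_Icc_self
      (fun s _ _ => D.lam_nonneg s)

/-- pigeonhole -/
lemma pigeon (F : Finset ℕ) (d : ℕ → ℤ) (u : ℤ) (hd : ∀ i, 0 ≤ d i) (hF : 10 ≤ F.card)
    (hs : ∑ i ∈ F, d i ≤ 5 * u) : ∃ i ∈ F, ∃ j ∈ F, i < j ∧ d i + d j ≤ u := by
  by_contra hcon
  push Not at hcon
  have hne : F.Nonempty := by rw [← Finset.card_pos]; omega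
  obtain ⟨i0, hi0, hmin0⟩ := Finset.exists_min_image F d hne
  have hne1 : (F.erase i0).Nonempty := by
    rw [← Finset.card_pos, Finset.card_erase_of_mem hi0]; omega
  obtain ⟨i1, hi1, hmin1⟩ := Finset.exists_min_image (F.erase i0) d hne1
  have hi1F := Finset.mem_of_mem_erase hi1
  have hne01 : i1 ≠ i0 := Finset.ne_of_mem_erase hi1
  have h1 : u < d i0 + d i1 := by
    rcases lt_or_gt_of_ne hne01 with h | h
    · have := hcon i1 hi1F i0 hi0 h
      linarith
    · exact hcon i0 hi0 i1 hi1F h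
  have h2 : d i0 ≤ d i1 := hmin0 i1 hi1F
  have h3 : ∑ i ∈ F.erase i0, d i1 ≤ ∑ i ∈ F.erase i0, d i := Finset.sum_le_sum hmin1
  rw [Finset.sum_const, Finset.card_erase_of_mem hi0, nsmul_eq_mul] at h3
  have h4 := Finset.add_sum_erase F d hi0
  have h5 : (9 : ℤ) ≤ ((F.card - 1 : ℕ) : ℤ) := by omega
  have h6 : 9 * d i1 ≤ ((F.card - 1 : ℕ) : ℤ) * d i1 := mul_le_mul_of_nonneg_right h5 (hd i1)
  linarith

end WindowAux

open WindowAux

theorem window (hC : CountStmt) : WindowStmt 45 := by
  classical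
  intro C _ Λ D S hΛ
  choose nx hnx1 hnx2 hnx3 hnx4 using step D
  set t : ℕ → ℤ := fun n => nx^[n] 0 with ht
  have ht0 : t 0 = 0 := rfl
  have htS : ∀ n, t (n + 1) = nx (t n) := fun n => by
    simp only [ht]; rw [Function.iterate_succ', Function.comp]
  have hmono : StrictMono t := strictMono_nat_of_lt_succ fun n => by rw [htS]; exact hnx1 _
  have htn : ∀ n : ℕ, (n : ℤ) ≤ t n := by
    intro n
    induction n with
    | zero => simp [ht0]
    | succ n ih => have := hmono (show n < n + 1 by omega); push_cast; omega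
  have hex : ∃ n : ℕ, 2 * (D.H : ℤ) < t n := ⟨2 * D.H + 1, by have := htn (2 * D.H + 1); push_cast at this ⊢; omega⟩
  set N := Nat.find hex with hN
  have hN1 := Nat.find_spec hex
  rw [← hN] at hN1
  have hN0 : N ≠ 0 := by intro h; rw [h, ht0] at hN1; have := D.hH; omega
  obtain ⟨n, hn⟩ := Nat.exists_eq_succ_of_ne_zero hN0
  have hn2 : t n ≤ 2 * D.H := by
    have := Nat.find_min hex (m := n) (by omega)
    omega
  have hn3 : 2 * (D.H:ℤ) < t (n + 1) := by rw [← Nat.succ_eq_add_one, ← hn]; exact hN1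
  -- total mass
  have htot : ∀ m : ℕ, ∑ s ∈ Finset.Ico (0:ℤ) (t m), D.lam s ≤ 3 * m := by
    intro m
    induction m with
    | zero => simp [ht0]
    | succ m ih =>
      have h0 : (0:ℤ) ≤ t m := by have := htn m; omega
      have h1 : t m ≤ t (m + 1) := (hmono (Nat.lt_add_one m)).le
      have h9 : Finset.Ico (0:ℤ) (t (m + 1)) = Finset.Ico (0:ℤ) (t m) ∪ Finset.Ico (t m) (t (m + 1)) :=
        (Finset.Ico_union_Ico_eq_Ico h0 h1).symm
      rw [h9, Finset.sum_union (Finset.Ico_disjoint_Ico_consecutive _ _ _)]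
      have h2 := hnx3 (t m)
      rw [← htS] at h2
      push_cast
      linarith
  have hbig : (45 : ℚ) ≤ 3 * (n + 1 : ℕ) := by
    have h1 := htot (n + 1)
    have h2 : ∑ s ∈ Finset.Ico (0:ℤ) (2 * D.H), D.lam s ≤ ∑ s ∈ Finset.Ico (0:ℤ) (t (n + 1)), D.lam s :=
      Finset.sum_le_sum_of_subset_of_nonneg (Finset.Ico_subset_Ico_right hn3.le)
        (fun s _ _ => D.lam_nonneg s)
    have h3 := D.lam_total
    linarith
  have hn22 : 14 ≤ n := by
    have : (45 : ℚ) ≤ ((3 * (n + 1) : ℕ) : ℚ) := by push_cast; push_cast at hbig; linarith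
    have : 45 ≤ 3 * (n + 1) := by exact_mod_cast this
    omega
  -- full windows
  set F := (Finset.range n).filter (fun i => 3 < ∑ s ∈ Finset.Icc (t i) (t (i + 1)), D.lam s) with hF
  set G := (Finset.range n).filter (fun i => ¬ 3 < ∑ s ∈ Finset.Icc (t i) (t (i + 1)), D.lam s) with hG
  have hFG : F.card + G.card = n := by
    rw [hF, hG, Finset.card_filter_add_card_filter_not, Finset.card_range]
  have hlen : (D.H - 1 : ℤ) * G.card ≤ 2 * t n := by
    have h1 : ∀ m : ℕ, t m = ∑ i ∈ Finset.range m, (t (i + 1) - t i) := by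
      intro m
      rw [Finset.sum_range_sub, ht0, sub_zero]
    have h2 : ∑ i ∈ G, (D.H - 1 : ℤ) ≤ ∑ i ∈ G, 2 * (t (i + 1) - t i) := by
      refine Finset.sum_le_sum fun i hi => ?_
      have h3 := (Finset.mem_filter.1 hi).2
      have h4 := hnx4 (t i)
      rw [← htS] at h4
      rcases h4 with h4 | h4
      · exact absurd h4 h3
      · omega
    have h3 : ∑ i ∈ G, 2 * (t (i + 1) - t i) ≤ ∑ i ∈ Finset.range n, 2 * (t (i + 1) - t i) := by
      refine Finset.sum_le_sum_of_subset_of_nonneg (Finset.filter_subset _ _) fun i _ _ => ?_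
      have := hmono (Nat.lt_add_one i)
      omega
    have h4 : ∑ i ∈ Finset.range n, 2 * (t (i + 1) - t i) = 2 * t n := by
      rw [← Finset.mul_sum, ← h1 n]
    rw [h4] at h3
    rw [Finset.sum_const, nsmul_eq_mul] at h2
    linarith [mul_comm (D.H - 1 : ℤ) (G.card : ℤ)]
  have hG4 : G.card ≤ 4 := by
    by_contra hcon
    have h5 : (5:ℤ) ≤ G.card := by omega
    have hH := D.hH
    have h6 : (D.H - 1 : ℤ) * 5 ≤ (D.H - 1 : ℤ) * G.card := mul_le_mul_of_nonneg_left h5 (by omega)
    omega
  have hF18 : 10 ≤ F.card := by omega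
  -- defects
  set d : ℕ → ℤ := fun i => ∑ a, S.df a (t i) (t (i + 1)) with hd
  have hd0 : ∀ i, 0 ≤ d i := fun i => Finset.sum_nonneg fun a _ => df_nonneg S a _ _
  set u : ℤ := ∑ a, S.ev a 0 (2 * D.H) - 2 * Fintype.card C with hu
  have hdsum : ∀ m : ℕ, ∑ i ∈ Finset.range m, d i = ∑ a, S.df a 0 (t m) := by
    intro m
    induction m with
    | zero =>
      simp only [Finset.range_zero, Finset.sum_empty, ht0]
      symm
      refine Finset.sum_eq_zero fun a _ => ?_
      simp [Strands.df]
    | succ m ih =>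
      rw [Finset.sum_range_succ, ih, hd]
      simp only
      rw [← Finset.sum_add_distrib]
      refine Finset.sum_congr rfl fun a _ => ?_
      have h0 : (0:ℤ) ≤ t m := by have := htn m; omega
      rw [← df_add S a h0 (hmono (Nat.lt_add_one m)).le]
  have hFsum : ∑ i ∈ F, d i ≤ 5 * u := by
    have h1 : ∑ i ∈ F, d i ≤ ∑ i ∈ Finset.range n, d i :=
      Finset.sum_le_sum_of_subset_of_nonneg (Finset.filter_subset _ _) fun i _ _ => hd0 i
    have h2 : ∑ a, S.df a 0 (t n) ≤ ∑ a, S.df a 0 (0 + 2 * D.H) := by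
      refine Finset.sum_le_sum fun a _ => ?_
      rw [zero_add, df_add S a (by have := htn n; omega) hn2]
      have := df_nonneg S a (t n) (2 * D.H)
      linarith
    have h3 := hC C Λ D S 0
    rw [ev_total S 0] at h3
    rw [hdsum] at h1
    linarith
  obtain ⟨i, hi, j, hj, hij, hsum⟩ := pigeon F d u hd0 hF18 hFsum
  obtain ⟨hi1, hi2⟩ := Finset.mem_filter.1 hi
  obtain ⟨hj1, hj2⟩ := Finset.mem_filter.1 hj
  rw [Finset.mem_range] at hi1 hj1
  have hti : (0:ℤ) ≤ t i := by have := htn i; omega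
  have hle1 : t (i + 1) ≤ t j := hmono.monotone (by omega)
  have hle2 : t (j + 1) ≤ t n := hmono.monotone (by omega)
  have hlt1 := hmono (Nat.lt_add_one i)
  have hlt2 := hmono (Nat.lt_add_one j)
  have hl1 := hnx2 (t i)
  have hl2 := hnx2 (t j)
  rw [← htS] at hl1 hl2
  refine ⟨t i, t (i + 1), t j, t (j + 1), hlt1.le, hle1, hlt2.le, by omega, hl1, hl2, hi2, hj2, ?_⟩
  rw [ev_total]
  exact hsum

end Pool.Agent.Lib.EcW
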