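import Pool.Agent.Lib.EcW.Core
import Pool.Agent.Lib.EcW.Window
import Pool.Agent.Lib.EcW.Pair
import Pool.Agent.Lib.EcW.Count
import Pool.Agent.Lib.EcW.Poly

namespace Pool.Agent.Lib.EcW

theorem core_all : CoreStmt 45 :=
  core 45 strands polyStmt PairAux.pair (window count)

end Pool.Agent.Lib.EcW
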