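import Pool.Agent.Lib.EcW.Plane

/-!
# EcW.Dbl: doubling of the vertices of a polygon of flags
-/

set_option autoImplicit false

namespace Pool.Agent.Lib.EcW

open Finset Classical Pool.Agent.Lib.Pec6744 Pool.Agent.Lib.EcR

/-- a linear functional is a height -/
theorem exists_angle (α β : ℝ) (h : α ≠ 0 ∨ β ≠ 0) : ∃ r ψ : ℝ, 0 < r ∧ ∀ p : E2, p 0 * α + p 1 * β = r * hh p ψ := by
  set z : ℂ := ⟨α, β⟩ with hz
  have hz0 : z ≠ 0 := by
    intro hc
    have h0 := congrArg Complex.re hc
    have h1 := congrArg Complex.im hc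
    simp [hz] at h0 h1
    rcases h with h | h
    · exact h h0
    · exact h h1
  refine ⟨‖z‖, Complex.arg z, norm_pos_iff.2 hz0, fun p => ?_⟩
  unfold hh
  have e1 := Complex.norm_mul_cos_arg z
  have e2 := Complex.norm_mul_sin_arg z
  have e3 : z.re = α := rfl
  have e4 : z.im = β := rfl
  rw [e3] at e1
  rw [e4] at e2
  rw [← e1, ← e2]
  ring

/-- a point outside the convex hull is strictly the highest one in some direction -/
theorem exists_top {T : Finset E2} {z : E2} (hz : z ∉ convexHull ℝ (T : Set E2)) :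
    ∃ ψ, ∀ b ∈ T, hh b ψ < hh z ψ := by
  rcases T.eq_empty_or_nonempty with h | ⟨b0, hb0⟩
  · exact ⟨0, by simp [h]⟩
  obtain ⟨f, u, h1, h2⟩ := geometric_hahn_banach_closed_point (convex_convexHull ℝ (T : Set E2))
    (T.finite_toSet.isClosed_convexHull ℝ) hz
  have hlt : ∀ b ∈ T, f b < f z := fun b hb => (h1 b (subset_convexHull ℝ _ hb)).trans h2
  have hf : ∀ p : E2, f p = p 0 * f (EuclideanSpace.single 0 1) + p 1 * f (EuclideanSpace.single 1 1) := by
    intro p
    have hp : p = p 0 • EuclideanSpace.single 0 (1 : ℝ) + p 1 • EuclideanSpace.single 1 (1 : ℝ) := by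
      ext i
      fin_cases i <;> simp
    conv_lhs => rw [hp]
    rw [map_add, map_smul, map_smul, smul_eq_mul, smul_eq_mul]
  have hne : f (EuclideanSpace.single 0 1) ≠ 0 ∨ f (EuclideanSpace.single 1 1) ≠ 0 := by
    by_contra hcon
    push Not at hcon
    have := hlt b0 hb0
    rw [hf b0, hf z, hcon.1, hcon.2] at this
    simp at this
  obtain ⟨r, ψ, hr, hψ⟩ := exists_angle _ _ hne
  refine ⟨ψ, fun b hb => ?_⟩
  have := hlt b hb
  rw [hf b, hf z, hψ b, hψ z] at this
  exact lt_of_mul_lt_mul_left this hr.le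

/-- a point of the convex hull of a set in general position is inside a triangle -/
theorem tri_of_mem {T : Finset E2} {z : E2} (hgp : GenPos (insert z T)) (hz : z ∉ T)
    (h : z ∈ convexHull ℝ (T : Set E2)) :
    ∃ a ∈ T, ∃ b ∈ T, ∃ c ∈ T, 0 < orient a b z ∧ 0 < orient b c z ∧ 0 < orient c a z := by
  obtain ⟨ι, hι, g, w, hg, haff, hw, hw1, hwz⟩ := eq_pos_convex_span_of_mem_convexHull h
  have hcard : Fintype.card ι ≤ 3 := by
    have h1 := haff.card_le_finrank_succ
    have h2 : Module.finrank ℝ (vectorSpan ℝ (Set.range g)) ≤ 2 := by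
      have := Submodule.finrank_le (vectorSpan ℝ (Set.range g))
      simpa using this
    omega
  have hT : ∀ i, g i ∈ T := fun i => hg ⟨i, rfl⟩
  have hne : ∀ i, g i ≠ z := fun i hi => hz (hi ▸ hT i)
  have hz0 : z 0 = ∑ i, w i * g i 0 := by
    rw [← hwz]; simp
  have hz1 : z 1 = ∑ i, w i * g i 1 := by
    rw [← hwz]; simp
  have hinj := haff.injective
  obtain ⟨e⟩ : Nonempty (ι ≃ Fin (Fintype.card ι)) := ⟨Fintype.equivFin ι⟩
  interval_cases hc : Fintype.card ι
  · exfalso
    have : IsEmpty ι := Fintype.card_eq_zero_iff.1 hc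
    simp at hw1
  · exfalso
    obtain ⟨i, hi⟩ := Fintype.card_eq_one_iff.1 hc
    let _ : Unique ι := ⟨⟨i⟩, hi⟩
    simp only [Fintype.sum_unique] at hw1 hwz
    rw [hw1, one_smul] at hwz
    exact hne _ hwz
  · exfalso
    rw [← e.symm.sum_comp] at hw1 hz0 hz1
    rw [Fin.sum_univ_two] at hw1 hz0 hz1
    refine hgp (g (e.symm 0)) (mem_insert_of_mem (hT _)) (g (e.symm 1)) (mem_insert_of_mem (hT _)) z
      (mem_insert_self _ _) (fun hh => ?_) (hne _) (hne _) ?_
    · have := e.symm.injective (hinj hh)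
      simp at this
    · unfold orient
      rw [hz0, hz1]
      have : w (e.symm 1) = 1 - w (e.symm 0) := by linarith
      rw [this]
      ring
  · rw [← e.symm.sum_comp] at hw1 hz0 hz1
    rw [Fin.sum_univ_three] at hw1 hz0 hz1
    set a := g (e.symm 0) with ha
    set b := g (e.symm 1) with hb
    set c := g (e.symm 2) with hcc
    have hab : a ≠ b := by
      intro hh
      have := e.symm.injective (hinj hh)
      simp at this
    have hac : a ≠ c := by
      intro hh
      have := e.symm.injective (hinj hh)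
      simp at this
    have hbc : b ≠ c := by
      intro hh
      have := e.symm.injective (hinj hh)
      simp at this
    have o1 : orient a b z = w (e.symm 2) * orient a b c := by
      unfold orient
      rw [hz0, hz1]
      have : w (e.symm 0) = 1 - w (e.symm 1) - w (e.symm 2) := by linarith
      rw [this]
      ring
    have o2 : orient b c z = w (e.symm 0) * orient a b c := by
      unfold orient
      rw [hz0, hz1]
      have : w (e.symm 0) = 1 - w (e.symm 1) - w (e.symm 2) := by linarith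
      rw [this]
      ring
    have o3 : orient c a z = w (e.symm 1) * orient a b c := by
      unfold orient
      rw [hz0, hz1]
      have : w (e.symm 0) = 1 - w (e.symm 1) - w (e.symm 2) := by linarith
      rw [this]
      ring
    have hnz : orient a b c ≠ 0 := hgp a (mem_insert_of_mem (hT _)) b (mem_insert_of_mem (hT _)) c
      (mem_insert_of_mem (hT _)) hab hac hbc
    rcases lt_or_gt_of_ne hnz with hneg | hpos
    · refine ⟨b, hT _, a, hT _, c, hT _, ?_, ?_, ?_⟩
      · rw [← neg_neg (orient b a z), ← orient_swap, o1]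
        have := mul_neg_of_pos_of_neg (hw (e.symm 2)) hneg
        linarith
      · rw [orient_swap, o3]
        have := mul_neg_of_pos_of_neg (hw (e.symm 1)) hneg
        linarith
      · rw [orient_swap, o2]
        have := mul_neg_of_pos_of_neg (hw (e.symm 0)) hneg
        linarith
    · exact ⟨a, hT _, b, hT _, c, hT _, o1 ▸ mul_pos (hw _) hpos, o2 ▸ mul_pos (hw _) hpos,
        o3 ▸ mul_pos (hw _) hpos⟩

/-- a point inside a triangle is never higher than all three corners -/
theorem not_top_of_tri {a b c z : E2} (h1 : 0 < orient a b z) (h2 : 0 < orient b c z)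
    (h3 : 0 < orient c a z) (ψ : ℝ) (ha : hh a ψ < hh z ψ) (hb : hh b ψ < hh z ψ)
    (hc : hh c ψ < hh z ψ) : False := by
  have e : orient b c z * (hh z ψ - hh a ψ) + orient c a z * (hh z ψ - hh b ψ) +
      orient a b z * (hh z ψ - hh c ψ) = 0 := by
    unfold hh orient
    ring
  have p1 := mul_pos h2 (sub_pos.2 ha)
  have p2 := mul_pos h3 (sub_pos.2 hb)
  have p3 := mul_pos h1 (sub_pos.2 hc)
  linarith

/-- flags in general position: each flag behaves like one point -/
structure Flg {ι : Type} (P : Finset E2) (x y : ι → E2) : Prop where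
  hP : GenPos P
  hx : ∀ i, x i ∈ P
  hy : ∀ i, y i ∈ P
  xx : ∀ i j, i ≠ j → x i ≠ x j
  yy : ∀ i j, i ≠ j → y i ≠ y j
  xy : ∀ i j, x i ≠ y j
  side3 : ∀ i j l, i ≠ j → i ≠ l → j ≠ l → ∀ u v, (u = x i ∨ u = y i) → (v = x j ∨ v = y j) →
    SameSide u v (x l) (y l)
  side2 : ∀ i l, i ≠ l → SameSide (x i) (y i) (x l) (y l)

theorem flg_of_red {P : Finset E2} {n N m : ℕ} {w0 : ℚ} {η : ℝ} {x y : Fin N → E2}
    {Co : Fin N → Finset E2} (hP : GenPos P) (h : Red P n N m w0 η x y Co) : Flg P x y where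
  hP := hP
  hx := fun i => h.sub i (h.hx i)
  hy := fun i => h.sub i (h.hy i)
  xx := fun i j hij he => Finset.disjoint_left.1 (h.disj i j hij) (h.hx i) (he ▸ h.hx j)
  yy := fun i j hij he => Finset.disjoint_left.1 (h.disj i j hij) (h.hy i) (he ▸ h.hy j)
  xy := fun i j he => by
    rcases eq_or_ne i j with hij | hij
    · subst hij
      exact h.ne i he
    · exact Finset.disjoint_left.1 (h.disj i j hij) (h.hx i) (he ▸ h.hy j)
  side3 := h.side3
  side2 := h.side2

variable {ι : Type} {P : Finset E2} {x y : ι → E2}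

/-- the doubled vertex set -/
noncomputable def dbl (x y : ι → E2) (Y Sg : Finset ι) : Finset E2 := Y.image x ∪ Sg.image y

theorem Flg.ne3 (F : Flg P x y) {i j : ι} (hij : i ≠ j) : orient (x i) (x j) (y i) ≠ 0 :=
  F.hP _ (F.hx i) _ (F.hx j) _ (F.hy i) (F.xx i j hij) (F.xy i i) (F.xy j i)

theorem Flg.sgn3 (F : Flg P x y) {i j l : ι} (hij : i ≠ j) (hil : i ≠ l) (hjl : j ≠ l) {a b : E2}
    (ha : a = x j ∨ a = y j) (hb : b = x l ∨ b = y l) (h : 0 < orient a b (x i)) :
    0 < orient (x j) (x l) (x i) := by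
  have key : ∀ u v p q : E2, SameSide u v p q → 0 < orient u v q → 0 < orient u v p := by
    intro u v p q hs hq
    rcases hs with h1 | h1
    · exact h1.1
    · exact absurd h1.2 (not_lt.2 hq.le)
  have h1 : 0 < orient (x j) b (x i) := by
    rcases ha with rfl | rfl
    · exact h
    · rw [orient_cycl] at h ⊢
      exact key _ _ _ _ (F.side3 l i j hil.symm hjl.symm hij b (x i) hb (Or.inl rfl)) h
  rcases hb with rfl | rfl
  · exact h1
  · rw [← orient_cycl] at h1 ⊢
    exact key _ _ _ _ (F.side3 i j l hij hil hjl (x i) (x j) (Or.inl rfl) (Or.inl rfl)) h1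

theorem mem_dbl {Y Sg : Finset ι} {b : E2} : b ∈ dbl x y Y Sg ↔ (∃ j ∈ Y, x j = b) ∨ ∃ j ∈ Sg, y j = b := by
  unfold dbl
  rw [mem_union, mem_image, mem_image]

/-- at the flag direction everything else is strictly below -/
theorem Flg.pair (F : Flg P x y) {Y Sg : Finset ι} (hS : Sg ⊆ Y) {i : ι} {ψ : ℝ}
    (hψ : hh (x i) ψ = hh (y i) ψ) (h : ∀ j ∈ Y, j ≠ i → hh (x j) ψ < hh (x i) ψ) :
    ∀ b ∈ dbl x y Y Sg, b ≠ x i → b ≠ y i → hh b ψ < hh (x i) ψ := by
  intro b hb h1 h2
  rcases mem_dbl.1 hb with ⟨j, hj, rfl⟩ | ⟨j, hj, rfl⟩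
  · exact h j hj (fun hji => h1 (by rw [hji]))
  · have hji : j ≠ i := fun hji => h2 (by rw [hji])
    exact below_of_sameSide hψ (F.side2 i j hji.symm) (h j (hS hj) hji)

/-- a direction of a tie with a foreign point -/
theorem Flg.tie (F : Flg P x y) {Y Sg : Finset ι} (hS : Sg ⊆ Y) {i r : ι} (hi : i ∉ Sg) (hr : r ≠ i)
    {ψ : ℝ} (hψ : hh (x i) ψ = hh (x r) ψ) (h : ∀ j ∈ Y, j ≠ i → hh (x j) ψ < hh (x i) ψ) :
    Top (dbl x y Y Sg) (x i) ψ := by
  have hrY : r ∉ Y := fun hrY => absurd (h r hrY hr) (by rw [hψ]; exact lt_irrefl _)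
  intro b hb h1
  rcases mem_dbl.1 hb with ⟨j, hj, rfl⟩ | ⟨j, hj, rfl⟩
  · exact h j hj (fun hji => h1 (by rw [hji]))
  · have hji : j ≠ i := fun hji => hi (hji ▸ hj)
    have hjr : r ≠ j := fun hjr => hrY (hjr ▸ hS hj)
    exact below_of_sameSide hψ (F.side3 i r j hr.symm hji.symm hjr _ _ (Or.inl rfl) (Or.inl rfl))
      (h j (hS hj) hji)

/-- a vertex which is not doubled is still a vertex after doubling others -/
theorem Flg.single (F : Flg P x y) {Y Sg : Finset ι} (hS : Sg ⊆ Y) {i : ι} (hi : i ∉ Sg)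
    {ψ : ℝ} (h : ∀ j ∈ Y, j ≠ i → hh (x j) ψ < hh (x i) ψ) :
    ∃ t, Top (dbl x y Y Sg) (x i) t := by
  set T := (dbl x y Y Sg).erase (x i) with hT
  have hcl : ∀ a ∈ T, ∃ j ∈ Y, j ≠ i ∧ (a = x j ∨ a = y j) := by
    intro a ha
    rw [hT, mem_erase] at ha
    rcases mem_dbl.1 ha.2 with ⟨j, hj, rfl⟩ | ⟨j, hj, rfl⟩
    · exact ⟨j, hj, fun hji => ha.1 (by rw [hji]), Or.inl rfl⟩
    · exact ⟨j, hS hj, fun hji => hi (hji ▸ hj), Or.inr rfl⟩
  have hTP : insert (x i) T ⊆ P := by
    intro a ha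
    rw [mem_insert] at ha
    rcases ha with rfl | ha
    · exact F.hx i
    · obtain ⟨j, -, -, rfl | rfl⟩ := hcl a ha
      · exact F.hx j
      · exact F.hy j
  have hgp : GenPos (insert (x i) T) := fun a ha b hb c hc => F.hP a (hTP ha) b (hTP hb) c (hTP hc)
  have hnot : x i ∉ convexHull ℝ (T : Set E2) := by
    intro hmem
    obtain ⟨a, ha, b, hb, c, hc, h1, h2, h3⟩ := tri_of_mem hgp (by rw [hT]; exact notMem_erase _ _) hmem
    obtain ⟨ja, hja, hja', ea⟩ := hcl a ha
    obtain ⟨jb, hjb, hjb', eb⟩ := hcl b hb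
    obtain ⟨jc, hjc, hjc', ec⟩ := hcl c hc
    -- two points of one flag and one of another
    have two : ∀ (a b c : E2) (j l : ι), j ≠ i → l ≠ i → j ≠ l → (a = x j ∨ a = y j) → (b = x j ∨ b = y j) →
        (c = x l ∨ c = y l) → 0 < orient b c (x i) → 0 < orient c a (x i) → False := by
      intro a b c j l hj hl hjl ea eb ec o1 o2
      have p1 := F.sgn3 hj.symm hl.symm hjl eb ec o1
      have p2 := F.sgn3 hl.symm hj.symm hjl.symm ec ea o2
      rw [orient_swap] at p2
      linarith
    have ne_of : ∀ a b : E2, 0 < orient a b (x i) → a ≠ b := by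
      intro a b hab he
      rw [he] at hab
      unfold orient at hab
      have : (b 0 - b 0) * ((x i) 1 - b 1) - (b 1 - b 1) * ((x i) 0 - b 0) = 0 := by ring
      linarith
    by_cases hab : ja = jb
    · by_cases hac : ja = jc
      · subst hab
        subst hac
        have n1 := ne_of _ _ h1
        have n2 := ne_of _ _ h2
        have n3 := ne_of _ _ h3
        rcases ea with rfl | rfl <;> rcases eb with rfl | rfl <;> rcases ec with rfl | rfl <;>
          simp at n1 n2 n3
      · subst hab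
        exact two a b c ja jc hja' hjc' hac ea eb ec h2 h3
    · by_cases hbc : jb = jc
      · subst hbc
        exact two b c a jb ja hjb' hja' (Ne.symm hab) eb ec ea h3 h1
      · by_cases hac : ja = jc
        · subst hac
          exact two c a b ja jb hja' hjb' hab ec ea eb h1 h2
        · exact not_top_of_tri (F.sgn3 hja'.symm hjb'.symm hab ea eb h1)
            (F.sgn3 hjb'.symm hjc'.symm hbc eb ec h2) (F.sgn3 hjc'.symm hja'.symm (Ne.symm hac) ec ea h3)
            ψ (h ja hja hja') (h jb hjb hjb') (h jc hjc hjc')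
  obtain ⟨t, ht⟩ := exists_top hnot
  exact ⟨t, fun b hb hbi => ht b (by rw [hT, mem_erase]; exact ⟨hbi, hb⟩)⟩

theorem hh_add (p : E2) (ψ δ : ℝ) : hh p (ψ + δ) = hh p ψ * Real.cos δ + hh p (ψ + Real.pi / 2) * Real.sin δ := by
  unfold hh
  rw [Real.cos_add, Real.sin_add, Real.cos_add_pi_div_two, Real.sin_add_pi_div_two]
  ring

theorem eq_of_ties {a b : E2} {ψ : ℝ} (h1 : hh a ψ = hh b ψ)
    (h2 : hh a (ψ + Real.pi / 2) = hh b (ψ + Real.pi / 2)) : a = b := by
  unfold hh at h1 h2
  rw [Real.cos_add_pi_div_two, Real.sin_add_pi_div_two] at h2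
  have e := Real.sin_sq_add_cos_sq ψ
  have e0 : a 0 = b 0 := by
    linear_combination Real.cos ψ * h1 - Real.sin ψ * h2 - (a 0 - b 0) * e
  have e1 : a 1 = b 1 := by
    linear_combination Real.sin ψ * h1 + Real.cos ψ * h2 - (a 1 - b 1) * e
  ext i
  fin_cases i
  · exact e0
  · exact e1

open Filter Topology in
/-- near a tie of the two highest points each of them is strictly the highest -/
theorem near_top {T : Finset E2} {a b : E2} {ψ : ℝ} (hne : a ≠ b) (h : hh a ψ = hh b ψ)
    (hT : ∀ c ∈ T, c ≠ a → c ≠ b → hh c ψ < hh a ψ) (Q : ℝ → Prop) (hQ : ∀ᶠ t in 𝓝 ψ, Q t) :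
    ∃ t, Q t ∧ Top T a t := by
  have hs : hh a (ψ + Real.pi / 2) ≠ hh b (ψ + Real.pi / 2) := fun h2 => hne (eq_of_ties h h2)
  have h1 : ∀ᶠ t in 𝓝 ψ, ∀ c ∈ T, c ≠ a → c ≠ b → hh c t < hh a t := by
    rw [Filter.eventually_all_finset]
    intro c hc
    by_cases hca : c = a
    · exact Eventually.of_forall (fun t h3 => absurd hca h3)
    by_cases hcb : c = b
    · exact Eventually.of_forall (fun t _ h3 => absurd hcb h3)
    have := (continuous_hh c).continuousAt.eventually_lt (continuous_hh a).continuousAt (hT c hc hca hcb)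
    filter_upwards [this] with t ht _ _
    exact ht
  obtain ⟨ε, hε, hball⟩ := Metric.eventually_nhds_iff.1 (hQ.and h1)
  set δ := min (ε / 2) 1 with hδ
  have hδ0 : 0 < δ := by rw [hδ]; positivity
  have hδε : δ < ε := (min_le_left _ _).trans_lt (by linarith)
  have hδπ : δ < Real.pi := (min_le_right _ _).trans_lt (by linarith [Real.pi_gt_three])
  have hsin : 0 < Real.sin δ := Real.sin_pos_of_pos_of_lt_pi hδ0 hδπ
  have dist1 : dist (ψ + δ) ψ < ε := by rw [Real.dist_eq]; simpa [abs_of_pos hδ0] using hδε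
  have dist2 : dist (ψ + -δ) ψ < ε := by rw [Real.dist_eq]; simpa [abs_of_pos hδ0] using hδε
  rcases lt_or_gt_of_ne hs with hlt | hgt
  · refine ⟨ψ + -δ, (hball dist2).1, fun c hc hca => ?_⟩
    by_cases hcb : c = b
    · subst hcb
      rw [hh_add c ψ (-δ), hh_add a ψ (-δ), Real.sin_neg, h]
      nlinarith [mul_pos (sub_pos.2 hlt) hsin]
    · exact (hball dist2).2 c hc hca hcb
  · refine ⟨ψ + δ, (hball dist1).1, fun c hc hca => ?_⟩
    by_cases hcb : c = b
    · subst hcb
      rw [hh_add c ψ δ, hh_add a ψ δ, h]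
      nlinarith [mul_pos (sub_pos.2 hgt) hsin]
    · exact (hball dist1).2 c hc hca hcb

theorem card_dbl (F : Flg P x y) (Y Sg : Finset ι) : (dbl x y Y Sg).card = Y.card + Sg.card := by
  unfold dbl
  rw [card_union_of_disjoint, card_image_of_injective, card_image_of_injective]
  · intro i j hij
    by_contra hne
    exact F.yy i j hne hij
  · intro i j hij
    by_contra hne
    exact F.xx i j hne hij
  · rw [disjoint_left]
    intro a ha hb
    rw [mem_image] at ha hb
    obtain ⟨i, -, rfl⟩ := ha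
    obtain ⟨j, -, hj⟩ := hb
    exact F.xy i j hj.symm

theorem dbl_subset (F : Flg P x y) (Y Sg : Finset ι) : dbl x y Y Sg ⊆ P := by
  intro b hb
  rcases mem_dbl.1 hb with ⟨j, _, rfl⟩ | ⟨j, _, rfl⟩
  · exact F.hx j
  · exact F.hy j

end Pool.Agent.Lib.EcW
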