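import Pool.Agent.Lib.Pec6744.Bound

/-!
# EcW: common definitions (project EC, MP_ec6744_co; text: /team-store/EC_proof.md)
-/

set_option autoImplicit false

namespace Pool.Agent.Lib.EcW

open Pool.Agent.Lib.Pec6744

/-- A wheel: discrete allowable sequence with half period `H`. `ab t c d`: `c` is above `d` at time `t`. -/
structure Wheel (C : Type) where
  H : ℕ
  ab : ℤ → C → C → Prop
  irr : ∀ t c, ¬ ab t c c
  trans : ∀ t a b c, ab t a b → ab t b c → ab t a c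
  tot : ∀ t a b, a ≠ b → ab t a b ∨ ab t b a
  per : ∀ t a b, ab (t + 2 * H) a b ↔ ab t a b
  pl : ∀ (a b : C) (t₁ t₂ t₃ : ℤ), t₁ < t₂ → t₂ < t₃ → t₃ ≤ t₁ + (H : ℤ) → ab t₁ a b → ab t₂ b a → ¬ ab t₃ a b

open Classical in
/-- the zone: the `p` highest clones at time `t` -/
noncomputable def Wheel.zone {C : Type} [Fintype C] (W : Wheel C) (p : ℕ) (t : ℤ) : Finset C :=
  Finset.univ.filter (fun c => (Finset.univ.filter (fun d => W.ab t d c)).card < p)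

open Classical in
/-- Wheel with zone size, marks, half-turn absence and a measure `lam` on the times for which every clone is
visible on measure at most `1`; `Λ` is a lower bound of the total mass. -/
structure WData (C : Type) [Fintype C] (Λ : ℚ) extends Wheel C where
  p : ℕ
  p_pos : 0 < p
  p_le : p ≤ Fintype.card C
  hH : 100 ≤ H
  m : C → ℤ
  m_mem : ∀ c, c ∈ toWheel.zone p (m c)
  half : ∀ c, ∃ g : ℤ, ∀ t, g ≤ t → t < g + H → c ∉ toWheel.zone p t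
  lam : ℤ → ℚ
  lam_nonneg : ∀ t, 0 ≤ lam t
  lam_per : ∀ t, lam (t + 2 * H) = lam t
  lam_le : ∀ c, ∑ t ∈ (Finset.Ico (0 : ℤ) (2 * H)).filter (fun t => c ∈ toWheel.zone p t), lam t ≤ 1
  lam_total : Λ ≤ ∑ t ∈ Finset.Ico (0 : ℤ) (2 * H), lam t

namespace WData

variable {C : Type} [Fintype C] {Λ : ℚ}

/-- the zone of the data -/
noncomputable def Z (D : WData C Λ) (t : ℤ) : Finset C := D.toWheel.zone D.p t

/-- time `t` lies in the open interval `(u, v)` modulo the period -/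
def In (D : WData C Λ) (u v t : ℤ) : Prop := ∃ n : ℤ, u < t + n * (2 * D.H) ∧ t + n * (2 * D.H) < v

open Classical in
/-- `1` if `t` is the mark time of `c` modulo the period, else `0` -/
noncomputable def mark (D : WData C Λ) (c : C) (t : ℤ) : ℤ := if (2 * (D.H : ℤ)) ∣ (t - D.m c) then 1 else 0

end WData

/-- A system of `p` sheets (strands) of the zone, defined for all times. -/
structure Strands {C : Type} [Fintype C] {Λ : ℚ} (D : WData C Λ) where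
  L : ℤ → Fin D.p → C
  ρ : Equiv.Perm (Fin D.p)
  inj : ∀ t, Function.Injective (L t)
  mem : ∀ t a, L t a ∈ D.Z t
  surj : ∀ t c, c ∈ D.Z t → ∃ a, L t a = c
  step : ∀ t a, L t a ∈ D.Z (t + 1) → L (t + 1) a = L t a
  per : ∀ t a, L (t + 2 * D.H) a = L t (ρ a)

namespace Strands

variable {C : Type} [Fintype C] {Λ : ℚ} {D : WData C Λ}

/-- sheet `a` has a break at `t`: it changes its clone between `t` and `t + 1` -/
def brk (S : Strands D) (a : Fin D.p) (t : ℤ) : Prop := S.L t a ≠ S.L (t + 1) a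

open Classical in
/-- number of breaks of sheet `a` at the times in `[s, t)` -/
noncomputable def nb (S : Strands D) (a : Fin D.p) (s t : ℤ) : ℤ :=
  (((Finset.Ico s t).filter (fun τ => S.brk a τ)).card : ℤ)

/-- number of marks of sheet `a` at the times in `(s, t]` -/
noncomputable def nm (S : Strands D) (a : Fin D.p) (s t : ℤ) : ℤ :=
  ∑ τ ∈ Finset.Ioc s t, D.mark (S.L τ a) τ

/-- number of events of sheet `a` in `(s, t]` -/
noncomputable def ev (S : Strands D) (a : Fin D.p) (s t : ℤ) : ℤ := S.nb a s t + S.nm a s t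

/-- a junction from sheet `a` to sheet `b` at `(u, u')` -/
def Jn (S : Strands D) (a b : Fin D.p) (u u' : ℤ) : Prop :=
  u < u' ∧ D.ab u (S.L u a) (S.L u' b) ∧ D.ab u' (S.L u' b) (S.L u a)

/-- the junction is harmless: it has no gap, or it is a clean gap (exit and entry at the ends of the arcs) -/
def Good (S : Strands D) (a b : Fin D.p) (u u' : ℤ) : Prop :=
  (∀ t, u < t → t < u' → S.L u a ∈ D.Z t) ∨ (S.L u a ∉ D.Z (u + 1) ∧ S.L u' b ∉ D.Z (u' - 1))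

/-- value of a junction with respect to the reference time `x` -/
noncomputable def J (S : Strands D) (x : ℤ) (a b : Fin D.p) (u u' : ℤ) : ℤ :=
  1 + S.ev a x u - S.ev b x u' + D.mark (S.L u' b) u'

/-- the entering event of sheet `a` at the break `t` is defective: the entering clone was present shortly before -/
def defIn (S : Strands D) (a : Fin D.p) (t : ℤ) : Prop :=
  S.brk a t ∧ ∃ s, t - D.H / 2 ≤ s ∧ s ≤ t ∧ S.L (t + 1) a ∈ D.Z s

/-- the leaving event of sheet `a` at the break `t` is defective: the leaving clone is present again soon -/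
def defOut (S : Strands D) (a : Fin D.p) (t : ℤ) : Prop :=
  S.brk a t ∧ ∃ s, t + 1 ≤ s ∧ s ≤ t + 1 + D.H / 2 ∧ S.L t a ∈ D.Z s

/-- the arc of sheet `a` which ends at the break `t` is unmarked -/
def unm (S : Strands D) (a : Fin D.p) (t : ℤ) : Prop :=
  S.brk a t ∧ ∀ s, s ≤ t → (∀ r, s ≤ r → r ≤ t → S.L t a ∈ D.Z r) → D.mark (S.L t a) s = 0

open Classical in
/-- weighted number of defects of sheet `a` at the breaks in `[s, t)` -/
noncomputable def df (S : Strands D) (a : Fin D.p) (s t : ℤ) : ℤ :=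
  2 * (((Finset.Ico s t).filter (fun τ => S.defIn a τ)).card : ℤ) +
  2 * (((Finset.Ico s t).filter (fun τ => S.defOut a τ)).card : ℤ) +
  (((Finset.Ico s t).filter (fun τ => S.unm a τ)).card : ℤ)

end Strands

open Classical in
/-- The output of the core theorem: a set `Y` of clones (the vertices of the polygon) of value at least `N` and two
gaps `(u i, v i)` (a trivial gap has `v i = u i + 1`). -/
structure PolyOut {C : Type} [Fintype C] {Λ : ℚ} (D : WData C Λ) (N : ℤ) where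
  Y : Finset C
  u : Fin 2 → ℤ
  v : Fin 2 → ℤ
  uv : ∀ i, u i < v i ∧ 2 * (v i - u i) ≤ D.H
  sep : ∀ i j, ¬ D.In (u i) (v i) (u j) ∧ ¬ D.In (u i) (v i) (v j)
  val : N ≤ Y.card +
    (Y.filter (fun c => (∀ i, ¬ D.In (u i) (v i) (D.m c)) ∧ ∀ d ∈ Y, d ≠ c → D.ab (D.m c) c d)).card
  top : ∀ c ∈ Y, ∃ t, (∀ i, ¬ D.In (u i) (v i) t) ∧ ∀ d ∈ Y, d ≠ c → D.ab t c d
  hit : ∀ t, (∀ i, ¬ D.In (u i) (v i) t) → ∃ c ∈ Y, c ∈ D.Z t
  gap : ∀ i, v i = u i + 1 ∨ ∃ a ∈ Y, ∃ b ∈ Y, a ∈ D.Z (u i) ∧ a ∉ D.Z (u i + 1) ∧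
    b ∈ D.Z (v i) ∧ b ∉ D.Z (v i - 1) ∧ D.ab (u i) a b ∧ D.ab (v i) b a ∧
    (∀ d ∈ Y, d ≠ a → D.ab (u i) a d) ∧ (∀ d ∈ Y, d ≠ b → D.ab (v i) b d) ∧
    (∀ t, u i ≤ t → t ≤ v i → ∀ d ∈ Y, d ≠ a → d ≠ b → D.ab t a d ∨ D.ab t b d)

/-! ### Interface statements of the core -/

/-- (A1) sheets exist -/
def StrandsStmt : Prop := ∀ (C : Type) [Fintype C] (Λ : ℚ) (D : WData C Λ), Nonempty (Strands D)

/-- (A4) the polygon of two sheets and two junctions -/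
def PolyStmt : Prop := ∀ (C : Type) [Fintype C] (Λ : ℚ) (D : WData C Λ) (S : Strands D) (i j : Fin D.p)
  (x u₂ v₂ u₁ v₁ : ℤ), x ≤ u₂ → v₂ ≤ u₁ → v₁ ≤ u₂ + 2 * D.H →
  2 * (v₁ - u₁) ≤ D.H → 2 * (v₂ - u₂) ≤ D.H → S.Jn i j u₁ v₁ → S.Jn (S.ρ j) i u₂ v₂ →
  S.Good i j u₁ v₁ → S.Good (S.ρ j) i u₂ v₂ →
  Nonempty (PolyOut D (S.ev j x (x + 2 * D.H) + S.J x i j u₁ v₁ + S.J x (S.ρ j) i u₂ v₂))

/-- (A3) counting events and defects over a period -/
def CountStmt : Prop := ∀ (C : Type) [Fintype C] (Λ : ℚ) (D : WData C Λ) (S : Strands D) (x : ℤ),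
  ∑ a, S.df a x (x + 2 * D.H) ≤ 5 * (∑ a, S.ev a x (x + 2 * D.H) - 2 * Fintype.card C)

/-- (A9) the pair lemma in a window `[x, y]` of mass more than `3` -/
def PairStmt : Prop := ∀ (C : Type) [Fintype C] (Λ : ℚ) (D : WData C Λ) (S : Strands D) (z x y : ℤ),
  z ≤ x → 2 * (y - x) ≤ D.H → 3 < ∑ t ∈ Finset.Icc x y, D.lam t →
  (∀ a b : Fin D.p, a ≠ b → ∃ u v u' v' : ℤ, x ≤ u ∧ v ≤ y ∧ x ≤ u' ∧ v' ≤ y ∧ S.Jn a b u v ∧ S.Good a b u v ∧
    S.Jn b a u' v' ∧ S.Good b a u' v' ∧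
    -(S.df a x y + S.df b x y) ≤ S.J z a b u v + S.J z b a u' v') ∧
  (∀ a : Fin D.p, ∃ u v : ℤ, x ≤ u ∧ v ≤ y ∧ S.Jn a a u v ∧ S.Good a a u v ∧ S.J z a a u v = 0)

/-- (A8, A10) choice of two windows with few defects -/
def WindowStmt (Λ₀ : ℚ) : Prop := ∀ (C : Type) [Fintype C] (Λ : ℚ) (D : WData C Λ) (S : Strands D), Λ₀ ≤ Λ →
  ∃ x y₂ x₁ y₁ : ℤ, x ≤ y₂ ∧ y₂ ≤ x₁ ∧ x₁ ≤ y₁ ∧ y₁ ≤ x + 2 * D.H ∧ 2 * (y₂ - x) ≤ D.H ∧ 2 * (y₁ - x₁) ≤ D.H ∧
    3 < ∑ t ∈ Finset.Icc x y₂, D.lam t ∧ 3 < ∑ t ∈ Finset.Icc x₁ y₁, D.lam t ∧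
    ∑ a, S.df a x y₂ + ∑ a, S.df a x₁ y₁ ≤ ∑ a, S.ev a x (x + 2 * D.H) - 2 * Fintype.card C

/-- THEOREM G: the core theorem -/
def CoreStmt (Λ₀ : ℚ) : Prop := ∀ (C : Type) [Fintype C] (Λ : ℚ) (D : WData C Λ), Λ₀ ≤ Λ →
  ∃ N : ℤ, 2 * (Fintype.card C : ℤ) ≤ D.p * N ∧ Nonempty (PolyOut D N)

end Pool.Agent.Lib.EcW
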