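import Pool.Agent.Lib.EcW.Asm
import Pool.Agent.Lib.EcW.CoreAll

/-!
# EcW.Final: the upper bound for all `k ≥ 93`
-/

set_option autoImplicit false

namespace Pool.Agent.Lib.EcW

/-- for `k ≥ 93` and all `ε > 0`: every large planar set of at least `((k-1)/2 + ε) n` points in general position
has an `n`-subset with at least `k` hull vertices -/
theorem final (k : ℕ) (hk : 93 ≤ k) : FinalStmt k := by
  refine upper (Λ := 45) (by norm_num) core_all k (by omega) ?_
  have : (93 : ℚ) ≤ k := by exact_mod_cast hk
  linarith

end Pool.Agent.Lib.EcW
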