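import Pool.Agent.Lib.EcW.CBasic

/-!
# EcW: half turn absence and zones
-/

set_option autoImplicit false

namespace Pool.Agent.Lib.EcW

open Finset Classical

variable {C : Type} [Fintype C]

theorem Wheel.mem_zone_iff (W : Wheel C) (p : ℕ) (t : ℤ) (c : C) :
    c ∈ W.zone p t ↔ (univ.filter (fun d => W.ab t d c)).card < p := by
  unfold Wheel.zone
  rw [Finset.mem_filter]
  exact ⟨fun h => h.2, fun h => ⟨mem_univ _, h⟩⟩

theorem Wheel.zone_per' (W : Wheel C) (p : ℕ) (t n : ℤ) :
    W.zone p (t + n * (2 * W.H)) = W.zone p t := by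
  induction n using Int.induction_on with
  | zero => simp
  | succ n ih =>
    have : t + ((n : ℤ) + 1) * (2 * W.H) = (t + n * (2 * W.H)) + 2 * W.H := by ring
    rw [this, Wheel.zone_per, ih]
  | pred n ih =>
    have : t + (-(n : ℤ)) * (2 * W.H) = (t + (-(n : ℤ) - 1) * (2 * W.H)) + 2 * W.H := by ring
    rw [this, Wheel.zone_per] at ih
    exact ih

/-- a set with `p` elements which is above its complement is the zone -/
theorem zone_eq_of_upper (W : Wheel C) (p : ℕ) (t : ℤ) (U : Finset C)
    (hU : ∀ c ∈ U, ∀ d, d ∉ U → W.ab t c d) (hc : U.card = p) : W.zone p t = U := by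
  ext c
  rw [Wheel.mem_zone_iff]
  constructor
  · intro h
    by_contra hcU
    have h1 : U ⊆ univ.filter (fun d => W.ab t d c) := by
      intro d hd
      rw [Finset.mem_filter]
      exact ⟨mem_univ _, hU d hd c hcU⟩
    have h2 := Finset.card_le_card h1
    omega
  · intro hcU
    have h1 : univ.filter (fun d => W.ab t d c) ⊆ U.erase c := by
      intro d hd
      rw [Finset.mem_filter] at hd
      rw [Finset.mem_erase]
      refine ⟨?_, ?_⟩
      · rintro rfl
        exact W.irr t _ hd.2
      · by_contra hdU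
        exact W.asymm hd.2 (hU c hcU d hdU)
    have h2 := Finset.card_le_card h1
    rw [Finset.card_erase_of_mem hcU] at h2
    have h3 := Finset.card_pos.2 ⟨c, hcU⟩
    omega

/-- if everything above `c` lies in a set with at most `p` elements containing `c` then `c` is in
the zone -/
theorem mem_zone_of_upper (W : Wheel C) (p : ℕ) (t : ℤ) (U : Finset C) (c : C) (hcU : c ∈ U)
    (hU : ∀ d, W.ab t d c → d ∈ U) (hc : U.card ≤ p) : c ∈ W.zone p t := by
  rw [Wheel.mem_zone_iff]
  have h1 : univ.filter (fun d => W.ab t d c) ⊆ U.erase c := by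
    intro d hd
    rw [Finset.mem_filter] at hd
    rw [Finset.mem_erase]
    refine ⟨?_, hU d hd.2⟩
    rintro rfl
    exact W.irr t _ hd.2
  have h2 := Finset.card_le_card h1
  rw [Finset.card_erase_of_mem hcU] at h2
  have h3 := Finset.card_pos.2 ⟨c, hcU⟩
  omega

/-- **half turn absence** -/
theorem half_of (W : Wheel C) (p : ℕ) (same : C → C → Prop)
    (hanti : ∀ t c d, ¬ same c d → (W.ab (t + W.H) c d ↔ W.ab t d c))
    (hself : ∀ c, same c c)
    (hsame : ∀ c, (univ.filter (fun d => same c d)).card ≤ p)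
    (hsymm : ∀ c d, same c d → same d c)
    (hcard : 4 * p ≤ Fintype.card C) (hp : 0 < p) :
    ∀ c, ∃ g : ℤ, ∀ t, g ≤ t → t < g + W.H → c ∉ W.zone p t := by
  intro c
  by_contra hcon
  push Not at hcon
  obtain ⟨t1, _, _, ht1⟩ := hcon 0
  have hH0 : (0 : ℤ) ≤ W.H := Int.natCast_nonneg _
  obtain ⟨t2, ⟨ht2a, ht2⟩, hmax⟩ := Int.exists_greatest_of_bdd
    (P := fun t => t ≤ t1 + W.H ∧ c ∈ W.zone p t) ⟨t1 + W.H, fun z hz => hz.1⟩
    ⟨t1, by omega, ht1⟩
  obtain ⟨t3, ht3a, ht3b, ht3⟩ := hcon (t2 + 1)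
  have ht3c : t1 + W.H < t3 := by
    by_contra h
    have := hmax t3 ⟨not_lt.1 h, ht3⟩
    omega
  have hkey : ∀ d, ¬ same c d → W.ab t1 d c ∨ W.ab t2 d c ∨ W.ab t3 d c := by
    intro d hd
    by_contra hno
    push Not at hno
    obtain ⟨h1, h2, h3⟩ := hno
    have hne : c ≠ d := fun h => hd (h ▸ hself c)
    have g1 := (W.tot t1 c d hne).resolve_right h1
    have g2 := (W.tot t2 c d hne).resolve_right h2
    have g3 := (W.tot t3 c d hne).resolve_right h3
    have g4 : W.ab (t1 + W.H) d c := (hanti t1 d c (fun h => hd (hsymm _ _ h))).2 g1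
    rcases eq_or_lt_of_le ht2a with h | h
    · rw [← h] at g4
      exact W.asymm g2 g4
    · exact W.pl c d t2 (t1 + W.H) t3 h ht3c (by omega) g2 g4 g3
  have hsub : (univ : Finset C) ⊆ (univ.filter (fun d => same c d)) ∪
      ((univ.filter (fun d => W.ab t1 d c)) ∪ ((univ.filter (fun d => W.ab t2 d c)) ∪
        (univ.filter (fun d => W.ab t3 d c)))) := by
    intro d _
    simp only [Finset.mem_union, Finset.mem_filter, Finset.mem_univ, true_and]
    by_cases hd : same c d
    · exact Or.inl hd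
    · exact Or.inr (hkey d hd)
  have h0 := Finset.card_le_card hsub
  rw [Finset.card_univ] at h0
  have h1 := Finset.card_union_le (univ.filter (fun d => same c d))
    ((univ.filter (fun d => W.ab t1 d c)) ∪ ((univ.filter (fun d => W.ab t2 d c)) ∪
        (univ.filter (fun d => W.ab t3 d c))))
  have h2 := Finset.card_union_le (univ.filter (fun d => W.ab t1 d c))
    ((univ.filter (fun d => W.ab t2 d c)) ∪ (univ.filter (fun d => W.ab t3 d c)))
  have h3 := Finset.card_union_le (univ.filter (fun d => W.ab t2 d c))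
    (univ.filter (fun d => W.ab t3 d c))
  rw [Wheel.mem_zone_iff] at ht1 ht2 ht3
  have h4 := hsame c
  omega

end Pool.Agent.Lib.EcW
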