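import Pool.Agent.Lib.EcW.Half

/-!
# EcW: the measure on the times
-/

set_option autoImplicit false

namespace Pool.Agent.Lib.EcW

open Finset Classical

variable {C : Type} [Fintype C] {ι : Type} [Fintype ι]

/-- the measure with atoms of weight `la i` at the times `μ i` modulo the period -/
noncomputable def lamOf (W : Wheel C) (la : ι → ℚ) (μ : ι → ℤ) (t : ℤ) : ℚ :=
  ∑ i, if (2 * (W.H : ℤ)) ∣ (t - μ i) then la i else 0

theorem lamOf_nonneg (W : Wheel C) (la : ι → ℚ) (μ : ι → ℤ) (hla : ∀ i, 0 ≤ la i) (t : ℤ) :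
    0 ≤ lamOf W la μ t := by
  unfold lamOf
  refine Finset.sum_nonneg fun i _ => ?_
  split_ifs
  · exact hla i
  · exact le_rfl

theorem lamOf_per (W : Wheel C) (la : ι → ℚ) (μ : ι → ℤ) (t : ℤ) :
    lamOf W la μ (t + 2 * W.H) = lamOf W la μ t := by
  unfold lamOf
  refine Finset.sum_congr rfl fun i _ => ?_
  have : t + 2 * (W.H : ℤ) - μ i = (t - μ i) + 2 * (W.H : ℤ) := by ring
  have h : (2 * (W.H : ℤ)) ∣ (t + 2 * (W.H : ℤ) - μ i) ↔ (2 * (W.H : ℤ)) ∣ (t - μ i) := by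
    rw [this]
    exact dvd_add_self_right
  simp only [h]

/-- every residue class has exactly one representative -/
theorem exists_rep (H : ℕ) (hH : 0 < H) (m : ℤ) :
    ∃ r : ℤ, 0 ≤ r ∧ r < 2 * (H : ℤ) ∧ (2 * (H : ℤ)) ∣ (r - m) ∧
      ∀ t : ℤ, 0 ≤ t → t < 2 * (H : ℤ) → (2 * (H : ℤ)) ∣ (t - m) → t = r := by
  have hp : (0 : ℤ) < 2 * (H : ℤ) := by positivity
  refine ⟨m % (2 * (H : ℤ)), Int.emod_nonneg _ hp.ne', Int.emod_lt_of_pos _ hp, ?_, ?_⟩
  · have h := Int.emod_add_mul_ediv m (2 * (H : ℤ))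
    refine ⟨-(m / (2 * (H : ℤ))), ?_⟩
    linarith
  · intro t h1 h2 h3
    have h4 : t % (2 * (H : ℤ)) = m % (2 * (H : ℤ)) :=
      Int.emod_eq_emod_iff_emod_sub_eq_zero.2 (Int.emod_eq_zero_of_dvd h3)
    rw [Int.emod_eq_of_lt h1 h2] at h4
    exact h4

/-- sums over a period of the measure restricted to a periodic set of times -/
theorem sum_lamOf (W : Wheel C) (hH : 0 < W.H) (la : ι → ℚ) (μ : ι → ℤ) (A : ℤ → Prop)
    (hA : ∀ t n : ℤ, A (t + n * (2 * W.H)) ↔ A t) :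
    ∑ t ∈ (Finset.Ico (0 : ℤ) (2 * W.H)).filter A, lamOf W la μ t =
      ∑ i ∈ univ.filter (fun i => A (μ i)), la i := by
  unfold lamOf
  rw [Finset.sum_comm, Finset.sum_filter]
  refine Finset.sum_congr rfl fun i _ => ?_
  obtain ⟨r, hr0, hr1, hr2, hr3⟩ := exists_rep W.H hH (μ i)
  have hAr : A r ↔ A (μ i) := by
    obtain ⟨k, hk⟩ := hr2
    have : r = μ i + k * (2 * W.H) := by linarith
    rw [this]
    exact hA _ _
  by_cases h : A (μ i)
  · rw [if_pos h, Finset.sum_eq_single r]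
    · rw [if_pos hr2]
    · intro t ht htr
      rw [Finset.mem_filter, Finset.mem_Ico] at ht
      exact if_neg (fun hd => htr (hr3 t ht.1.1 ht.1.2 hd))
    · intro hr
      exfalso
      apply hr
      rw [Finset.mem_filter, Finset.mem_Ico]
      exact ⟨⟨hr0, hr1⟩, hAr.2 h⟩
  · rw [if_neg h]
    refine Finset.sum_eq_zero fun t ht => ?_
    rw [Finset.mem_filter, Finset.mem_Ico] at ht
    refine if_neg (fun hd => h ?_)
    rw [hr3 t ht.1.1 ht.1.2 hd] at ht
    exact hAr.1 ht.2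

/-- the total mass -/
theorem sum_lamOf_total (W : Wheel C) (hH : 0 < W.H) (la : ι → ℚ) (μ : ι → ℤ) :
    ∑ t ∈ Finset.Ico (0 : ℤ) (2 * W.H), lamOf W la μ t = ∑ i, la i := by
  have h := sum_lamOf W hH la μ (fun _ => True) (fun _ _ => Iff.rfl)
  rw [Finset.filter_true, Finset.filter_true] at h
  exact h

/-- every clone is visible on measure at most one -/
theorem lamOf_le (W : Wheel C) (hH : 0 < W.H) (p : ℕ) (la : ι → ℚ) (hla : ∀ i, 0 ≤ la i)
    (μ : ι → ℤ) (D : ι → Finset C) (hD : ∀ i, 0 < la i → W.zone p (μ i) = D i)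
    (hle : ∀ c, ∑ i ∈ univ.filter (fun i => c ∈ D i), la i ≤ 1) (c : C) :
    ∑ t ∈ (Finset.Ico (0 : ℤ) (2 * W.H)).filter (fun t => c ∈ W.zone p t), lamOf W la μ t ≤ 1 := by
  have hs := sum_lamOf W hH la μ (fun t => c ∈ W.zone p t) (fun t n => by
    rw [Wheel.zone_per'])
  have hs' : ∑ t ∈ (Finset.Ico (0 : ℤ) (2 * W.H)).filter (fun t => c ∈ W.zone p t),
      lamOf W la μ t = ∑ i ∈ univ.filter (fun i => c ∈ W.zone p (μ i)), la i := by
    convert hs
  rw [hs']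
  refine le_trans ?_ (hle c)
  rw [Finset.sum_filter, Finset.sum_filter]
  refine Finset.sum_le_sum fun i _ => ?_
  rcases eq_or_lt_of_le (hla i) with h | h
  · rw [← h]
    simp
  · rw [hD i h]

end Pool.Agent.Lib.EcW
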