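import Pool.Agent.Lib.EcW.CBasic

/-!
# EcW.PBasic : lam-mass of an arc, junctions, marks (pair lemma, basics)
-/

set_option autoImplicit false

namespace Pool.Agent.Lib.EcW

namespace Strands

variable {C : Type} [Fintype C] {Λ : ℚ} {D : WData C Λ} (S : Strands D)

theorem Z_per (D : WData C Λ) (t : ℤ) : D.Z (t + 2 * D.H) = D.Z t := Wheel.zone_per t

theorem Z_mod (D : WData C Λ) (t : ℤ) : D.Z (t % (2 * (D.H : ℤ))) = D.Z t := by
  have key : ∀ (n : ℕ) (t : ℤ), D.Z (t + (n : ℤ) * (2 * (D.H : ℤ))) = D.Z t := by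
    intro n
    induction n with
    | zero => intro t; simp
    | succ n ih =>
      intro t
      have e : t + ((n + 1 : ℕ) : ℤ) * (2 * (D.H : ℤ)) = (t + (n : ℤ) * (2 * (D.H : ℤ))) + 2 * (D.H : ℤ) := by
        push_cast; ring
      rw [e, Z_per, ih]
  have h2 := Int.emod_add_mul_ediv t (2 * (D.H : ℤ))
  rcases le_or_gt 0 (t / (2 * (D.H : ℤ))) with h | h
  · obtain ⟨n, hn⟩ := Int.eq_ofNat_of_zero_le h
    have h3 := key n (t % (2 * (D.H : ℤ)))
    rw [← h3]
    congr 1
    rw [hn] at h2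
    linarith [mul_comm (n : ℤ) (2 * (D.H : ℤ))]
  · obtain ⟨n, hn⟩ := Int.eq_ofNat_of_zero_le (show 0 ≤ -(t / (2 * (D.H : ℤ))) by omega)
    have h3 := key n t
    rw [← h3]
    congr 1
    have : t / (2 * (D.H : ℤ)) = -(n : ℤ) := by omega
    rw [this] at h2
    linarith [mul_comm (n : ℤ) (2 * (D.H : ℤ))]

theorem lam_mod (D : WData C Λ) (t : ℤ) : D.lam (t % (2 * (D.H : ℤ))) = D.lam t := by
  have key : ∀ (n : ℕ) (t : ℤ), D.lam (t + (n : ℤ) * (2 * (D.H : ℤ))) = D.lam t := by
    intro n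
    induction n with
    | zero => intro t; simp
    | succ n ih =>
      intro t
      have e : t + ((n + 1 : ℕ) : ℤ) * (2 * (D.H : ℤ)) = (t + (n : ℤ) * (2 * (D.H : ℤ))) + 2 * (D.H : ℤ) := by
        push_cast; ring
      rw [e, D.lam_per, ih]
  have h2 := Int.emod_add_mul_ediv t (2 * (D.H : ℤ))
  rcases le_or_gt 0 (t / (2 * (D.H : ℤ))) with h | h
  · obtain ⟨n, hn⟩ := Int.eq_ofNat_of_zero_le h
    have h3 := key n (t % (2 * (D.H : ℤ)))
    rw [← h3]
    congr 1
    rw [hn] at h2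
    linarith [mul_comm (n : ℤ) (2 * (D.H : ℤ))]
  · obtain ⟨n, hn⟩ := Int.eq_ofNat_of_zero_le (show 0 ≤ -(t / (2 * (D.H : ℤ))) by omega)
    have h3 := key n t
    rw [← h3]
    congr 1
    have : t / (2 * (D.H : ℤ)) = -(n : ℤ) := by omega
    rw [this] at h2
    linarith [mul_comm (n : ℤ) (2 * (D.H : ℤ))]

/-- two times of an interval shorter than the period which are congruent are equal -/
theorem eq_of_dvd {H s t a b : ℤ} (hst : t < s + 2 * H) (ha1 : s ≤ a) (ha2 : a ≤ t) (hb1 : s ≤ b)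
    (hb2 : b ≤ t) (h : 2 * H ∣ a - b) : a = b := by
  obtain ⟨k, hk⟩ := h
  have h1 : |a - b| < 2 * H := by rw [abs_lt]; constructor <;> linarith
  have h2 : k = 0 := by
    by_contra hne
    have h3 : 1 ≤ |k| := Int.one_le_abs hne
    have h4 : |a - b| = |2 * H| * |k| := by rw [hk, abs_mul]
    have h5 : 2 * H ≤ |2 * H| := le_abs_self _
    nlinarith [abs_nonneg (2 * H), abs_nonneg (a - b)]
  rw [h2] at hk; linarith

/-- a piece of an arc has `lam`-mass at most 1 -/
theorem lam_arc {a : Fin D.p} {s t : ℤ} (hst : t < s + 2 * D.H)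
    (h : ∀ r, s ≤ r → r < t → ¬ S.brk a r) : ∑ τ ∈ Finset.Icc s t, D.lam τ ≤ 1 := by
  classical
  have hH : (0 : ℤ) < 2 * D.H := by have := D.hH; omega
  refine le_trans ?_ (D.lam_le (S.L s a))
  have hinj : Set.InjOn (fun τ : ℤ => τ % (2 * (D.H : ℤ))) (Finset.Icc s t : Set ℤ) := by
    intro x hx y hy hxy
    simp only [Finset.coe_Icc, Set.mem_Icc] at hx hy
    refine eq_of_dvd hst hx.1 hx.2 hy.1 hy.2 ?_
    exact Int.ModEq.dvd (Int.ModEq.symm hxy)
  have h1 : ∑ τ ∈ Finset.Icc s t, D.lam τ =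
      ∑ τ ∈ (Finset.Icc s t).image (fun τ : ℤ => τ % (2 * (D.H : ℤ))), D.lam τ := by
    rw [Finset.sum_image hinj]
    exact Finset.sum_congr rfl (fun τ _ => (lam_mod D τ).symm)
  rw [h1]
  refine Finset.sum_le_sum_of_subset_of_nonneg ?_ (fun τ _ _ => D.lam_nonneg τ)
  intro τ hτ
  obtain ⟨x, hx, rfl⟩ := Finset.mem_image.1 hτ
  rw [Finset.mem_Icc] at hx
  rw [Finset.mem_filter, Finset.mem_Ico]
  refine ⟨⟨Int.emod_nonneg _ hH.ne', Int.emod_lt_of_pos _ hH⟩, ?_⟩
  have h2 : S.L s a = S.L x a := (S.const h hx.1 hx.2).symm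
  have h3 : S.L x a ∈ D.Z (x % (2 * (D.H : ℤ))) := by rw [Z_mod]; exact S.mem x a
  rw [h2]; exact h3

/-- overlap junction -/
theorem jn_ov {a b : Fin D.p} {y x : ℤ} (hyx : y < x) (hb : S.brk b y) (ha : S.brk a x)
    (h1 : ∀ r, y ≤ r → r < x → ¬ S.brk a r) (h2 : ∀ r, y < r → r ≤ x → ¬ S.brk b r) :
    S.Jn a b y (x + 1) ∧ S.Good a b y (x + 1) := by
  have ea : ∀ r, y ≤ r → r ≤ x → S.L r a = S.L y a := fun r hr1 hr2 => S.const h1 hr1 hr2
  have eb : S.L (x + 1) b = S.L (y + 1) b :=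
    S.const (s := y + 1) (t := x + 1) (fun r hr1 hr2 => h2 r (by omega) (by omega)) (by omega) le_rfl
  have ex : S.L x a = S.L y a := ea x hyx.le le_rfl
  refine ⟨⟨by omega, ?_, ?_⟩, Or.inl ?_⟩
  · rw [eb]; exact Wheel.ab_of_zone (S.mem y a) (S.enter hb)
  · rw [← ex]; exact Wheel.ab_of_zone (S.mem (x + 1) b) (S.leave ha)
  · intro t ht1 ht2
    rw [← ea t ht1.le (by omega)]; exact S.mem t a

/-- junction at a common break -/
theorem jn_simul {a b : Fin D.p} {t : ℤ} (ha : S.brk a t) (hb : S.brk b t) :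
    S.Jn a b t (t + 1) ∧ S.Good a b t (t + 1) := by
  refine ⟨⟨by omega, ?_, ?_⟩, Or.inl ?_⟩
  · exact Wheel.ab_of_zone (S.mem t a) (S.enter hb)
  · exact Wheel.ab_of_zone (S.mem (t + 1) b) (S.leave ha)
  · intro r h1 h2; omega

/-- gap junction -/
theorem jn_gap {a b : Fin D.p} {x y : ℤ} (hxy : x ≤ y) (hH : 2 * (y - x) ≤ D.H - 1) (ha : S.brk a x)
    (hb : S.brk b y) (hna : ¬ S.defOut a x) (hnb : ¬ S.defIn b y) :
    S.Jn a b x (y + 1) ∧ S.Good a b x (y + 1) := by
  have h1 : S.L x a ∉ D.Z (y + 1) := by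
    intro h
    exact hna ⟨ha, y + 1, by omega, by omega, h⟩
  have h2 : S.L (y + 1) b ∉ D.Z x := by
    intro h
    exact hnb ⟨hb, x, by omega, by omega, h⟩
  refine ⟨⟨by omega, ?_, ?_⟩, Or.inr ⟨S.leave ha, ?_⟩⟩
  · exact Wheel.ab_of_zone (S.mem x a) h2
  · exact Wheel.ab_of_zone (S.mem (y + 1) b) h1
  · have e : y + 1 - 1 = y := by ring
    rw [e]; exact S.enter hb

theorem mark_le_one (D : WData C Λ) (c : C) (t : ℤ) : D.mark c t ≤ 1 := by
  unfold WData.mark; split_ifs <;> norm_num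

/-- at most one mark on a piece `[s, t]` of an arc -/
theorem nm_le_one {a : Fin D.p} {s t : ℤ} (hst : t < s + 2 * D.H)
    (h : ∀ r, s ≤ r → r < t → ¬ S.brk a r) : S.nm a (s - 1) t ≤ 1 := by
  classical
  unfold nm
  by_cases hex : ∃ r, s ≤ r ∧ r ≤ t ∧ 2 * (D.H : ℤ) ∣ r - D.m (S.L s a)
  · obtain ⟨r, hr1, hr2, hr3⟩ := hex
    rw [Finset.sum_eq_single r]
    · exact mark_le_one D _ _
    · intro τ hτ hne
      rw [Finset.mem_Ioc] at hτ
      rw [S.const h (show s ≤ τ by omega) hτ.2]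
      unfold WData.mark
      rw [if_neg]
      intro hd
      apply hne
      refine eq_of_dvd hst (by omega) hτ.2 hr1 hr2 ?_
      have : τ - r = (τ - D.m (S.L s a)) - (r - D.m (S.L s a)) := by ring
      rw [this]; exact dvd_sub hd hr3
    · intro hne
      exact absurd (Finset.mem_Ioc.2 ⟨by omega, hr2⟩) hne
  · push Not at hex
    rw [Finset.sum_eq_zero]
    · norm_num
    · intro τ hτ
      rw [Finset.mem_Ioc] at hτ
      rw [S.const h (show s ≤ τ by omega) hτ.2]
      unfold WData.mark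
      rw [if_neg (hex τ (by omega) hτ.2)]

/-- no breaks, no contribution -/
theorem nb_eq_zero {a : Fin D.p} {s t : ℤ} (h : ∀ r, s ≤ r → r < t → ¬ S.brk a r) : S.nb a s t = 0 := by
  classical
  unfold nb
  rw [Nat.cast_eq_zero, Finset.card_eq_zero, Finset.filter_eq_empty_iff]
  intro r hr
  rw [Finset.mem_Ico] at hr
  exact h r hr.1 hr.2

theorem nb_one {a : Fin D.p} {t : ℤ} (h : S.brk a t) : S.nb a t (t + 1) = 1 := by
  classical
  unfold nb
  have : (Finset.Ico t (t + 1)).filter (fun τ => S.brk a τ) = {t} := by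
    ext r
    simp only [Finset.mem_filter, Finset.mem_Ico, Finset.mem_singleton]
    constructor
    · rintro ⟨⟨h1, h2⟩, _⟩; omega
    · rintro rfl; exact ⟨⟨le_rfl, by omega⟩, h⟩
  rw [this]; simp

theorem nm_one {a : Fin D.p} {t : ℤ} : S.nm a t (t + 1) = D.mark (S.L (t + 1) a) (t + 1) := by
  unfold nm
  have : Finset.Ioc t (t + 1) = {t + 1} := by
    ext r
    simp only [Finset.mem_Ioc, Finset.mem_singleton]
    omega
  rw [this]; simp

/-- the last break in `[s, t)` -/
theorem exists_last {a : Fin D.p} {s t : ℤ} (h : ∃ r, s ≤ r ∧ r < t ∧ S.brk a r) :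
    ∃ r, s ≤ r ∧ r < t ∧ S.brk a r ∧ ∀ r', r < r' → r' < t → ¬ S.brk a r' := by
  classical
  obtain ⟨r, h1, h2, h3⟩ := h
  have hne : ((Finset.Ico s t).filter (fun τ => S.brk a τ)).Nonempty :=
    ⟨r, Finset.mem_filter.2 ⟨Finset.mem_Ico.2 ⟨h1, h2⟩, h3⟩⟩
  obtain ⟨m, hm, hmax⟩ := Finset.exists_max_image _ id hne
  simp only [Finset.mem_filter, Finset.mem_Ico, id] at hm hmax
  refine ⟨m, hm.1.1, hm.1.2, hm.2, fun r' h4 h5 h6 => ?_⟩
  have := hmax r' ⟨⟨by omega, h5⟩, h6⟩
  omega

/-- the first break in `[s, t)` -/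
theorem exists_first {a : Fin D.p} {s t : ℤ} (h : ∃ r, s ≤ r ∧ r < t ∧ S.brk a r) :
    ∃ r, s ≤ r ∧ r < t ∧ S.brk a r ∧ ∀ r', s ≤ r' → r' < r → ¬ S.brk a r' := by
  classical
  obtain ⟨r, h1, h2, h3⟩ := h
  have hne : ((Finset.Ico s t).filter (fun τ => S.brk a τ)).Nonempty :=
    ⟨r, Finset.mem_filter.2 ⟨Finset.mem_Ico.2 ⟨h1, h2⟩, h3⟩⟩
  obtain ⟨m, hm, hmin⟩ := Finset.exists_min_image _ id hne
  simp only [Finset.mem_filter, Finset.mem_Ico, id] at hm hmin
  refine ⟨m, hm.1.1, hm.1.2, hm.2, fun r' h4 h5 h6 => ?_⟩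
  have := hmin r' ⟨⟨h4, by omega⟩, h6⟩
  omega

/-- number of marks in `[s, t]` is at most the number of breaks in `[s, t)` plus 1 -/
theorem nm_le {a : Fin D.p} {s t : ℤ} (h1 : s ≤ t) (hst : t < s + 2 * D.H) :
    S.nm a (s - 1) t ≤ S.nb a s t + 1 := by
  obtain ⟨n, hn⟩ : ∃ n : ℕ, (n : ℤ) = t - s := ⟨(t - s).toNat, by omega⟩
  induction n using Nat.strong_induction_on generalizing t with
  | _ n ih =>
    by_cases hex : ∃ r, s ≤ r ∧ r < t ∧ S.brk a r
    · obtain ⟨r, hr1, hr2, hr3, hr4⟩ := S.exists_last hex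
      have i1 := ih (r - s).toNat (by omega) hr1 (by omega) (by omega)
      have i2 : S.nm a r t ≤ 1 := by
        have := S.nm_le_one (a := a) (s := r + 1) (t := t) (by omega) (fun r' h2 h3 => hr4 r' (by omega) h3)
        simpa using this
      have i3 := S.nm_add a (s := s - 1) (t := r) (u := t) (by omega) hr2.le
      have i4 := S.nb_add a (s := s) (t := r) (u := t) hr1 hr2.le
      have i5 := S.nb_add a (s := r) (t := r + 1) (u := t) (by omega) (by omega)
      have i6 := S.nb_one hr3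
      have i7 := S.nb_nonneg a (r + 1) t
      linarith
    · push Not at hex
      have i1 := S.nm_le_one (a := a) (s := s) (t := t) hst (fun r h2 h3 => hex r h2 h3)
      have i2 := S.nb_nonneg a s t
      linarith

/-- a clone present during `[s, t]` is on the same sheet during this interval -/
theorem back {a : Fin D.p} {s t : ℤ} (h : ∀ r, s ≤ r → r ≤ t → S.L t a ∈ D.Z r) {r : ℤ} (h1 : s ≤ r)
    (h2 : r ≤ t) : S.L r a = S.L t a := by
  obtain ⟨n, rfl⟩ : ∃ n : ℕ, r = t - n := ⟨(t - r).toNat, by omega⟩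
  induction n with
  | zero => simp
  | succ n ih =>
    have h3 := ih (by push_cast at h1; omega) (by omega)
    obtain ⟨b, hb⟩ := S.surj _ _ (h (t - ((n + 1 : ℕ) : ℤ)) h1 h2)
    have e : t - ((n + 1 : ℕ) : ℤ) + 1 = t - n := by push_cast; ring
    have h4 := S.step (t - ((n + 1 : ℕ) : ℤ)) b (by
      rw [hb, e]; exact h (t - n) (by push_cast at h1; omega) (by omega))
    rw [e, hb, ← h3] at h4
    have := S.inj _ h4
    subst this
    exact hb

open Classical in
/-- `s` is a break: the number of marks in `(s, t]` is at least the number of breaks in `(s, t]` with a marked arc -/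
theorem nm_ge {a : Fin D.p} {s t : ℤ} (h1 : s ≤ t) (hst : t < s + 2 * D.H) (hs : S.brk a s) :
    S.nb a (s + 1) (t + 1) - (((Finset.Ico (s + 1) (t + 1)).filter (fun τ => S.unm a τ)).card : ℤ) ≤
      S.nm a s t := by
  obtain ⟨n, hn⟩ : ∃ n : ℕ, (n : ℤ) = t - s := ⟨(t - s).toNat, by omega⟩
  induction n using Nat.strong_induction_on generalizing t with
  | _ n ih =>
    have hunm : ∀ x y z : ℤ, x ≤ y → y ≤ z →
        (((Finset.Ico x z).filter (fun τ => S.unm a τ)).card : ℤ) =
        (((Finset.Ico x y).filter (fun τ => S.unm a τ)).card : ℤ) +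
        (((Finset.Ico y z).filter (fun τ => S.unm a τ)).card : ℤ) := by
      intro x y z hxy hyz
      rw [← Nat.cast_add, ← Finset.card_union_of_disjoint, ← Finset.filter_union,
        Finset.Ico_union_Ico_eq_Ico hxy hyz]
      exact Finset.disjoint_filter_filter (Finset.Ico_disjoint_Ico_consecutive x y z)
    by_cases hex : ∃ r, s + 1 ≤ r ∧ r < t + 1 ∧ S.brk a r
    · obtain ⟨r, hr1, hr2, hr3, hr4⟩ := S.exists_last hex
      obtain ⟨q, hq1, hq2, hq3, hq4⟩ := S.exists_last (a := a) (s := s) (t := r) ⟨s, le_rfl, by omega, hs⟩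
      have i1 := ih (q - s).toNat (by omega) hq1 (by omega) (by omega)
      -- the marks
      have i2 := S.nm_add a (s := s) (t := q) (u := r) hq1 hq2.le
      have i3 := S.nm_add a (s := s) (t := r) (u := t) (by omega) (by omega)
      have i4 := S.nm_nonneg a r t
      -- the breaks
      have i5 := S.nb_add a (s := s + 1) (t := q + 1) (u := t + 1) (by omega) (by omega)
      have i6 := S.nb_add a (s := q + 1) (t := r) (u := t + 1) (by omega) (by omega)
      have i7 := S.nb_add a (s := r) (t := r + 1) (u := t + 1) (by omega) (by omega)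
      have i8 := S.nb_one hr3
      have i9 : S.nb a (q + 1) r = 0 := S.nb_eq_zero (fun r' h2 h3 => hq4 r' (by omega) h3)
      have i10 : S.nb a (r + 1) (t + 1) = 0 := S.nb_eq_zero (fun r' h2 h3 => hr4 r' (by omega) h3)
      have j1 := hunm (s + 1) (q + 1) (t + 1) (by omega) (by omega)
      have j2 := hunm (q + 1) r (t + 1) (by omega) (by omega)
      have j3 := hunm r (r + 1) (t + 1) (by omega) (by omega)
      have key : 1 ≤ S.nm a q r + (((Finset.Ico r (r + 1)).filter (fun τ => S.unm a τ)).card : ℤ) := by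
        by_cases hu : S.unm a r
        · have : (1 : ℤ) ≤ (((Finset.Ico r (r + 1)).filter (fun τ => S.unm a τ)).card : ℤ) := by
            have : 0 < ((Finset.Ico r (r + 1)).filter (fun τ => S.unm a τ)).card :=
              Finset.card_pos.2 ⟨r, Finset.mem_filter.2 ⟨Finset.mem_Ico.2 ⟨le_rfl, by omega⟩, hu⟩⟩
            omega
          have := S.nm_nonneg a q r
          linarith
        · unfold unm at hu
          push Not at hu
          obtain ⟨σ, hσ1, hσ2, hσ3⟩ := hu hr3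
          have hb := fun r' (h2 : σ ≤ r') (h3 : r' ≤ r) => S.back hσ2 h2 h3
          have hσq : q < σ := by
            by_contra hcon
            have e1 := hb q (by omega) (by omega)
            have e2 := hb (q + 1) (by omega) (by omega)
            exact hq3 (by rw [e1, e2])
          have : D.mark (S.L σ a) σ ≤ S.nm a q r := by
            unfold nm
            exact Finset.single_le_sum (f := fun τ => D.mark (S.L τ a) τ) (fun τ _ => mark_nonneg D _ _)
              (Finset.mem_Ioc.2 ⟨hσq, hσ1⟩)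
          rw [hb σ le_rfl hσ1] at this
          have h5 : D.mark (S.L r a) σ = 1 := by
            unfold WData.mark at hσ3 ⊢
            split_ifs at hσ3 ⊢ with h6
            · rfl
            · exact absurd rfl hσ3
          have h6 : (0 : ℤ) ≤ (((Finset.Ico r (r + 1)).filter (fun τ => S.unm a τ)).card : ℤ) := by
            positivity
          linarith
      have k1 : (0 : ℤ) ≤ (((Finset.Ico (q + 1) r).filter (fun τ => S.unm a τ)).card : ℤ) := by positivity
      have k2 : (0 : ℤ) ≤ (((Finset.Ico (r + 1) (t + 1)).filter (fun τ => S.unm a τ)).card : ℤ) := by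
        positivity
      linarith
    · push Not at hex
      have i1 := S.nb_eq_zero (a := a) (s := s + 1) (t := t + 1) (fun r h2 h3 => hex r h2 h3)
      have i2 := S.nm_nonneg a s t
      have k2 : (0 : ℤ) ≤ (((Finset.Ico (s + 1) (t + 1)).filter (fun τ => S.unm a τ)).card : ℤ) := by
        positivity
      linarith

end Strands

end Pool.Agent.Lib.EcW
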