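import Pool.Agent.Lib.EcW.Dbl

/-!
# EcW.PL2: from the polygon of the wheel to the data of the growth lemma
-/

set_option autoImplicit false

namespace Pool.Agent.Lib.EcW

open Finset Classical Pool.Agent.Lib.Pec6744 Pool.Agent.Lib.EcR

namespace Crit

variable {ι : Type} {x : ι → E2} {H : ℕ} (K : Crit x H)

theorem kap_mono : StrictMono K.kap :=
  strictMono_int_of_lt_succ fun t => (K.lt2 t).trans (K.lt1 (t + 1))

theorem th_mono : StrictMono K.th :=
  strictMono_int_of_lt_succ fun t => (K.lt1 t).trans (K.lt2 t)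

theorem kap_int (t n : ℤ) : K.kap (t + n * (2 * H)) = K.kap t + 2 * Real.pi * n := by
  have h2 : ∀ t, K.kap (t + 2 * H) = K.kap t + 2 * Real.pi := by
    intro t
    have : t + 2 * (H : ℤ) = t + H + H := by ring
    rw [this, K.perk, K.perk]
    ring
  induction n using Int.induction_on with
  | zero => simp
  | succ n ih =>
    have : t + ((n : ℤ) + 1) * (2 * H) = t + n * (2 * H) + 2 * H := by ring
    rw [this, h2, ih]
    push_cast
    ring
  | pred n ih =>
    have h3 := h2 (t + (-(n : ℤ) - 1) * (2 * H))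
    have : t + (-(n : ℤ) - 1) * (2 * H) + 2 * H = t + -(n : ℤ) * (2 * H) := by ring
    rw [this, ih] at h3
    push_cast at h3 ⊢
    linarith

theorem kap_lt_th (t : ℤ) : K.kap (t - 1) < K.th t := by
  have := K.lt2 (t - 1)
  rwa [sub_add_cancel] at this

/-- no order change inside a cell -/
theorem cell {i j : ι} (hij : i ≠ j) {φ : ℝ} {s : ℤ} (h1 : K.kap (s - 1) ≤ φ) (h2 : φ ≤ K.kap s)
    (h : hh (x i) φ < hh (x j) φ) : hh (x i) (K.th s) < hh (x j) (K.th s) := by
  by_contra hcon
  have hcon' := not_lt.1 hcon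
  have hc : ∀ a b : ℝ, ContinuousOn (fun t => hh (x j) t - hh (x i) t) (Set.Icc a b) := fun a b =>
    ((continuous_hh _).sub (continuous_hh _)).continuousOn
  rcases le_total φ (K.th s) with hle | hle
  · have := intermediate_value_Icc' hle (hc φ (K.th s))
    obtain ⟨t, ht, ht0⟩ := this (show (0 : ℝ) ∈ _ from ⟨by linarith, by linarith⟩)
    simp only at ht0
    have htie : hh (x i) t = hh (x j) t := by linarith
    obtain ⟨t', ht'⟩ := K.crit i j hij t htie
    have hne : t ≠ φ := by
      intro he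
      rw [he] at htie
      linarith
    have hlt : φ < t := lt_of_le_of_ne ht.1 (Ne.symm hne)
    rw [ht'] at hlt ht
    have a1 : s - 1 < t' := K.kap_mono.lt_iff_lt.1 (h1.trans_lt hlt)
    have a2 : t' < s := K.kap_mono.lt_iff_lt.1 (ht.2.trans_lt (K.lt1 s))
    omega
  · have := intermediate_value_Icc hle (hc (K.th s) φ)
    obtain ⟨t, ht, ht0⟩ := this (show (0 : ℝ) ∈ _ from ⟨by linarith, by linarith⟩)
    simp only at ht0
    have htie : hh (x i) t = hh (x j) t := by linarith
    obtain ⟨t', ht'⟩ := K.crit i j hij t htie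
    have hne : t ≠ φ := by
      intro he
      rw [he] at htie
      linarith
    have hlt : t < φ := lt_of_le_of_ne ht.2 hne
    rw [ht'] at hlt ht
    have a1 : t' < s := K.kap_mono.lt_iff_lt.1 (hlt.trans_le h2)
    have a2 : s - 1 < t' := K.kap_mono.lt_iff_lt.1 ((K.kap_lt_th s).trans_le ht.1)
    omega

/-- an order change between two sample times is at the critical angle -/
theorem swap {i j : ι} (hij : i ≠ j) {s : ℤ} (h1 : hh (x i) (K.th s) < hh (x j) (K.th s))
    (h2 : hh (x j) (K.th (s + 1)) < hh (x i) (K.th (s + 1))) : hh (x i) (K.kap s) = hh (x j) (K.kap s) := by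
  have hle := ((K.lt1 s).trans (K.lt2 s)).le
  have hc : ContinuousOn (fun t => hh (x j) t - hh (x i) t) (Set.Icc (K.th s) (K.th (s + 1))) :=
    ((continuous_hh _).sub (continuous_hh _)).continuousOn
  have := intermediate_value_Icc' hle hc
  obtain ⟨t, ht, ht0⟩ := this (show (0 : ℝ) ∈ _ from ⟨by linarith, by linarith⟩)
  simp only at ht0
  have htie : hh (x i) t = hh (x j) t := by linarith
  obtain ⟨t', ht'⟩ := K.crit i j hij t htie
  rw [ht'] at ht
  have a1 : s - 1 < t' := K.kap_mono.lt_iff_lt.1 ((K.kap_lt_th s).trans_le ht.1)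
  have a2 : t' < s + 1 := K.kap_mono.lt_iff_lt.1 (ht.2.trans_lt (K.lt1 _))
  have : t' = s := by omega
  rw [ht', this] at htie
  exact htie

theorem exists_cell (φ : ℝ) : ∃ s, K.kap (s - 1) ≤ φ ∧ φ < K.kap s := by
  have hlow : ∃ s : ℤ, K.kap s ≤ φ := by
    obtain ⟨n, hn⟩ := exists_int_lt ((φ - K.kap 0) / (2 * Real.pi))
    refine ⟨0 + n * (2 * H), ?_⟩
    rw [K.kap_int]
    rw [lt_div_iff₀ (by positivity)] at hn
    linarith
  have hup : ∃ b : ℤ, ∀ s : ℤ, K.kap s ≤ φ → s ≤ b := by
    obtain ⟨n, hn⟩ := exists_int_gt ((φ - K.kap 0) / (2 * Real.pi))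
    refine ⟨0 + n * (2 * H), fun s hs => ?_⟩
    by_contra hcon
    have h1 := K.kap_mono (not_le.1 hcon)
    rw [K.kap_int] at h1
    rw [div_lt_iff₀ (by positivity)] at hn
    linarith
  obtain ⟨s, hs, hmax⟩ := Int.exists_greatest_of_bdd hup hlow
  refine ⟨s + 1, by rwa [add_sub_cancel_right], ?_⟩
  by_contra hcon
  have := hmax (s + 1) (not_lt.1 hcon)
  omega

/-- clean times give clean angles -/
theorem clean {u v m : ℤ} {φ : ℝ} (h : ¬ ∃ n : ℤ, u < m + n * (2 * H) ∧ m + n * (2 * H) < v)
    (h1 : K.kap (m - 1) ≤ φ) (h2 : φ ≤ K.kap m) : ¬ inG (K.kap u) (K.kap (v - 1)) φ := by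
  rintro ⟨n, h3, h4⟩
  apply h
  refine ⟨n, ?_, ?_⟩
  · apply K.kap_mono.lt_iff_lt.1
    rw [K.kap_int]
    linarith
  · have : m - 1 + n * (2 * H) < v - 1 := by
      apply K.kap_mono.lt_iff_lt.1
      rw [K.kap_int]
      linarith
    linarith

end Crit

open Filter Topology in
/-- angles outside a closed gap stay outside -/
theorem eventually_not_inG {a b ψ : ℝ}
    (h : ∀ n : ℤ, ¬ (a ≤ ψ + 2 * Real.pi * n ∧ ψ + 2 * Real.pi * n ≤ b)) : ∀ᶠ t in 𝓝 ψ, ¬ inG a b t := by
  set n0 : ℤ := ⌊(b - ψ) / (2 * Real.pi)⌋ + 1 with hn0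
  have hpi : 0 < 2 * Real.pi := by positivity
  have h1 : b < ψ + 2 * Real.pi * n0 := by
    have := Int.lt_floor_add_one ((b - ψ) / (2 * Real.pi))
    rw [div_lt_iff₀ hpi] at this
    rw [hn0]
    push_cast
    linarith
  have h2 : ψ + 2 * Real.pi * (n0 - 1 : ℤ) ≤ b := by
    have := Int.floor_le ((b - ψ) / (2 * Real.pi))
    rw [le_div_iff₀ hpi] at this
    rw [hn0]
    push_cast
    linarith
  have h3 : ψ + 2 * Real.pi * (n0 - 1 : ℤ) < a := by
    by_contra hcon
    exact h _ ⟨not_lt.1 hcon, h2⟩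
  push_cast at h3
  have e1 : ∀ᶠ t in 𝓝 ψ, b < t + 2 * Real.pi * n0 :=
    (continuous_const.continuousAt).eventually_lt (by fun_prop) h1
  have e2 : ∀ᶠ t in 𝓝 ψ, t + 2 * Real.pi * ((n0 : ℝ) - 1) < a :=
    ContinuousAt.eventually_lt (by fun_prop) (continuous_const.continuousAt) h3
  filter_upwards [e1, e2] with t ht1 ht2
  rintro ⟨m, hm1, hm2⟩
  rcases le_or_gt n0 m with hle | hlt
  · have : (n0 : ℝ) ≤ m := by exact_mod_cast hle
    nlinarith
  · have : (m : ℝ) ≤ n0 - 1 := by exact_mod_cast Int.le_sub_one_of_lt hlt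
    nlinarith

theorem inG_add {a b ψ : ℝ} (n : ℤ) : inG a b (ψ + 2 * Real.pi * n) ↔ inG a b ψ := by
  constructor
  · rintro ⟨m, h1, h2⟩
    refine ⟨n + m, ?_, ?_⟩ <;> push_cast <;> linarith
  · rintro ⟨m, h1, h2⟩
    refine ⟨m - n, ?_, ?_⟩ <;> push_cast <;> linarith

variable {P : Finset E2} {ι : Type} [Fintype ι] {x y : ι → E2} {C : Type} [Fintype C] {Λ : ℚ}
  {D : WData C Λ} {v : ι → ℝ}

theorem Plan.above (R : Plan D x y v) {t : ℤ} {c d : C} (h : D.ab t c d) (hne : R.pt c ≠ R.pt d) :
    hh (x (R.pt d)) (R.K.th t) < hh (x (R.pt c)) (R.K.th t) := by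
  rcases (R.ab t c d).1 h with h1 | h1
  · exact h1
  · exact absurd h1.1 hne

theorem Plan.swap (R : Plan D x y v) {t : ℤ} {c d : C} (h1 : D.ab t c d) (h2 : D.ab (t + 1) d c) :
    R.pt c ≠ R.pt d ∧ hh (x (R.pt c)) (R.K.kap t) = hh (x (R.pt d)) (R.K.kap t) := by
  have hne : R.pt c ≠ R.pt d := by
    intro he
    rcases (R.ab _ _ _).1 h1 with a1 | a1
    · rw [he] at a1
      exact lt_irrefl _ a1
    · rcases (R.ab _ _ _).1 h2 with a2 | a2
      · rw [he] at a2
        exact lt_irrefl _ a2
      · omega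
  refine ⟨hne, ?_⟩
  have a1 : hh (x (R.pt d)) (R.K.th t) < hh (x (R.pt c)) (R.K.th t) := by
    rcases (R.ab _ _ _).1 h1 with a | a
    · exact a
    · exact absurd a.1 hne
  have a2 : hh (x (R.pt c)) (R.K.th (t + 1)) < hh (x (R.pt d)) (R.K.th (t + 1)) := by
    rcases (R.ab _ _ _).1 h2 with a | a
    · exact a
    · exact absurd a.1.symm hne
  exact (R.K.swap hne.symm a1 a2).symm

theorem mem_zone {W : Wheel C} {p : ℕ} {t : ℤ} {c : C} :
    c ∈ W.zone p t ↔ (univ.filter (fun d => W.ab t d c)).card < p := by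
  unfold Wheel.zone
  rw [mem_filter]
  exact ⟨fun h => h.2, fun h => ⟨mem_univ _, h⟩⟩

/-- a clone which leaves the zone is overtaken -/
theorem exists_over {W : Wheel C} {p : ℕ} {s t : ℤ} {c : C} (h1 : c ∈ W.zone p s) (h2 : c ∉ W.zone p t) :
    ∃ r, W.ab s c r ∧ W.ab t r c := by
  rw [mem_zone] at h1 h2
  by_contra hcon
  push Not at hcon
  apply h2
  refine lt_of_le_of_lt (card_le_card ?_) h1
  intro d hd
  rw [mem_filter] at hd ⊢
  refine ⟨mem_univ _, ?_⟩
  have hdc : d ≠ c := by
    rintro rfl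
    exact W.irr _ _ hd.2
  rcases W.tot s d c hdc with h | h
  · exact h
  · exact absurd hd.2 (hcon d h)

/-- **PL2**: the doubled polygon and the gaps satisfy the hypotheses of the growth lemma -/
theorem pl2 (F : Flg P x y) (R : Plan D x y v) {N : ℤ} (G : PolyOut D N) (hv : ∀ i, 0 ≤ v i)
    (W : E2 → ℝ) (hW : ∀ p ∈ P, 0 ≤ W p) (η : ℝ)
    (htr : ∀ (i : ι) (ψ : ℝ), ∑ p ∈ P.filter (fun p => hh (x i) ψ < hh p ψ), W p ≤
      ∑ j ∈ univ.filter (fun j => hh (x i) ψ < hh (x j) ψ), v j + η) :
    ∃ T0 ⊆ P, N ≤ (T0.card : ℤ) ∧ T0.card ≤ 2 * Fintype.card ι ∧ ∃ al be : Fin 2 → ℝ,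
      (∀ i, be i < al i + 2 * Real.pi) ∧
      (∀ t, (∀ i, ¬ inG (al i) (be i) t) →
        ∑ p ∈ P.filter (fun p => ∀ a ∈ T0, hh a t < hh p t), W p ≤ 1 + η) ∧
      (∀ i, ∀ a ∈ T0, ∃ t, ¬ inG (al i) (be i) t ∧ ∀ b ∈ T0, b ≠ a → hh b t < hh a t) ∧
      (∀ i j, ¬ inG (al j) (be j) (al i) ∧ ¬ inG (al j) (be j) (be i)) := by
  set K := R.K with hK
  set Sc : Finset C := G.Y.filter (fun c => (∀ i, ¬ D.In (G.u i) (G.v i) (D.m c)) ∧
    ∀ d ∈ G.Y, d ≠ c → D.ab (D.m c) c d) with hSc
  set Y : Finset ι := G.Y.image R.pt with hY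
  set Sg : Finset ι := Sc.image R.pt with hSg
  have hSY : Sg ⊆ Y := image_subset_image (filter_subset _ _)
  -- distinct clones of the polygon have distinct points
  have hinj : ∀ c ∈ G.Y, ∀ d ∈ G.Y, R.pt c = R.pt d → c = d := by
    intro c hc d hd he
    by_contra hne
    obtain ⟨t, -, ht⟩ := G.top c hc
    obtain ⟨t', -, ht'⟩ := G.top d hd
    have a1 := (R.ab _ _ _).1 (ht d hd (Ne.symm hne))
    have a2 := (R.ab _ _ _).1 (ht' c hc hne)
    rcases a1 with a1 | a1
    · rw [he] at a1
      exact lt_irrefl _ a1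
    · rcases a2 with a2 | a2
      · rw [he] at a2
        exact lt_irrefl _ a2
      · omega
  have hnept : ∀ c ∈ G.Y, ∀ d ∈ G.Y, d ≠ c → R.pt c ≠ R.pt d := fun c hc d hd hne he => hne (hinj c hc d hd he).symm
  have hcardY : Y.card = G.Y.card := card_image_of_injOn (fun c hc d hd h => hinj c hc d hd h)
  have hcardS : Sg.card = Sc.card := card_image_of_injOn
    (fun c hc d hd h => hinj c (mem_filter.1 hc).1 d (mem_filter.1 hd).1 h)
  -- tops at sample times
  have htop : ∀ c ∈ G.Y, ∀ t, (∀ d ∈ G.Y, d ≠ c → D.ab t c d) → ∀ j ∈ Y, j ≠ R.pt c →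
      hh (x j) (K.th t) < hh (x (R.pt c)) (K.th t) := by
    intro c hc t ht j hj hjc
    obtain ⟨d, hd, rfl⟩ := mem_image.1 hj
    have hdc : d ≠ c := fun he => hjc (by rw [he])
    exact R.above (ht d hd hdc) (Ne.symm hjc)
  -- marks
  have hmark : ∀ c ∈ Sc, ∀ j ∈ Y, j ≠ R.pt c → hh (x j) (R.ψ (R.pt c)) < hh (x (R.pt c)) (R.ψ (R.pt c)) := by
    intro c hc j hj hjc
    have hc' := mem_filter.1 hc
    have h1 := htop c hc'.1 (D.m c) hc'.2.2 j hj hjc
    have h2 : ¬ hh (x (R.pt c)) (R.ψ (R.pt c)) < hh (x j) (R.ψ (R.pt c)) := by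
      intro h3
      have := K.cell (Ne.symm hjc) (R.hm1 c) (R.hm2 c) h3
      linarith
    refine lt_of_le_of_ne (not_lt.1 h2) ?_
    intro h3
    exact F.ne3 (Ne.symm hjc) (orient_eq_zero h3.symm (R.hψ _))
  set T0 := dbl x y Y Sg with hT0
  set al : Fin 2 → ℝ := fun i => K.kap (G.u i) with hal
  set be : Fin 2 → ℝ := fun i => K.kap (G.v i - 1) with hbe
  have hbeal : ∀ i, be i < al i + 2 * Real.pi := by
    intro i
    have h1 := K.kap_int (G.u i) 1
    rw [show al i + 2 * Real.pi = K.kap (G.u i + 1 * (2 * (D.H : ℤ))) by rw [h1]; push_cast; ring]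
    apply K.kap_mono
    have := (G.uv i).2
    omega
  have hcl : ∀ i m φ, ¬ D.In (G.u i) (G.v i) m → K.kap (m - 1) ≤ φ → φ ≤ K.kap m → ¬ inG (al i) (be i) φ :=
    fun i m φ h h1 h2 => K.clean h h1 h2
  have hd1 : ∀ i j, ¬ inG (al j) (be j) (al i) := fun i j =>
    hcl j (G.u i) _ (G.sep j i).1 (K.kap_mono.monotone (by omega)) le_rfl
  have hd2 : ∀ i j, ¬ inG (al j) (be j) (be i) := fun i j =>
    hcl j (G.v i) _ (G.sep j i).2 le_rfl (K.kap_mono.monotone (by omega))
  refine ⟨T0, dbl_subset F Y Sg, ?_, ?_, al, be, hbeal, ?_, ?_, fun i j => ⟨hd1 i j, hd2 i j⟩⟩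
  · rw [hT0, card_dbl F, hcardY, hcardS]
    push_cast
    exact G.val
  · rw [hT0, card_dbl F]
    have h1 := card_le_univ Y
    have h2 := card_le_univ Sg
    omega
  · -- hitting
    intro φ hφ
    obtain ⟨s, hs1, hs2, hs3⟩ : ∃ s, K.kap (s - 1) ≤ φ ∧ φ ≤ K.kap s ∧ ∀ i, ¬ D.In (G.u i) (G.v i) s := by
      obtain ⟨s, h1, h2⟩ := K.exists_cell φ
      by_cases hcl2 : ∀ i, ¬ D.In (G.u i) (G.v i) s
      · exact ⟨s, h1, h2.le, hcl2⟩
      push Not at hcl2
      obtain ⟨i, n, hn1, hn2⟩ := hcl2
      -- the angle is the left end of the gap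
      have h3 : K.kap (G.u i) ≤ φ + 2 * Real.pi * n := by
        have : K.kap (G.u i) ≤ K.kap (s - 1 + n * (2 * D.H)) := K.kap_mono.monotone (by omega)
        rw [K.kap_int] at this
        linarith
      have h4 : φ + 2 * Real.pi * n < K.kap (G.v i - 1) := by
        have : K.kap (s + n * (2 * D.H)) ≤ K.kap (G.v i - 1) := K.kap_mono.monotone (by omega)
        rw [K.kap_int] at this
        linarith
      have h5 : K.kap (G.u i) = φ + 2 * Real.pi * n := by
        by_contra hne
        exact hφ i ⟨n, lt_of_le_of_ne h3 hne, h4⟩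
      have h6 : s - 1 + n * (2 * D.H) = G.u i := by
        have h7 : K.kap (s - 1 + n * (2 * D.H)) ≤ K.kap (G.u i) := by
          rw [K.kap_int, h5]
          linarith
        have h8 := K.kap_mono.le_iff_le.1 h7
        omega
      refine ⟨s - 1, ?_, ?_, ?_⟩
      · exact (K.kap_mono.monotone (by omega)).trans h1
      · have : K.kap (s - 1) = φ := by
          have h9 := K.kap_int (s - 1) n
          rw [h6, h5] at h9
          linarith
        exact this.ge
      · intro j hj
        obtain ⟨n', hn'1, hn'2⟩ := hj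
        refine (G.sep j i).1 ⟨n' - n, ?_, ?_⟩
        · rw [← h6]
          have : s - 1 + n * (2 * (D.H : ℤ)) + (n' - n) * (2 * D.H) = s - 1 + n' * (2 * D.H) := by ring
          rw [this]
          exact hn'1
        · rw [← h6]
          have : s - 1 + n * (2 * (D.H : ℤ)) + (n' - n) * (2 * D.H) = s - 1 + n' * (2 * D.H) := by ring
          rw [this]
          exact hn'2
    obtain ⟨c, hc, hcZ⟩ := G.hit s hs3
    set i := R.pt c with hi
    have hxi : x i ∈ T0 := mem_dbl.2 (Or.inl ⟨i, mem_image_of_mem _ hc, rfl⟩)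
    have hsum1 : ∑ p ∈ P.filter (fun p => ∀ a ∈ T0, hh a φ < hh p φ), W p ≤
        ∑ p ∈ P.filter (fun p => hh (x i) φ < hh p φ), W p := by
      apply sum_le_sum_of_subset_of_nonneg
      · intro p hp
        rw [mem_filter] at hp ⊢
        exact ⟨hp.1, hp.2 _ hxi⟩
      · intro p hp _
        exact hW p (mem_filter.1 hp).1
    set A : Finset ι := univ.filter (fun j => hh (x i) (K.th s) < hh (x j) (K.th s)) with hA
    have hsum2 : ∑ j ∈ univ.filter (fun j => hh (x i) φ < hh (x j) φ), v j ≤ ∑ j ∈ A, v j := by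
      apply sum_le_sum_of_subset_of_nonneg
      · intro j hj
        rw [mem_filter] at hj
        rw [hA, mem_filter]
        refine ⟨mem_univ _, ?_⟩
        have hij : i ≠ j := by
          intro he
          rw [he] at hj
          exact lt_irrefl _ hj.2
        exact K.cell hij hs1 hs2 hj.2
      · intro j _ _
        exact hv j
    have hsum3 : ∑ j ∈ A, v j ≤ 1 := by
      have hZ := mem_zone.1 hcZ
      have hp : (0 : ℝ) < D.p := by exact_mod_cast D.p_pos
      have h1 : (D.p : ℝ) * ∑ j ∈ A, v j = ((univ.filter (fun d => R.pt d ∈ A)).card : ℝ) := by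
        rw [mul_sum]
        have h2 : (univ.filter (fun d => R.pt d ∈ A)) = A.biUnion (fun j => univ.filter (fun d => R.pt d = j)) := by
          ext d
          simp
        rw [h2, card_biUnion]
        · push_cast
          exact sum_congr rfl (fun j _ => (R.card j).symm)
        · intro j _ l _ hjl
          rw [Function.onFun, disjoint_left]
          intro d hd1 hd2
          rw [mem_filter] at hd1 hd2
          exact hjl (hd1.2.symm.trans hd2.2)
      have h3 : (univ.filter (fun d => R.pt d ∈ A)).card ≤ (univ.filter (fun d => D.ab s d c)).card := by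
        apply card_le_card
        intro d hd
        rw [mem_filter, hA, mem_filter] at hd
        rw [mem_filter]
        exact ⟨mem_univ _, (R.ab s d c).2 (Or.inl hd.2.2)⟩
      have h4 : (D.p : ℝ) * ∑ j ∈ A, v j ≤ D.p * 1 := by
        rw [h1, mul_one]
        exact_mod_cast (h3.trans hZ.le)
      exact le_of_mul_le_mul_left h4 hp
    have := htr i φ
    linarith
  · -- every vertex is visible outside of the gap
    intro i a ha
    rcases eq_or_ne (G.v i) (G.u i + 1) with htriv | hnt
    · -- trivial gap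
      have hno : ∀ t, ¬ inG (al i) (be i) t := by
        rintro t ⟨n, h1, h2⟩
        have : be i = al i := by
          simp only [hal, hbe]
          rw [htriv, add_sub_cancel_right]
        linarith
      rcases mem_dbl.1 ha with ⟨j, hj, rfl⟩ | ⟨j, hj, rfl⟩
      · by_cases hjS : j ∈ Sg
        · obtain ⟨c, hc, rfl⟩ := mem_image.1 hjS
          obtain ⟨t, _, ht⟩ := near_top (T := T0) (F.xy _ _) (R.hψ (R.pt c))
            (F.pair hSY (R.hψ _) (hmark c hc)) (fun _ => True) (Filter.Eventually.of_forall fun _ => trivial)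
          exact ⟨t, hno t, ht⟩
        · obtain ⟨c, hc, rfl⟩ := mem_image.1 hj
          obtain ⟨t, -, ht⟩ := G.top c hc
          obtain ⟨t', ht'⟩ := F.single hSY hjS (htop c hc t ht)
          exact ⟨t', hno t', ht'⟩
      · obtain ⟨c, hc, rfl⟩ := mem_image.1 hj
        obtain ⟨t, _, ht⟩ := near_top (T := T0) (F.xy _ _).symm (R.hψ (R.pt c)).symm
          (fun b hb h1 h2 => by rw [← R.hψ]; exact F.pair hSY (R.hψ _) (hmark c hc) b hb h2 h1)
          (fun _ => True) (Filter.Eventually.of_forall fun _ => trivial)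
        exact ⟨t, hno t, ht⟩
    · obtain ⟨ca, hca, cb, hcb, ga1, ga2, gb1, gb2, gab, gba, gta, gtb, gall⟩ :=
        (G.gap i).resolve_left hnt
      -- ties at the ends
      obtain ⟨r, hr1, hr2⟩ := exists_over ga1 ga2
      obtain ⟨hrne, hrtie⟩ := R.swap hr1 hr2
      obtain ⟨s, hs1, hs2⟩ := exists_over gb1 gb2
      obtain ⟨hsne, hstie⟩ := R.swap (t := G.v i - 1) hs2 (by rw [sub_add_cancel]; exact hs1)
      -- doubled vertices are not at the closed gap
      have hclosed : ∀ c ∈ Sc, ∀ n : ℤ, ¬ (al i ≤ R.ψ (R.pt c) + 2 * Real.pi * n ∧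
          R.ψ (R.pt c) + 2 * Real.pi * n ≤ be i) := by
        rintro c hc n ⟨h1, h2⟩
        have hc' := mem_filter.1 hc
        have hopen : ¬ inG (al i) (be i) (R.ψ (R.pt c)) := hcl i _ _ (hc'.2.1 i) (R.hm1 c) (R.hm2 c)
        have hcase : al i = R.ψ (R.pt c) + 2 * Real.pi * n ∨ R.ψ (R.pt c) + 2 * Real.pi * n = be i := by
          by_contra hcon
          push Not at hcon
          exact hopen ⟨n, lt_of_le_of_ne h1 hcon.1, lt_of_le_of_ne h2 hcon.2⟩
        have hm : ∀ j ∈ Y, j ≠ R.pt c → hh (x j) (R.ψ (R.pt c) + 2 * Real.pi * n) <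
            hh (x (R.pt c)) (R.ψ (R.pt c) + 2 * Real.pi * n) := by
          intro j hj hjc
          rw [hh_add_int, hh_add_int]
          exact hmark c hc j hj hjc
        have hpp : hh (x (R.pt c)) (R.ψ (R.pt c) + 2 * Real.pi * n) =
            hh (y (R.pt c)) (R.ψ (R.pt c) + 2 * Real.pi * n) := by
          rw [hh_add_int, hh_add_int]
          exact R.hψ _
        rcases hcase with he | he
        · rw [← he] at hm hpp
          have hcc : ca = c := by
            by_contra hne
            have h3 := hm (R.pt ca) (mem_image_of_mem _ hca) (hnept ca hca c hc'.1 (Ne.symm hne))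
            have h4 := K.cell (hnept ca hca c hc'.1 (Ne.symm hne)) (s := G.u i)
              (K.kap_mono.monotone (by omega)) le_rfl h3
            have h5 := htop ca hca (G.u i) gta (R.pt c) (mem_image_of_mem _ hc'.1)
              (Ne.symm (hnept ca hca c hc'.1 (Ne.symm hne)))
            linarith
          subst hcc
          exact F.ne3 hrne (orient_eq_zero hrtie hpp)
        · rw [he] at hm hpp
          have hcc : cb = c := by
            by_contra hne
            have h3 := hm (R.pt cb) (mem_image_of_mem _ hcb) (hnept cb hcb c hc'.1 (Ne.symm hne))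
            have h4 := K.cell (hnept cb hcb c hc'.1 (Ne.symm hne)) (s := G.v i)
              le_rfl (K.kap_mono.monotone (by omega)) h3
            have h5 := htop cb hcb (G.v i) gtb (R.pt c) (mem_image_of_mem _ hc'.1)
              (Ne.symm (hnept cb hcb c hc'.1 (Ne.symm hne)))
            linarith
          subst hcc
          exact F.ne3 hsne.symm (orient_eq_zero hstie.symm hpp)
      rcases mem_dbl.1 ha with ⟨j, hj, rfl⟩ | ⟨j, hj, rfl⟩
      · by_cases hjS : j ∈ Sg
        · obtain ⟨c, hc, rfl⟩ := mem_image.1 hjS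
          exact near_top (T := T0) (F.xy _ _) (R.hψ (R.pt c))
            (F.pair hSY (R.hψ _) (hmark c hc)) (fun t => ¬ inG (al i) (be i) t)
            (eventually_not_inG (hclosed c hc))
        · obtain ⟨c, hc, rfl⟩ := mem_image.1 hj
          obtain ⟨t, -, ht⟩ := G.top c hc
          obtain ⟨t', ht'⟩ := F.single hSY hjS (htop c hc t ht)
          by_cases hin : inG (al i) (be i) t'
          swap
          · exact ⟨t', hin, ht'⟩
          obtain ⟨n, hn1, hn2⟩ := hin
          set φ := t' + 2 * Real.pi * n with hφ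
          have htopφ : ∀ j ∈ Y, j ≠ R.pt c → hh (x j) φ < hh (x (R.pt c)) φ := by
            intro j hj hjc
            rw [hφ, hh_add_int, hh_add_int]
            refine ht' (x j) (mem_dbl.2 (Or.inl ⟨j, hj, rfl⟩)) ?_
            exact F.xx _ _ hjc
          have hab : c = ca ∨ c = cb := by
            by_contra hcon
            push Not at hcon
            obtain ⟨s', hs'1, hs'2⟩ := K.exists_cell φ
            have b1 : G.u i < s' := K.kap_mono.lt_iff_lt.1 (hn1.trans hs'2)
            have b2 : s' - 1 < G.v i - 1 := K.kap_mono.lt_iff_lt.1 (hs'1.trans_lt hn2)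
            rcases gall s' (by omega) (by omega) c hc hcon.1 hcon.2 with h1 | h1
            · have h2 := R.above h1 (hnept ca hca c hc hcon.1)
              have h3 := K.cell (hnept ca hca c hc hcon.1) hs'1 hs'2.le
                (htopφ (R.pt ca) (mem_image_of_mem _ hca) (hnept ca hca c hc hcon.1))
              linarith
            · have h2 := R.above h1 (hnept cb hcb c hc hcon.2)
              have h3 := K.cell (hnept cb hcb c hc hcon.2) hs'1 hs'2.le
                (htopφ (R.pt cb) (mem_image_of_mem _ hcb) (hnept cb hcb c hc hcon.2))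
              linarith
          have hpi : K.th (G.v i) ≤ K.th (G.u i) + Real.pi := by
            rw [← K.per]
            apply K.th_mono.monotone
            have := (G.uv i).2
            have := (G.uv i).1
            omega
          have q1 : K.th (G.u i) < K.kap (G.u i) := K.lt1 _
          have q2 : K.kap (G.v i - 1) < K.th (G.v i) := K.kap_lt_th _
          rcases hab with rfl | rfl
          · refine ⟨al i, hd1 i i, ?_⟩
            refine F.tie hSY hjS hrne.symm hrtie ?_
            intro j hj hjc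
            exact between q1 hn1 (by linarith) (htop c hc (G.u i) gta j hj hjc).le (htopφ j hj hjc).le
              (Or.inr (htopφ j hj hjc))
          · refine ⟨be i, hd2 i i, ?_⟩
            refine F.tie hSY hjS hsne hstie.symm ?_
            intro j hj hjc
            exact between hn2 q2 (by linarith) (htopφ j hj hjc).le (htop c hc (G.v i) gtb j hj hjc).le
              (Or.inl (htopφ j hj hjc))
      · obtain ⟨c, hc, rfl⟩ := mem_image.1 hj
        exact near_top (T := T0) (F.xy _ _).symm (R.hψ (R.pt c)).symm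
          (fun b hb h1 h2 => by rw [← R.hψ]; exact F.pair hSY (R.hψ _) (hmark c hc) b hb h2 h1)
          (fun t => ¬ inG (al i) (be i) t) (eventually_not_inG (hclosed c hc))

end Pool.Agent.Lib.EcW
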