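import Pool.Agent.Lib.EcW.Rule

/-!
# EcW.PolyPath : the closed movement made of two sheets and two junctions
-/

set_option autoImplicit false

namespace Pool.Agent.Lib.EcW

namespace Strands

variable {C : Type} [Fintype C] {Λ : ℚ} {D : WData C Λ} (S : Strands D)

theorem legal (a : Fin D.p) (s t : ℤ) : D.toWheel.Legal (fun r => S.L r a) s t := by
  intro τ _ _
  by_cases h : S.brk a τ
  · exact Or.inr (S.ov h)
  · left; unfold brk at h; push Not at h; exact h.symm

/-- periodic extension of a closed legal movement -/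
theorem exists_per (π₀ : ℤ → C) (s : ℤ) (h : D.toWheel.Legal π₀ s (s + 2 * D.H))
    (hc : π₀ (s + 2 * D.H) = π₀ s) : ∃ π : ℤ → C, (∀ t, π (t + 2 * D.H) = π t) ∧
      (∀ a b, D.toWheel.Legal π a b) ∧ ∀ r, s ≤ r → r ≤ s + 2 * D.H → π r = π₀ r := by
  have hH := D.hH
  have h0 : (0 : ℤ) < 2 * (D.H : ℤ) := by omega
  set P : ℤ := 2 * (D.H : ℤ) with hP
  refine ⟨fun t => π₀ (s + (t - s) % P), ?_, ?_, ?_⟩
  · intro t
    show π₀ _ = π₀ _
    congr 2
    have : t + P - s = (t - s) + P := by ring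
    rw [this, Int.add_emod_right]
  · intro a b τ _ _
    show π₀ (s + (τ + 1 - s) % P) = π₀ (s + (τ - s) % P) ∨
      D.toWheel.Ov τ (π₀ (s + (τ - s) % P)) (π₀ (s + (τ + 1 - s) % P))
    have e1 := Int.emod_nonneg (τ - s) h0.ne'
    have e2 := Int.emod_lt_of_pos (τ - s) h0
    have e3 := Int.emod_add_mul_ediv (τ - s) P
    set m := (τ - s) % P with hm
    have key : π₀ (s + (τ + 1 - s) % P) = π₀ (s + m + 1) := by
      rcases eq_or_lt_of_le (show m + 1 ≤ P by omega) with h5 | h5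
      · have : (τ + 1 - s) % P = 0 := by
          have : τ + 1 - s = P * ((τ - s) / P + 1) := by linarith [mul_add P ((τ - s) / P) 1]
          rw [this]; simp
        rw [this]
        have : s + m + 1 = s + P := by omega
        rw [this, hc]; simp
      · have : (τ + 1 - s) % P = m + 1 := by
          have : τ + 1 - s = (m + 1) + P * ((τ - s) / P) := by linarith
          rw [this, Int.add_mul_emod_self_left, Int.emod_eq_of_lt (by omega) h5]
        rw [this]; congr 1; ring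
    rw [key]
    rcases h (s + m) (by omega) (by omega) with h6 | h6
    · left; exact h6
    · right
      have h7 := Wheel.Ov_int ((τ - s) / P) h6
      have : s + m + ((τ - s) / P) * (2 * (D.H : ℤ)) = τ := by
        rw [← hP]; linarith [mul_comm P ((τ - s) / P)]
      rw [this] at h7
      exact h7
  · intro r h1 h2
    show π₀ _ = π₀ _
    rcases eq_or_lt_of_le h2 with h3 | h3
    · rw [h3]
      have : s + P - s = P := by ring
      rw [this, Int.emod_self, hc]; simp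
    · rw [Int.emod_eq_of_lt (by omega) (by omega)]; congr 1; ring

/-- the closed movement of two sheets and two junctions -/
theorem exists_path (i j : Fin D.p) {u₂ v₂ u₁ v₁ : ℤ} (h21 : v₂ ≤ u₁) (h12 : v₁ ≤ u₂ + 2 * D.H)
    (J1 : S.Jn i j u₁ v₁) (J2 : S.Jn (S.ρ j) i u₂ v₂) :
    ∃ π : ℤ → C, (∀ t, π (t + 2 * D.H) = π t) ∧ (∀ a b, D.toWheel.Legal π a b) ∧
      (∀ r, v₂ ≤ r → r ≤ u₁ → π r = S.L r i) ∧ (∀ r, v₁ ≤ r → r ≤ u₂ + 2 * D.H → π r = S.L r j) ∧
      (∀ r, u₁ ≤ r → r ≤ v₁ → π r = S.L u₁ i ∨ π r = S.L v₁ j) ∧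
      (∀ r, u₂ + 2 * D.H ≤ r → r ≤ v₂ + 2 * D.H → π r = S.L u₂ (S.ρ j) ∨ π r = S.L v₂ i) ∧
      (∃ τ, u₁ ≤ τ ∧ τ < v₁ ∧ π (τ + 1) ≠ π τ) ∧
      (∃ τ, u₂ + 2 * D.H ≤ τ ∧ τ < v₂ + 2 * D.H ∧ π (τ + 1) ≠ π τ) := by
  obtain ⟨j11, j12, j13⟩ := J1
  obtain ⟨j21, j22, j23⟩ := J2
  obtain ⟨τ₁, t11, t12, t13⟩ := Wheel.exists_ov j11.le j12 j13
  obtain ⟨τ₂, t21, t22, t23⟩ := Wheel.exists_ov j21.le j22 j23
  have t24 := t23.shift
  have hj : S.L (u₂ + 2 * D.H) j = S.L u₂ (S.ρ j) := S.per u₂ j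
  set P : ℤ := 2 * (D.H : ℤ) with hP
  set A := S.L u₁ i with hA
  set B := S.L v₁ j with hB
  set A' := S.L u₂ (S.ρ j) with hA'
  set B' := S.L v₂ i with hB'
  set π₀ : ℤ → C := fun r => if r ≤ u₁ then S.L r i else if r < v₁ then (if r ≤ τ₁ then A else B)
    else if r ≤ u₂ + P then S.L r j else (if r ≤ τ₂ + P then A' else B') with hπ₀
  have p1 : ∀ r, r ≤ u₁ → π₀ r = S.L r i := fun r h => by simp only [hπ₀, if_pos h]
  have p2 : ∀ r, v₁ ≤ r → r ≤ u₂ + P → π₀ r = S.L r j := fun r h h' => by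
    simp only [hπ₀]; rw [if_neg (by omega), if_neg (by omega), if_pos h']
  -- on [u₁, v₁]
  have p3 : ∀ r, u₁ ≤ r → r ≤ v₁ → π₀ r = if r ≤ τ₁ then A else B := by
    intro r h h'
    rcases eq_or_lt_of_le h with h1 | h1
    · subst h1; rw [p1 _ le_rfl, if_pos t11]
    · rcases eq_or_lt_of_le h' with h2 | h2
      · subst h2; rw [p2 _ le_rfl h12, if_neg (by omega)]
      · simp only [hπ₀]; rw [if_neg (by omega), if_pos h2]
  have p4 : ∀ r, u₂ + P ≤ r → π₀ r = if r ≤ τ₂ + P then A' else B' := by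
    intro r h
    rcases eq_or_lt_of_le h with h1 | h1
    · subst h1; rw [p2 _ h12 le_rfl, hj, if_pos (by omega)]
    · simp only [hπ₀]; rw [if_neg (by omega), if_neg (by omega), if_neg (by omega)]
  have hleg : D.toWheel.Legal π₀ v₂ (v₂ + P) := by
    intro τ h1 h2
    rcases lt_or_ge τ u₁ with h3 | h3
    · rw [p1 τ h3.le, p1 (τ + 1) (by omega)]
      exact S.legal i v₂ (v₂ + P) τ h1 h2
    · rcases lt_or_ge τ v₁ with h4 | h4
      · rw [p3 τ h3 h4.le, p3 (τ + 1) (by omega) (by omega)]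
        rcases lt_trichotomy τ τ₁ with h5 | h5 | h5
        · left; rw [if_pos (by omega), if_pos (by omega)]
        · right; subst h5; rw [if_pos le_rfl, if_neg (by omega)]; exact t13
        · left; rw [if_neg (by omega), if_neg (by omega)]
      · rcases lt_or_ge τ (u₂ + P) with h5 | h5
        · rw [p2 τ h4 h5.le, p2 (τ + 1) (by omega) (by omega)]
          exact S.legal j v₂ (v₂ + P) τ h1 h2
        · rw [p4 τ h5, p4 (τ + 1) (by omega)]
          rcases lt_trichotomy τ (τ₂ + P) with h6 | h6 | h6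
          · left; rw [if_pos (by omega), if_pos (by omega)]
          · right; subst h6; rw [if_pos le_rfl, if_neg (by omega)]; exact t24
          · left; rw [if_neg (by omega), if_neg (by omega)]
  have hc : π₀ (v₂ + P) = π₀ v₂ := by
    rw [p4 _ (by omega), if_neg (by omega), p1 _ h21]
  obtain ⟨π, q1, q2, q3⟩ := exists_per (D := D) π₀ v₂ hleg hc
  refine ⟨π, q1, q2, ?_, ?_, ?_, ?_, ?_, ?_⟩
  · intro r h1 h2
    rw [q3 r h1 (by omega), p1 r h2]
  · intro r h1 h2
    rw [q3 r (by omega) (by omega), p2 r h1 h2]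
  · intro r h1 h2
    rw [q3 r (by omega) (by omega), p3 r h1 h2]
    split_ifs
    · exact Or.inl rfl
    · exact Or.inr rfl
  · intro r h1 h2
    rw [q3 r (by omega) (by omega), p4 r h1]
    split_ifs
    · exact Or.inl rfl
    · exact Or.inr rfl
  · refine ⟨τ₁, t11, t12, ?_⟩
    rw [q3 _ (by omega) (by omega), q3 _ (by omega) (by omega), p3 _ (by omega) (by omega),
      p3 _ t11 t12.le, if_neg (by omega), if_pos le_rfl]
    exact (D.toWheel.ab_ne t13.1).symm
  · refine ⟨τ₂ + P, by omega, by omega, ?_⟩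
    rw [q3 _ (by omega) (by omega), q3 _ (by omega) (by omega), p4 _ (by omega),
      p4 _ (by omega), if_neg (by omega), if_pos le_rfl]
    exact (D.toWheel.ab_ne t23.1).symm

end Strands

end Pool.Agent.Lib.EcW
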