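import Pool.Agent.Lib.EcW.PBasic

/-!
# EcW.Rule : order rules for legal movements on a wheel
-/

set_option autoImplicit false

namespace Pool.Agent.Lib.EcW

namespace Wheel

variable {C : Type} {W : Wheel C}

theorem ab_nat (W : Wheel C) (n : ℕ) : ∀ (t : ℤ) (c d : C),
    W.ab (t + (n : ℤ) * (2 * (W.H : ℤ))) c d ↔ W.ab t c d := by
  induction n with
  | zero => intro t c d; simp
  | succ n ih =>
    intro t c d
    have e : t + ((n + 1 : ℕ) : ℤ) * (2 * (W.H : ℤ)) = (t + (n : ℤ) * (2 * (W.H : ℤ))) + 2 * (W.H : ℤ) := by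
      push_cast; ring
    rw [e, W.per, ih]

theorem ab_int (W : Wheel C) (k t : ℤ) (c d : C) :
    W.ab (t + k * (2 * (W.H : ℤ))) c d ↔ W.ab t c d := by
  rcases le_or_gt 0 k with h | h
  · obtain ⟨n, rfl⟩ := Int.eq_ofNat_of_zero_le h
    exact ab_nat W n t c d
  · obtain ⟨n, hn⟩ := Int.eq_ofNat_of_zero_le (show 0 ≤ -k by omega)
    have h1 := ab_nat W n (t + k * (2 * (W.H : ℤ))) c d
    have e : t + k * (2 * (W.H : ℤ)) + (n : ℤ) * (2 * (W.H : ℤ)) = t := by
      have : k = -(n : ℤ) := by omega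
      rw [this]; ring
    rw [e] at h1
    exact h1.symm

theorem Ov_int (k : ℤ) {t : ℤ} {c d : C} (h : W.Ov t c d) : W.Ov (t + k * (2 * (W.H : ℤ))) c d := by
  refine ⟨(ab_int W k t c d).2 h.1, ?_⟩
  have e : t + k * (2 * (W.H : ℤ)) + 1 = t + 1 + k * (2 * (W.H : ℤ)) := by ring
  rw [e]; exact (ab_int W k (t + 1) d c).2 h.2

/-- legal movement on `[s, t]` -/
def Legal (W : Wheel C) (π : ℤ → C) (s t : ℤ) : Prop :=
  ∀ τ, s ≤ τ → τ < t → π (τ + 1) = π τ ∨ W.Ov τ (π τ) (π (τ + 1))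

theorem Legal.fwd {π : ℤ → C} {s t : ℤ} (h : W.Legal π s t) (hst : s ≤ t) {u : ℤ} (h1 : t ≤ u)
    (h2 : u ≤ s + W.H) : π t = π s ∨ W.ab u (π t) (π s) := by
  obtain ⟨n, rfl⟩ : ∃ n : ℕ, t = s + n := ⟨(t - s).toNat, by omega⟩
  induction n with
  | zero => left; simp
  | succ n ih =>
    have e : s + ((n + 1 : ℕ) : ℤ) = s + n + 1 := by push_cast; ring
    rw [e] at h1 ⊢
    have h3 := ih (fun τ a b => h τ a (by push_cast; omega)) (by omega) (by omega)
    have h4 := h (s + n) (by omega) (by push_cast; omega)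
    rcases h4 with h4 | h4
    · rw [h4]; exact h3
    · have h5 := h4.after (τ := u) (by omega) (by omega)
      right
      rcases h3 with h3 | h3
      · rw [← h3]; exact h5
      · exact W.trans u _ _ _ h5 h3

theorem Legal.bwd {π : ℤ → C} {s t : ℤ} (h : W.Legal π s t) (hst : s ≤ t) {u : ℤ} (h1 : u ≤ s)
    (h2 : t ≤ u + W.H) : π t = π s ∨ W.ab u (π s) (π t) := by
  obtain ⟨n, rfl⟩ : ∃ n : ℕ, t = s + n := ⟨(t - s).toNat, by omega⟩
  induction n with
  | zero => left; simp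
  | succ n ih =>
    have e : s + ((n + 1 : ℕ) : ℤ) = s + n + 1 := by push_cast; ring
    rw [e] at h2 ⊢
    have h3 := ih (fun τ a b => h τ a (by push_cast; omega)) (by omega) (by omega)
    have h4 := h (s + n) (by omega) (by push_cast; omega)
    rcases h4 with h4 | h4
    · rw [h4]; exact h3
    · have h5 := h4.before (τ := u) (by omega) (by omega)
      right
      rcases h3 with h3 | h3
      · rw [← h3]; exact h5
      · exact W.trans u _ _ _ h3 h5

theorem per_int {π : ℤ → C} (hp : ∀ t, π (t + 2 * W.H) = π t) (k t : ℤ) :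
    π (t + k * (2 * (W.H : ℤ))) = π t := by
  have key : ∀ (n : ℕ) (t : ℤ), π (t + (n : ℤ) * (2 * (W.H : ℤ))) = π t := by
    intro n
    induction n with
    | zero => intro t; simp
    | succ n ih =>
      intro t
      have e : t + ((n + 1 : ℕ) : ℤ) * (2 * (W.H : ℤ)) = (t + (n : ℤ) * (2 * (W.H : ℤ))) + 2 * (W.H : ℤ) := by
        push_cast; ring
      rw [e, hp, ih]
  rcases le_or_gt 0 k with h | h
  · obtain ⟨n, rfl⟩ := Int.eq_ofNat_of_zero_le h
    exact key n t
  · obtain ⟨n, hn⟩ := Int.eq_ofNat_of_zero_le (show 0 ≤ -k by omega)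
    have h1 := key n (t + k * (2 * (W.H : ℤ)))
    have e : t + k * (2 * (W.H : ℤ)) + (n : ℤ) * (2 * (W.H : ℤ)) = t := by
      have : k = -(n : ℤ) := by omega
      rw [this]; ring
    rw [e] at h1
    exact h1.symm

/-- representative in an interval of one period -/
theorem exists_rep (hH : 0 < W.H) (s t : ℤ) : ∃ k : ℤ, s ≤ t + k * (2 * (W.H : ℤ)) ∧
    t + k * (2 * (W.H : ℤ)) < s + 2 * W.H := by
  have h0 : (0 : ℤ) < 2 * (W.H : ℤ) := by omega
  refine ⟨-((t - s) / (2 * (W.H : ℤ))), ?_, ?_⟩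
  · have h1 := Int.emod_nonneg (t - s) h0.ne'
    have h2 := Int.emod_add_mul_ediv (t - s) (2 * (W.H : ℤ))
    have : t + -((t - s) / (2 * (W.H : ℤ))) * (2 * (W.H : ℤ)) = s + (t - s) % (2 * (W.H : ℤ)) := by
      linarith [mul_comm ((t - s) / (2 * (W.H : ℤ))) (2 * (W.H : ℤ))]
    rw [this]; omega
  · have h1 := Int.emod_lt_of_pos (t - s) h0
    have h2 := Int.emod_add_mul_ediv (t - s) (2 * (W.H : ℤ))
    have : t + -((t - s) / (2 * (W.H : ℤ))) * (2 * (W.H : ℤ)) = s + (t - s) % (2 * (W.H : ℤ)) := by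
      linarith [mul_comm ((t - s) / (2 * (W.H : ℤ))) (2 * (W.H : ℤ))]
    rw [this]; omega

/-- in a closed legal movement the current clone is above all others -/
theorem Legal.top {π : ℤ → C} (hH : 0 < W.H) (h : ∀ s t, W.Legal π s t) (hp : ∀ t, π (t + 2 * W.H) = π t)
    (t t' : ℤ) : π t' = π t ∨ W.ab t (π t) (π t') := by
  obtain ⟨k, hk1, hk2⟩ := exists_rep (W := W) hH (t - W.H) t'
  have h1 := per_int hp k t'
  set r := t' + k * (2 * (W.H : ℤ)) with hr
  rw [← h1]
  rcases le_or_gt t r with h2 | h2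
  · exact (h t r).bwd h2 le_rfl (by omega)
  · rcases (h r t).fwd h2.le le_rfl (by omega) with h3 | h3
    · left; exact h3.symm
    · right; exact h3

/-- every clone is entered at most once per period -/
theorem Legal.inj {π : ℤ → C} (hH : 0 < W.H) (h : ∀ s t, W.Legal π s t) (hp : ∀ t, π (t + 2 * W.H) = π t)
    {τ τ' : ℤ} (h1 : τ < τ') (h2 : τ' < τ + 2 * W.H) (h3 : π (τ + 1) ≠ π τ) (h4 : π (τ' + 1) ≠ π τ') :
    π (τ + 1) ≠ π (τ' + 1) := by
  intro heq
  have top := Legal.top hH h hp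
  -- c, d, e
  have hcd : W.ab (τ + 1) (π (τ + 1)) (π τ') := by
    rcases top (τ + 1) τ' with h5 | h5
    · exact absurd (heq.symm.trans h5.symm) h4
    · exact h5
  have hdc : W.ab τ' (π τ') (π (τ + 1)) := by
    rcases top τ' (τ + 1) with h5 | h5
    · exact absurd (heq.symm.trans h5) h4
    · exact h5
  have hcd' : W.ab (τ' + 1) (π (τ + 1)) (π τ') := by
    rcases top (τ' + 1) τ' with h5 | h5
    · exact absurd h5.symm h4
    · rw [heq]; exact h5
  have hce : W.ab (τ' + 1) (π (τ + 1)) (π τ) := by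
    rcases top (τ' + 1) τ with h5 | h5
    · exact absurd (heq.trans h5.symm) h3
    · rw [heq]; exact h5
  have hec : W.ab (τ + 2 * W.H) (π τ) (π (τ + 1)) := by
    rw [W.per]
    rcases top τ (τ + 1) with h5 | h5
    · exact absurd h5 h3
    · exact h5
  have hce' : W.ab (τ + 1 + 2 * W.H) (π (τ + 1)) (π τ) := by
    rw [W.per]
    rcases top (τ + 1) τ with h5 | h5
    · exact absurd h5.symm h3
    · exact h5
  have e1 : τ + 1 < τ' := by
    rcases eq_or_lt_of_le (show τ + 1 ≤ τ' by omega) with h5 | h5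
    · exfalso; apply h4; rw [← heq, h5]
    · exact h5
  have e2 : τ + W.H < τ' := by
    by_contra hcon
    exact W.pl _ _ (τ + 1) τ' (τ' + 1) e1 (by omega) (by omega) hcd hdc hcd'
  have e3 : τ' + 1 < τ + 2 * W.H := by
    rcases eq_or_lt_of_le (show τ' + 1 ≤ τ + 2 * W.H by omega) with h5 | h5
    · exfalso; apply h3; rw [heq, h5, hp]
    · exact h5
  exact W.pl _ _ (τ' + 1) (τ + 2 * W.H) (τ + 1 + 2 * W.H) e3 (by omega) (by omega) hce hec hce'

end Wheel

end Pool.Agent.Lib.EcW
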