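import Pool.Agent.Lib.EcW.Defs

/-!
# EcW.Strand: sheets exist (A1)

The zones have exactly `p` elements. For two finite sets `A`, `B` of the same size there is a
permutation (an involution) of `C` which maps `A` onto `B` and fixes the intersection; it is chosen as
a function of `A` and `B` only, so the permutations belonging to consecutive zones are periodic.
-/

set_option autoImplicit false

namespace Pool.Agent.Lib.EcW

namespace StrandAux

/-- a permutation that maps `A` onto `B` and fixes the intersection -/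
lemma exists_perm {C : Type} [Fintype C] [DecidableEq C] (A B : Finset C)
    (h : A.card = B.card) :
    ∃ σ : Equiv.Perm C, (∀ c, σ c ∈ B ↔ c ∈ A) ∧ ∀ c, c ∈ A → c ∈ B → σ c = c := by
  have hc : (A \ B).card = (B \ A).card := Finset.card_sdiff_comm h
  obtain ⟨e⟩ : Nonempty ((A \ B : Finset C) ≃ (B \ A : Finset C)) :=
    ⟨Finset.equivOfCardEq hc⟩
  set f : C → C := fun c =>
    if h1 : c ∈ A \ B then (e ⟨c, h1⟩ : C) else
      if h2 : c ∈ B \ A then (e.symm ⟨c, h2⟩ : C) else c with hf
  have f1 : ∀ (c : C) (h1 : c ∈ A \ B), f c = e ⟨c, h1⟩ := by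
    intro c h1
    simp only [hf, dif_pos h1]
  have f2 : ∀ (c : C) (h2 : c ∈ B \ A), f c = e.symm ⟨c, h2⟩ := by
    intro c h2
    have h1 : ¬ c ∈ A \ B := by
      intro h1
      rw [Finset.mem_sdiff] at h1 h2
      exact h1.2 h2.1
    simp only [hf, dif_neg h1, dif_pos h2]
  have f3 : ∀ c, ¬ c ∈ A \ B → ¬ c ∈ B \ A → f c = c := by
    intro c h1 h2
    simp only [hf, dif_neg h1, dif_neg h2]
  have hinv : Function.Involutive f := by
    intro c
    by_cases h1 : c ∈ A \ B
    · have h2 : f c ∈ B \ A := by rw [f1 c h1]; exact (e ⟨c, h1⟩).2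
      rw [f2 (f c) h2]
      have h3 : (⟨f c, h2⟩ : (B \ A : Finset C)) = e ⟨c, h1⟩ := Subtype.ext (f1 c h1)
      rw [h3, Equiv.symm_apply_apply]
    · by_cases h2 : c ∈ B \ A
      · have h3 : f c ∈ A \ B := by rw [f2 c h2]; exact (e.symm ⟨c, h2⟩).2
        rw [f1 (f c) h3]
        have h4 : (⟨f c, h3⟩ : (A \ B : Finset C)) = e.symm ⟨c, h2⟩ := Subtype.ext (f2 c h2)
        rw [h4, Equiv.apply_symm_apply]
      · rw [f3 c h1 h2, f3 c h1 h2]
  refine ⟨hinv.toPerm, ?_, ?_⟩
  · intro c
    change f c ∈ B ↔ c ∈ A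
    by_cases h1 : c ∈ A \ B
    · have h2 : f c ∈ B \ A := by rw [f1 c h1]; exact (e ⟨c, h1⟩).2
      exact ⟨fun _ => (Finset.mem_sdiff.mp h1).1, fun _ => (Finset.mem_sdiff.mp h2).1⟩
    · by_cases h2 : c ∈ B \ A
      · have h3 : f c ∈ A \ B := by rw [f2 c h2]; exact (e.symm ⟨c, h2⟩).2
        exact ⟨fun h4 => absurd h4 (Finset.mem_sdiff.mp h3).2,
          fun h4 => absurd h4 (Finset.mem_sdiff.mp h2).2⟩
      · rw [f3 c h1 h2]
        rw [Finset.mem_sdiff] at h1 h2
        tauto
  · intro c hA hB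
    change f c = c
    refine f3 c ?_ ?_
    · rw [Finset.mem_sdiff]; tauto
    · rw [Finset.mem_sdiff]; tauto

/-- products of permutations along the integers -/
lemma exists_prod {C : Type} (σ : ℤ → Equiv.Perm C) :
    ∃ P : ℤ → Equiv.Perm C, P 0 = 1 ∧ ∀ t, P (t + 1) = σ t * P t := by
  let F : ℕ → Equiv.Perm C := fun n => Nat.rec 1 (fun k r => σ (k : ℤ) * r) n
  let G : ℕ → Equiv.Perm C := fun n =>
    Nat.rec ((σ (-1))⁻¹) (fun k r => (σ (-(k : ℤ) - 2))⁻¹ * r) n
  have hF : ∀ n : ℕ, F (n + 1) = σ (n : ℤ) * F n := fun n => rfl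
  have hG : ∀ n : ℕ, G (n + 1) = (σ (-(n : ℤ) - 2))⁻¹ * G n := fun n => rfl
  refine ⟨fun t => match t with
    | Int.ofNat n => F n
    | Int.negSucc n => G n, rfl, ?_⟩
  intro t
  cases t with
  | ofNat n => exact hF n
  | negSucc n =>
    cases n with
    | zero =>
      change F 0 = σ (-1) * G 0
      change (1 : Equiv.Perm C) = σ (-1) * (σ (-1))⁻¹
      rw [mul_inv_cancel]
    | succ n =>
      have h1 : Int.negSucc (n + 1) + 1 = Int.negSucc n := by
        rw [Int.negSucc_eq, Int.negSucc_eq]
        push_cast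
        ring
      have h2 : Int.negSucc (n + 1) = -(n : ℤ) - 2 := by
        rw [Int.negSucc_eq]
        push_cast
        ring
      rw [h1]
      change G n = σ (Int.negSucc (n + 1)) * G (n + 1)
      rw [hG n, h2, mul_inv_cancel_left]

/-- two-sided induction -/
lemma int_ind (Q : ℤ → Prop) (h0 : Q 0) (hs : ∀ t, Q t ↔ Q (t + 1)) (t : ℤ) : Q t := by
  induction t using Int.induction_on with
  | zero => exact h0
  | succ n ih => exact (hs _).mp ih
  | pred n ih =>
    have h1 : -(n : ℤ) = (-(n : ℤ) - 1) + 1 := by ring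
    rw [h1] at ih
    exact (hs _).mpr ih

variable {C : Type} [Fintype C] {Λ : ℚ}

open Classical in
/-- the zone has `p` elements -/
lemma card_zone (W : Wheel C) (p : ℕ) (hp : p ≤ Fintype.card C) (t : ℤ) :
    (W.zone p t).card = p := by
  -- the rank function is a bijection onto `range (card C)`
  set rk : C → ℕ := fun c => (Finset.univ.filter (fun d => W.ab t d c)).card with hrk
  have hlt : ∀ a b, W.ab t a b → rk a < rk b := by
    intro a b hab
    refine Finset.card_lt_card ?_
    refine ⟨?_, ?_⟩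
    · intro d hd
      rw [Finset.mem_filter] at hd ⊢
      exact ⟨Finset.mem_univ _, W.trans t d a b hd.2 hab⟩
    · intro hsub
      have h1 : a ∈ Finset.univ.filter (fun d => W.ab t d b) :=
        Finset.mem_filter.mpr ⟨Finset.mem_univ _, hab⟩
      have h2 := hsub h1
      rw [Finset.mem_filter] at h2
      exact W.irr t a h2.2
  have hinj : Function.Injective rk := by
    intro a b hab
    by_contra hne
    rcases W.tot t a b hne with h | h
    · exact absurd hab (hlt a b h).ne
    · exact absurd hab (hlt b a h).ne'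
  have hbd : ∀ c, rk c < Fintype.card C := by
    intro c
    have h1 : (Finset.univ.filter (fun d => W.ab t d c)) ⊂ Finset.univ := by
      rw [Finset.filter_ssubset]
      exact ⟨c, Finset.mem_univ _, W.irr t c⟩
    exact Finset.card_lt_card h1
  have himg : Finset.univ.image rk = Finset.range (Fintype.card C) := by
    refine Finset.eq_of_subset_of_card_le ?_ ?_
    · intro n hn
      rw [Finset.mem_image] at hn
      obtain ⟨c, _, rfl⟩ := hn
      exact Finset.mem_range.mpr (hbd c)
    · rw [Finset.card_image_of_injective _ hinj, Finset.card_range]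
      exact le_refl _
  have h2 : (W.zone p t).image rk = Finset.range p := by
    ext n
    constructor
    · intro hn
      rw [Finset.mem_image] at hn
      obtain ⟨c, hc, rfl⟩ := hn
      exact Finset.mem_range.mpr (Finset.mem_filter.mp hc).2
    · intro hn
      have hnp := Finset.mem_range.mp hn
      have h3 : n ∈ Finset.univ.image rk := by
        rw [himg]
        exact Finset.mem_range.mpr (lt_of_lt_of_le hnp hp)
      rw [Finset.mem_image] at h3
      obtain ⟨c, _, hc⟩ := h3
      rw [Finset.mem_image]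
      refine ⟨c, Finset.mem_filter.mpr ⟨Finset.mem_univ _, ?_⟩, hc⟩
      change rk c < p
      rw [hc]
      exact hnp
  rw [← Finset.card_image_of_injective _ hinj, h2, Finset.card_range]

lemma zone_per (W : Wheel C) (p : ℕ) (t : ℤ) : W.zone p (t + 2 * W.H) = W.zone p t := by
  have h : ∀ d c, W.ab (t + 2 * W.H) d c = W.ab t d c := fun d c => propext (W.per t d c)
  have h2 : W.ab (t + 2 * W.H) = W.ab t := funext fun d => funext fun c => h d c
  unfold Wheel.zone
  rw [h2]

lemma card_Z (D : WData C Λ) (t : ℤ) : (D.Z t).card = D.p :=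
  card_zone D.toWheel D.p D.p_le t

lemma Z_per (D : WData C Λ) (t : ℤ) : D.Z (t + 2 * D.H) = D.Z t :=
  zone_per D.toWheel D.p t

end StrandAux

open StrandAux in
theorem strands : StrandsStmt := by
  intro C _ Λ D
  classical
  -- permutations as functions of the two sets
  have hex : ∀ A B : Finset C, ∃ σ : Equiv.Perm C, A.card = B.card →
      (∀ c, σ c ∈ B ↔ c ∈ A) ∧ ∀ c, c ∈ A → c ∈ B → σ c = c := by
    intro A B
    by_cases h : A.card = B.card
    · obtain ⟨σ, hσ⟩ := exists_perm A B h
      exact ⟨σ, fun _ => hσ⟩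
    · exact ⟨1, fun h' => absurd h' h⟩
  choose sg hsg using hex
  have hcard : ∀ t, (D.Z t).card = (D.Z (t + 1)).card := by
    intro t
    rw [card_Z, card_Z]
  obtain ⟨P, hP0, hP⟩ := exists_prod (fun t => sg (D.Z t) (D.Z (t + 1)))
  have hPs : ∀ t c, P (t + 1) c = sg (D.Z t) (D.Z (t + 1)) (P t c) := by
    intro t c
    rw [hP t]
    rfl
  have hmem : ∀ c t, (P t c ∈ D.Z t ↔ c ∈ D.Z 0) := by
    intro c
    refine int_ind _ ?_ ?_
    · rw [hP0]
      rfl
    · intro t
      rw [hPs t c, (hsg _ _ (hcard t)).1]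
  have hper : ∀ t, P (t + 2 * D.H) = P t * P (2 * D.H) := by
    refine int_ind _ ?_ ?_
    · rw [hP0, zero_add, one_mul]
    · intro t
      have h1 : t + 1 + 2 * (D.H : ℤ) = (t + 2 * D.H) + 1 := by ring
      have h2 : t + 2 * (D.H : ℤ) + 1 = (t + 1) + 2 * D.H := by ring
      rw [h1, hP (t + 2 * D.H), hP t, Z_per D t, h2, Z_per D (t + 1), mul_assoc]
      exact (mul_right_inj _).symm
  obtain ⟨e⟩ : Nonempty (Fin D.p ≃ (D.Z 0 : Finset C)) := by
    refine ⟨Fintype.equivOfCardEq ?_⟩
    rw [Fintype.card_fin, Fintype.card_coe, card_Z]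
  have hM : ∀ c, c ∈ D.Z 0 → P (2 * D.H) c ∈ D.Z 0 := by
    intro c hc
    have h1 := (hmem c (2 * D.H)).mpr hc
    have h2 := Z_per D 0
    rw [zero_add] at h2
    rwa [h2] at h1
  have hrho : Function.Injective
      (fun a : Fin D.p => e.symm ⟨P (2 * D.H) (e a : C), hM _ (e a).2⟩) := by
    intro a b hab
    have h1 := e.symm.injective hab
    have h2 : P (2 * D.H) (e a : C) = P (2 * D.H) (e b : C) := congrArg Subtype.val h1
    exact e.injective (Subtype.ext ((P (2 * D.H)).injective h2))
  refine ⟨{ L := fun t a => P t (e a : C)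
            ρ := Equiv.ofBijective _ (Finite.injective_iff_bijective.mp hrho)
            inj := ?_, mem := ?_, surj := ?_, step := ?_, per := ?_ }⟩
  · intro t a b hab
    exact e.injective (Subtype.ext ((P t).injective hab))
  · intro t a
    exact (hmem _ t).mpr (e a).2
  · intro t c hc
    have h1 : (P t).symm c ∈ D.Z 0 := by
      rw [← hmem _ t, Equiv.apply_symm_apply]
      exact hc
    refine ⟨e.symm ⟨(P t).symm c, h1⟩, ?_⟩
    rw [Equiv.apply_symm_apply, Equiv.apply_symm_apply]
  · intro t a ha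
    have h1 : P t (e a : C) ∈ D.Z t := (hmem _ t).mpr (e a).2
    rw [hPs]
    exact (hsg _ _ (hcard t)).2 _ h1 ha
  · intro t a
    rw [hper t]
    change P t (P (2 * D.H) (e a : C)) = P t (e (e.symm ⟨P (2 * D.H) (e a : C), hM _ (e a).2⟩) : C)
    rw [Equiv.apply_symm_apply]

end Pool.Agent.Lib.EcW
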